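import Pool.Agent.TH875.Vg.Lift

/-! Derivations of values of forms. -/

set_option autoImplicit false

open FF MvPolynomial
open Pool.Agent.W603.LV Pool.Agent.W603.PV

namespace Pool.Agent.TH875.Vg

variable {n : ℕ}

theorem hom_degree {R : Type*} [CommSemiring R] {f : MvPolynomial (Fin (n + 1)) R} {d : ℕ}
    (hf : f.IsHomogeneous d) {α : Fin (n + 1) →₀ ℕ} (h : f.coeff α ≠ 0) : α.degree = d := by
  have := hf h
  rw [Finsupp.degree_eq_weight_one]
  exact this

section

variable {F L : Type*} [Field F] [Field L] [Algebra F L]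

/-- the part of the derivative of a value that comes from the coefficients -/
noncomputable def cpart (δ : F → L) (x : Fin (n + 1) → L) (f : MvPolynomial (Fin (n + 1)) F) : L :=
  ∑ α ∈ f.support, δ (f.coeff α) * ∏ j, x j ^ α j

theorem cpart_of_subset (δ : F → L) (h0 : δ 0 = 0) (x : Fin (n + 1) → L)
    (f : MvPolynomial (Fin (n + 1)) F) (s : Finset (Fin (n + 1) →₀ ℕ)) (hs : f.support ⊆ s) :
    cpart δ x f = ∑ α ∈ s, δ (f.coeff α) * ∏ j, x j ^ α j := by
  unfold cpart
  refine Finset.sum_subset hs fun α _ hα => ?_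
  rw [notMem_support_iff.1 hα, h0, zero_mul]

theorem cpart_add (δ : F → L) (h0 : δ 0 = 0) (hadd : ∀ a b, δ (a + b) = δ a + δ b)
    (x : Fin (n + 1) → L) (f g : MvPolynomial (Fin (n + 1)) F) :
    cpart δ x (f + g) = cpart δ x f + cpart δ x g := by
  classical
  rw [cpart_of_subset δ h0 x f _ (Finset.subset_union_left (s₂ := g.support)),
    cpart_of_subset δ h0 x g _ (Finset.subset_union_right (s₁ := f.support)),
    cpart_of_subset δ h0 x (f + g) (f.support ∪ g.support) support_add, ← Finset.sum_add_distrib]
  refine Finset.sum_congr rfl fun α _ => ?_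
  rw [coeff_add, hadd]; ring

theorem cpart_mul_X (δ : F → L) (x : Fin (n + 1) → L)
    (f : MvPolynomial (Fin (n + 1)) F) (i : Fin (n + 1)) :
    cpart δ x (f * X i) = cpart δ x f * x i := by
  classical
  unfold cpart
  rw [support_mul_X, Finset.sum_map, Finset.sum_mul]
  refine Finset.sum_congr rfl fun α _ => ?_
  rw [addRightEmbedding_apply, coeff_mul_X, mul_assoc]
  congr 1
  simp only [Finsupp.add_apply, pow_add, Finset.prod_mul_distrib]
  congr 1
  rw [Finset.prod_eq_single i]
  · simp
  · intro j _ hj
    rw [Finsupp.single_eq_of_ne hj, pow_zero]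
  · simp

theorem der_aeval (δ : Derivation ℤ L L) (x : Fin (n + 1) → L)
    (f : MvPolynomial (Fin (n + 1)) F) : δ (aeval x f) =
      cpart (fun a => δ (algebraMap F L a)) x f + ∑ j, aeval x (pderiv j f) * δ (x j) := by
  classical
  induction f using MvPolynomial.induction_on with
  | C a =>
    simp only [aeval_C, pderiv_C, map_zero, zero_mul, Finset.sum_const_zero, add_zero]
    unfold cpart
    by_cases ha : a = 0
    · simp [ha]
    · have h1 : (C a : MvPolynomial (Fin (n + 1)) F).support = {0} := by
        rw [← monomial_zero', support_monomial, if_neg ha]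
      rw [h1]
      simp
  | add p q hp hq =>
    rw [cpart_add _ (by simp) (by simp)]
    simp only [map_add, hp, hq, add_mul, Finset.sum_add_distrib]
    ring
  | mul_X p i hp =>
    rw [cpart_mul_X, map_mul, aeval_X, δ.leibniz, hp]
    have h1 : ∀ j, aeval x (pderiv j (p * X i)) * δ (x j) =
        (aeval x (pderiv j p) * δ (x j)) * x i +
          (if j = i then aeval x p * δ (x i) else 0) := by
      intro j
      rw [Derivation.leibniz, pderiv_X, map_add, smul_eq_mul, smul_eq_mul, map_mul, map_mul,
        aeval_X, Pi.single_apply]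
      by_cases hj : j = i
      · subst hj
        simp only [if_true, map_one]
        ring
      · rw [if_neg (fun h => hj h.symm), if_neg hj, map_zero]
        ring
    rw [Finset.sum_congr rfl fun j _ => h1 j, Finset.sum_add_distrib, ← Finset.sum_mul,
      Finset.sum_ite_eq' Finset.univ i, if_pos (Finset.mem_univ _), smul_eq_mul, smul_eq_mul]
    ring

/-- the derivation of the coefficients -/
noncomputable def cder (D : F → F) (f : MvPolynomial (Fin (n + 1)) F) :
    MvPolynomial (Fin (n + 1)) F := ∑ α ∈ f.support, monomial α (D (f.coeff α))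

theorem aeval_cder (D : F → F) (x : Fin (n + 1) → L) (f : MvPolynomial (Fin (n + 1)) F) :
    aeval x (cder D f) = cpart (fun a => algebraMap F L (D a)) x f := by
  unfold cder cpart
  rw [map_sum]
  refine Finset.sum_congr rfl fun α _ => ?_
  rw [aeval_monomial, Finsupp.prod_fintype _ _ (by simp)]

theorem cder_hom (D : F → F) {f : MvPolynomial (Fin (n + 1)) F} {d : ℕ} (hf : f.IsHomogeneous d) :
    (cder D f).IsHomogeneous d := by
  unfold cder
  refine IsHomogeneous.sum _ _ _ fun α hα => ?_
  exact isHomogeneous_monomial _ (hom_degree hf (mem_support_iff.1 hα))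

theorem cpart_congr {δ δ' : F → L} {x : Fin (n + 1) → L} {f : MvPolynomial (Fin (n + 1)) F}
    (h : ∀ α, δ (f.coeff α) = δ' (f.coeff α)) : cpart δ x f = cpart δ' x f := by
  unfold cpart
  exact Finset.sum_congr rfl fun α _ => by rw [h α]

theorem cpart_mul (δ : F → L) (c : L) (x : Fin (n + 1) → L) (f : MvPolynomial (Fin (n + 1)) F) :
    cpart (fun a => δ a * c) x f = cpart δ x f * c := by
  unfold cpart
  rw [Finset.sum_mul]
  exact Finset.sum_congr rfl fun α _ => by ring

end

/-- the exponents of degree `d` -/
abbrev Expo (n d : ℕ) : Type := ↥((Finset.univ : Finset (Fin (n + 1))).finsuppAntidiag d)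

theorem mem_expo {d : ℕ} (α : Fin (n + 1) →₀ ℕ) :
    α ∈ (Finset.univ : Finset (Fin (n + 1))).finsuppAntidiag d ↔ α.degree = d := by
  rw [Finset.mem_finsuppAntidiag, Finsupp.degree_eq_sum]
  simp

theorem support_sub {R : Type*} [CommSemiring R] {f : MvPolynomial (Fin (n + 1)) R} {d : ℕ}
    (hf : f.IsHomogeneous d) :
    f.support ⊆ (Finset.univ : Finset (Fin (n + 1))).finsuppAntidiag d := by
  intro α hα
  rw [mem_expo]
  exact hom_degree hf (mem_support_iff.1 hα)

theorem aeval_expo {R A : Type*} [CommSemiring R] [CommSemiring A] [Algebra R A]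
    {f : MvPolynomial (Fin (n + 1)) R} {d : ℕ} (hf : f.IsHomogeneous d) (x : Fin (n + 1) → A) :
    aeval x f = ∑ α : Expo n d, algebraMap R A (f.coeff α.1) * ∏ j, x j ^ α.1 j := by
  rw [aeval_def, eval₂_eq', Finset.sum_subset (support_sub hf)]
  · exact (Finset.sum_coe_sort _ (fun α => algebraMap R A (f.coeff α) * ∏ j, x j ^ α j)).symm
  · intro α _ hα
    rw [notMem_support_iff.1 hα, map_zero, zero_mul]

section moving

variable {k F : Type*} [Field k] [Field F] [Algebra k F]

/-- `η` is algebraic over the field generated by `t` over the subfield `k₁`. -/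
def Over1 (k₁ : Subfield k) (t η : F) : Prop :=
  ∃ G : Polynomial (Polynomial k), (∀ i j, (G.coeff i).coeff j ∈ k₁) ∧ E2 t η G = 0 ∧
    E2 t η (Polynomial.derivative G) ≠ 0

theorem E2_map {L : Type*} [Field L] [Algebra k L] [Algebra F L] [IsScalarTower k F L] (t y : F)
    (G : Polynomial (Polynomial k)) :
    E2 (algebraMap F L t) (algebraMap F L y) G = algebraMap F L (E2 t y G) := by
  rw [E2_apply, E2_apply, Polynomial.hom_eval₂]
  congr 1
  ext p
  · simp [← IsScalarTower.algebraMap_apply]
  · simp

theorem Over1.der {k₁ : Subfield k} {t η : F} (h : Over1 k₁ t η) {Dt : Derivation k F F}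
    (hDt : Dt t = 1) {L : Type*} [Field L] [Algebra k L] [Algebra F L] [IsScalarTower k F L]
    {d : Derivation ℤ k k} (hd : ∀ a ∈ k₁, d a = 0) {δ : Derivation ℤ L L} (hδ : IsLift d δ) :
    δ (algebraMap F L η) = algebraMap F L (Dt η) * δ (algebraMap F L t) := by
  obtain ⟨G, hG1, hG2, hG3⟩ := h
  have h1 := hδ.chain (algebraMap F L t) (algebraMap F L η) G
  have h2 : d2 d G = 0 := by
    unfold d2
    refine Finset.sum_eq_zero fun i _ => ?_
    have h3 : dC d (G.coeff i) = 0 := by
      ext j
      rw [dC_coeff, hd _ (hG1 i j), Polynomial.coeff_zero]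
    rw [h3, Polynomial.monomial_zero_right]
  rw [h2, map_zero, zero_add, E2_map, E2_map, E2_map, hG2, map_zero, map_zero] at h1
  have h4 := chain Dt t η G
  rw [hG2, map_zero, hDt, mul_one] at h4
  have h5 : algebraMap F L (E2 t η (dX G)) = -(algebraMap F L (E2 t η (Polynomial.derivative G)) *
      algebraMap F L (Dt η)) := by
    rw [← map_mul, ← map_neg]
    congr 1
    linear_combination -h4
  rw [h5] at h1
  have h6 : algebraMap F L (E2 t η (Polynomial.derivative G)) ≠ 0 := by
    rw [Ne, map_eq_zero]; exact hG3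
  apply mul_left_cancel₀ h6
  linear_combination -h1

theorem toZ_isLift {L : Type*} [Field L] [Algebra k L] (D : Derivation k L L) :
    IsLift (0 : Derivation ℤ k k) (toZ D) := by
  intro c
  rw [toZ_apply, Derivation.map_algebraMap]
  simp

/-- finitely many elements are algebraic over the field generated by `t` over a countable field -/
theorem exists_over1 [CharZero k] [IsFF k F] {t : F} (ht : Transcendental k t) (s : Finset F) :
    ∃ k₁ : Subfield k, Countable k₁ ∧ ∀ η ∈ s, Over1 k₁ t η := by
  classical
  choose G hG hG' using fun η : F => exists_poly (k := k) ht η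
  set T : Finset k := s.biUnion fun η => (G η).support.biUnion fun i =>
    ((G η).coeff i).support.image fun j => ((G η).coeff i).coeff j with hT
  refine ⟨Subfield.closure (T : Set k), ?_, fun η hη => ⟨G η, fun i j => ?_, hG η, hG' η⟩⟩
  · rw [← Cardinal.mk_le_aleph0_iff]
    refine (Subfield.cardinalMk_closure_le_max _).trans (max_le ?_ le_rfl)
    exact Cardinal.mk_le_aleph0_iff.2 (Finset.countable_toSet T)
  · by_cases h1 : ((G η).coeff i).coeff j = 0
    · rw [h1]; exact zero_mem _
    · apply Subfield.subset_closure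
      rw [Finset.mem_coe, hT, Finset.mem_biUnion]
      refine ⟨η, hη, ?_⟩
      rw [Finset.mem_biUnion]
      refine ⟨i, ?_, ?_⟩
      · rw [Polynomial.mem_support_iff]
        intro h2
        rw [h2, Polynomial.coeff_zero] at h1
        exact h1 rfl
      · rw [Finset.mem_image]
        exact ⟨j, Polynomial.mem_support_iff.2 h1, rfl⟩

end moving

end Pool.Agent.TH875.Vg
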