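import Pool.Agent.TH875.Vg.Span

/-! Choice of rows and columns. -/

set_option autoImplicit false

open FF MvPolynomial
open Pool.Agent.W603.LV Pool.Agent.W603.PV

namespace Pool.Agent.TH875.Vg.Sys

open Matrix Module

variable {k F : Type} [Field k] [Field F] [Algebra k F] {n q : ℕ} (S : Sys k F n q)
variable {L : Type} [Field L] [Algebra k L] [Algebra F L]

open Classical in
/-- the forms vanishing at a point -/
noncomputable def Zs (x : Fin (n + 1) → L) : Finset (Fin q) :=
  Finset.univ.filter fun i => aeval x (S.f i) = 0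

theorem mem_Zs (x : Fin (n + 1) → L) (i : Fin q) : i ∈ S.Zs x ↔ aeval x (S.f i) = 0 := by
  unfold Zs; simp

/-- a row -/
noncomputable def row (x : Fin (n + 1) → L) : Fin q ⊕ O n → (O n → L) :=
  Sum.elim (S.R x) fun o => Pi.single o 1

/-- the rows are those of `I`, without those of `Z`, and coordinates -/
def Adapted {A : Type} (Z I : Finset (Fin q)) (σ : A → Fin q ⊕ O n) : Prop :=
  (∀ a i, σ a = Sum.inl i → i ∈ I ∧ i ∉ Z) ∧ ∀ i ∈ I, i ∉ Z → ∃ a, σ a = Sum.inl i

theorem exists_rows {A : Type} [Fintype A] {x : Fin (n + 1) → L} {Z I : Finset (Fin q)}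
    (hZI : Z ⊆ I) (hI : LinearIndepOn L (S.R x) (I : Set (Fin q)))
    (hA : Z.card + Fintype.card A = n + 2) :
    ∃ σ : A → Fin q ⊕ O n, Adapted Z I σ ∧
      LinearIndependent L (Sum.elim (fun z : Z => S.R x z) fun a => S.row x (σ a)) := by
  classical
  set s : Set (Fin q ⊕ O n) := Sum.inl '' (I : Set (Fin q)) with hs
  set t : Set (Fin q ⊕ O n) := s ∪ Set.range Sum.inr with ht
  have hli : LinearIndepOn L (S.row x) s := by
    rw [hs]
    exact LinearIndepOn.image_of_comp Sum.inl (S.row x) hI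
  have hspan : Submodule.span L (S.row x '' t) = ⊤ := by
    rw [eq_top_iff, ← (Pi.basisFun L (O n)).span_eq]
    refine Submodule.span_mono ?_
    rintro _ ⟨o, rfl⟩
    refine ⟨Sum.inr o, Or.inr ⟨o, rfl⟩, ?_⟩
    simp [row]
  obtain ⟨σ, h1, h2, h3, h4⟩ := exists_choice (A := A) (S.row x)
    (fun z : Z => (Sum.inl (z : Fin q) : Fin q ⊕ O n))
    (fun a b h => Subtype.ext (Sum.inl_injective h)) s t
    (fun z => ⟨z, hZI z.2, rfl⟩) Set.subset_union_left hli (by
      rw [hspan, finrank_top, Module.finrank_fintype_fun_eq_card, Fintype.card_option,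
        Fintype.card_fin, Fintype.card_coe]
      omega)
  refine ⟨σ, ⟨fun a i hi => ?_, fun i hi hiZ => ?_⟩, ?_⟩
  · constructor
    · rcases h1 a with h | h
      · rw [hi] at h
        obtain ⟨i', hi', e⟩ := h
        rw [← Sum.inl_injective e]
        exact hi'
      · rw [hi] at h
        obtain ⟨o, e⟩ := h
        exact absurd e (by simp)
    · intro hiZ
      exact h2 a ⟨i, hiZ⟩ hi
  · exact h3 (Sum.inl i) ⟨i, hi, rfl⟩ fun y e => hiZ (by rw [← Sum.inl_injective e]; exact y.2)
  · have e : (Sum.elim (fun z : Z => S.R x z) fun a => S.row x (σ a)) = S.row x ∘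
        Sum.elim (fun z : Z => (Sum.inl (z : Fin q) : Fin q ⊕ O n)) σ := by
      funext a
      rcases a with a | a <;> rfl
    rw [e]
    exact h4

/-- Independence of the gradients. -/
theorem li_R [IsScalarTower k F L] {x : Fin (n + 1) → L} (hx : ∃ j, x j ≠ 0)
    (hl : ∀ p, ∃ δ : Derivation ℤ L L, IsLift (S.dd p) δ) (I : Finset (Fin q))
    (hI : ∀ i ∈ I, aeval x (S.f i) = 0) : LinearIndepOn L (S.R x) (I : Set (Fin q)) := by
  classical
  obtain ⟨j0, hj0⟩ := hx
  rw [linearIndepOn_finset_iff]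
  intro g hg i hi
  obtain ⟨δ, hδ⟩ := hl ⟨i, S.pw i j0⟩
  have h1 := congrArg (fun v => v ⬝ᵥ S.vec δ x) hg
  simp only [sum_dotProduct, zero_dotProduct] at h1
  have h2 : ∀ i' ∈ I, (g i' • S.R x i') ⬝ᵥ S.vec δ x =
      if i' = i then - (g i * x j0 ^ S.d i) else 0 := by
    intro i' hi'
    rw [smul_dotProduct, S.dot_vec hδ, hI i' hi', map_zero, zero_sub]
    by_cases h : i' = i
    · subst h
      rw [if_pos rfl, if_pos rfl, mon_pw, smul_eq_mul, mul_neg]
    · rw [if_neg h, if_neg (fun h' => h h'.symm), neg_zero, smul_zero]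
  rw [Finset.sum_congr rfl h2, Finset.sum_ite_eq' I i, if_pos hi, neg_eq_zero, mul_eq_zero] at h1
  exact h1.resolve_right (pow_ne_zero _ hj0)

/-- all columns -/
noncomputable def ucol {m : ℕ} (D : Derivation k L L) (δ : S.Idx → Derivation ℤ L L)
    (x : Fin (n + 1) → L) (c : Fin m → Col n q S.d) : Fin 2 ⊕ Fin m → (O n → L) :=
  Sum.elim ![ext0 x, S.vec (toZ D) x] fun a => S.col δ x (c a)

/-- the matrix of the columns -/
noncomputable def U {m : ℕ} (D : Derivation k L L) (δ : S.Idx → Derivation ℤ L L)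
    (x : Fin (n + 1) → L) (c : Fin m → Col n q S.d) : Matrix (O n) (Fin 2 ⊕ Fin m) L :=
  Matrix.of fun o a => S.ucol D δ x c a o

theorem dot_ucol [IsScalarTower k F L] {m : ℕ} {D : Derivation k L L}
    {δ : S.Idx → Derivation ℤ L L} (hδ : ∀ p, IsLift (S.dd p) (δ p)) {x : Fin (n + 1) → L}
    {i : Fin q} (hi : aeval x (S.f i) = 0) (c : Fin m → Col n q S.d) (a : Fin 2 ⊕ Fin m) :
    S.R x i ⬝ᵥ S.ucol D δ x c a = 0 := by
  rcases a with a | a
  · fin_cases a
    · change S.R x i ⬝ᵥ ext0 x = 0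
      rw [dot_ext0, euler, hi, mul_zero]
    · change S.R x i ⬝ᵥ S.vec (toZ D) x = 0
      rw [S.dot_D, hi, map_zero]
  · change S.R x i ⬝ᵥ S.col δ x (c a) = 0
    obtain ⟨ε, _, h⟩ := S.dot_col hδ x (c a) i
    rw [h, hi, mul_zero, sub_zero]
    exact Finset.sum_eq_zero fun p _ => by rw [map_zero, mul_zero]

theorem RZ_mul_U [IsScalarTower k F L] {m : ℕ} {D : Derivation k L L}
    {δ : S.Idx → Derivation ℤ L L} (hδ : ∀ p, IsLift (S.dd p) (δ p)) {x : Fin (n + 1) → L}
    (c : Fin m → Col n q S.d) {Z : Finset (Fin q)} (hZ : ∀ i ∈ Z, aeval x (S.f i) = 0) :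
    (Matrix.of fun z : Z => S.R x z) * S.U D δ x c = 0 := by
  ext z a
  rw [Matrix.mul_apply, Matrix.zero_apply]
  exact S.dot_ucol hδ (hZ z z.2) c a

/-- Choice of the columns. -/
theorem exists_cols [IsScalarTower k F L] {D : Derivation k L L}
    (hDt : D (algebraMap F L S.t) ≠ 0) {δ : S.Idx → Derivation ℤ L L}
    (hδ : ∀ p, IsLift (S.dd p) (δ p)) {x : Fin (n + 1) → L} (hx : ∃ j, x j ≠ 0) :
    ∃ (m : ℕ) (c : Fin m → Col n q S.d), (S.Zs x).card + m = n ∧
      LinearIndependent L (S.ucol D δ x c) := by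
  classical
  set v : Fin 2 ⊕ Col n q S.d → (O n → L) :=
    Sum.elim ![ext0 x, S.vec (toZ D) x] (S.col δ x) with hv
  set RZ : Matrix (S.Zs x) (O n) L := Matrix.of fun z : S.Zs x => S.R x z with hRZ
  have hker : Submodule.span L (v '' Set.univ) = LinearMap.ker RZ.mulVecLin := by
    apply le_antisymm
    · rw [Submodule.span_le]
      rintro _ ⟨a, _, rfl⟩
      rw [SetLike.mem_coe, LinearMap.mem_ker, Matrix.mulVecLin_apply]
      funext z
      have hz : aeval x (S.f z) = 0 := (S.mem_Zs x z).1 z.2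
      change S.R x z ⬝ᵥ v a = 0
      rcases a with a | a
      · exact S.dot_ucol (m := 0) (D := D) hδ hz Fin.elim0 (Sum.inl a)
      · exact S.dot_ucol (m := 1) (D := D) hδ hz (fun _ => a) (Sum.inr 0)
    · intro y hy
      have hy' : ∀ i, aeval x (S.f i) = 0 → S.R x i ⬝ᵥ y = 0 := by
        intro i hi
        exact congrFun (LinearMap.mem_ker.1 hy) ⟨i, (S.mem_Zs x i).2 hi⟩
      have h1 := S.mem_E hDt δ hx y hy'
      refine Submodule.span_mono ?_ h1
      rintro _ (h | ⟨c, rfl⟩)
      · rw [Set.mem_singleton_iff] at h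
        exact ⟨Sum.inl 1, trivial, by rw [h]; rfl⟩
      · exact ⟨Sum.inr c, trivial, rfl⟩
  have hli := S.li_R hx (fun p => ⟨δ p, hδ p⟩) (S.Zs x) (fun i hi => (S.mem_Zs x i).1 hi)
  have hrank : Module.finrank L (LinearMap.ker RZ.mulVecLin) + (S.Zs x).card = n + 2 := by
    have h1 := LinearMap.finrank_range_add_finrank_ker RZ.mulVecLin
    have h2 : RZ.rank = (S.Zs x).card := by
      have h3 : LinearIndependent L RZ.row := hli
      rw [h3.rank_matrix, Fintype.card_coe]
    unfold Matrix.rank at h2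
    rw [h2, Module.finrank_fintype_fun_eq_card, Fintype.card_option, Fintype.card_fin] at h1
    omega
  have hli1 : LinearIndependent L ![ext0 x, S.vec (toZ D) x] := by
    rw [LinearIndependent.pair_iff]
    intro a b hab
    have h1 := congrFun hab none
    simp only [Pi.add_apply, Pi.smul_apply, ext0, vec, Option.elim, smul_eq_mul, mul_zero, zero_add,
      toZ_apply, Pi.zero_apply] at h1
    have hb : b = 0 := (mul_eq_zero.1 h1).resolve_right hDt
    obtain ⟨j, hj⟩ := hx
    have h2 := congrFun hab (some j)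
    rw [hb] at h2
    simp only [Pi.add_apply, Pi.smul_apply, ext0, Option.elim, smul_eq_mul, zero_mul, add_zero,
      Pi.zero_apply] at h2
    exact ⟨(mul_eq_zero.1 h2).resolve_right hj, hb⟩
  have hli2 : LinearIndepOn L v (Set.range Sum.inl) := by
    rw [linearIndepOn_range_iff Sum.inl_injective]
    exact hli1
  have hle : 2 ≤ Module.finrank L (LinearMap.ker RZ.mulVecLin) := by
    have h1 := finrank_span_eq_card hli1
    rw [Fintype.card_fin] at h1
    have h2 : Submodule.span L (Set.range ![ext0 x, S.vec (toZ D) x]) ≤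
        LinearMap.ker RZ.mulVecLin := by
      rw [← hker]
      refine Submodule.span_mono ?_
      rintro _ ⟨a, rfl⟩
      exact ⟨Sum.inl a, trivial, rfl⟩
    have h3 := Submodule.finrank_mono h2
    omega
  obtain ⟨m, hm⟩ : ∃ m, (S.Zs x).card + m = n := ⟨n - (S.Zs x).card, by omega⟩
  obtain ⟨σ, _, h2, _, h4⟩ := exists_choice (A := Fin m) v (Sum.inl : Fin 2 → _)
    Sum.inl_injective (Set.range Sum.inl) Set.univ (fun a => ⟨a, rfl⟩) (Set.subset_univ _) hli2 (by
      rw [hker, Fintype.card_fin, Fintype.card_fin]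
      omega)
  have h5 : ∀ a, ∃ c, σ a = Sum.inr c := by
    intro a
    rcases h : σ a with b | b
    · exact absurd h (h2 a b)
    · exact ⟨b, rfl⟩
  choose c hc using h5
  refine ⟨m, c, hm, ?_⟩
  have e : S.ucol D δ x c = v ∘ Sum.elim Sum.inl σ := by
    funext a
    rcases a with a | a
    · rfl
    · simp only [Function.comp, Sum.elim_inr, hc, hv, ucol]
  rw [e]
  exact h4

end Pool.Agent.TH875.Vg.Sys
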