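import Pool.Agent.TH875.Vg.FinV

/-! Constant forms: change of the variable. -/

set_option autoImplicit false

open FF MvPolynomial
open Pool.Agent.W603.LV Pool.Agent.W603.PV

namespace Pool.Agent.TH875.Vg

open Matrix Module

variable {k F : Type} [Field k] [Field F] [Algebra k F] {n q : ℕ}

/-- the same forms with constant coefficients, with another variable -/
abbrev Sys.withT (S : Sys k F n q) (h0 : ∀ i, S.ft i = 0) (t' : F)
    (ht' : Transcendental k t') : Sys k F n q :=
  { S with
    t := t'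
    tr := ht'
    key := by
      intro L _ _ _ _ p δ hδ x i
      have h1 := S.key L p δ hδ x i
      rw [h0 i, map_zero, zero_mul] at h1 ⊢
      exact h1
    keyD := by
      intro L _ _ _ _ D x i
      have h1 := S.keyD L D x i
      rw [h0 i, map_zero, zero_mul] at h1 ⊢
      exact h1 }

/-- the change of the first entry -/
def scl {L : Type} [Field L] (θ : L) : (O n → L) →ₗ[L] (O n → L) where
  toFun v := fun o => o.elim (θ * v none) fun j => v (some j)
  map_add' v w := by
    funext o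
    rcases o with _ | o
    · simp [mul_add]
    · rfl
  map_smul' c v := by
    funext o
    rcases o with _ | o
    · simp only [Option.elim, Pi.smul_apply, smul_eq_mul, RingHom.id_apply]
      ring
    · rfl

theorem scl_none {L : Type} [Field L] (θ : L) (v : O n → L) : scl θ v none = θ * v none := rfl

theorem scl_some {L : Type} [Field L] (θ : L) (v : O n → L) (j : Fin (n + 1)) :
    scl θ v (some j) = v (some j) := rfl

theorem scl_ext0 {L : Type} [Field L] (θ : L) (x : Fin (n + 1) → L) :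
    scl θ (Sys.ext0 x) = Sys.ext0 x := by
  funext o
  rcases o with _ | o
  · rw [scl_none]; simp [Sys.ext0]
  · rfl

variable (S : Sys k F n q) (h0 : ∀ i, S.ft i = 0) (ht' : Transcendental k (S.t)⁻¹)
variable {L : Type} [Field L] [Algebra k L] [Algebra F L]

theorem withT_vec (δ : Derivation ℤ L L) (x : Fin (n + 1) → L) :
    (S.withT h0 (S.t)⁻¹ ht').vec δ x =
      scl (-(algebraMap F L S.t)⁻¹ ^ 2) (S.vec δ x) := by
  funext o
  rcases o with _ | o
  · rw [scl_none]
    change δ (algebraMap F L (S.t)⁻¹) = _ * δ (algebraMap F L S.t)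
    rw [map_inv₀, δ.leibniz_inv, smul_eq_mul]
  · rfl

omit [Algebra k L] in
theorem withT_co (x : Fin (n + 1) → L) (c : Col n q S.d) (p : S.Idx) :
    (S.withT h0 (S.t)⁻¹ ht').co x c p = S.co x c p := by
  rcases c with ⟨a, b⟩ | ⟨i, β, a, b⟩ | i
  · rfl
  · rfl
  · rfl

omit [Algebra k L] [Algebra F L] in
theorem withT_ex (x : Fin (n + 1) → L) (c : Col n q S.d) :
    (S.withT h0 (S.t)⁻¹ ht').ex x c = S.ex x c := by
  rcases c with ⟨a, b⟩ | ⟨i, β, a, b⟩ | i
  · rfl
  · rfl
  · rfl

theorem withT_col (δ : S.Idx → Derivation ℤ L L) (x : Fin (n + 1) → L) (c : Col n q S.d) :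
    (S.withT h0 (S.t)⁻¹ ht').col δ x c =
      scl (-(algebraMap F L S.t)⁻¹ ^ 2) (S.col δ x c) := by
  unfold Sys.col
  rw [map_add, map_sum, scl_ext0, withT_ex]
  congr 1
  refine Finset.sum_congr rfl fun p _ => ?_
  rw [map_smul, ← withT_vec S h0 ht', withT_co]

theorem withT_ucol {m : ℕ} (D : Derivation k L L) (δ : S.Idx → Derivation ℤ L L)
    (x : Fin (n + 1) → L) (c : Fin m → Col n q S.d) (b : Fin 2 ⊕ Fin m) :
    (S.withT h0 (S.t)⁻¹ ht').ucol D δ x c b =
      scl (-(algebraMap F L S.t)⁻¹ ^ 2) (S.ucol D δ x c b) := by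
  rcases b with b | b
  · fin_cases b
    · exact (scl_ext0 _ _).symm
    · exact withT_vec S h0 ht' _ _
  · exact withT_col S h0 ht' δ x (c b)

theorem withT_bas {m : ℕ} (Z : Finset (Fin q)) (D : Derivation k L L)
    (δ : S.Idx → Derivation ℤ L L) (x : Fin (n + 1) → L) (j : Fin (n + 1))
    (c : Fin m → Col n q S.d) (b : Z ⊕ (Fin 2 ⊕ Fin m)) :
    (S.withT h0 (S.t)⁻¹ ht').bas Z D δ x j c b =
      scl (-(algebraMap F L S.t)⁻¹ ^ 2) (S.bas Z D δ x j c b) := by
  rcases b with b | b
  · change (S.withT h0 (S.t)⁻¹ ht').th δ x j b = scl _ (S.th δ x j b)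
    unfold Sys.th
    rw [map_smul, ← withT_vec S h0 ht']
    rfl
  · exact withT_ucol S h0 ht' D δ x c b

theorem withT_EB (D : Derivation k L L) (δ : S.Idx → Derivation ℤ L L)
    (x : Fin (n + 1) → L) :
    (S.withT h0 (S.t)⁻¹ ht').EB D δ x =
      (S.EB D δ x).map (scl (-(algebraMap F L S.t)⁻¹ ^ 2)) := by
  unfold Sys.EB
  rw [Submodule.map_span, Set.image_union, Set.image_pair, ← withT_vec S h0 ht', scl_ext0,
    Set.image_image]
  congr 2
  exact Set.image_congr fun c _ => withT_col S h0 ht' δ x c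

/-- the determinants -/
theorem det_cons {β : Type} [Fintype β] [DecidableEq β] {N : ℕ} (eqv : β ≃ Fin (N + 1))
    (ba : β → O n → L) (w0 : O n → L) (u : Fin N → Fin (n + 1) → L) (G : β → Fin (N + 1) → L)
    (hG : ∀ b, ∑ i, G b i • (Fin.cons w0 (fun i => Sys.ext0 (u i)) : Fin (N + 1) → O n → L) i =
      ba b) (σ : Fin N → Fin (n + 1)) :
    (Matrix.of fun a b => ba b ((Fin.cons none (fun a => some (σ a)) : Fin (N + 1) → O n)
      (eqv a))).det =
      w0 none * (Matrix.of fun i j => G (eqv.symm j) i).det * mins u σ := by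
  obtain ⟨vb, hvb⟩ : ∃ vb : Fin (N + 1) → O n → L,
      vb = Fin.cons w0 (fun i => Sys.ext0 (u i)) := ⟨_, rfl⟩
  obtain ⟨G', hG'⟩ : ∃ G' : Matrix (Fin (N + 1)) (Fin (N + 1)) L,
      G' = Matrix.of fun i j => G (eqv.symm j) i := ⟨_, rfl⟩
  obtain ⟨rw', hrw⟩ : ∃ rw' : Fin (N + 1) → O n,
      rw' = Fin.cons none (fun a => some (σ a)) := ⟨_, rfl⟩
  rw [← hvb] at hG
  rw [← hG', ← hrw]
  obtain ⟨E, hE⟩ : ∃ E : Matrix (Fin (N + 1)) (Fin (N + 1)) L,
    E = Matrix.of fun o i => vb i (rw' o) := ⟨_, rfl⟩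
  have h1 : (Matrix.of fun a b => ba b (rw' (eqv a))) = (E * G').submatrix eqv eqv := by
    ext a b
    rw [Matrix.submatrix_apply, Matrix.mul_apply, Matrix.of_apply]
    rw [← hG b, Finset.sum_apply, hE, hG']
    refine Finset.sum_congr rfl fun i _ => ?_
    rw [Pi.smul_apply, smul_eq_mul, Matrix.of_apply, Matrix.of_apply, Equiv.symm_apply_apply]
    ring
  have h2 : E.det = w0 none * mins u σ := by
    rw [Matrix.det_succ_row_zero, Finset.sum_eq_single 0]
    · have h3 : E.submatrix Fin.succ (Fin.succAbove 0) =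
          (Matrix.of fun i a => u i (σ a))ᵀ := by
        ext a i
        rw [hE, hvb, hrw]
        simp [Sys.ext0]
      rw [h3, Matrix.det_transpose, hE, hvb, hrw]
      simp [mins]
    · intro i _ hi
      obtain ⟨i', rfl⟩ := Fin.exists_succ_eq.2 hi
      rw [hE, hvb, hrw]
      simp [Sys.ext0]
    · simp
  rw [h1, Matrix.det_submatrix_equiv_self, Matrix.det_mul, h2]
  ring

/-- the loss for constant forms -/
theorem loss_const [IsScalarTower k F L]
    (hc : ∀ i α, ∃ c : k, (S.f i).coeff α = algebraMap k F c)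
    (P : Place k L) (hP : 0 ≤ P.ord (algebraMap F L S.t)) :
    Sys.loss (Hyp.empty S).PPof P = 0 := by
  classical
  have hk : ∀ c : k, P.ord (algebraMap F L (algebraMap k F c)) = 0 := by
    intro c
    rw [← IsScalarTower.algebraMap_apply]
    by_cases h : c = 0
    · rw [h, map_zero, P.ord_zero]
    · exact P.ord_const h
  unfold Sys.loss
  refine Finset.sum_eq_zero fun g hg => Finset.sum_eq_zero fun α _ => ?_
  have h1 : 0 ≤ P.ord (algebraMap F L (g.coeff α)) := by
    unfold Hyp.PPof at hg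
    rw [Finset.mem_union, Finset.mem_union, Finset.mem_union] at hg
    rcases hg with (hg | hg) | (hg | hg)
    · obtain ⟨i, -, rfl⟩ := Finset.mem_image.1 hg
      obtain ⟨c, hc1⟩ := hc i α
      rw [hc1, hk]
    · obtain ⟨⟨i, b', c'⟩, -, rfl⟩ := Finset.mem_image.1 hg
      simp only
      rw [coeff_X_mul']
      split_ifs with hb
      · rw [coeff_pderiv]
        obtain ⟨c, hc1⟩ := hc i (α - Finsupp.single b' 1 + Finsupp.single c' 1)
        rw [hc1]
        have h2 := hk (c * ((((α - Finsupp.single b' 1 : Fin (n + 1) →₀ ℕ) c' : ℕ) : k) + 1))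
        rw [map_mul, map_add, map_natCast, map_one] at h2
        rw [h2]
      · rw [map_zero, P.ord_zero]
    · rw [Finset.mem_singleton] at hg
      rw [hg, coeff_C]
      split_ifs
      · exact hP
      · rw [map_zero, P.ord_zero]
    · obtain ⟨⟨j, _⟩, -, -⟩ := Finset.mem_image.1 hg
      exact j.elim0
  rw [max_eq_right (by omega)]

end Pool.Agent.TH875.Vg
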