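import Pool.Agent.TH875.Vg.MainU

/-! The height inequality for varieties with a finite projection. -/

set_option autoImplicit false

open FF MvPolynomial
open Pool.Agent.W603.LV Pool.Agent.W603.PV

namespace Pool.Agent.TH875.Vg.Hyp

open Matrix Module Sys

variable {k F : Type} [Field k] [Field F] [Algebra k F] {n q b m : ℕ} {S : Sys k F n q}
  (H : Hyp S b) {p : Fin (m + 1) → Fin (n + 1) → F} {A : Fin b → Fin (m + 1) → F}

section

variable {L : Type} [Field L] [Algebra k L] [Algebra F L]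

/-- the differentials of the hyperplanes in terms of the projection -/
theorem dell_pj (hlam : ∀ j c, H.lam j c = ∑ i, A j i * p i c) (x : Fin (n + 1) → L) (j : Fin b)
    (v : O n → L) : H.dell x j v = (∑ c, algebraMap F L (H.mu j c) * x c) * pj L p v none +
      ∑ i, algebraMap F L (A j i) * pj L p v (some i) := by
  rw [dell_apply]
  congr 1
  change _ = ∑ i, algebraMap F L (A j i) * ∑ c, algebraMap F L (p i c) * v (some c)
  simp only [hlam, map_sum, map_mul, Finset.sum_mul, Finset.mul_sum]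
  rw [Finset.sum_comm]
  exact Finset.sum_congr rfl fun i _ => Finset.sum_congr rfl fun c _ => by ring

omit [Algebra k L] in
theorem ell_pj (hlam : ∀ j c, H.lam j c = ∑ i, A j i * p i c) (x : Fin (n + 1) → L) (j : Fin b) :
    H.ell x j = ∑ i, algebraMap F L (A j i) * lv (p i) x := by
  unfold ell lv
  simp only [hlam, map_sum, map_mul, Finset.sum_mul, Finset.mul_sum]
  rw [Finset.sum_comm]
  exact Finset.sum_congr rfl fun i _ => Finset.sum_congr rfl fun c _ => by ring

theorem finrank_add_leU [IsScalarTower k F L] (hlam : ∀ j c, H.lam j c = ∑ i, A j i * p i c)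
    {x : Fin (n + 1) → L} (hinj : ∀ v ∈ S.V x, pj L p v = 0 → v = 0) {J : Finset (Fin b)}
    (hJ : ∀ j ∈ J, H.ell x j = 0) (hli : LinearIndependent F (fun j : J => A j)) :
    finrank L (S.V x) + J.card ≤ m + 2 := by
  rw [← finrank_pj hinj]
  have h1 := bound_V hli (fun j : J => ∑ c, algebraMap F L (H.mu j c) * x c)
    (K := (S.V x).map (pj L p)) (by
      rintro _ ⟨v, hv, rfl⟩ i
      rw [← H.dell_pj hlam]
      exact H.dell_zero (hJ i i.2) hv)
  rwa [Fintype.card_coe] at h1

end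

variable [CharZero k] [IsAlgClosed k] [IsFF k F]

open Classical in
theorem core1U (hlam : ∀ j c, H.lam j c = ∑ i, A j i * p i c) (hb : b ≤ m + 1)
    (hA : ∀ s : Finset (Fin b), s.card ≤ m + 1 → LinearIndependent F (fun j : s => A j))
    {L : Type} [Field L] [Algebra k L] [Algebra F L]
    [IsScalarTower k F L] [FiniteDimensional F L] (x : Fin (n + 1) → L) (hx : ∃ j, x j ≠ 0)
    (hpx : ∃ i, lv (p i) x ≠ 0) (hinj : ∀ v ∈ S.V x, pj L p v = 0 → v = 0) :
    (H.mt k x).Finite ∧
    (∑ i, (S.d i : ℤ) + b - 2 * m - 1 + (S.Zs x).card +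
      (Finset.univ.filter fun j => H.ell x j = 0).card) * pht k x ≤
      canDeg k L + (H.mt k x).ncard +
        ((3 * (n + 2) + q) * hsum k H.PPof) * Module.finrank F L := by
  obtain ⟨J0, hJ0d⟩ : ∃ J0, J0 = Finset.univ.filter fun j => H.ell x j = 0 := ⟨_, rfl⟩
  have hJ0 : ∀ j ∈ J0, H.ell x j = 0 := by
    intro j hj
    rw [hJ0d] at hj
    exact (Finset.mem_filter.1 hj).2
  have hJc : J0.card ≤ m := card_zero_le hA hpx fun j hj => by
    rw [← H.ell_pj hlam]
    exact hJ0 j hj
  rw [← hJ0d]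
  have hV := H.finrank_add_leU hlam hinj hJ0 (hA J0 (by omega))
  have h1 := H.main_H x hx (m := m - J0.card) (c' := m + 1 - b) (by
    refine (Nat.le_sub_of_add_le hV).trans ?_
    omega) (by
    intro K' hK'
    have hu : (Finset.univ : Finset (Fin b)).card ≤ m + 1 := by
      rw [Finset.card_univ, Fintype.card_fin]; exact hb
    rw [← finrank_pj (p := p) (K := K') fun v hv => hinj v (hK' v hv).1]
    have h2 := bound_K (hA Finset.univ hu) (K := K'.map (pj L p)) (by
      rintro _ ⟨v, hv, rfl⟩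
      obtain ⟨-, h3, h4⟩ := hK' v hv
      refine ⟨h3, fun i => ?_⟩
      have h5 := h4 i
      have h6 : pj L p v none = 0 := h3
      rw [H.dell_pj hlam, h6, mul_zero, zero_add] at h5
      exact h5)
    rw [Fintype.card_coe, Finset.card_univ, Fintype.card_fin] at h2
    exact Nat.le_sub_of_add_le h2)
  refine ⟨h1.1, ?_⟩
  have h2 := h1.2
  rw [Nat.cast_sub hJc, Nat.cast_sub hb] at h2
  push_cast at h2
  have h3 : (∑ i, (S.d i : ℤ) + b - 2 * m - 1 + (S.Zs x).card + J0.card) =
      (∑ i, (S.d i : ℤ) - (m + 1 - b) - (m - J0.card) + (S.Zs x).card) := by ring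
  rw [h3]
  exact h2

open Classical in
theorem core2U (hlam : ∀ j c, H.lam j c = ∑ i, A j i * p i c) (hb : b = m + 2)
    (hA : ∀ s : Finset (Fin b), s.card ≤ m + 1 → LinearIndependent F (fun j : s => A j))
    (a : Fin b → F) (ha : ∀ j, a j ≠ 0) (hrel : ∀ e, ∑ j, a j * A j e = 0)
    (Mm : Fin (m + 1) → Fin b → F)
    (hMm : ∀ e e', ∑ j, Mm e j * A j e' = if e = e' then 1 else 0)
    (E : Finset F) (hE1 : ∀ j, a j ∈ E) (hE2 : ∀ j, (a j)⁻¹ ∈ E) (hE3 : ∀ e j, Mm e j ∈ E)
    {L : Type} [Field L] [Algebra k L] [Algebra F L]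
    [IsScalarTower k F L] [FiniteDimensional F L] (x : Fin (n + 1) → L) (hx : ∃ j, x j ≠ 0)
    (hpx : ∃ i, lv (p i) x ≠ 0) (hinj : ∀ v ∈ S.V x, pj L p v = 0 → v = 0)
    (hΦ : ∀ c, ∃ (N : ℕ) (Φ : MvPolynomial (Fin (m + 2)) F), Φ.IsHomogeneous N ∧
      Φ.coeff (Finsupp.single 0 N) = 1 ∧ aeval (fun j => lv (cp c p j) x) Φ = 0 ∧
      ∀ α ∈ Φ.support, Φ.coeff α ∈ E) :
    (H.mt k x).Finite ∧
    (∑ i, (S.d i : ℤ) + b - 2 * m - 1 + (S.Zs x).card +
      (Finset.univ.filter fun j => H.ell x j = 0).card) * pht k x ≤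
      canDeg k L + (H.mt k x).ncard +
        ((3 * (n + 4) + q) * hsum k (H.PPu E)) * Module.finrank F L := by
  obtain ⟨J0, hJ0d⟩ : ∃ J0, J0 = Finset.univ.filter fun j => H.ell x j = 0 := ⟨_, rfl⟩
  have hJ0 : ∀ j, j ∈ J0 ↔ H.ell x j = 0 := by
    intro j
    rw [hJ0d, Finset.mem_filter]
    exact ⟨fun h => h.2, fun h => ⟨Finset.mem_univ _, h⟩⟩
  have hJc : J0.card ≤ m := card_zero_le hA hpx fun j hj => by
    rw [← H.ell_pj hlam]
    exact (hJ0 j).1 hj
  rw [← hJ0d]
  have hV := H.finrank_add_leU hlam hinj (fun j hj => (hJ0 j).1 hj) (hA J0 (by omega))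
  have h2V := two_le_finrank S hx
  have hbz : (b : ℤ) = m + 2 := by exact_mod_cast hb
  have hinv : ∀ (y : Fin (m + 1) → L) (e : Fin (m + 1)), y e =
      ∑ j, algebraMap F L (Mm e j) * ∑ i, algebraMap F L (A j i) * y i := by
    intro y e1
    simp only [Finset.mul_sum]
    rw [Finset.sum_comm]
    have h3 : ∀ e, ∑ j, algebraMap F L (Mm e1 j) * (algebraMap F L (A j e) * y e) =
        algebraMap F L (∑ j, Mm e1 j * A j e) * y e := by
      intro e
      rw [map_sum, Finset.sum_mul]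
      exact Finset.sum_congr rfl fun j _ => by rw [map_mul]; ring
    rw [Finset.sum_congr rfl fun e _ => h3 e, Finset.sum_eq_single e1]
    · rw [hMm, if_pos rfl, map_one, one_mul]
    · intro e _ he
      rw [hMm, if_neg he.symm, map_zero, zero_mul]
    · simp
  have hinj' : ∀ v ∈ S.V x, v none = 0 → (∀ j, H.dell x j v = 0) → v = 0 := by
    intro v hvV hv hj
    refine hinj v hvV ?_
    have h5 : ∀ j, ∑ i, algebraMap F L (A j i) * pj L p v (some i) = 0 := by
      intro j
      have h5 := hj j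
      have h6 : pj L p v none = 0 := hv
      rw [H.dell_pj hlam, h6, mul_zero, zero_add] at h5
      exact h5
    funext o
    rcases o with _ | e1
    · exact hv
    · have h6 := hinv (fun i => pj L p v (some i)) e1
      rw [h6]
      exact Finset.sum_eq_zero fun j _ => by rw [h5, mul_zero]
  have hrel' : ∀ c, ∑ j, a j * H.lam j c = 0 := by
    intro c
    simp only [hlam, Finset.mul_sum]
    rw [Finset.sum_comm]
    refine Finset.sum_eq_zero fun i _ => ?_
    have h1 : ∑ j, a j * (A j i * p i c) = (∑ j, a j * A j i) * p i c := by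
      rw [Finset.sum_mul]
      exact Finset.sum_congr rfl fun j _ => by ring
    rw [h1, hrel, zero_mul]
  have hJ0b : (Finset.univ \ J0).card = (m - J0.card) + 2 := by
    rw [Finset.card_sdiff_of_subset (Finset.subset_univ _), Finset.card_univ, Fintype.card_fin]
    omega
  have hc : ∀ (P : Place k L) (η : F), η ∈ E → Ge P (-loss (H.PPu E) P) (algebraMap F L η) := by
    intro P η hη
    have h1 : C η ∈ H.PPu E := Finset.mem_union_right _ (Finset.mem_image_of_mem _ hη)
    have := ge_loss P h1 0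
    rwa [coeff_zero_C] at this
  have hfar : ∀ P : Place k L, ∃ j ∈ Finset.univ \ J0,
      P.ord (H.ell x j) - pord P x ≤ 2 * loss (H.PPu E) P := by
    intro P
    by_contra hcon
    push Not at hcon
    refine far_p (P := P) (p := p) hx (loss_nonneg (H.PPu E) P) (fun c => ?_) fun i => ?_
    · obtain ⟨N, Φ, h1, h2, h3, h4⟩ := hΦ c
      exact ⟨N, Φ, h1, h2, h3, fun α hα => hc P _ (h4 α hα)⟩
    · rw [hinv (fun i => lv (p i) x) i]
      refine Ge.sum _ _ fun j _ => ?_
      rw [← H.ell_pj hlam]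
      have h1 : Ge P (pord P x + 2 * loss (H.PPu E) P + 1) (H.ell x j) := by
        by_cases hj : H.ell x j = 0
        · exact Or.inl hj
        · right
          have := hcon j (by
            rw [Finset.mem_sdiff, hJ0]
            exact ⟨Finset.mem_univ _, hj⟩)
          omega
      exact ((hc P _ (hE3 i j)).mul h1).mono (by omega)
  by_cases hfull : finrank L (S.V x) = (m - J0.card) + 2
  · have h1 := H.main_U x hx hfull (Finset.univ \ J0) (by
      intro j
      rw [Finset.mem_sdiff, hJ0]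
      exact ⟨fun h => h.2, fun h => ⟨Finset.mem_univ _, h⟩⟩) hJ0b a ha hrel' hinj' E hE1 hE2 hfar
    refine ⟨h1.1, ?_⟩
    have h2 := h1.2
    rw [Nat.cast_sub hJc] at h2
    have h3 : (∑ i, (S.d i : ℤ) + b - 2 * m - 1 + (S.Zs x).card + J0.card) =
        (∑ i, (S.d i : ℤ) + 1 - (m - J0.card) + (S.Zs x).card) := by
      rw [hbz]; ring
    rw [h3]
    exact h2
  · obtain ⟨N0, hN0⟩ : ∃ N0, N0 = finrank L (S.V x) := ⟨_, rfl⟩
    rw [← hN0] at hV h2V hfull
    have h1 := H.main_H x hx (m := m - J0.card - 1) (c' := 0) (by rw [← hN0]; omega) (by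
      intro K' hK'
      have h2 : K' = ⊥ := by
        rw [Submodule.eq_bot_iff]
        intro v hv
        obtain ⟨h5, h3, h4⟩ := hK' v hv
        exact hinj' v h5 h3 h4
      rw [h2, finrank_bot])
    refine ⟨h1.1, ?_⟩
    have h2 := h1.2
    rw [Nat.cast_sub (show 1 ≤ m - J0.card by omega), Nat.cast_sub hJc] at h2
    push_cast at h2
    have h3 : (∑ i, (S.d i : ℤ) + b - 2 * m - 1 + (S.Zs x).card + J0.card) =
        (∑ i, (S.d i : ℤ) - 0 - (m - J0.card - 1) + (S.Zs x).card) := by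
      rw [hbz]; ring
    rw [h3]
    refine h2.trans ?_
    have h4 : Hyp.hsum k H.PPof ≤ Hyp.hsum k (H.PPu E) :=
      hsum_mono Finset.subset_union_left
    have h5 : 0 ≤ Hyp.hsum k H.PPof :=
      Finset.sum_nonneg fun _ _ => Finset.sum_nonneg fun _ _ => hgt_nonneg _
    have h6 : ((3 * ((n : ℤ) + 2) + q) * Hyp.hsum k H.PPof) ≤
        ((3 * ((n : ℤ) + 4) + q) * Hyp.hsum k (H.PPu E)) :=
      mul_le_mul (by linarith) h4 h5 (by positivity)
    have h7 := mul_le_mul_of_nonneg_right h6 (show (0 : ℤ) ≤ Module.finrank F L by positivity)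
    linarith

omit [IsAlgClosed k] in
theorem hsum_PPu_le {h : Fin q → MvPolynomial (Fin (n + 1)) F}
    {g : Fin q → MvPolynomial (Fin (n + 1)) k}
    (hf : ∀ i, S.f i = h i + map (algebraMap k F) (g i)) (E : Finset F) :
    Hyp.hsum k (H.PPu E) ≤ Hyp.hb k h S.t H.lam + ∑ η ∈ E, hgt k η := by
  classical
  unfold Hyp.PPu
  refine (hsum_union_le _ _).trans (add_le_add (H.hsum_PPof_le hf) ?_)
  change ∑ g ∈ E.image C, hs k g ≤ _
  refine (Finset.sum_image_le_of_nonneg fun _ _ => hs_nonneg _).trans ?_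
  exact Finset.sum_le_sum fun η _ => hs_C_le _

end Pool.Agent.TH875.Vg.Hyp
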