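import Pool.Agent.TH875.Vg.Main
import Pool.Agent.W603.PV.Trunc

/-! Very general forms. -/

set_option autoImplicit false

open FF MvPolynomial
open Pool.Agent.W603.LV Pool.Agent.W603.PV

namespace Pool.Agent.TH875.Vg

variable {k F : Type} [Field k] [Field F] [Algebra k F] {n q : ℕ}

/-- the derivative of the value of a form with general coefficients -/
theorem key_form {d : ℕ} {h : MvPolynomial (Fin (n + 1)) F}
    {g : MvPolynomial (Fin (n + 1)) k} (hg : g.IsHomogeneous d) {k₁ : Subfield k} {t : F}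
    (hO : ∀ α ∈ h.support, Over1 k₁ t (h.coeff α)) {Dt : Derivation k F F} (hDt : Dt t = 1)
    {L : Type} [Field L] [Algebra k L] [Algebra F L] [IsScalarTower k F L]
    {d0 : Derivation ℤ k k} (hd0 : ∀ a ∈ k₁, d0 a = 0) {δ : Derivation ℤ L L} (hδ : IsLift d0 δ)
    (x : Fin (n + 1) → L) :
    δ (aeval x (h + map (algebraMap k F) g)) =
      aeval x (cder Dt h) * δ (algebraMap F L t) +
      ∑ α : Expo n d, algebraMap k L (d0 (g.coeff α.1)) * mon x α.1 +
      ∑ j, aeval x (pderiv j (h + map (algebraMap k F) g)) * δ (x j) := by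
  rw [der_aeval, cpart_add _ (by simp) (by simp)]
  congr 2
  · rw [aeval_cder, ← cpart_mul]
    apply cpart_congr
    intro α
    by_cases hα : h.coeff α = 0
    · rw [hα]; simp
    · exact (hO α (mem_support_iff.2 hα)).der hDt hd0 hδ
  · have h1 : (map (algebraMap k F) g).IsHomogeneous d := hg.map _
    rw [cpart_of_subset _ (by simp) x _ _ (support_sub h1)]
    rw [← Finset.sum_coe_sort]
    refine Finset.sum_congr rfl fun α _ => ?_
    rw [coeff_map, ← IsScalarTower.algebraMap_apply, hδ]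
    rfl

open Classical in
/-- the system given by fixed forms and general constant forms -/
theorem exists_sys [CharZero k] {d : Fin q → ℕ} (hd : ∀ i, 0 < d i)
    {h : Fin q → MvPolynomial (Fin (n + 1)) F} (hh : ∀ i, (h i).IsHomogeneous (d i))
    {g : Fin q → MvPolynomial (Fin (n + 1)) k} (hg : ∀ i, (g i).IsHomogeneous (d i))
    {k₁ : Subfield k} {t : F} (ht : Transcendental k t)
    (hO : ∀ i, ∀ α ∈ (h i).support, Over1 k₁ t ((h i).coeff α))
    {Dt : Derivation k F F} (hDt : Dt t = 1)
    (hai : AlgebraicIndependent k₁ (fun p : (i : Fin q) × Expo n (d i) => (g p.1).coeff p.2.1)) :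
    ∃ S : Sys k F n q, S.d = d ∧ (∀ i, S.f i = h i + map (algebraMap k F) (g i)) ∧ S.t = t ∧
      ∀ (p : S.Idx), ∀ a ∈ k₁, S.dd p a = 0 := by
  choose dd hdd1 hdd2 using fun p => exists_generic k₁ hai p
  refine ⟨{ d := d, hd := hd, f := fun i => h i + map (algebraMap k F) (g i),
            hom := fun i => (hh i).add ((hg i).map _)
            ft := fun i => cder Dt (h i)
            homt := fun i => cder_hom _ (hh i)
            t := t
            tr := ht
            dd := dd
            key := ?_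
            keyD := ?_ }, rfl, fun _ => rfl, rfl, hdd1⟩
  · intro L _ _ _ _ p δ hδ x i
    rw [key_form (hg i) (hO i) hDt (hdd1 p) hδ x]
    congr 2
    have h1 : ∀ α : Expo n (d i), algebraMap k L (dd p ((g i).coeff α.1)) * mon x α.1 =
        if (⟨i, α⟩ : (i : Fin q) × Expo n (d i)) = p then mon x α.1 else 0 := by
      intro α
      rw [hdd2 p ⟨i, α⟩]
      split_ifs <;> simp
    rw [Finset.sum_congr rfl fun α _ => h1 α]
    obtain ⟨i', α'⟩ := p
    by_cases hi : i' = i
    · subst hi
      simp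
    · rw [if_neg hi]
      refine Finset.sum_eq_zero fun α _ => ?_
      rw [if_neg]
      intro h2
      exact hi (congrArg Sigma.fst h2).symm
  · intro L _ _ _ _ D x i
    have h1 := key_form (L := L) (hg i) (hO i) hDt (d0 := 0) (fun _ _ => rfl) (toZ_isLift D) x
    simp only [toZ_apply] at h1
    rw [h1]
    simp

/-- Fixed data for all sufficiently general constant forms. -/
theorem exists_field [CharZero k] [IsFF k F] [IsAlgClosed k]
    (h : Fin q → MvPolynomial (Fin (n + 1)) F) :
    ∃ (t : F) (Dt : Derivation k F F) (k₁ : Subfield k), Transcendental k t ∧ Dt t = 1 ∧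
      Countable k₁ ∧ ∀ i, ∀ α ∈ (h i).support, Over1 k₁ t ((h i).coeff α) := by
  classical
  obtain ⟨t, ht⟩ := IsFF.exists_transcendental (k := k) (K := F)
  have h1 : der k F t ≠ 0 := der_ne_zero der_ne ht
  obtain ⟨k₁, hk₁, h2⟩ := exists_over1 ht
    (Finset.univ.biUnion fun i => (h i).support.image fun α => (h i).coeff α)
  refine ⟨t, (der k F t)⁻¹ • der k F, k₁, ht, ?_, hk₁, fun i α hα => h2 _ ?_⟩
  · rw [Derivation.coe_smul, Pi.smul_apply, smul_eq_mul, inv_mul_cancel₀ h1]
  · rw [Finset.mem_biUnion]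
    exact ⟨i, Finset.mem_univ _, Finset.mem_image_of_mem _ hα⟩

/-- the places not over `S` where the point meets one of the divisors -/
def tr {L : Type} [Field L] [Algebra k L] [Algebra F L] (S : Finset (Place k F))
    (d : Fin q → ℕ) (f : Fin q → MvPolynomial (Fin (n + 1)) F) (x : Fin (n + 1) → L) :
    Set (Place k L) :=
  {P | (∀ v ∈ S, ¬ Over P v) ∧ ∃ i, aeval x (f i) ≠ 0 ∧
    (d i : ℤ) * pord P x < P.ord (aeval x (f i))}

open Classical in
/-- The height inequality for all algebraic points. -/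
theorem final [CharZero k] [IsFF k F] [IsAlgClosed k] {d : Fin q → ℕ} (hd : ∀ i, 0 < d i)
    {h : Fin q → MvPolynomial (Fin (n + 1)) F} (hh : ∀ i, (h i).IsHomogeneous (d i)) :
    ∃ k₁ : Subfield k, Countable k₁ ∧ ∀ g : Fin q → MvPolynomial (Fin (n + 1)) k,
      (∀ i, (g i).IsHomogeneous (d i)) →
      AlgebraicIndependent k₁ (fun p : (i : Fin q) × Expo n (d i) => (g p.1).coeff p.2.1) →
      ∀ S : Finset (Place k F), ∃ C : ℕ, ∀ (L : Type) [Field L] [Algebra k L] [Algebra F L]
        [IsScalarTower k F L] [FiniteDimensional F L] (x : Fin (n + 1) → L), (∃ j, x j ≠ 0) →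
        (tr S d (fun i => h i + map (algebraMap k F) (g i)) x).Finite ∧
        (∑ i, (d i : ℤ) - 2 * n - 1 +
            (Finset.univ.filter fun i => aeval x (h i + map (algebraMap k F) (g i)) = 0).card) *
          pht k x ≤ (tr S d (fun i => h i + map (algebraMap k F) (g i)) x).ncard +
            disc k F L + C * Module.finrank F L := by
  obtain ⟨t, Dt, k₁, ht, hDt, hk₁, hO⟩ := exists_field (k := k) h
  refine ⟨k₁, hk₁, fun g hg hai T => ?_⟩
  obtain ⟨S, hSd, hSf, -, -⟩ := exists_sys hd hh hg ht hO hDt hai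
  obtain ⟨C1, hC1⟩ := S.main_bound
  obtain ⟨C2, hC2⟩ := canDeg_le_disc.{0, 0, 0} (k := k) (F := F)
  obtain ⟨C3, hC3⟩ := over_card.{0, 0, 0} (k := k) T
  refine ⟨C1 + C2 + C3, fun L _ _ _ _ _ x hx => ?_⟩
  obtain ⟨hfin, h1⟩ := hC1 L x hx
  have h2 := hC2 L
  obtain ⟨h3, h4⟩ := hC3 L
  have hsub : tr T d (fun i => h i + map (algebraMap k F) (g i)) x ⊆ S.mt k x := by
    rintro P ⟨_, i, h5, h6⟩
    refine ⟨i, ?_, ?_⟩
    · rw [hSf]; exact h5
    · rw [hSf, hSd]; exact h6
  have hsub2 : S.mt k x ⊆ tr T d (fun i => h i + map (algebraMap k F) (g i)) x ∪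
      {P : Place k L | ∃ v ∈ T, Over P v} := by
    rintro P ⟨i, h5, h6⟩
    rw [hSf] at h5 h6
    rw [hSd] at h6
    by_cases h7 : ∃ v ∈ T, Over P v
    · exact Or.inr h7
    · left
      refine ⟨fun v hv hov => h7 ⟨v, hv, hov⟩, i, h5, h6⟩
  have htr := hfin.subset hsub
  refine ⟨htr, ?_⟩
  have h8 : (S.mt k x).ncard ≤ (tr T d (fun i => h i + map (algebraMap k F) (g i)) x).ncard +
      {P : Place k L | ∃ v ∈ T, Over P v}.ncard :=
    (Set.ncard_le_ncard hsub2 (htr.union h3)).trans (Set.ncard_union_le _ _)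
  have h9 : (((S.mt k x).ncard : ℕ) : ℤ) ≤
      (tr T d (fun i => h i + map (algebraMap k F) (g i)) x).ncard +
      {P : Place k L | ∃ v ∈ T, Over P v}.ncard := by exact_mod_cast h8
  have h10 : S.Zs x =
      Finset.univ.filter fun i => aeval x (h i + map (algebraMap k F) (g i)) = 0 := by
    ext i
    rw [S.mem_Zs, Finset.mem_filter, hSf]
    simp
  rw [h10, hSd] at h1
  push_cast
  linarith

end Pool.Agent.TH875.Vg
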