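import Pool.Agent.TH875.Vg.MainC

/-! Curves on varieties and very general hypersurfaces, all over the constants. -/

set_option autoImplicit false

open FF MvPolynomial
open Pool.Agent.W603.LV Pool.Agent.W603.PV

namespace Pool.Agent.TH875.Vg

open Matrix Module Sys

variable {k F : Type} [Field k] [Field F] [Algebra k F] {n q : ℕ}

theorem exists_cfield (s : Finset k) : ∃ k₁ : Subfield k, Countable k₁ ∧ ∀ c ∈ s, c ∈ k₁ := by
  refine ⟨Subfield.closure (s : Set k), ?_, fun c hc => Subfield.subset_closure hc⟩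
  rw [← Cardinal.mk_le_aleph0_iff]
  refine (Subfield.cardinalMk_closure_le_max _).trans (max_le ?_ le_rfl)
  exact Cardinal.mk_le_aleph0_iff.2 (Finset.countable_toSet s)

open Classical in
/-- the system given by general constant forms -/
theorem exists_sys0 [CharZero k] {d : Fin q → ℕ} (hd : ∀ i, 0 < d i)
    {g : Fin q → MvPolynomial (Fin (n + 1)) k} (hg : ∀ i, (g i).IsHomogeneous (d i))
    {k₁ : Subfield k} {t : F} (ht : Transcendental k t)
    {Dt : Derivation k F F} (hDt : Dt t = 1)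
    (hai : AlgebraicIndependent k₁ (fun p : (i : Fin q) × Expo n (d i) => (g p.1).coeff p.2.1)) :
    ∃ S : Sys k F n q, S.d = d ∧ (∀ i, S.f i = map (algebraMap k F) (g i)) ∧
      (∀ i, S.ft i = 0) ∧ S.t = t ∧ ∀ (p : S.Idx), ∀ a ∈ k₁, S.dd p a = 0 := by
  choose dd hdd1 hdd2 using fun p => exists_generic k₁ hai p
  have hO : ∀ α ∈ (0 : MvPolynomial (Fin (n + 1)) F).support, Over1 k₁ t
      ((0 : MvPolynomial (Fin (n + 1)) F).coeff α) := by
    intro α hα
    simp at hα
  have hc0 : cder Dt (0 : MvPolynomial (Fin (n + 1)) F) = 0 := by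
    unfold cder
    simp
  refine ⟨{ d := d, hd := hd, f := fun i => map (algebraMap k F) (g i),
            hom := fun i => (hg i).map _
            ft := fun _ => 0
            homt := fun i => isHomogeneous_zero _ _ _
            t := t
            tr := ht
            dd := dd
            key := ?_
            keyD := ?_ }, rfl, fun _ => rfl, fun _ => rfl, rfl, hdd1⟩
  · intro L _ _ _ _ p δ hδ x i
    have h0 := key_form (hg i) hO hDt (hdd1 p) hδ x
    rw [zero_add, hc0] at h0
    rw [h0]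
    congr 2
    have h1 : ∀ α : Expo n (d i), algebraMap k L (dd p ((g i).coeff α.1)) * mon x α.1 =
        if (⟨i, α⟩ : (i : Fin q) × Expo n (d i)) = p then mon x α.1 else 0 := by
      intro α
      rw [hdd2 p ⟨i, α⟩]
      split_ifs <;> simp
    rw [Finset.sum_congr rfl fun α _ => h1 α]
    obtain ⟨i', α'⟩ := p
    by_cases hi : i' = i
    · subst hi
      simp
    · rw [if_neg hi]
      refine Finset.sum_eq_zero fun α _ => ?_
      rw [if_neg]
      intro h2
      exact hi (congrArg Sigma.fst h2).symm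
  · intro L _ _ _ _ D x i
    have h1 := key_form (L := L) (hg i) hO hDt (d0 := 0) (fun _ _ => rfl) (toZ_isLift D) x
    simp only [toZ_apply] at h1
    rw [zero_add, hc0] at h1
    rw [h1]
    simp

theorem nice_const (S : Sys k F n q) {k₁ : Subfield k} (Dt : Derivation k F F)
    (hk : ∀ (p : S.Idx), ∀ a ∈ k₁, S.dd p a = 0) {c : k} (hc : c ∈ k₁) :
    S.Nice Dt (algebraMap k F c) := by
  intro L _ _ _ _
  rw [Dt.map_algebraMap, map_zero]
  refine ⟨fun p δ hδ => ?_, fun D => ?_⟩
  · rw [← IsScalarTower.algebraMap_apply, hδ, hk p c hc, map_zero, zero_mul]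
  · rw [← IsScalarTower.algebraMap_apply, D.map_algebraMap, zero_mul]

/-- Relations between the coordinates, for constant varieties. -/
theorem exists_relation_const {I : Ideal (MvPolynomial (Fin (n + 1)) k)}
    (hI : ∀ f ∈ I, ∀ N, homogeneousComponent N f ∈ I) {m : ℕ}
    (hdim : Algebra.trdeg k (MvPolynomial (Fin (n + 1)) k ⧸ I) ≤ m + 1)
    (σ : Fin (m + 2) → Fin (n + 1)) :
    ∃ (N : ℕ) (Φ : MvPolynomial (Fin (m + 2)) k), Φ ≠ 0 ∧ Φ.IsHomogeneous N ∧
      rename σ Φ ∈ I := exists_relation hI hdim σ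

/-- The height of a ratio of coordinates. -/
theorem hgt_le_pht {L : Type} [Field L] [Algebra k L] [CharZero k] [IsFF k L] [IsAlgClosed k]
    {x : Fin (n + 1) → L} {a b : Fin (n + 1)} (hb : x b ≠ 0)
    (hab : Transcendental k (x a / x b)) : hgt k (x a / x b) ≤ pht k x := by
  classical
  have ha : x a ≠ 0 := by
    intro h
    apply hab
    rw [h, zero_div]
    exact isAlgebraic_zero
  obtain ⟨T, hT⟩ := exists_supp (k := k) (Finset.univ : Finset (Fin (n + 1))) x
  have hTx : ∀ j, ∀ P : Place k L, P.ord (x j) ≠ 0 → P ∈ T := fun j P hP =>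
    hT j (Finset.mem_univ _) P hP
  have hdiv : ∀ P : Place k L, P.ord (x a / x b) = P.ord (x a) - P.ord (x b) := by
    intro P
    rw [div_eq_mul_inv, P.ord_mul ha (inv_ne_zero hb), P.ord_inv]
    ring
  rw [hgt_finset _ T (fun P hP => by
    rw [hdiv] at hP
    by_contra hcon
    have h1 : P.ord (x a) = 0 := by by_contra h; exact hcon (hTx a P h)
    have h2 : P.ord (x b) = 0 := by by_contra h; exact hcon (hTx b P h)
    omega), pht_finset ⟨b, hb⟩ T hTx]
  have h1 : ∑ P ∈ T, max (-P.ord (x a / x b)) 0 ≤ ∑ P ∈ T, (P.ord (x b) - pord P x) := by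
    refine Finset.sum_le_sum fun P _ => ?_
    rw [hdiv]
    have h2 := pord_le P ha
    have h3 := pord_le P hb
    omega
  rw [Finset.sum_sub_distrib, sum_ord_finset _ T (hTx b)] at h1
  linarith

/-- the places where the curve meets one of the hypersurfaces -/
def cmt {L : Type} [Field L] [Algebra k L] (d : Fin q → ℕ)
    (g : Fin q → MvPolynomial (Fin (n + 1)) k) (x : Fin (n + 1) → L) : Set (Place k L) :=
  {P | ∃ i, aeval x (g i) ≠ 0 ∧ (d i : ℤ) * pord P x < P.ord (aeval x (g i))}

open Classical in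
/-- The inequality for curves on a projective variety and very general hypersurfaces. -/
theorem final_C [CharZero k] [IsAlgClosed k] {d : Fin q → ℕ} (hd : ∀ i, 0 < d i)
    {I : Ideal (MvPolynomial (Fin (n + 1)) k)}
    (hI : ∀ f ∈ I, ∀ N, homogeneousComponent N f ∈ I) {m : ℕ}
    (hdim : Algebra.trdeg k (MvPolynomial (Fin (n + 1)) k ⧸ I) ≤ m + 1) :
    ∃ k₁ : Subfield k, Countable k₁ ∧
      ∀ g : Fin q → MvPolynomial (Fin (n + 1)) k, (∀ i, (g i).IsHomogeneous (d i)) →
      AlgebraicIndependent k₁ (fun p : (i : Fin q) × Expo n (d i) => (g p.1).coeff p.2.1) →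
      ∀ (L : Type) [Field L] [Algebra k L] [IsFF k L] (x : Fin (n + 1) → L),
        (∃ a b, x b ≠ 0 ∧ Transcendental k (x a / x b)) → (∀ f ∈ I, aeval x f = 0) →
        (cmt d g x).Finite ∧
        ∃ r : ℕ, r ≤ m ∧ ∃ u : Fin (r + 1) → Fin (n + 1) → L, LinearIndependent L u ∧
          x ∈ Submodule.span L (Set.range u) ∧
          (∀ i, ∀ f ∈ I, ∑ j, aeval x (pderiv j f) * u i j = 0) ∧
          (∑ i, (d i : ℤ) - 2 * r - 3 +
            (Finset.univ.filter fun i => aeval x (g i) = 0).card) * pht k x + ght k (mins u) ≤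
            canDeg k L + (cmt d g x).ncard := by
  choose N Φ hΦ1 hΦ2 hΦ3 using exists_relation_const hI hdim
  obtain ⟨s, hs⟩ : ∃ s : Finset (MvPolynomial (Fin (n + 1)) k), Ideal.span (s : Set _) = I :=
    (isNoetherianRing_iff_ideal_fg _).1 inferInstance I
  obtain ⟨k₁, hk₁, hO⟩ := exists_cfield
    (((Finset.univ : Finset (Fin (m + 2) → Fin (n + 1))).biUnion fun σ =>
        (Φ σ).support.image fun α => (Φ σ).coeff α) ∪
      (s.biUnion fun f => f.support.image fun α => f.coeff α) ∪ {0})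
  have hO2 : ∀ σ α, (Φ σ).coeff α ∈ k₁ := by
    intro σ α
    apply hO
    by_cases hα : (Φ σ).coeff α = 0
    · rw [hα]
      exact Finset.mem_union_right _ (Finset.mem_singleton_self _)
    · apply Finset.mem_union_left
      apply Finset.mem_union_left
      rw [Finset.mem_biUnion]
      exact ⟨σ, Finset.mem_univ _,
        Finset.mem_image_of_mem _ (MvPolynomial.mem_support_iff.2 hα)⟩
  have hO3 : ∀ f ∈ s, ∀ α, f.coeff α ∈ k₁ := by
    intro f hf α
    apply hO
    by_cases hα : f.coeff α = 0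
    · rw [hα]
      exact Finset.mem_union_right _ (Finset.mem_singleton_self _)
    · apply Finset.mem_union_left
      apply Finset.mem_union_right
      rw [Finset.mem_biUnion]
      exact ⟨f, hf, Finset.mem_image_of_mem _ (MvPolynomial.mem_support_iff.2 hα)⟩
  refine ⟨k₁, hk₁, fun g hg hai L _ _ _ x hab hxI => ?_⟩
  obtain ⟨a, b, hb, hab⟩ := hab
  obtain ⟨t, ht⟩ : ∃ t, t = x a / x b := ⟨_, rfl⟩
  rw [← ht] at hab
  have hx : ∃ j, x j ≠ 0 := ⟨b, hb⟩
  have ht1 : der k L t ≠ 0 := der_ne_zero der_ne hab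
  obtain ⟨Dt, hDtd⟩ : ∃ Dt, Dt = (der k L t)⁻¹ • der k L := ⟨_, rfl⟩
  have hDt : Dt t = 1 := by
    rw [hDtd, Derivation.coe_smul, Pi.smul_apply, smul_eq_mul, inv_mul_cancel₀ ht1]
  obtain ⟨S, hSd, hSf, hSft, hSt, hSk⟩ := exists_sys0 (F := L) hd hg hab hDt hai
  have hVm := S.finrank_V_le (L := L) (Dt := Dt) (m := m) (x := x) fun σ =>
    ⟨N σ, map (algebraMap k L) (Φ σ), by
      rw [Ne, map_eq_zero_iff _ (map_injective _ (algebraMap k L).injective)]
      exact hΦ1 σ, (hΦ2 σ).map _, fun α => by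
      rw [coeff_map]
      exact nice_const S Dt hSk (hO2 σ α), by
      have h2 := hxI _ (hΦ3 σ)
      rw [aeval_rename] at h2
      rw [aeval_map_algebraMap]
      exact h2⟩
  -- the tangent space
  have htan : ∀ w, Sys.ext0 w ∈ S.V x → ∀ f ∈ I, ∑ j, aeval x (pderiv j f) * w j = 0 := by
    intro w hw
    refine tangent_gen hs hxI fun f hf => ?_
    have hfI : f ∈ I := by rw [← hs]; exact Ideal.subset_span hf
    have h1 := rel_V' S (Ψ := map (algebraMap k L) f) (Dt := Dt) (x := x) (fun α => by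
      rw [coeff_map]
      exact nice_const S Dt hSk (hO3 f hf α)) (by
        rw [aeval_map_algebraMap]; exact hxI f hfI) (by
        have h2 := euler_ideal hI hxI hfI
        rw [← h2]
        refine Finset.sum_congr rfl fun j _ => ?_
        rw [pderiv_map, aeval_map_algebraMap]) hw
    rw [← h1]
    simp only [Sys.ext0, Option.elim, mul_zero, zero_add]
    refine Finset.sum_congr rfl fun j _ => ?_
    rw [pderiv_map, aeval_map_algebraMap]
  have hpos : 0 ≤ pht k x := pht_nonneg hx
  obtain ⟨M, hM1, hM, u0, hu0, hu0V⟩ := exists_vert S hx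
  obtain ⟨r, rfl⟩ : ∃ r, M = r + 1 := ⟨M - 1, by omega⟩
  have hrm : r ≤ m := by omega
  have hui : ∀ i, Sys.ext0 (u0 i) ∈ S.V x := fun i =>
    (hu0V _).1 (Submodule.subset_span ⟨i, rfl⟩)
  obtain ⟨hfin, h1⟩ := main_C S hSft (fun i α => ⟨(g i).coeff α, by rw [hSf, coeff_map]⟩)
    x hx hM hu0 hui
  have hfx : ∀ i, aeval x (S.f i) = aeval x (g i) := by
    intro i
    rw [hSf, aeval_map_algebraMap]
  have hmt : S.mt k x = cmt d g x := by
    ext P
    constructor
    · rintro ⟨i, h5, h6⟩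
      rw [hfx] at h5 h6
      rw [hSd] at h6
      exact ⟨i, h5, h6⟩
    · rintro ⟨i, h5, h6⟩
      refine ⟨i, ?_, ?_⟩
      · rw [hfx]; exact h5
      · rw [hfx, hSd]; exact h6
  have hZ : S.Zs x = Finset.univ.filter fun i => aeval x (g i) = 0 := by
    ext i
    rw [S.mem_Zs, Finset.mem_filter, hfx]
    simp
  rw [hmt] at hfin h1
  refine ⟨hfin, r, hrm, u0, hu0, (hu0V x).2 (S.ext0_mem x), fun i => htan _ (hui i), ?_⟩
  rw [hZ, hSd, Module.finrank_self] at h1
  have h2 : hgt k S.t ≤ pht k x := by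
    rw [hSt, ht]
    rw [ht] at hab
    exact hgt_le_pht hb hab
  push_cast at h1 ⊢
  have h3 : (∑ i, (d i : ℤ) - 2 * r - 3 +
      (Finset.univ.filter fun i => aeval x (g i) = 0).card) * pht k x =
      (∑ i, (d i : ℤ) - 2 * (r + 1) + 1 +
      (Finset.univ.filter fun i => aeval x (g i) = 0).card) * pht k x - 2 * pht k x := by
    ring
  rw [h3]
  linarith

end Pool.Agent.TH875.Vg
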