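import Pool.Agent.TH875.Vg.MainE
import Pool.Agent.TH875.Vg.FinC

/-! Curves on varieties and very general hypersurfaces, all over the constants: best form. -/

set_option autoImplicit false

open FF MvPolynomial
open Pool.Agent.W603.LV Pool.Agent.W603.PV

namespace Pool.Agent.TH875.Vg

open Matrix Module Sys

variable {k : Type} [Field k] {L : Type} [Field L] [Algebra k L] {n q : ℕ}

/-- A derivative of `Φ` vanishes at `z` with nonvanishing gradient. -/
theorem exists_smoothC [CharZero k] (k₁ : Subfield k) {M : ℕ} (z : Fin (M + 1) → L) :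
    ∀ (N : ℕ) (Φ : MvPolynomial (Fin (M + 1)) k), Φ ≠ 0 → Φ.IsHomogeneous N →
      (∀ α, Φ.coeff α ∈ k₁) → aeval z Φ = 0 →
      ∃ (N' : ℕ) (Ψ : MvPolynomial (Fin (M + 1)) k), Ψ.IsHomogeneous N' ∧
        (∀ α, Ψ.coeff α ∈ k₁) ∧ aeval z Ψ = 0 ∧ ∃ j, aeval z (pderiv j Ψ) ≠ 0 := by
  intro N
  induction N with
  | zero =>
    intro Φ hΦ hh _ h0
    exfalso
    rw [← totalDegree_zero_iff_isHomogeneous, totalDegree_eq_zero_iff_eq_C] at hh
    rw [hh, aeval_C, map_eq_zero] at h0
    rw [h0, C_0] at hh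
    exact hΦ hh
  | succ N ih =>
    intro Φ hΦ hh hn h0
    by_cases hcase : ∃ j, aeval z (pderiv j Φ) ≠ 0
    · exact ⟨N + 1, Φ, hh, hn, h0, hcase⟩
    push Not at hcase
    have h1 : ∃ j, pderiv j Φ ≠ 0 := by
      by_contra hcon
      push Not at hcon
      have h2 := hh.sum_X_mul_pderiv
      rw [Finset.sum_eq_zero fun j _ => by rw [hcon j, mul_zero]] at h2
      rw [nsmul_eq_mul] at h2
      rcases mul_eq_zero.1 h2.symm with h3 | h3
      · rw [Nat.cast_eq_zero] at h3
        omega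
      · exact hΦ h3
    obtain ⟨j, hj⟩ := h1
    refine ih (pderiv j Φ) hj ?_ (fun α => ?_) (hcase j)
    · have := hh.pderiv (i := j)
      simpa using this
    · rw [coeff_pderiv]
      exact k₁.mul_mem (hn _) (k₁.add_mem (natCast_mem k₁ _) k₁.one_mem)

theorem cder_const (Dt : Derivation k L L) {M : ℕ} (f : MvPolynomial (Fin (M + 1)) k) :
    cder Dt (map (algebraMap k L) f) = 0 := by
  unfold cder
  refine Finset.sum_eq_zero fun α _ => ?_
  rw [coeff_map, Dt.map_algebraMap, monomial_zero]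

variable [CharZero k] [IsAlgClosed k] [IsFF k L]

/-- The dimension of the space of the derivatives. -/
theorem finrank_V_leE (S : Sys k L n q) {k₁ : Subfield k}
    (hk : ∀ (p : S.Idx), ∀ a ∈ k₁, S.dd p a = 0)
    {x : Fin (n + 1) → L} {xa xb : Fin (n + 1)} (hxb : x xb ≠ 0) (ht : S.t = x xa / x xb) {m : ℕ}
    (hrel : ∀ σ : Fin (m + 2) → Fin (n + 1), ∃ (N : ℕ) (Φ : MvPolynomial (Fin (m + 2)) k),
      Φ ≠ 0 ∧ Φ.IsHomogeneous N ∧ (∀ α, Φ.coeff α ∈ k₁) ∧
      aeval (fun j => x (σ j)) Φ = 0) :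
    finrank L ((S.V x).map prj) ≤ m + 1 := by
  by_contra hcon
  push Not at hcon
  obtain ⟨M, hM⟩ : ∃ M, M = finrank L ((S.V x).map prj) := ⟨_, rfl⟩
  rw [← hM] at hcon
  obtain ⟨b⟩ : Nonempty (Basis (Fin M) L ((S.V x).map prj)) := by
    rw [hM]; exact ⟨Module.finBasis L _⟩
  have hu : LinearIndependent L (fun i => (b i : Fin (n + 1) → L)) :=
    b.linearIndependent.map' ((S.V x).map prj).subtype (Submodule.ker_subtype _)
  obtain ⟨σ, hσ⟩ := exists_mins hu
  have hle : m + 2 ≤ M := hcon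
  obtain ⟨N, Φ, h1, h2, h3, h4⟩ := hrel (fun j => σ (Fin.castLE hle j))
  obtain ⟨N', Ψ, h5, h6, h7, j0, h8⟩ := exists_smoothC k₁ (M := m + 1)
    (fun j => x (σ (Fin.castLE hle j))) N Φ h1 h2 h3 h4
  obtain ⟨A, hA⟩ : ∃ A : Matrix (Fin M) (Fin M) L,
    A = Matrix.of fun i a => (b i : Fin (n + 1) → L) (σ a) := ⟨_, rfl⟩
  have hAdet : IsUnit A.det := by
    rw [hA]
    exact isUnit_iff_ne_zero.2 hσ
  obtain ⟨c, hc⟩ : ∃ c : Fin M → L, c ᵥ* A = Pi.single (Fin.castLE hle j0) 1 := by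
    refine ⟨Pi.single (Fin.castLE hle j0) 1 ᵥ* A⁻¹, ?_⟩
    rw [Matrix.vecMul_vecMul, Matrix.nonsing_inv_mul _ hAdet, Matrix.vecMul_one]
  have hmem : ∑ i, c i • (b i : Fin (n + 1) → L) ∈ (S.V x).map prj :=
    Submodule.sum_mem _ fun i _ => Submodule.smul_mem _ _ (b i).2
  obtain ⟨v, hv, hvw⟩ := Submodule.mem_map.1 hmem
  have hval : ∀ a, v (some (σ a)) = (Pi.single (Fin.castLE hle j0) 1 : Fin M → L) a := by
    intro a
    have h9 := congrFun hvw (σ a)
    rw [prj_apply, Finset.sum_apply] at h9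
    rw [h9, ← hc]
    rw [Matrix.vecMul, dotProduct]
    refine Finset.sum_congr rfl fun i _ => ?_
    rw [Pi.smul_apply, smul_eq_mul, hA, Matrix.of_apply]
  have h9 := S.rel_V (L := L) (Dt := der k L) (M := m + 1)
    (σ := fun j => σ (Fin.castLE hle j)) (Ψ := map (algebraMap k L) Ψ) (h5.map _) (fun α => by
      rw [coeff_map]
      exact nice_const S (der k L) hk (h6 α)) (by
      rw [aeval_map_algebraMap]; exact h7) hv
  rw [cder_const, map_zero, zero_mul, zero_add, Finset.sum_eq_single j0] at h9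
  · rw [hval, Pi.single_eq_same, mul_one, pderiv_map, aeval_map_algebraMap] at h9
    exact h8 h9
  · intro j _ hj
    rw [hval, Pi.single_eq_of_ne, mul_zero]
    intro h
    exact hj (Fin.castLE_injective hle h)
  · simp

open Classical in
/-- The inequality for curves on a projective variety and very general hypersurfaces. -/
theorem final_E {d : Fin q → ℕ} (hd : ∀ i, 0 < d i)
    {I : Ideal (MvPolynomial (Fin (n + 1)) k)}
    (hI : ∀ f ∈ I, ∀ N, homogeneousComponent N f ∈ I) {m : ℕ}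
    (hdim : Algebra.trdeg k (MvPolynomial (Fin (n + 1)) k ⧸ I) ≤ m + 1) :
    ∃ k₁ : Subfield k, Countable k₁ ∧
      ∀ g : Fin q → MvPolynomial (Fin (n + 1)) k, (∀ i, (g i).IsHomogeneous (d i)) →
      AlgebraicIndependent k₁ (fun p : (i : Fin q) × Expo n (d i) => (g p.1).coeff p.2.1) →
      ∀ (L : Type) [Field L] [Algebra k L] [IsFF k L] (x : Fin (n + 1) → L),
        (∃ a b, x b ≠ 0 ∧ Transcendental k (x a / x b)) → (∀ f ∈ I, aeval x f = 0) →
        (cmt d g x).Finite ∧
        ∃ r : ℕ, r ≤ m ∧ ∃ u : Fin (r + 1) → Fin (n + 1) → L, LinearIndependent L u ∧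
          x ∈ Submodule.span L (Set.range u) ∧
          (∀ D : Derivation k L L, (fun j => D (x j)) ∈ Submodule.span L (Set.range u)) ∧
          (∀ i, ∀ f ∈ I, ∑ j, aeval x (pderiv j f) * u i j = 0) ∧
          (∑ i, (d i : ℤ) - 2 * r +
            (Finset.univ.filter fun i => aeval x (g i) = 0).card) * pht k x + ght k (mins u) ≤
            canDeg k L + (cmt d g x).ncard := by
  choose N Φ hΦ1 hΦ2 hΦ3 using exists_relation_const hI hdim
  obtain ⟨s, hs⟩ : ∃ s : Finset (MvPolynomial (Fin (n + 1)) k), Ideal.span (s : Set _) = I :=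
    (isNoetherianRing_iff_ideal_fg _).1 inferInstance I
  obtain ⟨k₁, hk₁, hO⟩ := exists_cfield
    (((Finset.univ : Finset (Fin (m + 2) → Fin (n + 1))).biUnion fun σ =>
        (Φ σ).support.image fun α => (Φ σ).coeff α) ∪
      (s.biUnion fun f => f.support.image fun α => f.coeff α) ∪ {0})
  have hO2 : ∀ σ α, (Φ σ).coeff α ∈ k₁ := by
    intro σ α
    apply hO
    by_cases hα : (Φ σ).coeff α = 0
    · rw [hα]
      exact Finset.mem_union_right _ (Finset.mem_singleton_self _)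
    · apply Finset.mem_union_left
      apply Finset.mem_union_left
      rw [Finset.mem_biUnion]
      exact ⟨σ, Finset.mem_univ _,
        Finset.mem_image_of_mem _ (MvPolynomial.mem_support_iff.2 hα)⟩
  have hO3 : ∀ f ∈ s, ∀ α, f.coeff α ∈ k₁ := by
    intro f hf α
    apply hO
    by_cases hα : f.coeff α = 0
    · rw [hα]
      exact Finset.mem_union_right _ (Finset.mem_singleton_self _)
    · apply Finset.mem_union_left
      apply Finset.mem_union_right
      rw [Finset.mem_biUnion]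
      exact ⟨f, hf, Finset.mem_image_of_mem _ (MvPolynomial.mem_support_iff.2 hα)⟩
  refine ⟨k₁, hk₁, fun g hg hai L _ _ _ x hab hxI => ?_⟩
  obtain ⟨a, b, hb, hab⟩ := hab
  obtain ⟨t, ht⟩ : ∃ t, t = x a / x b := ⟨_, rfl⟩
  rw [← ht] at hab
  have hx : ∃ j, x j ≠ 0 := ⟨b, hb⟩
  have ht1 : der k L t ≠ 0 := der_ne_zero der_ne hab
  obtain ⟨Dt, hDtd⟩ : ∃ Dt, Dt = (der k L t)⁻¹ • der k L := ⟨_, rfl⟩
  have hDt : Dt t = 1 := by
    rw [hDtd, Derivation.coe_smul, Pi.smul_apply, smul_eq_mul, inv_mul_cancel₀ ht1]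
  obtain ⟨S, hSd, hSf, hSft, hSt, hSk⟩ := exists_sys0 (F := L) hd hg hab hDt hai
  have hSt' : S.t = x a / x b := hSt.trans ht
  have hVm : finrank L ((S.V x).map prj) ≤ m + 1 := finrank_V_leE S hSk hb hSt' fun σ =>
    ⟨N σ, Φ σ, hΦ1 σ, hΦ2 σ, hO2 σ, by
      have h2 := hxI _ (hΦ3 σ)
      rw [aeval_rename] at h2
      exact h2⟩
  -- the tangent space
  have htan : ∀ w ∈ (S.V x).map prj, ∀ f ∈ I, ∑ j, aeval x (pderiv j f) * w j = 0 := by
    intro w hw
    obtain ⟨v, hv, rfl⟩ := Submodule.mem_map.1 hw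
    refine tangent_gen hs hxI fun f hf => ?_
    have hfI : f ∈ I := by rw [← hs]; exact Ideal.subset_span hf
    have h1 := rel_V' S (Ψ := map (algebraMap k L) f) (Dt := Dt) (x := x) (fun α => by
      rw [coeff_map]
      exact nice_const S Dt hSk (hO3 f hf α)) (by
        rw [aeval_map_algebraMap]; exact hxI f hfI) (by
        have h2 := euler_ideal hI hxI hfI
        rw [← h2]
        refine Finset.sum_congr rfl fun j _ => ?_
        rw [pderiv_map, aeval_map_algebraMap]) hv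
    rw [cder_const, map_zero, zero_mul, zero_add] at h1
    rw [← h1]
    refine Finset.sum_congr rfl fun j _ => ?_
    rw [pderiv_map, aeval_map_algebraMap]
    rfl
  obtain ⟨M, hM⟩ : ∃ M, M = finrank L ((S.V x).map prj) := ⟨_, rfl⟩
  obtain ⟨bs⟩ : Nonempty (Basis (Fin M) L ((S.V x).map prj)) := by
    rw [hM]; exact ⟨Module.finBasis L _⟩
  have hxV : x ∈ (S.V x).map prj := Submodule.mem_map.2 ⟨Sys.ext0 x, S.ext0_mem x, rfl⟩
  have hDV : ∀ D : Derivation k L L, (fun j => D (x j)) ∈ (S.V x).map prj := fun D =>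
    Submodule.mem_map.2 ⟨S.vec (toZ D) x, S.vecD_mem D x, rfl⟩
  have hMpos : 0 < M := by
    rw [hM]
    have : Nontrivial ((S.V x).map prj) := by
      refine ⟨⟨x, hxV⟩, 0, ?_⟩
      intro h
      obtain ⟨j, hj⟩ := hx
      exact hj (congrFun (congrArg Subtype.val h) j)
    exact Module.finrank_pos
  obtain ⟨r, rfl⟩ : ∃ r, M = r + 1 := ⟨M - 1, by omega⟩
  have hrm : r ≤ m := by omega
  have hspan : Submodule.span L (Set.range fun i => (bs i : Fin (n + 1) → L)) =
      (S.V x).map prj := by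
    have h4 : (Set.range fun i => (bs i : Fin (n + 1) → L)) =
        ((S.V x).map prj).subtype '' Set.range bs := by
      rw [← Set.range_comp]
      rfl
    rw [h4, Submodule.span_image, bs.span_eq, Submodule.map_top, Submodule.range_subtype]
  have hu : LinearIndependent L (fun i => (bs i : Fin (n + 1) → L)) :=
    bs.linearIndependent.map' ((S.V x).map prj).subtype (Submodule.ker_subtype _)
  obtain ⟨hfin, h1⟩ := main_E S hSft (fun i α => ⟨(g i).coeff α, by rw [hSf, coeff_map]⟩)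
    x hb hSt' hu hspan
  have hfx : ∀ i, aeval x (S.f i) = aeval x (g i) := by
    intro i
    rw [hSf, aeval_map_algebraMap]
  have hmt : S.mt k x = cmt d g x := by
    ext P
    constructor
    · rintro ⟨i, h5, h6⟩
      rw [hfx] at h5 h6
      rw [hSd] at h6
      exact ⟨i, h5, h6⟩
    · rintro ⟨i, h5, h6⟩
      refine ⟨i, ?_, ?_⟩
      · rw [hfx]; exact h5
      · rw [hfx, hSd]; exact h6
  have hZ : S.Zs x = Finset.univ.filter fun i => aeval x (g i) = 0 := by
    ext i
    rw [S.mem_Zs, Finset.mem_filter, hfx]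
    simp
  rw [hmt] at hfin h1
  refine ⟨hfin, r, hrm, fun i => (bs i : Fin (n + 1) → L), hu, ?_, ?_,
    fun i => htan _ (bs i).2, ?_⟩
  · rw [hspan]; exact hxV
  · rw [hspan]; exact hDV
  rw [hZ, hSd] at h1
  push_cast at h1 ⊢
  have h3 : (∑ i, (d i : ℤ) - 2 * r +
      (Finset.univ.filter fun i => aeval x (g i) = 0).card) =
      (∑ i, (d i : ℤ) - 2 * (r + 1) + 2 +
      (Finset.univ.filter fun i => aeval x (g i) = 0).card) := by
    ring
  rw [h3]
  exact h1

end Pool.Agent.TH875.Vg
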