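import Pool.Agent.TH875.Vg.RelX
import Pool.Agent.TH875.Vg.Fin

/-! Very general divisors on a subvariety. -/

set_option autoImplicit false

open FF MvPolynomial
open Pool.Agent.W603.LV Pool.Agent.W603.PV

namespace Pool.Agent.TH875.Vg

variable {k F : Type} [Field k] [Field F] [Algebra k F] {n q : ℕ}

theorem nice_of_over1 (S : Sys k F n q) {k₁ : Subfield k} {Dt : Derivation k F F}
    (hDt : Dt S.t = 1) (hk : ∀ (p : S.Idx), ∀ a ∈ k₁, S.dd p a = 0) {η : F}
    (h : Over1 k₁ S.t η) : S.Nice Dt η := by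
  intro L _ _ _ _
  refine ⟨fun p δ hδ => h.der hDt (hk p) hδ, fun D => ?_⟩
  have := h.der (L := L) hDt (d := 0) (fun _ _ => rfl) (toZ_isLift D)
  simpa only [toZ_apply] using this

/-- Relations between the coordinates. -/
theorem exists_relation {I : Ideal (MvPolynomial (Fin (n + 1)) F)}
    (hI : ∀ f ∈ I, ∀ N, homogeneousComponent N f ∈ I) {m : ℕ}
    (hdim : Algebra.trdeg F (MvPolynomial (Fin (n + 1)) F ⧸ I) ≤ m + 1)
    (σ : Fin (m + 2) → Fin (n + 1)) :
    ∃ (N : ℕ) (Φ : MvPolynomial (Fin (m + 2)) F), Φ ≠ 0 ∧ Φ.IsHomogeneous N ∧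
      rename σ Φ ∈ I := by
  have h1 : ¬ AlgebraicIndependent F (fun j : Fin (m + 2) => Ideal.Quotient.mk I (X (σ j))) := by
    intro h
    have h2 := h.cardinalMk_le_trdeg
    rw [Cardinal.mk_fin] at h2
    have h3 := h2.trans hdim
    have h4 : ((m + 2 : ℕ) : Cardinal) ≤ ((m + 1 : ℕ) : Cardinal) := by
      push_cast at h3 ⊢
      exact h3
    rw [Nat.cast_le] at h4
    omega
  rw [algebraicIndependent_iff] at h1
  push Not at h1
  obtain ⟨p, hp, hp0⟩ := h1
  have h2 : ((Ideal.Quotient.mkₐ F I).comp (rename σ)) p =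
      aeval (fun j : Fin (m + 2) => Ideal.Quotient.mk I (X (σ j))) p := by
    congr 1
    ext j
    simp
  rw [hp] at h2
  have h3 : rename σ p ∈ I := by
    rw [← Ideal.Quotient.eq_zero_iff_mem]
    exact h2
  obtain ⟨N, hN⟩ : ∃ N, homogeneousComponent N p ≠ 0 := by
    by_contra hcon
    push Not at hcon
    apply hp0
    rw [← sum_homogeneousComponent p]
    exact Finset.sum_eq_zero fun i _ => hcon i
  refine ⟨N, homogeneousComponent N p, hN, homogeneousComponent_isHomogeneous N p, ?_⟩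
  rw [rename_homogeneousComponent]
  exact hI _ h3 N

open Classical in
/-- The height inequality for all algebraic points of a projective variety. -/
theorem final_X [CharZero k] [IsFF k F] [IsAlgClosed k] {d : Fin q → ℕ} (hd : ∀ i, 0 < d i)
    {h : Fin q → MvPolynomial (Fin (n + 1)) F} (hh : ∀ i, (h i).IsHomogeneous (d i))
    {I : Ideal (MvPolynomial (Fin (n + 1)) F)}
    (hI : ∀ f ∈ I, ∀ N, homogeneousComponent N f ∈ I) {m : ℕ}
    (hdim : Algebra.trdeg F (MvPolynomial (Fin (n + 1)) F ⧸ I) ≤ m + 1) :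
    ∃ k₁ : Subfield k, Countable k₁ ∧ ∀ g : Fin q → MvPolynomial (Fin (n + 1)) k,
      (∀ i, (g i).IsHomogeneous (d i)) →
      AlgebraicIndependent k₁ (fun p : (i : Fin q) × Expo n (d i) => (g p.1).coeff p.2.1) →
      ∀ S : Finset (Place k F), ∃ C : ℕ, ∀ (L : Type) [Field L] [Algebra k L] [Algebra F L]
        [IsScalarTower k F L] [FiniteDimensional F L] (x : Fin (n + 1) → L), (∃ j, x j ≠ 0) →
        (∀ f ∈ I, aeval x f = 0) →
        (tr S d (fun i => h i + map (algebraMap k F) (g i)) x).Finite ∧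
        (∑ i, (d i : ℤ) - 2 * m - 1 +
            (Finset.univ.filter fun i => aeval x (h i + map (algebraMap k F) (g i)) = 0).card) *
          pht k x ≤ (tr S d (fun i => h i + map (algebraMap k F) (g i)) x).ncard +
            disc k F L + C * Module.finrank F L := by
  obtain ⟨t, ht⟩ := IsFF.exists_transcendental (k := k) (K := F)
  have ht1 : der k F t ≠ 0 := der_ne_zero der_ne ht
  choose N Φ hΦ1 hΦ2 hΦ3 using exists_relation hI hdim
  obtain ⟨k₁, hk₁, hO⟩ := exists_over1 ht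
    ((Finset.univ.biUnion fun i => (h i).support.image fun α => (h i).coeff α) ∪
      ((Finset.univ : Finset (Fin (m + 2) → Fin (n + 1))).biUnion fun σ =>
        (Φ σ).support.image fun α => (Φ σ).coeff α) ∪ {0})
  obtain ⟨Dt, hDtd⟩ : ∃ Dt, Dt = (der k F t)⁻¹ • der k F := ⟨_, rfl⟩
  have hDt : Dt t = 1 := by
    rw [hDtd, Derivation.coe_smul, Pi.smul_apply, smul_eq_mul, inv_mul_cancel₀ ht1]
  have hO1 : ∀ i, ∀ α ∈ (h i).support, Over1 k₁ t ((h i).coeff α) := by
    intro i α hα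
    apply hO
    apply Finset.mem_union_left
    apply Finset.mem_union_left
    rw [Finset.mem_biUnion]
    exact ⟨i, Finset.mem_univ _, Finset.mem_image_of_mem _ hα⟩
  have hO2 : ∀ σ α, Over1 k₁ t ((Φ σ).coeff α) := by
    intro σ α
    apply hO
    by_cases hα : (Φ σ).coeff α = 0
    · rw [hα]
      exact Finset.mem_union_right _ (Finset.mem_singleton_self _)
    · apply Finset.mem_union_left
      apply Finset.mem_union_right
      rw [Finset.mem_biUnion]
      exact ⟨σ, Finset.mem_univ _, Finset.mem_image_of_mem _ (mem_support_iff.2 hα)⟩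
  refine ⟨k₁, hk₁, fun g hg hai T => ?_⟩
  obtain ⟨S, hSd, hSf, hSt, hSk⟩ := exists_sys hd hh hg ht hO1 hDt hai
  obtain ⟨C1, hC1⟩ := S.main_X m
  obtain ⟨C2, hC2⟩ := canDeg_le_disc.{0, 0, 0} (k := k) (F := F)
  obtain ⟨C3, hC3⟩ := over_card.{0, 0, 0} (k := k) T
  refine ⟨C1 + C2 + C3, fun L _ _ _ _ _ x hx hxI => ?_⟩
  obtain ⟨hfin, h1⟩ := hC1 L x hx (S.finrank_V_le (Dt := Dt) fun σ =>
    ⟨N σ, Φ σ, hΦ1 σ, hΦ2 σ, fun α => nice_of_over1 S (by rw [hSt]; exact hDt) hSk (by
      rw [hSt]; exact hO2 σ α), by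
      have h2 := hxI _ (hΦ3 σ)
      rw [aeval_rename] at h2
      exact h2⟩)
  have h2 := hC2 L
  obtain ⟨h3, h4⟩ := hC3 L
  have hsub : tr T d (fun i => h i + map (algebraMap k F) (g i)) x ⊆ S.mt k x := by
    rintro P ⟨_, i, h5, h6⟩
    refine ⟨i, ?_, ?_⟩
    · rw [hSf]; exact h5
    · rw [hSf, hSd]; exact h6
  have hsub2 : S.mt k x ⊆ tr T d (fun i => h i + map (algebraMap k F) (g i)) x ∪
      {P : Place k L | ∃ v ∈ T, Over P v} := by
    rintro P ⟨i, h5, h6⟩
    rw [hSf] at h5 h6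
    rw [hSd] at h6
    by_cases h7 : ∃ v ∈ T, Over P v
    · exact Or.inr h7
    · left
      refine ⟨fun v hv hov => h7 ⟨v, hv, hov⟩, i, h5, h6⟩
  have htr := hfin.subset hsub
  refine ⟨htr, ?_⟩
  have h8 : (S.mt k x).ncard ≤ (tr T d (fun i => h i + map (algebraMap k F) (g i)) x).ncard +
      {P : Place k L | ∃ v ∈ T, Over P v}.ncard :=
    (Set.ncard_le_ncard hsub2 (htr.union h3)).trans (Set.ncard_union_le _ _)
  have h9 : (((S.mt k x).ncard : ℕ) : ℤ) ≤
      (tr T d (fun i => h i + map (algebraMap k F) (g i)) x).ncard +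
      {P : Place k L | ∃ v ∈ T, Over P v}.ncard := by exact_mod_cast h8
  have h10 : S.Zs x =
      Finset.univ.filter fun i => aeval x (h i + map (algebraMap k F) (g i)) = 0 := by
    ext i
    rw [S.mem_Zs, Finset.mem_filter, hSf]
    simp
  rw [h10, hSd] at h1
  push_cast
  linarith

end Pool.Agent.TH875.Vg
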