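import Mathlib

/-! Linear algebra for hyperplanes. -/

set_option autoImplicit false

namespace Pool.Agent.TH875.Vg

open Module

section

variable {F L : Type*} [Field F] [Field L] [Algebra F L] {N : ℕ}

/-- independent rows have a right inverse -/
theorem right_inv {ι : Type*} [Fintype ι] [DecidableEq ι] {l : ι → Fin N → F}
    (h : LinearIndependent F l) :
    ∃ B : Fin N → ι → F, ∀ i j, ∑ a, l i a * B a j = if i = j then 1 else 0 := by
  obtain ⟨g, hg⟩ := LinearMap.exists_leftInverse_of_injective
    (Fintype.linearCombination F l) (by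
      rw [LinearMap.ker_eq_bot]
      exact h.fintypeLinearCombination_injective)
  refine ⟨fun a j => g (Pi.single a 1) j, fun i j => ?_⟩
  have h1 : g (l i) = Pi.single i 1 := by
    have h2 := LinearMap.congr_fun hg (Pi.single i 1)
    rw [LinearMap.comp_apply, Fintype.linearCombination_apply_single, one_smul,
      LinearMap.id_apply] at h2
    exact h2
  have h3 : l i = ∑ a, l i a • (Pi.single a 1 : Fin N → F) := by
    funext e
    rw [Finset.sum_apply, Finset.sum_eq_single e]
    · simp
    · intro a _ ha
      simp [Pi.single_eq_of_ne ha.symm]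
    · simp
  have h4 := congrFun h1 j
  rw [h3, map_sum, Finset.sum_apply] at h4
  simp only [map_smul, Pi.smul_apply, smul_eq_mul] at h4
  rw [h4, Pi.single_apply]
  by_cases hij : j = i
  · rw [if_pos hij, if_pos hij.symm]
  · rw [if_neg hij, if_neg (fun h => hij h.symm)]

/-- values of independent linear forms -/
theorem lin_surj {ι : Type*} [Fintype ι] {l : ι → Fin N → F}
    (h : LinearIndependent F l) (y : ι → L) :
    ∃ w : Fin N → L, ∀ i, ∑ a, algebraMap F L (l i a) * w a = y i := by
  classical
  obtain ⟨B, hB⟩ := right_inv h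
  refine ⟨fun a => ∑ j, algebraMap F L (B a j) * y j, fun i => ?_⟩
  simp only [Finset.mul_sum]
  rw [Finset.sum_comm]
  have h1 : ∀ j, ∑ a, algebraMap F L (l i a) * (algebraMap F L (B a j) * y j) =
      algebraMap F L (∑ a, l i a * B a j) * y j := by
    intro j
    rw [map_sum, Finset.sum_mul]
    exact Finset.sum_congr rfl fun a _ => by rw [map_mul]; ring
  rw [Finset.sum_congr rfl fun j _ => h1 j, Finset.sum_eq_single i]
  · rw [hB, if_pos rfl, map_one, one_mul]
  · intro j _ hj
    rw [hB, if_neg hj.symm, map_zero, zero_mul]
  · simp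

theorem finrank_add_le {U : Type*} [AddCommGroup U] [Module L U] [FiniteDimensional L U]
    {ι : Type*} [Fintype ι] (Ψ : U →ₗ[L] (ι → L)) (hΨ : Function.Surjective Ψ)
    {V : Submodule L U} (hV : ∀ v ∈ V, Ψ v = 0) :
    finrank L V + Fintype.card ι ≤ finrank L U := by
  have h1 := LinearMap.finrank_range_add_finrank_ker Ψ
  rw [LinearMap.range_eq_top.2 hΨ, finrank_top, Module.finrank_fintype_fun_eq_card] at h1
  have h2 : finrank L V ≤ finrank L (LinearMap.ker Ψ) :=
    Submodule.finrank_mono fun v hv => LinearMap.mem_ker.2 (hV v hv)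
  omega

end

section

variable {F L : Type*} [Field F] [Field L] [Algebra F L] {n : ℕ}

theorem bound_K {ι : Type*} [Fintype ι] {l : ι → Fin (n + 1) → F}
    (h : LinearIndependent F l) {K : Submodule L (Option (Fin (n + 1)) → L)}
    (hK : ∀ v ∈ K, v none = 0 ∧ ∀ i, ∑ a, algebraMap F L (l i a) * v (some a) = 0) :
    finrank L K + Fintype.card ι ≤ n + 1 := by
  have h1 := finrank_add_le (U := Option (Fin (n + 1)) → L) (ι := Option ι) (V := K)
    { toFun := fun v o => o.elim (v none) fun i => ∑ a, algebraMap F L (l i a) * v (some a)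
      map_add' := by
        intro v w
        funext o
        rcases o with _ | o
        · rfl
        · simp [mul_add, Finset.sum_add_distrib]
      map_smul' := by
        intro c v
        funext o
        rcases o with _ | o
        · rfl
        · simp only [Option.elim, Pi.smul_apply, smul_eq_mul, RingHom.id_apply, Finset.mul_sum]
          exact Finset.sum_congr rfl fun a _ => by ring } (by
      intro y
      obtain ⟨w, hw⟩ := lin_surj h fun i => y (some i)
      refine ⟨fun o => o.elim (y none) w, ?_⟩
      funext o
      rcases o with _ | o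
      · rfl
      · exact hw o) (by
      intro v hv
      obtain ⟨h2, h3⟩ := hK v hv
      funext o
      rcases o with _ | o
      · exact h2
      · exact h3 o)
  rw [Module.finrank_fintype_fun_eq_card, Fintype.card_option, Fintype.card_option,
    Fintype.card_fin] at h1
  omega

theorem bound_V {ι : Type*} [Fintype ι] {l : ι → Fin (n + 1) → F}
    (h : LinearIndependent F l) (c : ι → L) {K : Submodule L (Option (Fin (n + 1)) → L)}
    (hK : ∀ v ∈ K, ∀ i, c i * v none + ∑ a, algebraMap F L (l i a) * v (some a) = 0) :
    finrank L K + Fintype.card ι ≤ n + 2 := by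
  have h1 := finrank_add_le (U := Option (Fin (n + 1)) → L) (ι := ι) (V := K)
    { toFun := fun v i => c i * v none + ∑ a, algebraMap F L (l i a) * v (some a)
      map_add' := by
        intro v w
        funext i
        simp only [Pi.add_apply, mul_add, Finset.sum_add_distrib]
        ring
      map_smul' := by
        intro r v
        funext i
        simp only [Pi.smul_apply, smul_eq_mul, RingHom.id_apply, mul_add, Finset.mul_sum]
        congr 1
        · ring
        · exact Finset.sum_congr rfl fun a _ => by ring } (by
      intro y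
      obtain ⟨w, hw⟩ := lin_surj h y
      refine ⟨fun o => o.elim 0 w, ?_⟩
      funext i
      change c i * 0 + ∑ a, algebraMap F L (l i a) * w a = y i
      rw [mul_zero, zero_add, hw]) (by
      intro v hv
      funext i
      exact hK v hv i)
  rw [Module.finrank_fintype_fun_eq_card, Fintype.card_option, Fintype.card_fin] at h1
  omega

/-- at most `n` hyperplanes in general position meet in a point -/
theorem card_zero_le {b : ℕ} {l : Fin b → Fin (n + 1) → F}
    (hl : ∀ s : Finset (Fin b), s.card ≤ n + 1 → LinearIndependent F (fun j : s => l j))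
    {x : Fin (n + 1) → L} (hx : ∃ j, x j ≠ 0) {J : Finset (Fin b)}
    (hJ : ∀ j ∈ J, ∑ a, algebraMap F L (l j a) * x a = 0) : J.card ≤ n := by
  by_contra hcon
  obtain ⟨s, hs, hsc⟩ := Finset.exists_subset_card_eq (s := J) (n := n + 1) (by omega)
  have h1 := bound_K (L := L) (hl s hsc.le) (K := Submodule.span L
    {(fun o => o.elim 0 x : Option (Fin (n + 1)) → L)}) (by
      intro v hv
      obtain ⟨c, rfl⟩ := Submodule.mem_span_singleton.1 hv
      refine ⟨by simp, fun i => ?_⟩
      have h2 := hJ i (hs i.2)
      simp only [Pi.smul_apply, smul_eq_mul, Option.elim]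
      rw [Finset.sum_congr rfl fun a _ => mul_left_comm _ c _, ← Finset.mul_sum, h2, mul_zero])
  rw [finrank_span_singleton, Fintype.card_coe, hsc] at h1
  · omega
  · intro h
    obtain ⟨j, hj⟩ := hx
    exact hj (congrFun h (some j))

/-- `n + 2` hyperplanes in general position -/
theorem exists_rel {b : ℕ} (hb : b = n + 2) {l : Fin b → Fin (n + 1) → F}
    (hl : ∀ s : Finset (Fin b), s.card ≤ n + 1 → LinearIndependent F (fun j : s => l j)) :
    ∃ (a : Fin b → F) (M : Fin (n + 1) → Fin b → F), (∀ j, a j ≠ 0) ∧
      (∀ e, ∑ j, a j * l j e = 0) ∧ ∀ e e', ∑ j, M e j * l j e' = if e = e' then 1 else 0 := by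
  classical
  have h1 : ¬ LinearIndependent F l := by
    intro h
    have := h.fintype_card_le_finrank
    rw [Fintype.card_fin, Module.finrank_fintype_fun_eq_card, Fintype.card_fin] at this
    omega
  obtain ⟨a, ha, i, hi⟩ := Fintype.not_linearIndependent_iff.1 h1
  have hspan : ∀ e : Fin (n + 1), (Pi.single e 1 : Fin (n + 1) → F) ∈
      Submodule.span F (Set.range l) := by
    intro e
    have hc : (Finset.univ.erase i).card = n + 1 := by
      rw [Finset.card_erase_of_mem (Finset.mem_univ _), Finset.card_univ, Fintype.card_fin]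
      omega
    have h2 := (hl (Finset.univ.erase i) hc.le).span_eq_top_of_card_eq_finrank' (by
      rw [Fintype.card_coe, hc, Module.finrank_fintype_fun_eq_card, Fintype.card_fin])
    have h3 : (Pi.single e 1 : Fin (n + 1) → F) ∈ (⊤ : Submodule F (Fin (n + 1) → F)) :=
      Submodule.mem_top
    rw [← h2] at h3
    refine Submodule.span_mono ?_ h3
    rintro _ ⟨j, rfl⟩
    exact ⟨j, rfl⟩
  choose M hM using fun e => (Submodule.mem_span_range_iff_exists_fun F).1 (hspan e)
  refine ⟨a, M, fun j hj => ?_, fun e => ?_, fun e e' => ?_⟩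
  · have hc : (Finset.univ.erase j).card = n + 1 := by
      rw [Finset.card_erase_of_mem (Finset.mem_univ _), Finset.card_univ, Fintype.card_fin]
      omega
    have h2 := Fintype.linearIndependent_iff.1 (hl (Finset.univ.erase j) hc.le)
      (fun u => a u) (by
        rw [Finset.sum_coe_sort (Finset.univ.erase j) (fun u => a u • l u)]
        rw [← Finset.add_sum_erase _ _ (Finset.mem_univ j), hj, zero_smul, zero_add] at ha
        exact ha)
    by_cases hij : i = j
    · rw [hij] at hi
      exact hi hj
    · exact hi (h2 ⟨i, Finset.mem_erase.2 ⟨hij, Finset.mem_univ _⟩⟩)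
  · have h2 := congrFun ha e
    rw [Finset.sum_apply] at h2
    simpa using h2
  · have h2 := congrFun (hM e) e'
    rw [Finset.sum_apply] at h2
    simp only [Pi.smul_apply, smul_eq_mul] at h2
    rw [h2, Pi.single_apply]
    by_cases hij : e' = e
    · rw [if_pos hij, if_pos hij.symm]
    · rw [if_neg hij, if_neg (fun h => hij h.symm)]

end

end Pool.Agent.TH875.Vg
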