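import Pool.Agent.TH875.Vg.HsB
import Pool.Agent.TH875.Vg.LinH
import Pool.Agent.TH875.Vg.FinX

/-! Very general divisors and hyperplanes. -/

set_option autoImplicit false

open FF MvPolynomial
open Pool.Agent.W603.LV Pool.Agent.W603.PV

namespace Pool.Agent.TH875.Vg

open Module Sys

variable {k F : Type} [Field k] [Field F] [Algebra k F] {n q b : ℕ}

theorem exists_hyp (S : Sys k F n q) {k₁ : Subfield k} {Dt : Derivation k F F}
    (hDt : Dt S.t = 1) (hk : ∀ (p : S.Idx), ∀ a ∈ k₁, S.dd p a = 0) (l : Fin b → Fin (n + 1) → F)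
    (hl : ∀ j a, Over1 k₁ S.t (l j a)) : ∃ H : Hyp S b, H.lam = l :=
  ⟨{ lam := l
     mu := fun j a => Dt (l j a)
     nice := fun L _ _ _ _ j a => nice_of_over1 S hDt hk (hl j a) L }, rfl⟩

variable [CharZero k] [IsAlgClosed k] [IsFF k F]

theorem two_le_finrank (S : Sys k F n q) {L : Type} [Field L] [Algebra k L] [Algebra F L]
    [IsScalarTower k F L] [FiniteDimensional F L] {x : Fin (n + 1) → L} (hx : ∃ j, x j ≠ 0) :
    2 ≤ finrank L (S.V x) := by
  have hL : IsFF k L := isFF_of_finite (F := F)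
  have hD0 : der k L ≠ 0 := der_ne
  have htL : Transcendental k (algebraMap F L S.t) :=
    (transcendental_algebraMap_iff (algebraMap F L).injective).2 S.tr
  choose δ hδ using fun p => S.exists_lifts (L := L) p
  obtain ⟨rc, c, hBC, hli, hEB⟩ := S.exists_colsB (der_ne_zero hD0 htL) δ hx
  obtain ⟨j0, hj0⟩ := id hx
  have := S.finrank_V hD0 hδ hj0 hBC hli hEB
  omega

namespace Hyp

variable {S : Sys k F n q} (H : Hyp S b)

theorem hsum_mono {A B : Finset (MvPolynomial (Fin (n + 1)) F)} (h : A ⊆ B) :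
    Hyp.hsum k A ≤ Hyp.hsum k B :=
  Finset.sum_le_sum_of_subset_of_nonneg h fun _ _ _ => Finset.sum_nonneg fun _ _ => hgt_nonneg _

theorem finrank_add_le' {L : Type} [Field L] [Algebra k L] [Algebra F L]
    [IsScalarTower k F L] {x : Fin (n + 1) → L} {J : Finset (Fin b)}
    (hJ : ∀ j ∈ J, H.ell x j = 0) (hli : LinearIndependent F (fun j : J => H.lam j)) :
    finrank L (S.V x) + J.card ≤ n + 2 := by
  have h1 := bound_V hli (fun j : J => ∑ a, algebraMap F L (H.mu j a) * x a) (K := S.V x)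
    (fun v hv i => H.dell_zero (hJ i i.2) hv)
  rwa [Fintype.card_coe] at h1

open Classical in
theorem core1 (hb : b ≤ n + 1)
    (hl : ∀ s : Finset (Fin b), s.card ≤ n + 1 → LinearIndependent F (fun j : s => H.lam j))
    {L : Type} [Field L] [Algebra k L] [Algebra F L]
    [IsScalarTower k F L] [FiniteDimensional F L] (x : Fin (n + 1) → L) (hx : ∃ j, x j ≠ 0) :
    (H.mt k x).Finite ∧
    (∑ i, (S.d i : ℤ) + b - 2 * n - 1 + (S.Zs x).card +
      (Finset.univ.filter fun j => H.ell x j = 0).card) * pht k x ≤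
      canDeg k L + (H.mt k x).ncard +
        ((3 * (n + 2) + q) * hsum k H.PPof) * Module.finrank F L := by
  obtain ⟨J0, hJ0d⟩ : ∃ J0, J0 = Finset.univ.filter fun j => H.ell x j = 0 := ⟨_, rfl⟩
  have hJ0 : ∀ j ∈ J0, H.ell x j = 0 := by
    intro j hj
    rw [hJ0d] at hj
    exact (Finset.mem_filter.1 hj).2
  have hJc : J0.card ≤ n := card_zero_le hl hx hJ0
  rw [← hJ0d]
  have hV := H.finrank_add_le' hJ0 (hl J0 (by omega))
  have h1 := H.main_H x hx (m := n - J0.card) (c' := n + 1 - b) (by omega) (by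
    intro K' hK'
    have hu : (Finset.univ : Finset (Fin b)).card ≤ n + 1 := by
      rw [Finset.card_univ, Fintype.card_fin]; exact hb
    have h2 := bound_K (hl Finset.univ hu) (K := K') (by
      intro v hv
      obtain ⟨-, h3, h4⟩ := hK' v hv
      refine ⟨h3, fun i => ?_⟩
      have h5 := h4 i
      rw [dell_apply, h3, mul_zero, zero_add] at h5
      exact h5)
    rw [Fintype.card_coe, Finset.card_univ, Fintype.card_fin] at h2
    exact Nat.le_sub_of_add_le h2)
  refine ⟨h1.1, ?_⟩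
  have h2 := h1.2
  rw [Nat.cast_sub hJc, Nat.cast_sub hb] at h2
  push_cast at h2
  have h3 : (∑ i, (S.d i : ℤ) + b - 2 * n - 1 + (S.Zs x).card + J0.card) =
      (∑ i, (S.d i : ℤ) - (n + 1 - b) - (n - J0.card) + (S.Zs x).card) := by ring
  rw [h3]
  exact h2

open Classical in
theorem core2 (hb : b = n + 2)
    (hl : ∀ s : Finset (Fin b), s.card ≤ n + 1 → LinearIndependent F (fun j : s => H.lam j))
    (a : Fin b → F) (ha : ∀ j, a j ≠ 0) (hrel : ∀ e, ∑ j, a j * H.lam j e = 0)
    (Mm : Fin (n + 1) → Fin b → F)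
    (hMm : ∀ e e', ∑ j, Mm e j * H.lam j e' = if e = e' then 1 else 0)
    {L : Type} [Field L] [Algebra k L] [Algebra F L]
    [IsScalarTower k F L] [FiniteDimensional F L] (x : Fin (n + 1) → L) (hx : ∃ j, x j ≠ 0) :
    (H.mt k x).Finite ∧
    (∑ i, (S.d i : ℤ) + b - 2 * n - 1 + (S.Zs x).card +
      (Finset.univ.filter fun j => H.ell x j = 0).card) * pht k x ≤
      canDeg k L + (H.mt k x).ncard +
        ((3 * (n + 3) + q) * hsum k (H.PPex a Mm)) * Module.finrank F L := by
  obtain ⟨J0, hJ0d⟩ : ∃ J0, J0 = Finset.univ.filter fun j => H.ell x j = 0 := ⟨_, rfl⟩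
  have hJ0 : ∀ j, j ∈ J0 ↔ H.ell x j = 0 := by
    intro j
    rw [hJ0d, Finset.mem_filter]
    exact ⟨fun h => h.2, fun h => ⟨Finset.mem_univ _, h⟩⟩
  have hJc : J0.card ≤ n := card_zero_le hl hx fun j hj => (hJ0 j).1 hj
  rw [← hJ0d]
  have hV := H.finrank_add_le' (fun j hj => (hJ0 j).1 hj) (hl J0 (by omega))
  have h2V := two_le_finrank S hx
  have hbz : (b : ℤ) = n + 2 := by exact_mod_cast hb
  have hinj : ∀ v : O n → L, v none = 0 → (∀ j, H.dell x j v = 0) → v = 0 := by
    intro v hv hj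
    have h5 : ∀ j, ∑ e, algebraMap F L (H.lam j e) * v (some e) = 0 := by
      intro j
      have h5 := hj j
      rw [dell_apply, hv, mul_zero, zero_add] at h5
      exact h5
    funext o
    rcases o with _ | e1
    · exact hv
    · have h2 : v (some e1) = ∑ j, algebraMap F L (Mm e1 j) *
          ∑ e, algebraMap F L (H.lam j e) * v (some e) := by
        simp only [Finset.mul_sum]
        rw [Finset.sum_comm]
        have h3 : ∀ e, ∑ j, algebraMap F L (Mm e1 j) *
            (algebraMap F L (H.lam j e) * v (some e)) =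
            algebraMap F L (∑ j, Mm e1 j * H.lam j e) * v (some e) := by
          intro e
          rw [map_sum, Finset.sum_mul]
          exact Finset.sum_congr rfl fun j _ => by rw [map_mul]; ring
        rw [Finset.sum_congr rfl fun e _ => h3 e, Finset.sum_eq_single e1]
        · rw [hMm, if_pos rfl, map_one, one_mul]
        · intro e _ he
          rw [hMm, if_neg he.symm, map_zero, zero_mul]
        · simp
      rw [h2]
      exact Finset.sum_eq_zero fun j _ => by rw [h5, mul_zero]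
  have hJ0b : (Finset.univ \ J0).card = (n - J0.card) + 2 := by
    rw [Finset.card_sdiff_of_subset (Finset.subset_univ _), Finset.card_univ, Fintype.card_fin]
    omega
  by_cases hfull : finrank L (S.V x) = (n - J0.card) + 2
  · have h1 := H.main_G x hx hfull (Finset.univ \ J0) (by
      intro j
      rw [Finset.mem_sdiff, hJ0]
      exact ⟨fun h => h.2, fun h => ⟨Finset.mem_univ _, h⟩⟩) hJ0b a ha hrel
      (fun v _ => hinj v) Mm hMm
    refine ⟨h1.1, ?_⟩
    have h2 := h1.2
    rw [Nat.cast_sub hJc] at h2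
    have h3 : (∑ i, (S.d i : ℤ) + b - 2 * n - 1 + (S.Zs x).card + J0.card) =
        (∑ i, (S.d i : ℤ) + 1 - (n - J0.card) + (S.Zs x).card) := by
      rw [hbz]; ring
    rw [h3]
    exact h2
  · have h1 := H.main_H x hx (m := n - J0.card - 1) (c' := 0) (by omega) (by
      intro K' hK'
      have h2 : K' = ⊥ := by
        rw [Submodule.eq_bot_iff]
        intro v hv
        obtain ⟨-, h3, h4⟩ := hK' v hv
        exact hinj v h3 h4
      rw [h2, finrank_bot])
    refine ⟨h1.1, ?_⟩
    have h2 := h1.2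
    rw [Nat.cast_sub (show 1 ≤ n - J0.card by omega), Nat.cast_sub hJc] at h2
    push_cast at h2
    have h3 : (∑ i, (S.d i : ℤ) + b - 2 * n - 1 + (S.Zs x).card + J0.card) =
        (∑ i, (S.d i : ℤ) - 0 - (n - J0.card - 1) + (S.Zs x).card) := by
      rw [hbz]; ring
    rw [h3]
    refine h2.trans ?_
    have h4 : Hyp.hsum k H.PPof ≤ Hyp.hsum k (H.PPex a Mm) :=
      hsum_mono Finset.subset_union_left
    have h5 : 0 ≤ Hyp.hsum k H.PPof :=
      Finset.sum_nonneg fun _ _ => Finset.sum_nonneg fun _ _ => hgt_nonneg _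
    have h6 : ((3 * ((n : ℤ) + 2) + q) * Hyp.hsum k H.PPof) ≤
        ((3 * ((n : ℤ) + 3) + q) * Hyp.hsum k (H.PPex a Mm)) :=
      mul_le_mul (by linarith) h4 h5 (by positivity)
    have h7 := mul_le_mul_of_nonneg_right h6 (show (0 : ℤ) ≤ Module.finrank F L by positivity)
    linarith

end Hyp

/-- the value of a linear form -/
noncomputable def lv {L : Type} [Field L] [Algebra F L] (l : Fin (n + 1) → F)
    (x : Fin (n + 1) → L) : L := ∑ a, algebraMap F L (l a) * x a

/-- the places not over `S` where the point meets one of the divisors -/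
def trH {L : Type} [Field L] [Algebra k L] [Algebra F L] (S : Finset (Place k F))
    (d : Fin q → ℕ) (f : Fin q → MvPolynomial (Fin (n + 1)) F) (l : Fin b → Fin (n + 1) → F)
    (x : Fin (n + 1) → L) : Set (Place k L) :=
  {P | (∀ v ∈ S, ¬ Over P v) ∧ ((∃ i, aeval x (f i) ≠ 0 ∧
    (d i : ℤ) * pord P x < P.ord (aeval x (f i))) ∨
    ∃ j, lv (l j) x ≠ 0 ∧ pord P x < P.ord (lv (l j) x))}

open Classical in
/-- The height inequality for all algebraic points, for very general divisors and hyperplanes. -/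
theorem final_H {d : Fin q → ℕ} (hd : ∀ i, 0 < d i)
    {h : Fin q → MvPolynomial (Fin (n + 1)) F} (hh : ∀ i, (h i).IsHomogeneous (d i))
    (hb : b ≤ n + 2) {l : Fin b → Fin (n + 1) → F}
    (hl : ∀ s : Finset (Fin b), s.card ≤ n + 1 → LinearIndependent F (fun j : s => l j)) :
    ∃ k₁ : Subfield k, Countable k₁ ∧ ∀ S : Finset (Place k F), ∃ C : ℕ,
      ∀ g : Fin q → MvPolynomial (Fin (n + 1)) k, (∀ i, (g i).IsHomogeneous (d i)) →
      AlgebraicIndependent k₁ (fun p : (i : Fin q) × Expo n (d i) => (g p.1).coeff p.2.1) →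
      ∀ (L : Type) [Field L] [Algebra k L] [Algebra F L]
        [IsScalarTower k F L] [FiniteDimensional F L] (x : Fin (n + 1) → L), (∃ j, x j ≠ 0) →
        (trH S d (fun i => h i + map (algebraMap k F) (g i)) l x).Finite ∧
        (∑ i, (d i : ℤ) + b - 2 * n - 1 +
            (Finset.univ.filter fun i => aeval x (h i + map (algebraMap k F) (g i)) = 0).card +
            (Finset.univ.filter fun j => lv (l j) x = 0).card) *
          pht k x ≤ (trH S d (fun i => h i + map (algebraMap k F) (g i)) l x).ncard +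
            disc k F L + C * Module.finrank F L := by
  obtain ⟨t, ht⟩ := IsFF.exists_transcendental (k := k) (K := F)
  have ht1 : der k F t ≠ 0 := der_ne_zero der_ne ht
  obtain ⟨k₁, hk₁, hO⟩ := exists_over1 ht
    ((Finset.univ.biUnion fun i => (h i).support.image fun α => (h i).coeff α) ∪
      (Finset.univ.image fun w : Fin b × Fin (n + 1) => l w.1 w.2))
  obtain ⟨Dt, hDtd⟩ : ∃ Dt, Dt = (der k F t)⁻¹ • der k F := ⟨_, rfl⟩
  have hDt : Dt t = 1 := by
    rw [hDtd, Derivation.coe_smul, Pi.smul_apply, smul_eq_mul, inv_mul_cancel₀ ht1]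
  have hO1 : ∀ i, ∀ α ∈ (h i).support, Over1 k₁ t ((h i).coeff α) := by
    intro i α hα
    apply hO
    apply Finset.mem_union_left
    rw [Finset.mem_biUnion]
    exact ⟨i, Finset.mem_univ _, Finset.mem_image_of_mem _ hα⟩
  have hO2 : ∀ j a, Over1 k₁ t (l j a) := by
    intro j a
    apply hO
    apply Finset.mem_union_right
    rw [Finset.mem_image]
    exact ⟨(j, a), Finset.mem_univ _, rfl⟩
  obtain ⟨a, Mm, haM⟩ : ∃ (a : Fin b → F) (Mm : Fin (n + 1) → Fin b → F), b = n + 2 →
      (∀ j, a j ≠ 0) ∧ (∀ e, ∑ j, a j * l j e = 0) ∧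
      ∀ e e', ∑ j, Mm e j * l j e' = if e = e' then 1 else 0 := by
    by_cases hb2 : b = n + 2
    · obtain ⟨a, Mm, h1, h2, h3⟩ := exists_rel hb2 hl
      exact ⟨a, Mm, fun _ => ⟨h1, h2, h3⟩⟩
    · exact ⟨0, 0, fun h => absurd h hb2⟩
  obtain ⟨K1, hK1⟩ : ∃ K1 : ℤ, K1 = (3 * (n + 3) + q) * (Hyp.hb k h t l +
      (∑ j, hgt k (a j) + (∑ j, hgt k (a j) + ∑ w : Fin (n + 1) × Fin b, hgt k (Mm w.1 w.2)))) :=
    ⟨_, rfl⟩
  obtain ⟨C2, hC2⟩ := canDeg_le_disc.{0, 0, 0} (k := k) (F := F)
  refine ⟨k₁, hk₁, fun T => ?_⟩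
  obtain ⟨C3, hC3⟩ := over_card.{0, 0, 0} (k := k) T
  refine ⟨K1.toNat + C2 + C3, fun g hg hai L _ _ _ _ _ x hx => ?_⟩
  obtain ⟨S, hSd, hSf, hSt, hSk⟩ := exists_sys hd hh hg ht hO1 hDt hai
  obtain ⟨H, hHl⟩ := exists_hyp S (by rw [hSt]; exact hDt) hSk l (by rw [hSt]; exact hO2)
  have hl' : ∀ s : Finset (Fin b), s.card ≤ n + 1 →
      LinearIndependent F (fun j : s => H.lam j) := by rw [hHl]; exact hl
  have hbd : Hyp.hsum k (H.PPex a Mm) ≤ Hyp.hb k h t l + (∑ j, hgt k (a j) +
      (∑ j, hgt k (a j) + ∑ w : Fin (n + 1) × Fin b, hgt k (Mm w.1 w.2))) := by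
    have := H.hsum_PPex_le hSf a Mm
    rwa [hSt, hHl] at this
  have hK : ((3 * ((n : ℤ) + 3) + q) * Hyp.hsum k (H.PPex a Mm)) * Module.finrank F L ≤
      K1.toNat * Module.finrank F L := by
    refine mul_le_mul_of_nonneg_right ?_ (by positivity)
    refine le_trans ?_ (Int.self_le_toNat K1)
    rw [hK1]
    exact mul_le_mul_of_nonneg_left hbd (by positivity)
  obtain ⟨hfin, h1⟩ : (H.mt k x).Finite ∧
    (∑ i, (S.d i : ℤ) + b - 2 * n - 1 + (S.Zs x).card +
      (Finset.univ.filter fun j => H.ell x j = 0).card) * pht k x ≤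
      canDeg k L + (H.mt k x).ncard +
        ((3 * (n + 3) + q) * Hyp.hsum k (H.PPex a Mm)) * Module.finrank F L := by
    by_cases hb2 : b = n + 2
    · obtain ⟨h1, h2, h3⟩ := haM hb2
      exact H.core2 hb2 hl' a h1 (by rw [hHl]; exact h2) Mm (by rw [hHl]; exact h3) x hx
    · obtain ⟨h1, h2⟩ := H.core1 (by omega) hl' x hx
      refine ⟨h1, h2.trans ?_⟩
      have h4 : Hyp.hsum k H.PPof ≤ Hyp.hsum k (H.PPex a Mm) :=
        Hyp.hsum_mono Finset.subset_union_left
      have h5 : 0 ≤ Hyp.hsum k H.PPof :=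
        Finset.sum_nonneg fun _ _ => Finset.sum_nonneg fun _ _ => hgt_nonneg _
      have h6 : ((3 * ((n : ℤ) + 2) + q) * Hyp.hsum k H.PPof) ≤
          ((3 * ((n : ℤ) + 3) + q) * Hyp.hsum k (H.PPex a Mm)) :=
        mul_le_mul (by linarith) h4 h5 (by positivity)
      have h7 := mul_le_mul_of_nonneg_right h6 (show (0 : ℤ) ≤ Module.finrank F L by positivity)
      linarith
  have h2 := hC2 L
  obtain ⟨h3, h4⟩ := hC3 L
  have hell : ∀ j, H.ell x j = lv (l j) x := by
    intro j
    unfold Hyp.ell lv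
    rw [hHl]
  have hsub : trH T d (fun i => h i + map (algebraMap k F) (g i)) l x ⊆ H.mt k x := by
    rintro P ⟨_, ⟨i, h5, h6⟩ | ⟨j, h5, h6⟩⟩
    · left
      refine ⟨i, ?_, ?_⟩
      · rw [hSf]; exact h5
      · rw [hSf, hSd]; exact h6
    · right
      refine ⟨j, ?_, ?_⟩
      · rw [hell]; exact h5
      · rw [hell]; exact h6
  have hsub2 : H.mt k x ⊆ trH T d (fun i => h i + map (algebraMap k F) (g i)) l x ∪
      {P : Place k L | ∃ v ∈ T, Over P v} := by
    intro P hP
    by_cases h7 : ∃ v ∈ T, Over P v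
    · exact Or.inr h7
    · left
      refine ⟨fun v hv hov => h7 ⟨v, hv, hov⟩, ?_⟩
      rcases hP with ⟨i, h5, h6⟩ | ⟨j, h5, h6⟩
      · left
        rw [hSf] at h5 h6
        rw [hSd] at h6
        exact ⟨i, h5, h6⟩
      · right
        rw [hell] at h5 h6
        exact ⟨j, h5, h6⟩
  have htr := hfin.subset hsub
  refine ⟨htr, ?_⟩
  have h8 : (H.mt k x).ncard ≤
      (trH T d (fun i => h i + map (algebraMap k F) (g i)) l x).ncard +
      {P : Place k L | ∃ v ∈ T, Over P v}.ncard :=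
    (Set.ncard_le_ncard hsub2 (htr.union h3)).trans (Set.ncard_union_le _ _)
  have h9 : (((H.mt k x).ncard : ℕ) : ℤ) ≤
      (trH T d (fun i => h i + map (algebraMap k F) (g i)) l x).ncard +
      {P : Place k L | ∃ v ∈ T, Over P v}.ncard := by exact_mod_cast h8
  have h10 : S.Zs x =
      Finset.univ.filter fun i => aeval x (h i + map (algebraMap k F) (g i)) = 0 := by
    ext i
    rw [S.mem_Zs, Finset.mem_filter, hSf]
    simp
  have h11 : (Finset.univ.filter fun j => H.ell x j = 0) =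
      Finset.univ.filter fun j => lv (l j) x = 0 := by
    ext j
    rw [Finset.mem_filter, Finset.mem_filter, hell]
  rw [h10, h11, hSd] at h1
  push_cast
  linarith

end Pool.Agent.TH875.Vg
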