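import Pool.Agent.TH875.Vg.KapD

/-! Canonical degrees of curves on coverings. -/

set_option autoImplicit false

open FF MvPolynomial
open Pool.Agent.W603.LV Pool.Agent.W603.PV

namespace Pool.Agent.TH875.Vg

variable {k : Type} [Field k] [IsAlgClosed k] {n q : ℕ}

/-- Nullstellensatz -/
theorem rad_of_free {N : ℕ} {J : Ideal (MvPolynomial (Fin (N + 1)) k)}
    {p : Fin (n + 1) → MvPolynomial (Fin (N + 1)) k}
    (hfree : ∀ a : Fin (N + 1) → k, (∀ f ∈ J, eval a f = 0) → (∀ j, eval a (p j) = 0) → a = 0)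
    (j : Fin (N + 1)) : X j ∈ (J ⊔ Ideal.span (Set.range p)).radical := by
  rw [← vanishingIdeal_zeroLocus_eq_radical (k := k) (K := k)]
  rw [mem_vanishingIdeal_iff]
  intro a ha
  rw [mem_zeroLocus_iff] at ha
  have h1 := hfree a (fun f hf => by
    have := ha f (Ideal.mem_sup_left hf)
    rwa [aeval_eq_eval] at this) (fun j => by
    have := ha (p j) (Ideal.mem_sup_right (Ideal.subset_span ⟨j, rfl⟩))
    rwa [aeval_eq_eval] at this)
  rw [aeval_X, h1]
  rfl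

variable [CharZero k]

/-- The degree bound on a covering. -/
theorem deg_cover {d e : Fin q → ℕ} (he : ∀ i, 0 < e i)
    {I : Ideal (MvPolynomial (Fin (n + 1)) k)} {δ : ℚ}
    {g : Fin q → MvPolynomial (Fin (n + 1)) k} (hg : ∀ i, (g i).IsHomogeneous (d i))
    (hmain : ∀ (L : Type) [Field L] [Algebra k L] [IsFF k L] (x : Fin (n + 1) → L),
        (∃ a b, x b ≠ 0 ∧ Transcendental k (x a / x b)) → (∀ f ∈ I, aeval x f = 0) →
        (∀ P : Place k L, ∀ i, aeval x (g i) ≠ 0 →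
          (d i : ℤ) * pord P x < P.ord (aeval x (g i)) →
          (d i : ℤ) * pord P x + e i ≤ P.ord (aeval x (g i))) →
        δ * pht k x ≤ canDeg k L)
    {N c : ℕ} (hc : 0 < c) {J : Ideal (MvPolynomial (Fin (N + 1)) k)}
    (hJ : ∀ f ∈ J, ∀ M, homogeneousComponent M f ∈ J)
    {p : Fin (n + 1) → MvPolynomial (Fin (N + 1)) k} (hp : ∀ j, (p j).IsHomogeneous c)
    (hfree : ∀ a : Fin (N + 1) → k, (∀ f ∈ J, eval a f = 0) → (∀ j, eval a (p j) = 0) → a = 0)
    (hIp : ∀ f ∈ I, bind₁ p f ∈ J)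
    (hpow : ∀ i, ∃ M : ℕ, ∀ j, X j ^ M * bind₁ p (g i) ∈
      (J ⊔ Ideal.span {bind₁ p (g i)}).radical ^ e i ⊔ J)
    (L : Type) [Field L] [Algebra k L] [IsFF k L] (z : Fin (N + 1) → L)
    (hz : ∃ a b, z b ≠ 0 ∧ Transcendental k (z a / z b)) (hzJ : ∀ f ∈ J, aeval z f = 0) :
    δ * (c * pht k z) ≤ canDeg k L := by
  have hrad := rad_of_free hfree
  obtain ⟨a, b, hb, hab⟩ := hz
  have hz0 : ∃ j, z j ≠ 0 := ⟨b, hb⟩
  obtain ⟨hx0, hht⟩ := pht_map (L := L) hJ hz0 hzJ hp hrad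
  have hzpos : 0 < pht k z := (hgt_pos_of_tr hab).trans_le (hgt_le_pht hb hab)
  have hxpos : 0 < pht k (fun j => aeval z (p j)) := by
    rw [hht]
    have : (0 : ℤ) < c := by exact_mod_cast hc
    positivity
  have hval : ∀ f : MvPolynomial (Fin (n + 1)) k, aeval (fun j => aeval z (p j)) f =
      aeval z (bind₁ p f) := by
    intro f
    rw [aeval_bind₁]
  have h1 := hmain L (fun j => aeval z (p j)) (nonconst_of_pht hx0 hxpos) (fun f hf => by
    rw [hval]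
    exact hzJ _ (hIp f hf)) (fun P i h0 h1 => by
      rw [hval] at h0 h1 ⊢
      have hpo := (pord_map P hJ hz0 hzJ hp hrad).2
      rw [hpo] at h1 ⊢
      have hG : (bind₁ p (g i)).IsHomogeneous (c * d i) := by
        have := (hg i).aeval (φ := g i) p hp
        exact this
      have h2 := contact_ge P hJ hz0 hzJ hG (hpow i) h0 (by
        push_cast
        linarith)
      push_cast at h2
      linarith)
  rw [hht] at h1
  push_cast at h1
  exact h1

/-- Canonical degrees of curves on coverings. -/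
theorem final_S {d e : Fin q → ℕ} (hd : ∀ i, 0 < d i) (he : ∀ i, 0 < e i)
    {I : Ideal (MvPolynomial (Fin (n + 1)) k)}
    (hI : ∀ f ∈ I, ∀ N, homogeneousComponent N f ∈ I) {m : ℕ}
    (hdim : Algebra.trdeg k (MvPolynomial (Fin (n + 1)) k ⧸ I) ≤ m + 1)
    (hδ : (2 * m : ℚ) < ∑ i, (d i : ℚ) * (1 - 1 / e i)) :
    ∃ k₁ : Subfield k, Countable k₁ ∧
      ∀ g : Fin q → MvPolynomial (Fin (n + 1)) k, (∀ i, (g i).IsHomogeneous (d i)) →
      AlgebraicIndependent k₁ (fun p : (i : Fin q) × Expo n (d i) => (g p.1).coeff p.2.1) →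
      ∀ (N c : ℕ) (J : Ideal (MvPolynomial (Fin (N + 1)) k))
        (p : Fin (n + 1) → MvPolynomial (Fin (N + 1)) k), 0 < c →
        (∀ f ∈ J, ∀ M, homogeneousComponent M f ∈ J) → (∀ j, (p j).IsHomogeneous c) →
        (∀ a : Fin (N + 1) → k, (∀ f ∈ J, eval a f = 0) → (∀ j, eval a (p j) = 0) → a = 0) →
        (∀ f ∈ I, bind₁ p f ∈ J) →
        (∀ i, ∃ M : ℕ, ∀ j, X j ^ M * bind₁ p (g i) ∈
          (J ⊔ Ideal.span {bind₁ p (g i)}).radical ^ e i ⊔ J) →
        ∃ A : ℕ, ∀ (L : Type) [Field L] [Algebra k L] [IsFF k L] (z : Fin (N + 1) → L),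
          (∃ a b, z b ≠ 0 ∧ Transcendental k (z a / z b)) → (∀ f ∈ J, aeval z f = 0) →
          (∑ i, (d i : ℚ) * (1 - 1 / e i) - 2 * m) * (c * pht k z) ≤ canDeg k L ∧
          ∀ u : Fin (m + 1) → Fin (N + 1) → L, LinearIndependent L u →
          (∀ v, v ∈ Submodule.span L (Set.range u) ↔
            ∀ f ∈ J, ∑ j, aeval z (pderiv j f) * v j = 0) →
          ght k (mins u) - (m + 1) * pht k z ≤ A * canDeg k L := by
  obtain ⟨k₁, hk₁, h1⟩ := final_O (k := k) hd he hI hdim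
  refine ⟨k₁, hk₁, fun g hg hai => ?_⟩
  intro N c J p hc hJ hp hfree hIp hpow
  obtain ⟨κ, hκ⟩ := exists_kappa hJ m
  obtain ⟨δ, hδd⟩ : ∃ δ, δ = ∑ i, (d i : ℚ) * (1 - 1 / e i) - 2 * m := ⟨_, rfl⟩
  have hδ0 : 0 < δ := by rw [hδd]; linarith
  obtain ⟨A, hA⟩ := exists_nat_ge ((κ : ℚ) / δ)
  refine ⟨A, fun L _ _ _ z hz hzJ => ?_⟩
  have h2 := deg_cover (d := d) (e := e) he hg (I := I) (δ := δ)
    (fun L _ _ _ x hx hxI horb => by
      obtain ⟨r, hr, u, hu, -, -, -, h3⟩ := h1 g hg hai L x hx hxI horb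
      obtain ⟨a, b, hb, -⟩ := hx
      have hpos : (0 : ℚ) ≤ pht k x := by exact_mod_cast pht_nonneg ⟨b, hb⟩
      have hg0 : (0 : ℚ) ≤ ght k (mins u) := by exact_mod_cast ght_nonneg (exists_mins hu)
      have h7 : (0 : ℚ) ≤ 2 * ((m : ℚ) - r) * pht k x := by
        have : (r : ℚ) ≤ m := by exact_mod_cast hr
        have : (0 : ℚ) ≤ (m : ℚ) - r := by linarith
        positivity
      rw [hδd]
      nlinarith [h3, hg0, h7])
    hc hJ hp hfree hIp hpow L z hz hzJ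
  rw [← hδd]
  refine ⟨h2, fun u hu huT => ?_⟩
  obtain ⟨a, b, hb, hab⟩ := hz
  have h3 := hκ L z ⟨b, hb⟩ hzJ u hu huT
  have hzpos : 0 ≤ pht k z := pht_nonneg ⟨b, hb⟩
  have hq : (0 : ℚ) ≤ pht k z := by exact_mod_cast hzpos
  have hc1 : (1 : ℚ) ≤ c := by exact_mod_cast hc
  have h4 : δ * pht k z ≤ canDeg k L := by
    refine le_trans ?_ h2
    rw [mul_comm (c : ℚ) _, ← mul_assoc]
    exact le_mul_of_one_le_right (by positivity) hc1
  have h5 : (0 : ℚ) ≤ canDeg k L := le_trans (by positivity) h4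
  have h6 : ((ght k (mins u) - (m + 1) * pht k z : ℤ) : ℚ) ≤ ((A * canDeg k L : ℤ) : ℚ) := by
    have h7 : ((ght k (mins u) : ℤ) : ℚ) ≤ κ * pht k z := by exact_mod_cast h3
    have h8 : (κ : ℚ) * pht k z ≤ A * canDeg k L := by
      calc (κ : ℚ) * pht k z = κ / δ * (δ * pht k z) := by field_simp
        _ ≤ κ / δ * canDeg k L := mul_le_mul_of_nonneg_left h4 (by positivity)
        _ ≤ A * canDeg k L := mul_le_mul_of_nonneg_right hA h5
    push_cast
    have h9 : (0 : ℚ) ≤ ((m : ℚ) + 1) * pht k z := by positivity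
    linarith
  exact_mod_cast h6

end Pool.Agent.TH875.Vg
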