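import Pool.Agent.TH875.Vg.CoreU

/-! Very general divisors and hyperplane sections on a projective variety with a finite
projection. -/

set_option autoImplicit false

open FF MvPolynomial
open Pool.Agent.W603.LV Pool.Agent.W603.PV

namespace Pool.Agent.TH875.Vg

open Module Sys

variable {k F : Type} [Field k] [Field F] [Algebra k F] {n q b m : ℕ}

/-- the linear forms pulled back by a projection -/
def pb (A : Fin b → Fin (m + 1) → F) (p : Fin (m + 1) → Fin (n + 1) → F) (j : Fin b)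
    (c : Fin (n + 1)) : F := ∑ i, A j i * p i c

variable [CharZero k] [IsAlgClosed k] [IsFF k F]

open Classical in
/-- The height inequality for all algebraic points of a projective variety, for very general
divisors and hyperplane sections. -/
theorem final_U {d : Fin q → ℕ} (hd : ∀ i, 0 < d i)
    {h : Fin q → MvPolynomial (Fin (n + 1)) F} (hh : ∀ i, (h i).IsHomogeneous (d i))
    {I : Ideal (MvPolynomial (Fin (n + 1)) F)}
    (hI : ∀ f ∈ I, ∀ N, homogeneousComponent N f ∈ I) {p : Fin (m + 1) → Fin (n + 1) → F}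
    (hp : ∀ (E : Type) [Field E] [Algebra F E] [FiniteDimensional F E] (y : Fin (n + 1) → E),
      (∀ f ∈ I, aeval y f = 0) → (∀ i, lv (p i) y = 0) → y = 0)
    (hb : b ≤ m + 2) {A : Fin b → Fin (m + 1) → F}
    (hA : ∀ s : Finset (Fin b), s.card ≤ m + 1 → LinearIndependent F (fun j : s => A j)) :
    ∃ k₁ : Subfield k, Countable k₁ ∧ ∀ S : Finset (Place k F), ∃ C : ℕ,
      ∀ g : Fin q → MvPolynomial (Fin (n + 1)) k, (∀ i, (g i).IsHomogeneous (d i)) →
      AlgebraicIndependent k₁ (fun p : (i : Fin q) × Expo n (d i) => (g p.1).coeff p.2.1) →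
      ∀ (L : Type) [Field L] [Algebra k L] [Algebra F L]
        [IsScalarTower k F L] [FiniteDimensional F L] (x : Fin (n + 1) → L), (∃ j, x j ≠ 0) →
        (∀ f ∈ I, aeval x f = 0) →
        (trH S d (fun i => h i + map (algebraMap k F) (g i)) (pb A p) x).Finite ∧
        (∑ i, (d i : ℤ) + b - 2 * m - 1 +
            (Finset.univ.filter fun i => aeval x (h i + map (algebraMap k F) (g i)) = 0).card +
            (Finset.univ.filter fun j => lv (pb A p j) x = 0).card) *
          pht k x ≤ (trH S d (fun i => h i + map (algebraMap k F) (g i)) (pb A p) x).ncard +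
            disc k F L + C * Module.finrank F L := by
  obtain ⟨t, ht⟩ := IsFF.exists_transcendental (k := k) (K := F)
  have ht1 : der k F t ≠ 0 := der_ne_zero der_ne ht
  choose N Φ hΦ1 hΦ2 hΦ3 using exists_Phi hI hp
  obtain ⟨l, hl⟩ : ∃ l, l = pb A p := ⟨_, rfl⟩
  rw [← hl]
  obtain ⟨k₁, hk₁, hO⟩ := exists_over1 ht
    ((((Finset.univ.biUnion fun i => (h i).support.image fun α => (h i).coeff α) ∪
      (Finset.univ.image fun w : Fin b × Fin (n + 1) => l w.1 w.2)) ∪
      (Finset.univ.image fun w : Fin (n + 1) × Fin (m + 2) × Fin (n + 1) =>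
        cp w.1 p w.2.1 w.2.2)) ∪
      ((Finset.univ.biUnion fun a : Fin (n + 1) => (Φ a).support.image fun α => (Φ a).coeff α) ∪
        {0}))
  obtain ⟨Dt, hDtd⟩ : ∃ Dt, Dt = (der k F t)⁻¹ • der k F := ⟨_, rfl⟩
  have hDt : Dt t = 1 := by
    rw [hDtd, Derivation.coe_smul, Pi.smul_apply, smul_eq_mul, inv_mul_cancel₀ ht1]
  have hO1 : ∀ i, ∀ α ∈ (h i).support, Over1 k₁ t ((h i).coeff α) := by
    intro i α hα
    apply hO
    refine Finset.mem_union_left _ (Finset.mem_union_left _ (Finset.mem_union_left _ ?_))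
    rw [Finset.mem_biUnion]
    exact ⟨i, Finset.mem_univ _, Finset.mem_image_of_mem _ hα⟩
  have hO2 : ∀ j a, Over1 k₁ t (l j a) := by
    intro j a
    apply hO
    refine Finset.mem_union_left _ (Finset.mem_union_left _ (Finset.mem_union_right _ ?_))
    rw [Finset.mem_image]
    exact ⟨(j, a), Finset.mem_univ _, rfl⟩
  have hO3 : ∀ a j c, Over1 k₁ t (cp a p j c) := by
    intro a j c
    apply hO
    refine Finset.mem_union_left _ (Finset.mem_union_right _ ?_)
    rw [Finset.mem_image]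
    exact ⟨(a, j, c), Finset.mem_univ _, rfl⟩
  have hO4 : ∀ a α, Over1 k₁ t ((Φ a).coeff α) := by
    intro a α
    apply hO
    by_cases hα : (Φ a).coeff α = 0
    · rw [hα]
      exact Finset.mem_union_right _ (Finset.mem_union_right _ (Finset.mem_singleton_self _))
    · refine Finset.mem_union_right _ (Finset.mem_union_left _ ?_)
      rw [Finset.mem_biUnion]
      exact ⟨a, Finset.mem_univ _, Finset.mem_image_of_mem _
        (MvPolynomial.mem_support_iff.2 hα)⟩
  obtain ⟨a, Mm, haM⟩ : ∃ (a : Fin b → F) (Mm : Fin (m + 1) → Fin b → F), b = m + 2 →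
      (∀ j, a j ≠ 0) ∧ (∀ e, ∑ j, a j * A j e = 0) ∧
      ∀ e e', ∑ j, Mm e j * A j e' = if e = e' then 1 else 0 := by
    by_cases hb2 : b = m + 2
    · obtain ⟨a, Mm, h1, h2, h3⟩ := exists_rel hb2 hA
      exact ⟨a, Mm, fun _ => ⟨h1, h2, h3⟩⟩
    · exact ⟨0, 0, fun h => absurd h hb2⟩
  obtain ⟨E, hE⟩ : ∃ E : Finset F, E = ((Finset.univ.image a ∪ Finset.univ.image fun j => (a j)⁻¹) ∪
      (Finset.univ.image fun w : Fin (m + 1) × Fin b => Mm w.1 w.2)) ∪
      (Finset.univ.biUnion fun a : Fin (n + 1) => (Φ a).support.image fun α => (Φ a).coeff α) :=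
    ⟨_, rfl⟩
  have hE1 : ∀ j, a j ∈ E := by
    intro j
    rw [hE]
    exact Finset.mem_union_left _ (Finset.mem_union_left _ (Finset.mem_union_left _
      (Finset.mem_image_of_mem _ (Finset.mem_univ _))))
  have hE2 : ∀ j, (a j)⁻¹ ∈ E := by
    intro j
    rw [hE]
    refine Finset.mem_union_left _ (Finset.mem_union_left _ (Finset.mem_union_right _ ?_))
    rw [Finset.mem_image]
    exact ⟨j, Finset.mem_univ _, rfl⟩
  have hE3 : ∀ e j, Mm e j ∈ E := by
    intro e j
    rw [hE]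
    refine Finset.mem_union_left _ (Finset.mem_union_right _ ?_)
    rw [Finset.mem_image]
    exact ⟨(e, j), Finset.mem_univ _, rfl⟩
  have hE4 : ∀ c, ∀ α ∈ (Φ c).support, (Φ c).coeff α ∈ E := by
    intro c α hα
    rw [hE]
    refine Finset.mem_union_right _ ?_
    rw [Finset.mem_biUnion]
    exact ⟨c, Finset.mem_univ _, Finset.mem_image_of_mem _ hα⟩
  obtain ⟨K1, hK1⟩ : ∃ K1 : ℤ, K1 = (3 * (n + 4) + q) * (Hyp.hb k h t l + ∑ η ∈ E, hgt k η) :=
    ⟨_, rfl⟩
  obtain ⟨C2, hC2⟩ := canDeg_le_disc.{0, 0, 0} (k := k) (F := F)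
  refine ⟨k₁, hk₁, fun T => ?_⟩
  obtain ⟨C3, hC3⟩ := over_card.{0, 0, 0} (k := k) T
  refine ⟨K1.toNat + C2 + C3, fun g hg hai L _ _ _ _ _ x hx hxI => ?_⟩
  obtain ⟨S, hSd, hSf, hSt, hSk⟩ := exists_sys hd hh hg ht hO1 hDt hai
  obtain ⟨H, hHl⟩ := exists_hyp S (by rw [hSt]; exact hDt) hSk l (by rw [hSt]; exact hO2)
  have hlam : ∀ j c, H.lam j c = ∑ i, A j i * p i c := by
    intro j c
    rw [hHl, hl]
    rfl
  have hΦ4 : ∀ c, aeval (fun j => lv (cp c p j) x) (Φ c) = 0 := by
    intro c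
    have h1 := hxI _ (hΦ3 c)
    rw [comp_aeval_apply] at h1
    rw [← h1]
    congr 2
    funext j
    exact (aeval_lp _ _).symm
  have hinj : ∀ v ∈ S.V x, pj L p v = 0 → v = 0 := by
    intro v hv h0
    refine pj_inj (Dt := Dt) (fun a => exists_hyp S (by rw [hSt]; exact hDt) hSk (cp a p)
      (by rw [hSt]; exact hO3 a)) (fun a => ⟨N a, Φ a, hΦ1 a, fun α => ?_, ?_, hΦ4 a⟩) hv h0
    · exact nice_of_over1 S (by rw [hSt]; exact hDt) hSk (by rw [hSt]; exact hO4 a α)
    · rw [hΦ2]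
      exact one_ne_zero
  have hpx : ∃ i, lv (p i) x ≠ 0 := by
    by_contra hcon
    push Not at hcon
    obtain ⟨j, hj⟩ := hx
    exact hj (congrFun (hp L x hxI hcon) j)
  have hbd : Hyp.hsum k (H.PPu E) ≤ Hyp.hb k h t l + ∑ η ∈ E, hgt k η := by
    have := H.hsum_PPu_le hSf E
    rwa [hSt, hHl] at this
  have hK : ((3 * ((n : ℤ) + 4) + q) * Hyp.hsum k (H.PPu E)) * Module.finrank F L ≤
      K1.toNat * Module.finrank F L := by
    refine mul_le_mul_of_nonneg_right ?_ (by positivity)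
    refine le_trans ?_ (Int.self_le_toNat K1)
    rw [hK1]
    exact mul_le_mul_of_nonneg_left hbd (by positivity)
  obtain ⟨hfin, h1⟩ : (H.mt k x).Finite ∧
    (∑ i, (S.d i : ℤ) + b - 2 * m - 1 + (S.Zs x).card +
      (Finset.univ.filter fun j => H.ell x j = 0).card) * pht k x ≤
      canDeg k L + (H.mt k x).ncard +
        ((3 * (n + 4) + q) * Hyp.hsum k (H.PPu E)) * Module.finrank F L := by
    by_cases hb2 : b = m + 2
    · obtain ⟨h1, h2, h3⟩ := haM hb2
      exact H.core2U hlam hb2 hA a h1 h2 Mm h3 E hE1 hE2 hE3 x hx hpx hinj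
        fun c => ⟨N c, Φ c, hΦ1 c, hΦ2 c, hΦ4 c, hE4 c⟩
    · obtain ⟨h1, h2⟩ := H.core1U hlam (by omega) hA x hx hpx hinj
      refine ⟨h1, h2.trans ?_⟩
      have h4 : Hyp.hsum k H.PPof ≤ Hyp.hsum k (H.PPu E) :=
        Hyp.hsum_mono Finset.subset_union_left
      have h5 : 0 ≤ Hyp.hsum k H.PPof :=
        Finset.sum_nonneg fun _ _ => Finset.sum_nonneg fun _ _ => hgt_nonneg _
      have h6 : ((3 * ((n : ℤ) + 2) + q) * Hyp.hsum k H.PPof) ≤
          ((3 * ((n : ℤ) + 4) + q) * Hyp.hsum k (H.PPu E)) :=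
        mul_le_mul (by linarith) h4 h5 (by positivity)
      have h7 := mul_le_mul_of_nonneg_right h6 (show (0 : ℤ) ≤ Module.finrank F L by positivity)
      linarith
  have h2 := hC2 L
  obtain ⟨h3, h4⟩ := hC3 L
  have hell : ∀ j, H.ell x j = lv (l j) x := by
    intro j
    unfold Hyp.ell lv
    rw [hHl]
  have hsub : trH T d (fun i => h i + map (algebraMap k F) (g i)) l x ⊆ H.mt k x := by
    rintro P ⟨_, ⟨i, h5, h6⟩ | ⟨j, h5, h6⟩⟩
    · left
      refine ⟨i, ?_, ?_⟩
      · rw [hSf]; exact h5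
      · rw [hSf, hSd]; exact h6
    · right
      refine ⟨j, ?_, ?_⟩
      · rw [hell]; exact h5
      · rw [hell]; exact h6
  have hsub2 : H.mt k x ⊆ trH T d (fun i => h i + map (algebraMap k F) (g i)) l x ∪
      {P : Place k L | ∃ v ∈ T, Over P v} := by
    intro P hP
    by_cases h7 : ∃ v ∈ T, Over P v
    · exact Or.inr h7
    · left
      refine ⟨fun v hv hov => h7 ⟨v, hv, hov⟩, ?_⟩
      rcases hP with ⟨i, h5, h6⟩ | ⟨j, h5, h6⟩
      · left
        rw [hSf] at h5 h6
        rw [hSd] at h6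
        exact ⟨i, h5, h6⟩
      · right
        rw [hell] at h5 h6
        exact ⟨j, h5, h6⟩
  have htr := hfin.subset hsub
  refine ⟨htr, ?_⟩
  have h8 : (H.mt k x).ncard ≤
      (trH T d (fun i => h i + map (algebraMap k F) (g i)) l x).ncard +
      {P : Place k L | ∃ v ∈ T, Over P v}.ncard :=
    (Set.ncard_le_ncard hsub2 (htr.union h3)).trans (Set.ncard_union_le _ _)
  have h9 : (((H.mt k x).ncard : ℕ) : ℤ) ≤
      (trH T d (fun i => h i + map (algebraMap k F) (g i)) l x).ncard +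
      {P : Place k L | ∃ v ∈ T, Over P v}.ncard := by exact_mod_cast h8
  have h10 : S.Zs x =
      Finset.univ.filter fun i => aeval x (h i + map (algebraMap k F) (g i)) = 0 := by
    ext i
    rw [S.mem_Zs, Finset.mem_filter, hSf]
    simp
  have h11 : (Finset.univ.filter fun j => H.ell x j = 0) =
      Finset.univ.filter fun j => lv (l j) x = 0 := by
    ext j
    rw [Finset.mem_filter, Finset.mem_filter, hell]
  rw [h10, h11, hSd] at h1
  push_cast
  linarith

end Pool.Agent.TH875.Vg
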