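import Pool.Agent.TH875.Vg.FinH

/-! Very general divisors on a subvariety, with a uniform constant. -/

set_option autoImplicit false

open FF MvPolynomial
open Pool.Agent.W603.LV Pool.Agent.W603.PV

namespace Pool.Agent.TH875.Vg

open Module Sys

variable {k F : Type} [Field k] [Field F] [Algebra k F] {n q : ℕ}

/-- the empty family of hyperplanes -/
def Hyp.empty (S : Sys k F n q) : Hyp S 0 where
  lam := fun j => j.elim0
  mu := fun j => j.elim0
  nice := fun _ _ _ _ _ j => j.elim0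

theorem finrank_none {L : Type*} [Field L] (V K : Submodule L (O n → L))
    (hV : ∃ v ∈ V, v none ≠ 0) (hK : ∀ v ∈ K, v ∈ V ∧ v none = 0) :
    finrank L K + 1 ≤ finrank L V := by
  have h1 : K < V := by
    refine lt_of_le_of_ne (fun v hv => (hK v hv).1) ?_
    rintro rfl
    obtain ⟨v, hv, hv0⟩ := hV
    exact hv0 (hK v hv).2
  exact Submodule.finrank_lt_finrank_of_lt h1

open Classical in
/-- The height inequality for all algebraic points of a projective variety. -/
theorem final_XU [CharZero k] [IsFF k F] [IsAlgClosed k] {d : Fin q → ℕ} (hd : ∀ i, 0 < d i)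
    {h : Fin q → MvPolynomial (Fin (n + 1)) F} (hh : ∀ i, (h i).IsHomogeneous (d i))
    {I : Ideal (MvPolynomial (Fin (n + 1)) F)}
    (hI : ∀ f ∈ I, ∀ N, homogeneousComponent N f ∈ I) {m : ℕ}
    (hdim : Algebra.trdeg F (MvPolynomial (Fin (n + 1)) F ⧸ I) ≤ m + 1) :
    ∃ k₁ : Subfield k, Countable k₁ ∧ ∀ S : Finset (Place k F), ∃ C : ℕ,
      ∀ g : Fin q → MvPolynomial (Fin (n + 1)) k, (∀ i, (g i).IsHomogeneous (d i)) →
      AlgebraicIndependent k₁ (fun p : (i : Fin q) × Expo n (d i) => (g p.1).coeff p.2.1) →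
      ∀ (L : Type) [Field L] [Algebra k L] [Algebra F L]
        [IsScalarTower k F L] [FiniteDimensional F L] (x : Fin (n + 1) → L), (∃ j, x j ≠ 0) →
        (∀ f ∈ I, aeval x f = 0) →
        (tr S d (fun i => h i + map (algebraMap k F) (g i)) x).Finite ∧
        (∑ i, (d i : ℤ) - 2 * m - 1 +
            (Finset.univ.filter fun i => aeval x (h i + map (algebraMap k F) (g i)) = 0).card) *
          pht k x ≤ (tr S d (fun i => h i + map (algebraMap k F) (g i)) x).ncard +
            disc k F L + C * Module.finrank F L := by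
  obtain ⟨t, ht⟩ := IsFF.exists_transcendental (k := k) (K := F)
  have ht1 : der k F t ≠ 0 := der_ne_zero der_ne ht
  choose N Φ hΦ1 hΦ2 hΦ3 using exists_relation hI hdim
  obtain ⟨k₁, hk₁, hO⟩ := exists_over1 ht
    ((Finset.univ.biUnion fun i => (h i).support.image fun α => (h i).coeff α) ∪
      ((Finset.univ : Finset (Fin (m + 2) → Fin (n + 1))).biUnion fun σ =>
        (Φ σ).support.image fun α => (Φ σ).coeff α) ∪ {0})
  obtain ⟨Dt, hDtd⟩ : ∃ Dt, Dt = (der k F t)⁻¹ • der k F := ⟨_, rfl⟩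
  have hDt : Dt t = 1 := by
    rw [hDtd, Derivation.coe_smul, Pi.smul_apply, smul_eq_mul, inv_mul_cancel₀ ht1]
  have hO1 : ∀ i, ∀ α ∈ (h i).support, Over1 k₁ t ((h i).coeff α) := by
    intro i α hα
    apply hO
    apply Finset.mem_union_left
    apply Finset.mem_union_left
    rw [Finset.mem_biUnion]
    exact ⟨i, Finset.mem_univ _, Finset.mem_image_of_mem _ hα⟩
  have hO2 : ∀ σ α, Over1 k₁ t ((Φ σ).coeff α) := by
    intro σ α
    apply hO
    by_cases hα : (Φ σ).coeff α = 0
    · rw [hα]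
      exact Finset.mem_union_right _ (Finset.mem_singleton_self _)
    · apply Finset.mem_union_left
      apply Finset.mem_union_right
      rw [Finset.mem_biUnion]
      exact ⟨σ, Finset.mem_univ _, Finset.mem_image_of_mem _ (mem_support_iff.2 hα)⟩
  obtain ⟨K1, hK1⟩ : ∃ K1 : ℤ, K1 = (3 * (n + 2) + q) *
      Hyp.hb k h t (fun j : Fin 0 => (j.elim0 : Fin (n + 1) → F)) := ⟨_, rfl⟩
  obtain ⟨C2, hC2⟩ := canDeg_le_disc.{0, 0, 0} (k := k) (F := F)
  refine ⟨k₁, hk₁, fun T => ?_⟩
  obtain ⟨C3, hC3⟩ := over_card.{0, 0, 0} (k := k) T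
  refine ⟨K1.toNat + C2 + C3, fun g hg hai L _ _ _ _ _ x hx hxI => ?_⟩
  obtain ⟨S, hSd, hSf, hSt, hSk⟩ := exists_sys hd hh hg ht hO1 hDt hai
  have hL : IsFF k L := isFF_of_finite (F := F)
  have hVm := S.finrank_V_le (Dt := Dt) (m := m) (x := x) fun σ =>
    ⟨N σ, Φ σ, hΦ1 σ, hΦ2 σ, fun α => nice_of_over1 S (by rw [hSt]; exact hDt) hSk (by
      rw [hSt]; exact hO2 σ α), by
      have h2 := hxI _ (hΦ3 σ)
      rw [aeval_rename] at h2
      exact h2⟩
  have htL : Transcendental k (algebraMap F L S.t) :=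
    (transcendental_algebraMap_iff (algebraMap F L).injective).2 S.tr
  obtain ⟨hfin, h1⟩ := (Hyp.empty S).main_H x hx (m := m) (c' := m + 1) hVm (by
    intro K' hK'
    have h2 := finrank_none (S.V x) K' ⟨S.vec (toZ (der k L)) x, S.vecD_mem _ x,
      der_ne_zero der_ne htL⟩ fun v hv => ⟨(hK' v hv).1, (hK' v hv).2.1⟩
    exact Nat.le_of_add_le_add_right (h2.trans hVm))
  have hmtS : (Hyp.empty S).mt k x = S.mt k x := by
    ext P
    constructor
    · rintro (h | ⟨j, _⟩)
      · exact h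
      · exact j.elim0
    · exact fun h => Or.inl h
  rw [hmtS] at hfin h1
  have hbd : Hyp.hsum k (Hyp.empty S).PPof ≤
      Hyp.hb k h t (fun j : Fin 0 => (j.elim0 : Fin (n + 1) → F)) := by
    have := (Hyp.empty S).hsum_PPof_le hSf
    rw [hSt] at this
    exact this
  have hK : ((3 * ((n : ℤ) + 2) + q) * Hyp.hsum k (Hyp.empty S).PPof) * Module.finrank F L ≤
      K1.toNat * Module.finrank F L := by
    refine mul_le_mul_of_nonneg_right ?_ (by positivity)
    refine le_trans ?_ (Int.self_le_toNat K1)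
    rw [hK1]
    exact mul_le_mul_of_nonneg_left hbd (by positivity)
  have h2 := hC2 L
  obtain ⟨h3, h4⟩ := hC3 L
  have hsub : tr T d (fun i => h i + map (algebraMap k F) (g i)) x ⊆ S.mt k x := by
    rintro P ⟨_, i, h5, h6⟩
    refine ⟨i, ?_, ?_⟩
    · rw [hSf]; exact h5
    · rw [hSf, hSd]; exact h6
  have hsub2 : S.mt k x ⊆ tr T d (fun i => h i + map (algebraMap k F) (g i)) x ∪
      {P : Place k L | ∃ v ∈ T, Over P v} := by
    rintro P ⟨i, h5, h6⟩
    rw [hSf] at h5 h6
    rw [hSd] at h6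
    by_cases h7 : ∃ v ∈ T, Over P v
    · exact Or.inr h7
    · left
      refine ⟨fun v hv hov => h7 ⟨v, hv, hov⟩, i, h5, h6⟩
  have htr := hfin.subset hsub
  refine ⟨htr, ?_⟩
  have h8 : (S.mt k x).ncard ≤ (tr T d (fun i => h i + map (algebraMap k F) (g i)) x).ncard +
      {P : Place k L | ∃ v ∈ T, Over P v}.ncard :=
    (Set.ncard_le_ncard hsub2 (htr.union h3)).trans (Set.ncard_union_le _ _)
  have h9 : (((S.mt k x).ncard : ℕ) : ℤ) ≤
      (tr T d (fun i => h i + map (algebraMap k F) (g i)) x).ncard +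
      {P : Place k L | ∃ v ∈ T, Over P v}.ncard := by exact_mod_cast h8
  have h10 : S.Zs x =
      Finset.univ.filter fun i => aeval x (h i + map (algebraMap k F) (g i)) = 0 := by
    ext i
    rw [S.mem_Zs, Finset.mem_filter, hSf]
    simp
  rw [h10, hSd] at h1
  push_cast at h1 ⊢
  have h12 : (∑ i, (d i : ℤ) - 2 * m - 1 +
      (Finset.univ.filter fun i => aeval x (h i + map (algebraMap k F) (g i)) = 0).card) =
      (∑ i, (d i : ℤ) - (m + 1) - m +
      (Finset.univ.filter fun i => aeval x (h i + map (algebraMap k F) (g i)) = 0).card) := by ring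
  rw [h12]
  linarith

end Pool.Agent.TH875.Vg
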