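import Pool.Agent.TH875.Vg.Vx

/-! Bases of the space of the derivatives. -/

set_option autoImplicit false

open FF MvPolynomial
open Pool.Agent.W603.LV Pool.Agent.W603.PV

namespace Pool.Agent.TH875.Vg

open Matrix Module

/-- Coordinates on a subspace, one of them given. -/
theorem exists_T {L : Type*} [Field L] {n : ℕ} (V : Submodule L (Option (Fin (n + 1)) → L))
    (hV : ∃ v ∈ V, v none ≠ 0) :
    1 ≤ finrank L V ∧ ∃ σ : Fin (finrank L V - 1) → Fin (n + 1),
      Function.Bijective ((LinearMap.funLeft L L (Option.map σ)).comp V.subtype) := by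
  classical
  obtain ⟨v0, hv0, hv0n⟩ := hV
  have h1 : 1 ≤ finrank L V := by
    by_contra hcon
    have h0 : finrank L V = 0 := by omega
    rw [Submodule.finrank_eq_zero] at h0
    rw [h0, Submodule.mem_bot] at hv0
    rw [hv0] at hv0n
    exact hv0n rfl
  refine ⟨h1, ?_⟩
  set fam : Option (Fin (n + 1)) → Dual L V := fun o => (LinearMap.proj o).comp V.subtype with hfam
  have hspan : Submodule.span L (fam '' Set.univ) = ⊤ := by
    rw [Set.image_univ, eq_top_iff]
    intro f _
    refine mem_span_of_iInf_ker_le_ker ?_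
    intro v hv
    have h2 : v = 0 := by
      apply Subtype.ext
      funext o
      exact (Submodule.mem_iInf _).1 hv o
    rw [h2]
    exact Submodule.zero_mem _
  have hs : LinearIndepOn L fam {none} := by
    rw [linearIndepOn_singleton_iff]
    intro h
    exact hv0n (LinearMap.congr_fun h ⟨v0, hv0⟩)
  obtain ⟨σ', -, h3, -, h5⟩ := exists_choice (A := Fin (finrank L V - 1)) fam
    (fun _ : Unit => (none : Option (Fin (n + 1)))) (fun _ _ _ => rfl) {none} Set.univ
    (fun _ => rfl) (Set.subset_univ _) hs (by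
      rw [hspan, finrank_top, Subspace.dual_finrank_eq, Fintype.card_unit, Fintype.card_fin]
      omega)
  have h6 : ∀ a, ∃ j, σ' a = some j := by
    intro a
    rcases h : σ' a with _ | j
    · exact absurd h (h3 a ())
    · exact ⟨j, rfl⟩
  choose σ hσ using h6
  refine ⟨σ, ?_⟩
  have hinj : Function.Injective ((LinearMap.funLeft L L (Option.map σ)).comp V.subtype) := by
    rw [← LinearMap.ker_eq_bot, LinearMap.ker_eq_bot']
    intro v hv
    have h7 : Submodule.span L (Set.range (fam ∘ Sum.elim (fun _ : Unit => none) σ')) = ⊤ := by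
      apply Submodule.eq_top_of_finrank_eq
      rw [finrank_span_eq_card h5, Subspace.dual_finrank_eq, Fintype.card_sum, Fintype.card_unit,
        Fintype.card_fin]
      omega
    have h8 : ∀ f : Dual L V, f v = 0 := by
      intro f
      have hf : f ∈ Submodule.span L (Set.range (fam ∘ Sum.elim (fun _ : Unit => none) σ')) := by
        rw [h7]; trivial
      induction hf using Submodule.span_induction with
      | mem f hf =>
        obtain ⟨a, rfl⟩ := hf
        rcases a with a | a
        · exact congrFun hv none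
        · have h9 := congrFun hv (some a)
          simp only [Function.comp, Sum.elim_inr, hσ]
          exact h9
      | zero => rfl
      | add f g _ _ hf hg => rw [LinearMap.add_apply, hf, hg, add_zero]
      | smul a f _ hf => rw [LinearMap.smul_apply, hf, smul_zero]
    exact (Module.forall_dual_apply_eq_zero_iff L v).1 h8
  refine ⟨hinj, ?_⟩
  refine (LinearMap.injective_iff_surjective_of_finrank_eq_finrank ?_).1 hinj
  rw [Module.finrank_fintype_fun_eq_card, Fintype.card_option, Fintype.card_fin]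
  omega

theorem full_li {L O Z B : Type*} [Field L] [Fintype O] [Fintype Z] [Fintype B] [DecidableEq Z]
    {R w : Z → O → L} {u : B → O → L} (hw : ∀ i i', R i ⬝ᵥ w i' = if i = i' then -1 else 0)
    (hu : ∀ i b, R i ⬝ᵥ u b = 0) (hli : LinearIndependent L u) :
    LinearIndependent L (Sum.elim w u) := by
  rw [Fintype.linearIndependent_iff] at hli ⊢
  intro g hg
  rw [Fintype.sum_sum_type] at hg
  simp only [Sum.elim_inl, Sum.elim_inr] at hg
  have h1 : ∀ i, g (Sum.inl i) = 0 := by
    intro i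
    have h2 := congrArg (fun v => R i ⬝ᵥ v) hg
    simp only [dotProduct_add, dotProduct_sum, dotProduct_smul, hw, hu, smul_zero,
      Finset.sum_const_zero, add_zero, dotProduct_zero] at h2
    rw [Finset.sum_eq_single i] at h2
    · simpa using h2
    · intro i' _ hi'
      rw [if_neg (fun h => hi' h.symm), smul_zero]
    · simp
  have h2 : ∑ b, g (Sum.inr b) • u b = 0 := by
    have h3 : ∑ i, g (Sum.inl i) • w i = 0 :=
      Finset.sum_eq_zero fun i _ => by rw [h1 i, zero_smul]
    rwa [h3, zero_add] at hg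
  rintro (i | b)
  · exact h1 i
  · exact hli (fun b => g (Sum.inr b)) h2 b

namespace Sys

variable {k F : Type} [Field k] [Field F] [Algebra k F] {n q : ℕ} (S : Sys k F n q)
variable {L : Type} [Field L] [Algebra k L] [Algebra F L]

/-- a vector on which the gradient of the form `i` has the value `-1` -/
noncomputable def th (δ : S.Idx → Derivation ℤ L L) (x : Fin (n + 1) → L) (j : Fin (n + 1))
    (i : Fin q) : O n → L := (x j ^ S.d i)⁻¹ • S.vec (δ ⟨i, S.pw i j⟩) x

theorem th_mem {δ : S.Idx → Derivation ℤ L L} (hδ : ∀ p, IsLift (S.dd p) (δ p))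
    (x : Fin (n + 1) → L) (j : Fin (n + 1)) (i : Fin q) : S.th δ x j i ∈ S.V x :=
  Submodule.smul_mem _ _ (S.vec_mem (hδ _) x)

theorem dot_th [IsScalarTower k F L] {δ : S.Idx → Derivation ℤ L L}
    (hδ : ∀ p, IsLift (S.dd p) (δ p)) {x : Fin (n + 1) → L} {j : Fin (n + 1)} (hj : x j ≠ 0)
    (i i' : Fin q) : S.R x i ⬝ᵥ S.th δ x j i' =
      (x j ^ S.d i')⁻¹ * δ ⟨i', S.pw i' j⟩ (aeval x (S.f i)) - if i = i' then 1 else 0 := by
  unfold th
  rw [dotProduct_smul, S.dot_vec (hδ _), smul_eq_mul, mul_sub, mon_pw]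
  congr 1
  by_cases h : i = i'
  · subst h
    rw [if_pos rfl, if_pos rfl, inv_mul_cancel₀ (pow_ne_zero _ hj)]
  · rw [if_neg (fun h' => h h'.symm), if_neg h, mul_zero]

theorem ucol_mem {m : ℕ} (D : Derivation k L L) {δ : S.Idx → Derivation ℤ L L}
    (hδ : ∀ p, IsLift (S.dd p) (δ p)) (x : Fin (n + 1) → L) {c : Fin m → Col n q S.d}
    (hc : ∀ a, BC (c a)) (a : Fin 2 ⊕ Fin m) : S.ucol D δ x c a ∈ S.V x := by
  rcases a with a | a
  · fin_cases a
    · exact S.ext0_mem x
    · exact S.vecD_mem D x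
  · exact S.col_mem hδ x (hc a)

/-- Choice of the columns. -/
theorem exists_colsB {D : Derivation k L L} (hDt : D (algebraMap F L S.t) ≠ 0)
    (δ : S.Idx → Derivation ℤ L L) {x : Fin (n + 1) → L} (hx : ∃ j, x j ≠ 0) :
    ∃ (m : ℕ) (c : Fin m → Col n q S.d), (∀ a, BC (c a)) ∧
      LinearIndependent L (S.ucol D δ x c) ∧
      S.EB D δ x ≤ Submodule.span L (Set.range (S.ucol D δ x c)) := by
  classical
  set v : Fin 2 ⊕ Col n q S.d → (O n → L) :=
    Sum.elim ![ext0 x, S.vec (toZ D) x] (S.col δ x) with hv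
  have hli1 : LinearIndependent L ![ext0 x, S.vec (toZ D) x] := by
    rw [LinearIndependent.pair_iff]
    intro a b hab
    have h1 := congrFun hab none
    simp only [Pi.add_apply, Pi.smul_apply, ext0, vec, Option.elim, smul_eq_mul, mul_zero, zero_add,
      toZ_apply, Pi.zero_apply] at h1
    have hb : b = 0 := (mul_eq_zero.1 h1).resolve_right hDt
    obtain ⟨j, hj⟩ := hx
    have h2 := congrFun hab (some j)
    rw [hb] at h2
    simp only [Pi.add_apply, Pi.smul_apply, ext0, Option.elim, smul_eq_mul, zero_mul, add_zero,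
      Pi.zero_apply] at h2
    exact ⟨(mul_eq_zero.1 h2).resolve_right hj, hb⟩
  have hli2 : LinearIndepOn L v (Set.range Sum.inl) := by
    rw [linearIndepOn_range_iff Sum.inl_injective]
    exact hli1
  have hEB : Submodule.span L (v '' (Set.range Sum.inl ∪ Sum.inr '' {c | BC c})) = S.EB D δ x := by
    unfold EB
    congr 1
    ext w
    constructor
    · rintro ⟨a, (⟨b, rfl⟩ | ⟨c, hc, rfl⟩), rfl⟩
      · left
        fin_cases b
        · exact Set.mem_insert _ _
        · exact Set.mem_insert_of_mem _ rfl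
      · exact Or.inr ⟨c, hc, rfl⟩
    · rintro (h | ⟨c, hc, rfl⟩)
      · rcases h with h | h
        · exact ⟨Sum.inl 0, Or.inl ⟨0, rfl⟩, by rw [h]; rfl⟩
        · rw [Set.mem_singleton_iff] at h
          exact ⟨Sum.inl 1, Or.inl ⟨1, rfl⟩, by rw [h]; rfl⟩
      · exact ⟨Sum.inr c, Or.inr ⟨c, hc, rfl⟩, rfl⟩
  have hle : 2 ≤ finrank L (S.EB D δ x) := by
    have h1 := finrank_span_eq_card hli1
    rw [Fintype.card_fin] at h1
    have h2 : Submodule.span L (Set.range ![ext0 x, S.vec (toZ D) x]) ≤ S.EB D δ x := by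
      unfold EB
      refine Submodule.span_mono ?_
      rintro _ ⟨a, rfl⟩
      left
      fin_cases a
      · exact Set.mem_insert _ _
      · exact Set.mem_insert_of_mem _ rfl
    have h3 := Submodule.finrank_mono h2
    omega
  obtain ⟨m, hm⟩ : ∃ m, 2 + m = finrank L (S.EB D δ x) :=
    ⟨finrank L (S.EB D δ x) - 2, by omega⟩
  obtain ⟨σ, h1, h2, _, h4⟩ := exists_choice (A := Fin m) v (Sum.inl : Fin 2 → _)
    Sum.inl_injective (Set.range Sum.inl) (Set.range Sum.inl ∪ Sum.inr '' {c | BC c})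
    (fun a => ⟨a, rfl⟩) Set.subset_union_left hli2 (by
      rw [hEB, Fintype.card_fin, Fintype.card_fin]
      exact hm)
  have h5 : ∀ a, ∃ c, BC c ∧ σ a = Sum.inr c := by
    intro a
    rcases h1 a with ⟨b, hb⟩ | ⟨c, hc, hcσ⟩
    · exact absurd hb.symm (h2 a b)
    · exact ⟨c, hc, hcσ.symm⟩
  choose c hc1 hc2 using h5
  have e : S.ucol D δ x c = v ∘ Sum.elim Sum.inl σ := by
    funext a
    rcases a with a | a
    · rfl
    · simp only [Function.comp, Sum.elim_inr, hc2, hv, ucol]
  have hli : LinearIndependent L (S.ucol D δ x c) := by rw [e]; exact h4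
  refine ⟨m, c, hc1, hli, ?_⟩
  have h6 : Submodule.span L (Set.range (S.ucol D δ x c)) ≤ S.EB D δ x := by
    rw [Submodule.span_le]
    rintro _ ⟨a, rfl⟩
    rcases a with a | a
    · fin_cases a
      · exact Submodule.subset_span (Or.inl (Set.mem_insert _ _))
      · exact Submodule.subset_span (Or.inl (Set.mem_insert_of_mem _ rfl))
    · exact Submodule.subset_span (Or.inr ⟨c a, hc1 a, rfl⟩)
  have h7 := Submodule.eq_of_le_of_finrank_eq h6 (by
    rw [finrank_span_eq_card hli, Fintype.card_sum, Fintype.card_fin, Fintype.card_fin]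
    exact hm)
  rw [h7]

/-- the vectors of a basis -/
noncomputable def bas {m : ℕ} (Z : Finset (Fin q)) (D : Derivation k L L)
    (δ : S.Idx → Derivation ℤ L L) (x : Fin (n + 1) → L) (j : Fin (n + 1))
    (c : Fin m → Col n q S.d) : Z ⊕ (Fin 2 ⊕ Fin m) → (O n → L) :=
  Sum.elim (fun z : Z => S.th δ x j z) (S.ucol D δ x c)

theorem bas_mem {m : ℕ} (Z : Finset (Fin q)) (D : Derivation k L L)
    {δ : S.Idx → Derivation ℤ L L} (hδ : ∀ p, IsLift (S.dd p) (δ p)) (x : Fin (n + 1) → L)
    (j : Fin (n + 1)) {c : Fin m → Col n q S.d} (hc : ∀ a, BC (c a)) (b : Z ⊕ (Fin 2 ⊕ Fin m)) :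
    S.bas Z D δ x j c b ∈ S.V x := by
  rcases b with b | b
  · exact S.th_mem hδ x j b
  · exact S.ucol_mem D hδ x hc b

theorem bas_li [IsScalarTower k F L] {m : ℕ} {Z : Finset (Fin q)} {D : Derivation k L L}
    {δ : S.Idx → Derivation ℤ L L} (hδ : ∀ p, IsLift (S.dd p) (δ p)) {x : Fin (n + 1) → L}
    (hZ : ∀ i ∈ Z, aeval x (S.f i) = 0)
    {j : Fin (n + 1)} (hj : x j ≠ 0) {c : Fin m → Col n q S.d}
    (hli : LinearIndependent L (S.ucol D δ x c)) : LinearIndependent L (S.bas Z D δ x j c) := by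
  refine full_li (R := fun z : Z => S.R x z) (fun i i' => ?_) (fun i b => ?_) hli
  · rw [S.dot_th hδ hj, hZ i i.2, map_zero, mul_zero, zero_sub]
    by_cases h : i = i'
    · subst h; simp
    · rw [if_neg (fun h' => h (Subtype.ext h')), if_neg h, neg_zero]
  · exact S.dot_ucol hδ (hZ i i.2) c b

variable [IsScalarTower k F L] [CharZero k] [IsFF k L]

theorem V_le_bas {m : ℕ} {D : Derivation k L L} (hD : D ≠ 0) {δ : S.Idx → Derivation ℤ L L}
    (hδ : ∀ p, IsLift (S.dd p) (δ p)) {x : Fin (n + 1) → L}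
    {j : Fin (n + 1)} (hj : x j ≠ 0) {c : Fin m → Col n q S.d}
    (hc : S.EB D δ x ≤ Submodule.span L (Set.range (S.ucol D δ x c))) :
    S.V x ≤ Submodule.span L (Set.range (S.bas (S.Zs x) D δ x j c)) := by
  classical
  intro y hy
  have hZ : ∀ i ∈ S.Zs x, aeval x (S.f i) = 0 := fun i hi => (S.mem_Zs x i).1 hi
  set y' : O n → L := y + ∑ i : S.Zs x, (S.R x i ⬝ᵥ y) • S.th δ x j i with hy'
  have h1 : y' ∈ S.V x := Submodule.add_mem _ hy
    (Submodule.sum_mem _ fun i _ => Submodule.smul_mem _ _ (S.th_mem hδ x j i))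
  have h2 : ∀ i ∈ S.Zs x, S.R x i ⬝ᵥ y' = 0 := by
    intro i hi
    rw [hy', dotProduct_add, dotProduct_sum, Finset.sum_eq_single (⟨i, hi⟩ : S.Zs x)]
    · rw [dotProduct_smul, S.dot_th hδ hj, hZ i hi, map_zero, mul_zero, zero_sub, if_pos rfl,
        smul_eq_mul, mul_neg, mul_one, add_neg_cancel]
    · intro i' _ hi'
      rw [dotProduct_smul, S.dot_th hδ hj, hZ i hi, map_zero, mul_zero, zero_sub,
        if_neg (fun h => hi' (Subtype.ext h.symm)), neg_zero, smul_zero]
    · simp
  have h3 := hc (S.mem_EB hD hδ ⟨j, hj⟩ h1 h2)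
  have h4 : y = y' - ∑ i : S.Zs x, (S.R x i ⬝ᵥ y) • S.th δ x j i := by
    rw [hy']; abel
  rw [h4]
  refine Submodule.sub_mem _ ?_ (Submodule.sum_mem _ fun i _ => Submodule.smul_mem _ _ ?_)
  · refine Submodule.span_mono ?_ h3
    rintro _ ⟨a, rfl⟩
    exact ⟨Sum.inr a, rfl⟩
  · exact Submodule.subset_span ⟨Sum.inl i, rfl⟩

/-- the dimension of the space -/
theorem finrank_V {m : ℕ} {D : Derivation k L L} (hD : D ≠ 0) {δ : S.Idx → Derivation ℤ L L}
    (hδ : ∀ p, IsLift (S.dd p) (δ p)) {x : Fin (n + 1) → L}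
    {j : Fin (n + 1)} (hj : x j ≠ 0) {c : Fin m → Col n q S.d} (hBC : ∀ a, BC (c a))
    (hli : LinearIndependent L (S.ucol D δ x c))
    (hc : S.EB D δ x ≤ Submodule.span L (Set.range (S.ucol D δ x c))) :
    finrank L (S.V x) = (S.Zs x).card + (2 + m) := by
  have h1 : S.V x = Submodule.span L (Set.range (S.bas (S.Zs x) D δ x j c)) := by
    refine le_antisymm (S.V_le_bas hD hδ hj hc) ?_
    rw [Submodule.span_le]
    rintro _ ⟨b, rfl⟩
    exact S.bas_mem _ D hδ x j hBC b
  rw [h1, finrank_span_eq_card (S.bas_li hδ (fun i hi => (S.mem_Zs x i).1 hi) hj hli),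
    Fintype.card_sum, Fintype.card_sum, Fintype.card_fin, Fintype.card_fin, Fintype.card_coe]

end Sys

end Pool.Agent.TH875.Vg
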