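import Pool.Agent.TH875.Vg.KapD

/-! Generically finite maps: the algebraic relations. -/

set_option autoImplicit false

open MvPolynomial

namespace Pool.Agent.TH875.Vg

variable {k : Type} [Field k] {n N : ℕ}

theorem exists_relG {J : Ideal (MvPolynomial (Fin (N + 1)) k)} (hJ : J.IsPrime)
    {p : Fin (n + 1) → MvPolynomial (Fin (N + 1)) k}
    (htr : Algebra.trdeg k (MvPolynomial (Fin (N + 1)) k ⧸ J) ≤
      Algebra.trdeg k (MvPolynomial (Fin (n + 1)) k ⧸ J.comap (bind₁ p)))
    (j : Fin (N + 1)) :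
    ∃ F : Polynomial (MvPolynomial (Fin (n + 1)) k), (∃ l, bind₁ p (F.coeff l) ∉ J) ∧
      (∑ l ∈ Finset.range (F.natDegree + 1), bind₁ p (F.coeff l) * X j ^ l) ∈ J := by
  have hprime : (J.comap (bind₁ p)).IsPrime := Ideal.comap_isPrime _ J
  let φ : (MvPolynomial (Fin (n + 1)) k ⧸ J.comap (bind₁ p)) →ₐ[k]
      (MvPolynomial (Fin (N + 1)) k ⧸ J) := Ideal.quotientMapₐ J (bind₁ p) le_rfl
  have hφ : Function.Injective φ := Ideal.quotientMap_injective
  have hφm : ∀ f, φ (Ideal.Quotient.mk _ f) = Ideal.Quotient.mk _ (bind₁ p f) := fun f => rfl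
  let _ := φ.toRingHom.toAlgebra
  have : IsScalarTower k (MvPolynomial (Fin (n + 1)) k ⧸ J.comap (bind₁ p))
      (MvPolynomial (Fin (N + 1)) k ⧸ J) := IsScalarTower.of_algebraMap_eq' φ.comp_algebraMap.symm
  have : FaithfulSMul (MvPolynomial (Fin (n + 1)) k ⧸ J.comap (bind₁ p))
      (MvPolynomial (Fin (N + 1)) k ⧸ J) := (faithfulSMul_iff_algebraMap_injective _ _).2 hφ
  have h1 := trdeg_add_eq k (MvPolynomial (Fin (n + 1)) k ⧸ J.comap (bind₁ p))
    (A := MvPolynomial (Fin (N + 1)) k ⧸ J)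
  have h2 : Algebra.trdeg k (MvPolynomial (Fin (n + 1)) k ⧸ J.comap (bind₁ p)) < Cardinal.aleph0 :=
    trdeg_lt_aleph0_of_finiteType
  have h3 : Algebra.trdeg (MvPolynomial (Fin (n + 1)) k ⧸ J.comap (bind₁ p))
      (MvPolynomial (Fin (N + 1)) k ⧸ J) = 0 := by
    refine Cardinal.eq_of_add_eq_add_left (a := Algebra.trdeg k
      (MvPolynomial (Fin (n + 1)) k ⧸ J.comap (bind₁ p))) ?_ h2
    apply le_antisymm
    · rw [h1, add_zero]
      exact htr
    · rw [add_zero]
      exact le_self_add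
  have h4 := trdeg_eq_zero_iff.1 h3
  obtain ⟨F, hF0, hF⟩ := h4.isAlgebraic (Ideal.Quotient.mk J (X j))
  obtain ⟨F', rfl⟩ := Polynomial.map_surjective
    (Ideal.Quotient.mk (J.comap (bind₁ p))) Ideal.Quotient.mk_surjective F
  refine ⟨F', ?_, ?_⟩
  · by_contra hcon
    push Not at hcon
    apply hF0
    ext l
    rw [Polynomial.coeff_map, Polynomial.coeff_zero, Ideal.Quotient.eq_zero_iff_mem]
    exact hcon l
  · rw [Polynomial.aeval_def, Polynomial.eval₂_map, Polynomial.eval₂_eq_sum_range] at hF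
    rw [← Ideal.Quotient.eq_zero_iff_mem, map_sum, ← hF]
    refine Finset.sum_congr rfl fun l _ => ?_
    rw [map_mul, map_pow]
    rfl

/-- the component of degree `E` of a value -/
theorem comp_bind {c : ℕ} (hc : 0 < c) {p : Fin (n + 1) → MvPolynomial (Fin (N + 1)) k}
    (hp : ∀ j, (p j).IsHomogeneous c) (f : MvPolynomial (Fin (n + 1)) k) (j : Fin (N + 1))
    (l E : ℕ) :
    ∃ f' : MvPolynomial (Fin (n + 1)) k, f'.IsHomogeneous ((E - l) / c) ∧
      (f' = 0 ∨ c * ((E - l) / c) + l = E) ∧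
      homogeneousComponent E (bind₁ p f * X j ^ l) = bind₁ p f' * X j ^ l ∧
      ∀ D, c * D + l = E → f' = homogeneousComponent D f := by
  by_cases h : ∃ D, c * D + l = E
  · obtain ⟨D, hD⟩ := h
    have hE : (E - l) / c = D := by
      rw [← hD, Nat.add_sub_cancel, Nat.mul_div_cancel_left _ hc]
    have hinj : ∀ D', c * D' + l = E → D' = D := by
      intro D' hD'
      have : c * D' = c * D := by omega
      exact Nat.eq_of_mul_eq_mul_left hc this
    refine ⟨homogeneousComponent D f, ?_, Or.inr ?_, ?_, fun D' hD' => by rw [hinj D' hD']⟩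
    · rw [hE]; exact homogeneousComponent_isHomogeneous D f
    · rw [hE]; exact hD
    · conv_lhs => rw [← sum_homogeneousComponent f]
      rw [map_sum, Finset.sum_mul, map_sum]
      have h1 : ∀ M, (bind₁ p (homogeneousComponent M f) * X j ^ l).IsHomogeneous (c * M + l) := by
        intro M
        refine IsHomogeneous.mul ?_ ?_
        · exact (homogeneousComponent_isHomogeneous M f).aeval p hp
        · exact isHomogeneous_X_pow j l
      have h2 : ∀ M, homogeneousComponent E (bind₁ p (homogeneousComponent M f) * X j ^ l) =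
          if M = D then bind₁ p (homogeneousComponent M f) * X j ^ l else 0 := by
        intro M
        rw [homogeneousComponent_of_mem (h1 M)]
        by_cases hM : M = D
        · rw [if_pos hM, if_pos (by rw [hM]; exact hD.symm)]
        · rw [if_neg hM, if_neg (fun h => hM (hinj M h.symm))]
      rw [Finset.sum_congr rfl fun M _ => h2 M, Finset.sum_ite_eq']
      split_ifs with h3
      · rfl
      · rw [Finset.mem_range] at h3
        rw [homogeneousComponent_eq_zero _ _ (by omega), map_zero, zero_mul]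
  · refine ⟨0, isHomogeneous_zero _ _ _, Or.inl rfl, ?_, fun D hD => (h ⟨D, hD⟩).elim⟩
    rw [map_zero, zero_mul]
    conv_lhs => rw [← sum_homogeneousComponent f]
    rw [map_sum, Finset.sum_mul, map_sum]
    refine Finset.sum_eq_zero fun M _ => ?_
    have h1 : (bind₁ p (homogeneousComponent M f) * X j ^ l).IsHomogeneous (c * M + l) := by
      refine IsHomogeneous.mul ?_ ?_
      · exact (homogeneousComponent_isHomogeneous M f).aeval p hp
      · exact isHomogeneous_X_pow j l
    rw [homogeneousComponent_of_mem h1, if_neg (fun h2 => h ⟨M, h2.symm⟩)]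

theorem exists_rel_hom {J : Ideal (MvPolynomial (Fin (N + 1)) k)} (hJ : J.IsPrime)
    (hJh : ∀ f ∈ J, ∀ M, homogeneousComponent M f ∈ J)
    {c : ℕ} (hc : 0 < c) {p : Fin (n + 1) → MvPolynomial (Fin (N + 1)) k}
    (hp : ∀ j, (p j).IsHomogeneous c)
    (htr : Algebra.trdeg k (MvPolynomial (Fin (N + 1)) k ⧸ J) ≤
      Algebra.trdeg k (MvPolynomial (Fin (n + 1)) k ⧸ J.comap (bind₁ p)))
    (j : Fin (N + 1)) :
    ∃ (E T : ℕ) (D : ℕ → ℕ) (f : ℕ → MvPolynomial (Fin (n + 1)) k),
      (∀ l, (f l).IsHomogeneous (D l)) ∧ (∀ l, f l = 0 ∨ c * D l + l = E) ∧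
      bind₁ p (f T) ∉ J ∧ (∑ l ∈ Finset.range (T + 1), bind₁ p (f l) * X j ^ l) ∈ J := by
  classical
  obtain ⟨F, ⟨l0, hl0⟩, hF⟩ := exists_relG hJ htr j
  obtain ⟨M0, hM0⟩ : ∃ M, bind₁ p (homogeneousComponent M (F.coeff l0)) ∉ J := by
    by_contra hcon
    push Not at hcon
    apply hl0
    rw [← sum_homogeneousComponent (F.coeff l0), map_sum]
    exact Ideal.sum_mem _ fun M _ => hcon M
  obtain ⟨E, hE⟩ : ∃ E, E = c * M0 + l0 := ⟨_, rfl⟩
  choose f hf1 hf2 hf3 hf4 using fun l => comp_bind hc hp (F.coeff l) j l E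
  have hsum : (∑ l ∈ Finset.range (F.natDegree + 1), bind₁ p (f l) * X j ^ l) ∈ J := by
    have h1 := hJh _ hF E
    rw [map_sum, Finset.sum_congr rfl fun l _ => hf3 l] at h1
    exact h1
  have hl0' : bind₁ p (f l0) ∉ J := by
    rw [hf4 l0 M0 hE.symm]
    exact hM0
  have hl0r : l0 < F.natDegree + 1 := by
    by_contra hcon
    push Not at hcon
    apply hl0
    rw [Polynomial.coeff_eq_zero_of_natDegree_lt (by omega), map_zero]
    exact J.zero_mem
  obtain ⟨T, hT1, hT2, hT3⟩ : ∃ T, T < F.natDegree + 1 ∧ bind₁ p (f T) ∉ J ∧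
      ∀ l, T < l → l < F.natDegree + 1 → bind₁ p (f l) ∈ J := by
    obtain ⟨T, hT, hmax⟩ := Finset.exists_max_image
      ((Finset.range (F.natDegree + 1)).filter fun l => bind₁ p (f l) ∉ J) id
      ⟨l0, Finset.mem_filter.2 ⟨Finset.mem_range.2 hl0r, hl0'⟩⟩
    rw [Finset.mem_filter, Finset.mem_range] at hT
    refine ⟨T, hT.1, hT.2, fun l h1 h2 => ?_⟩
    by_contra h3
    have h4 := hmax l (Finset.mem_filter.2 ⟨Finset.mem_range.2 h2, h3⟩)
    simp only [id] at h4
    omega
  refine ⟨E, T, fun l => (E - l) / c, f, hf1, hf2, hT2, ?_⟩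
  have h1 : (∑ l ∈ Finset.range (F.natDegree + 1), bind₁ p (f l) * X j ^ l) =
      (∑ l ∈ Finset.range (T + 1), bind₁ p (f l) * X j ^ l) +
      ∑ l ∈ (Finset.range (F.natDegree + 1)).filter (fun l => ¬ l < T + 1),
        bind₁ p (f l) * X j ^ l := by
    rw [← Finset.sum_filter_add_sum_filter_not _ (fun l => l < T + 1)]
    congr 2
    ext l
    simp only [Finset.mem_filter, Finset.mem_range]
    omega
  have h2 : (∑ l ∈ (Finset.range (F.natDegree + 1)).filter (fun l => ¬ l < T + 1),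
        bind₁ p (f l) * X j ^ l) ∈ J := by
    refine Ideal.sum_mem _ fun l hl => ?_
    rw [Finset.mem_filter, Finset.mem_range] at hl
    exact Ideal.mul_mem_right _ _ (hT3 l (by omega) hl.1)
  rw [h1] at hsum
  exact (Ideal.add_mem_iff_left J h2).1 hsum

end Pool.Agent.TH875.Vg
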