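import Pool.Agent.TH875.Vg.GfA

/-! Generically finite maps: comparison of heights. -/

set_option autoImplicit false

open FF MvPolynomial
open Pool.Agent.W603.LV Pool.Agent.W603.PV

namespace Pool.Agent.TH875.Vg

section

variable {k : Type} [Field k] {L : Type} [Field L] [Algebra k L]

theorem ord_ge_of_rel (P : Place k L) {z : L} (hz : z ≠ 0) {E T c : ℕ} (hc : 0 < c) {D : ℕ → ℕ}
    {a : ℕ → L} {o : ℤ} (ha : ∀ l, Ge P (D l * o) (a l)) (hD : ∀ l, a l = 0 ∨ c * D l + l = E)
    (haT : a T ≠ 0) (hsum : ∑ l ∈ Finset.range (T + 1), a l * z ^ l = 0) :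
    o - c * (P.ord (a T) - D T * o) ≤ c * P.ord z := by
  by_contra hcon
  push Not at hcon
  obtain ⟨v, hv⟩ : ∃ v, v = P.ord z := ⟨_, rfl⟩
  obtain ⟨δ, hδ⟩ : ∃ δ, δ = P.ord (a T) - D T * o := ⟨_, rfl⟩
  have hδ0 : 0 ≤ δ := by
    have := (ha T).resolve_left haT
    rw [hδ]; linarith
  rw [← hδ, ← hv] at hcon
  have hET : c * D T + T = E := (hD T).resolve_left haT
  have h1 : ∀ l ∈ Finset.range T, Ge P (P.ord (a T) + T * v + 1) (a l * z ^ l) := by
    intro l hl
    rw [Finset.mem_range] at hl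
    rcases hD l with h0 | h0
    · rw [h0, zero_mul]; exact Ge.zero
    · have h2 : Ge P (l * v) (z ^ l) := by
        right
        rw [← zpow_natCast, P.ord_zpow, hv]
      have h3 := (ha l).mul h2
      refine Ge.mono ?_ h3
      obtain ⟨m, hm⟩ : ∃ m : ℕ, T = l + m := ⟨T - l, by omega⟩
      have hm1 : 1 ≤ m := by omega
      have h4 : (c : ℤ) * (D l - D T) = m := by
        have h5 : ((c * D l + l : ℕ) : ℤ) = ((c * D T + T : ℕ) : ℤ) := by rw [h0, hET]
        push_cast at h5
        rw [hm] at h5 ⊢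
        push_cast at h5 ⊢
        linarith
      have hm1' : (1 : ℤ) ≤ m := by exact_mod_cast hm1
      have hc' : (1 : ℤ) ≤ c := by exact_mod_cast hc
      have h6 : (c : ℤ) * (m * v - (D l - D T) * o + δ) < 0 := by
        have h7 : (m : ℤ) * (c * v) ≤ m * (o - c * δ - 1) :=
          mul_le_mul_of_nonneg_left (by linarith) (by linarith)
        have h8 : (m : ℤ) * o = c * (D l - D T) * o := by rw [h4]
        have h9 : (0 : ℤ) ≤ (m - 1) * (c * δ) := by
          apply mul_nonneg (by linarith)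
          exact mul_nonneg (by linarith) hδ0
        nlinarith
      have h7 : (m : ℤ) * v - (D l - D T) * o + δ < 0 := by
        by_contra h8
        push Not at h8
        have := mul_nonneg (by linarith : (0 : ℤ) ≤ c) h8
        linarith
      have h8 : (T : ℤ) = l + m := by rw [hm]; push_cast; ring
      rw [h8]
      have h9 : P.ord (a T) = δ + D T * o := by rw [hδ]; ring
      rw [h9]
      nlinarith
  rw [Finset.sum_range_succ] at hsum
  have h2 := Ge.sum (P := P) (N := P.ord (a T) + T * v + 1) (Finset.range T)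
    (fun l => a l * z ^ l) h1
  have h3 : a T * z ^ T = -∑ l ∈ Finset.range T, a l * z ^ l := by
    rw [eq_neg_iff_add_eq_zero, add_comm]
    exact hsum
  have h4 : Ge P (P.ord (a T) + T * v + 1) (a T * z ^ T) := by
    rw [h3]
    have := Ge.sub (Ge.zero (P := P) (N := P.ord (a T) + T * v + 1)) h2
    rwa [zero_sub] at this
  have h5 := h4.resolve_left (mul_ne_zero haT (pow_ne_zero _ hz))
  rw [P.ord_mul haT (pow_ne_zero _ hz), ← zpow_natCast z T, P.ord_zpow, ← hv] at h5
  linarith

end

variable {k : Type} [Field k] [CharZero k] [IsAlgClosed k] {n N : ℕ}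

/-- The heights of the points of a variety and of their images under a generically finite
rational map. -/
theorem exists_comparison {J : Ideal (MvPolynomial (Fin (N + 1)) k)} (hJ : J.IsPrime)
    (hJh : ∀ f ∈ J, ∀ M, homogeneousComponent M f ∈ J)
    {c : ℕ} (hc : 0 < c) {p : Fin (n + 1) → MvPolynomial (Fin (N + 1)) k}
    (hp : ∀ j, (p j).IsHomogeneous c) (hp0 : ∃ j, p j ∉ J)
    (htr : Algebra.trdeg k (MvPolynomial (Fin (N + 1)) k ⧸ J) ≤
      Algebra.trdeg k (MvPolynomial (Fin (n + 1)) k ⧸ J.comap (bind₁ p))) :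
    ∃ (H : MvPolynomial (Fin (N + 1)) k) (w κ : ℕ), H ∉ J ∧ H.IsHomogeneous w ∧
      ∀ (L : Type) [Field L] [Algebra k L] [IsFF k L] (z : Fin (N + 1) → L),
        (∃ j, z j ≠ 0) → (∀ f ∈ J, aeval z f = 0) → aeval z H ≠ 0 →
        (∃ j, aeval z (p j) ≠ 0) ∧ pht k z ≤ κ * pht k (fun j => aeval z (p j)) := by
  classical
  obtain ⟨j0, hj0⟩ := hp0
  choose E T D f hfh hfD hfT hfs using fun j => exists_rel_hom hJ hJh hc hp htr j
  refine ⟨p j0 * ∏ j, bind₁ p (f j (T j)), c + ∑ j, c * D j (T j),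
    1 + c * ∑ j, D j (T j), ?_, ?_, ?_⟩
  · intro h
    rcases hJ.mem_or_mem h with h1 | h1
    · exact hj0 h1
    · obtain ⟨j, -, hj⟩ := (Ideal.IsPrime.prod_mem_iff (hp := hJ)).1 h1
      exact hfT j hj
  · refine (hp j0).mul (IsHomogeneous.prod _ _ _ fun j _ => ?_)
    exact (hfh j (T j)).aeval p hp
  · intro L _ _ _ z hz0 hzJ hzH
    rw [map_mul, map_prod] at hzH
    have h0 : aeval z (p j0) ≠ 0 := left_ne_zero_of_mul hzH
    have hT0 : ∀ j, aeval (fun i => aeval z (p i)) (f j (T j)) ≠ 0 := by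
      intro j
      have h1 := Finset.prod_ne_zero_iff.1 (right_ne_zero_of_mul hzH) j (Finset.mem_univ j)
      rwa [aeval_bind₁] at h1
    have hx : ∃ i, aeval z (p i) ≠ 0 := ⟨j0, h0⟩
    refine ⟨hx, ?_⟩
    obtain ⟨x, hxd⟩ : ∃ x : Fin (n + 1) → L, x = fun i => aeval z (p i) := ⟨_, rfl⟩
    rw [← hxd] at hT0 ⊢
    have hx' : ∃ i, x i ≠ 0 := by rw [hxd]; exact hx
    have hrel : ∀ j, ∑ l ∈ Finset.range (T j + 1), aeval x (f j l) * z j ^ l = 0 := by
      intro j
      have h1 := hzJ _ (hfs j)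
      rw [map_sum] at h1
      rw [← h1]
      refine Finset.sum_congr rfl fun l _ => ?_
      rw [map_mul, aeval_bind₁, map_pow, aeval_X, hxd]
    obtain ⟨T1, hT1⟩ := exists_supp (k := k) (Finset.univ : Finset (Fin (N + 1))) z
    obtain ⟨T2, hT2⟩ := exists_supp (k := k) (Finset.univ : Finset (Fin (n + 1))) x
    obtain ⟨T3, hT3⟩ := exists_supp (k := k) (Finset.univ : Finset (Fin (N + 1)))
      fun j => aeval x (f j (T j))
    obtain ⟨U, hU⟩ : ∃ U, U = T1 ∪ T2 ∪ T3 := ⟨_, rfl⟩
    have hUz : ∀ j, ∀ P : Place k L, P.ord (z j) ≠ 0 → P ∈ U := fun j P hP => by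
      rw [hU]
      exact Finset.mem_union_left _ (Finset.mem_union_left _ (hT1 j (Finset.mem_univ _) P hP))
    have hUx : ∀ j, ∀ P : Place k L, P.ord (x j) ≠ 0 → P ∈ U := fun j P hP => by
      rw [hU]
      exact Finset.mem_union_left _ (Finset.mem_union_right _ (hT2 j (Finset.mem_univ _) P hP))
    have hUf : ∀ j, ∀ P : Place k L, P.ord (aeval x (f j (T j))) ≠ 0 → P ∈ U := fun j P hP => by
      rw [hU]
      exact Finset.mem_union_right _ (hT3 j (Finset.mem_univ _) P hP)
    have hge : ∀ (P : Place k L) j l, Ge P (D j l * pord P x) (aeval x (f j l)) := fun P j l =>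
      ge_form P x (hfh j l) fun α _ => Ge.const _
    have hnn : ∀ (P : Place k L) j, 0 ≤ P.ord (aeval x (f j (T j))) - D j (T j) * pord P x := by
      intro P j
      have := (hge P j (T j)).resolve_left (hT0 j)
      linarith
    have hloc : ∀ P : Place k L, pord P x -
        c * ∑ j, (P.ord (aeval x (f j (T j))) - D j (T j) * pord P x) ≤ c * pord P z := by
      intro P
      obtain ⟨j, hj, hjo⟩ := exists_pord P hz0
      have h1 := ord_ge_of_rel P (z := z j) hj hc (E := E j) (T := T j) (D := D j)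
        (a := fun l => aeval x (f j l)) (o := pord P x) (fun l => hge P j l) (fun l => by
          rcases hfD j l with h | h
          · left
            rw [h, map_zero]
          · exact Or.inr h) (hT0 j) (hrel j)
      rw [hjo] at h1
      have h2 := Finset.single_le_sum (f := fun j => P.ord (aeval x (f j (T j))) -
        D j (T j) * pord P x) (fun j _ => hnn P j) (Finset.mem_univ j)
      have h3 : (c : ℤ) * (P.ord (aeval x (f j (T j))) - D j (T j) * pord P x) ≤
          c * ∑ j, (P.ord (aeval x (f j (T j))) - D j (T j) * pord P x) :=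
        mul_le_mul_of_nonneg_left h2 (by positivity)
      linarith
    have hsum := Finset.sum_le_sum fun P (_ : P ∈ U) => hloc P
    rw [Finset.sum_sub_distrib, ← Finset.mul_sum, ← Finset.mul_sum, Finset.sum_comm,
      Finset.sum_congr rfl fun j _ => sum_contact hx' (hfh j (T j)) (hT0 j) U hUx (hUf j),
      ← Finset.sum_mul] at hsum
    have hpz := Sys.pht_finset hz0 U hUz
    have hpx := Sys.pht_finset hx' U hUx
    have hpos := pht_nonneg (k := k) hz0
    have hc' : (1 : ℤ) ≤ c := by exact_mod_cast hc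
    have h5 : pht k z ≤ c * pht k z := by nlinarith
    push_cast
    have h6 : ∑ P ∈ U, pord P z = - pht k z := by rw [hpz]; ring
    have h7 : ∑ P ∈ U, pord P x = - pht k x := by rw [hpx]; ring
    rw [h6, h7] at hsum
    nlinarith

end Pool.Agent.TH875.Vg
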