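import Pool.Agent.TH875.Vg.GfB
import Pool.Agent.TH875.Vg.FinS

/-! Morphisms given by charts. -/

set_option autoImplicit false

open FF MvPolynomial
open Pool.Agent.W603.LV Pool.Agent.W603.PV

namespace Pool.Agent.TH875.Vg

section

variable {k : Type} [Field k] {L : Type} [Field L] [Algebra k L] {n N s : ℕ}

theorem pord_mulc (P : Place k L) {x : Fin (n + 1) → L} (hx : ∃ j, x j ≠ 0) {a : L} (ha : a ≠ 0) :
    pord P (fun j => a * x j) = P.ord a + pord P x := by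
  have hax : ∃ j, a * x j ≠ 0 := by
    obtain ⟨j, hj⟩ := hx
    exact ⟨j, mul_ne_zero ha hj⟩
  apply le_antisymm
  · obtain ⟨j, hj, hjo⟩ := exists_pord P hx
    have h1 := pord_le P (f := fun j => a * x j) (j := j) (mul_ne_zero ha hj)
    rwa [P.ord_mul ha hj, hjo] at h1
  · obtain ⟨j, hj, hjo⟩ := exists_pord P hax
    rw [← hjo]
    have hj' : x j ≠ 0 := right_ne_zero_of_mul hj
    rw [P.ord_mul ha hj']
    have := pord_le P hj'
    linarith

/-- the contact orders with a form all of whose multiplicities are at least `e` on a chart -/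
theorem contact_chart (P : Place k L) {J : Ideal (MvPolynomial (Fin (N + 1)) k)}
    (hJ : ∀ f ∈ J, ∀ M, homogeneousComponent M f ∈ J) {z : Fin (N + 1) → L}
    (hz0 : ∃ j, z j ≠ 0)
    (hz : ∀ f ∈ J, aeval z f = 0) {w : ℕ} {G : MvPolynomial (Fin (N + 1)) k}
    (hG : G.IsHomogeneous w) {e c : ℕ} {p : Fin (n + 1) → MvPolynomial (Fin (N + 1)) k}
    (hp : ∀ j, (p j).IsHomogeneous c)
    (hpow : ∃ M : ℕ, ∀ j j', (X j * p j') ^ M * G ∈ (J ⊔ Ideal.span {G}).radical ^ e ⊔ J)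
    {j' : Fin (n + 1)} (hj' : aeval z (p j') ≠ 0)
    (hj'o : P.ord (aeval z (p j')) = c * pord P z)
    (hGz : aeval z G ≠ 0) (h : w * pord P z < P.ord (aeval z G)) :
    w * pord P z + e ≤ P.ord (aeval z G) := by
  obtain ⟨τ, j1, hτ, hτo, hj1, hint⟩ := exists_norm P hz0
  have hz' := hom_zero hJ hz τ⁻¹
  have hval : aeval (fun j => τ⁻¹ * z j) G = τ⁻¹ ^ w * aeval z G := Sys.aeval_smul hG τ⁻¹ z
  have hvalp : aeval (fun j => τ⁻¹ * z j) (p j') = τ⁻¹ ^ c * aeval z (p j') :=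
    Sys.aeval_smul (hp j') τ⁻¹ z
  have hval0 : aeval (fun j => τ⁻¹ * z j) G ≠ 0 := by
    rw [hval]
    exact mul_ne_zero (pow_ne_zero _ (inv_ne_zero hτ)) hGz
  have hvalp0 : aeval (fun j => τ⁻¹ * z j) (p j') ≠ 0 := by
    rw [hvalp]
    exact mul_ne_zero (pow_ne_zero _ (inv_ne_zero hτ)) hj'
  have hord : P.ord (aeval (fun j => τ⁻¹ * z j) G) = P.ord (aeval z G) - w * pord P z := by
    rw [hval, P.ord_mul (pow_ne_zero _ (inv_ne_zero hτ)) hGz, ← zpow_natCast, P.ord_zpow,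
      P.ord_inv, hτo]
    ring
  have hordp : P.ord (aeval (fun j => τ⁻¹ * z j) (p j')) = 0 := by
    rw [hvalp, P.ord_mul (pow_ne_zero _ (inv_ne_zero hτ)) hj', ← zpow_natCast, P.ord_zpow,
      P.ord_inv, hτo, hj'o]
    ring
  have h1 : (J ⊔ Ideal.span {G}).radical ≤ mIdeal P hint 1 := by
    intro f hf
    obtain ⟨M, hM⟩ := hf
    have h2 : J ⊔ Ideal.span {G} ≤ mIdeal P hint 1 := by
      refine sup_le ?_ ?_
      · intro f hf
        rw [mem_mIdeal, hz' f hf]
        exact Ge.zero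
      · rw [Ideal.span_le]
        rintro _ rfl
        right
        rw [hord]
        push_cast
        omega
    have h3 := h2 hM
    rw [mem_mIdeal] at h3 ⊢
    by_cases hf0 : aeval (fun j => τ⁻¹ * z j) f = 0
    · exact Or.inl hf0
    · right
      rw [map_pow] at h3
      have h4 := h3.resolve_left (pow_ne_zero _ hf0)
      rw [← zpow_natCast, P.ord_zpow] at h4
      push_cast at h4 ⊢
      by_contra hcon
      push Not at hcon
      have h5 : P.ord (aeval (fun j => τ⁻¹ * z j) f) ≤ 0 := by omega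
      have h6 : (M : ℤ) * P.ord (aeval (fun j => τ⁻¹ * z j) f) ≤ 0 :=
        mul_nonpos_of_nonneg_of_nonpos (by positivity) h5
      linarith
  obtain ⟨M, hM⟩ := hpow
  have h2 : (J ⊔ Ideal.span {G}).radical ^ e ⊔ J ≤ mIdeal P hint e := by
    refine sup_le ((Ideal.pow_right_mono h1 e).trans (mIdeal_pow P hint e)) ?_
    intro f hf
    rw [mem_mIdeal, hz' f hf]
    exact Ge.zero
  have h3 := h2 (hM j1 j')
  rw [mem_mIdeal, map_mul, map_pow, map_mul, aeval_X, hj1, one_mul] at h3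
  have h4 := h3.resolve_left (mul_ne_zero (pow_ne_zero _ hvalp0) hval0)
  rw [P.ord_mul (pow_ne_zero _ hvalp0) hval0, ← zpow_natCast (aeval _ (p j')), P.ord_zpow, hordp,
    hord] at h4
  linarith

/-- at every place some chart is defined -/
theorem exists_chart (P : Place k L) {J : Ideal (MvPolynomial (Fin (N + 1)) k)}
    (hJ : ∀ f ∈ J, ∀ M, homogeneousComponent M f ∈ J) {z : Fin (N + 1) → L}
    (hz0 : ∃ j, z j ≠ 0)
    (hz : ∀ f ∈ J, aeval z f = 0) {c : Fin s → ℕ}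
    {p : Fin s → Fin (n + 1) → MvPolynomial (Fin (N + 1)) k}
    (hp : ∀ σ j, (p σ j).IsHomogeneous (c σ))
    (hrad : ∀ j, X j ∈
      (J ⊔ Ideal.span (Set.range fun q : Fin s × Fin (n + 1) => p q.1 q.2)).radical) :
    ∃ σ j, aeval z (p σ j) ≠ 0 ∧ P.ord (aeval z (p σ j)) = c σ * pord P z := by
  obtain ⟨τ, j1, hτ, hτo, hj1, hint⟩ := exists_norm P hz0
  have hz' := hom_zero hJ hz τ⁻¹
  have hval : ∀ σ j, aeval (fun j => τ⁻¹ * z j) (p σ j) = τ⁻¹ ^ (c σ) * aeval z (p σ j) :=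
    fun σ j => Sys.aeval_smul (hp σ j) τ⁻¹ z
  have hunit : ∃ σ j, ¬ Ge P 1 (aeval (fun j => τ⁻¹ * z j) (p σ j)) := by
    by_contra hcon
    push Not at hcon
    obtain ⟨M, hM⟩ := hrad j1
    have h1 : J ⊔ Ideal.span (Set.range fun q : Fin s × Fin (n + 1) => p q.1 q.2) ≤
        mIdeal P hint 1 := by
      refine sup_le ?_ ?_
      · intro f hf
        rw [mem_mIdeal, hz' f hf]
        exact Ge.zero
      · rw [Ideal.span_le]
        rintro _ ⟨⟨σ, j⟩, rfl⟩
        exact hcon σ j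
    have h2 := h1 hM
    rw [mem_mIdeal, map_pow, aeval_X, hj1, one_pow] at h2
    rcases h2 with h2 | h2
    · exact one_ne_zero h2
    · rw [P.ord_one] at h2
      norm_num at h2
  obtain ⟨σ, j, hj⟩ := hunit
  have hj0 : aeval z (p σ j) ≠ 0 := by
    intro h
    apply hj
    rw [hval, h, mul_zero]
    exact Ge.zero
  refine ⟨σ, j, hj0, le_antisymm ?_ ?_⟩
  · have h2 : P.ord (aeval (fun j => τ⁻¹ * z j) (p σ j)) ≤ 0 := by
      by_contra hcon
      push Not at hcon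
      exact hj (Or.inr (by exact_mod_cast hcon))
    rw [hval, P.ord_mul (pow_ne_zero _ (inv_ne_zero hτ)) hj0] at h2
    have h3 : P.ord (τ⁻¹ ^ (c σ)) = -(c σ * pord P z) := by
      rw [← zpow_natCast, P.ord_zpow, P.ord_inv, hτo]
      ring
    rw [h3] at h2
    linarith
  · exact (ge_form P z (hp σ j) fun α _ => Ge.const _).resolve_left hj0

/-- The image of a curve has high contact orders. -/
theorem orb_of_charts {q : ℕ} {d e : Fin q → ℕ} {J : Ideal (MvPolynomial (Fin (N + 1)) k)}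
    (hJ : ∀ f ∈ J, ∀ M, homogeneousComponent M f ∈ J) {z : Fin (N + 1) → L}
    (hz0 : ∃ j, z j ≠ 0)
    (hz : ∀ f ∈ J, aeval z f = 0) {c : Fin s → ℕ}
    {p : Fin s → Fin (n + 1) → MvPolynomial (Fin (N + 1)) k}
    (hp : ∀ σ j, (p σ j).IsHomogeneous (c σ))
    (hrad : ∀ j, X j ∈
      (J ⊔ Ideal.span (Set.range fun q : Fin s × Fin (n + 1) => p q.1 q.2)).radical)
    (hcomp : ∀ σ σ' j j', p σ j * p σ' j' - p σ j' * p σ' j ∈ J)
    {g : Fin q → MvPolynomial (Fin (n + 1)) k} (hg : ∀ i, (g i).IsHomogeneous (d i))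
    (hpow : ∀ i σ, ∃ M : ℕ, ∀ j j', (X j * p σ j') ^ M * bind₁ (p σ) (g i) ∈
      (J ⊔ Ideal.span {bind₁ (p σ) (g i)}).radical ^ e i ⊔ J)
    (σ₀ : Fin s) (hx : ∃ j, aeval z (p σ₀ j) ≠ 0) (P : Place k L) (i : Fin q)
    (h0 : aeval (fun j => aeval z (p σ₀ j)) (g i) ≠ 0)
    (h1 : (d i : ℤ) * pord P (fun j => aeval z (p σ₀ j)) <
      P.ord (aeval (fun j => aeval z (p σ₀ j)) (g i))) :
    (d i : ℤ) * pord P (fun j => aeval z (p σ₀ j)) + e i ≤
      P.ord (aeval (fun j => aeval z (p σ₀ j)) (g i)) := by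
  obtain ⟨σ, j', hj', hj'o⟩ := exists_chart P hJ hz0 hz hp hrad
  obtain ⟨b, hb⟩ := id hx
  obtain ⟨lam, hlam⟩ : ∃ lam, lam = aeval z (p σ b) / aeval z (p σ₀ b) := ⟨_, rfl⟩
  have hprop : ∀ j, aeval z (p σ j) = lam * aeval z (p σ₀ j) := by
    intro j
    have h2 := hz _ (hcomp σ₀ σ j b)
    rw [map_sub, map_mul, map_mul, sub_eq_zero] at h2
    rw [hlam, div_mul_eq_mul_div, eq_div_iff hb]
    linear_combination -h2
  have hlam0 : lam ≠ 0 := by
    rintro rfl
    rw [hprop, zero_mul] at hj'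
    exact hj' rfl
  have hfun : (fun j => aeval z (p σ j)) = fun j => lam * aeval z (p σ₀ j) := funext hprop
  have hx' : ∃ j, aeval z (p σ j) ≠ 0 := ⟨j', hj'⟩
  have hpo : pord P (fun j => aeval z (p σ j)) = P.ord lam +
      pord P (fun j => aeval z (p σ₀ j)) := by
    rw [hfun]
    exact pord_mulc P hx hlam0
  have hpo2 : pord P (fun j => aeval z (p σ j)) = c σ * pord P z := by
    apply le_antisymm
    · rw [← hj'o]
      exact pord_le P (f := fun j => aeval z (p σ j)) hj'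
    · obtain ⟨j2, hj2, hjo2⟩ := exists_pord P hx'
      rw [← hjo2]
      exact (ge_form P z (hp σ j2) fun α _ => Ge.const _).resolve_left hj2
  have hgv : aeval z (bind₁ (p σ) (g i)) =
      lam ^ d i * aeval (fun j => aeval z (p σ₀ j)) (g i) := by
    rw [aeval_bind₁, hfun]
    exact Sys.aeval_smul (hg i) lam _
  have hgv0 : aeval z (bind₁ (p σ) (g i)) ≠ 0 := by
    rw [hgv]
    exact mul_ne_zero (pow_ne_zero _ hlam0) h0
  have hgvo : P.ord (aeval z (bind₁ (p σ) (g i))) =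
      d i * P.ord lam + P.ord (aeval (fun j => aeval z (p σ₀ j)) (g i)) := by
    rw [hgv, P.ord_mul (pow_ne_zero _ hlam0) h0, ← zpow_natCast, P.ord_zpow]
  have hG : (bind₁ (p σ) (g i)).IsHomogeneous (c σ * d i) := (hg i).aeval (p σ) (hp σ)
  have h2 := contact_chart P hJ hz0 hz hG (hp σ) (hpow i σ) hj' hj'o hgv0 (by
    rw [hgvo]
    push_cast
    nlinarith [hpo, hpo2, h1])
  rw [hgvo] at h2
  push_cast at h2
  nlinarith [hpo, hpo2, h2]

end

end Pool.Agent.TH875.Vg
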