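import Pool.Agent.TH875.Vg.GfC

/-! Canonical degrees of curves on ramified coverings. -/

set_option autoImplicit false

open FF MvPolynomial
open Pool.Agent.W603.LV Pool.Agent.W603.PV

namespace Pool.Agent.TH875.Vg

section

variable {k : Type} [Field k] {N : ℕ}

attribute [local instance] MvPolynomial.gradedAlgebra

theorem homg_iff {J : Ideal (MvPolynomial (Fin (N + 1)) k)} :
    (∀ f ∈ J, ∀ M, homogeneousComponent M f ∈ J) ↔
      J.IsHomogeneous (homogeneousSubmodule (Fin (N + 1)) k) := by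
  constructor
  · intro h i r hr
    have := h r hr i
    rwa [← decomposition.decompose'_apply] at this
  · intro h f hf M
    exact homogeneousComponent_mem_of_mem h hf M

theorem homg_sup {J : Ideal (MvPolynomial (Fin (N + 1)) k)}
    (hJ : ∀ f ∈ J, ∀ M, homogeneousComponent M f ∈ J) {H : MvPolynomial (Fin (N + 1)) k} {w : ℕ}
    (hH : H.IsHomogeneous w) :
    ∀ f ∈ J ⊔ Ideal.span {H}, ∀ M, homogeneousComponent M f ∈ J ⊔ Ideal.span {H} := by
  rw [homg_iff] at hJ ⊢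
  exact hJ.sup (Ideal.homogeneous_span _ _ (by rintro x rfl; exact ⟨w, hH⟩))

theorem prime_or {J : Ideal (MvPolynomial (Fin (N + 1)) k)}
    (hJ : ∀ f ∈ J, ∀ M, homogeneousComponent M f ∈ J) (hT : J ≠ ⊤) :
    J.IsPrime ∨ ∃ (a b : MvPolynomial (Fin (N + 1)) k) (wa wb : ℕ), a.IsHomogeneous wa ∧
      b.IsHomogeneous wb ∧ a ∉ J ∧ b ∉ J ∧ a * b ∈ J := by
  by_contra hcon
  push Not at hcon
  obtain ⟨h1, h2⟩ := hcon
  apply h1
  refine (homg_iff.1 hJ).isPrime_of_homogeneous_mem_or_mem hT ?_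
  rintro a b ⟨wa, ha⟩ ⟨wb, hb⟩ hab
  by_contra h3
  push Not at h3
  exact h2 a b wa wb ha hb h3.1 h3.2 hab

end

variable {k : Type} [Field k] [CharZero k] [IsAlgClosed k] {n N s q : ℕ}

/-- The heights of the points of a variety and of their images under a finite morphism. -/
theorem finite_comparison {c : Fin s → ℕ} (hc : ∀ σ, 0 < c σ)
    {p : Fin s → Fin (n + 1) → MvPolynomial (Fin (N + 1)) k}
    (hp : ∀ σ j, (p σ j).IsHomogeneous (c σ)) (J : Ideal (MvPolynomial (Fin (N + 1)) k)) :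
    (∀ f ∈ J, ∀ M, homogeneousComponent M f ∈ J) →
    (∀ J' : Ideal (MvPolynomial (Fin (N + 1)) k), J ≤ J' → J'.IsPrime →
      (∀ f ∈ J', ∀ M, homogeneousComponent M f ∈ J') → (∃ j, X j ∉ J') →
      ∃ σ, (∃ j, p σ j ∉ J') ∧ Algebra.trdeg k (MvPolynomial (Fin (N + 1)) k ⧸ J') ≤
        Algebra.trdeg k (MvPolynomial (Fin (n + 1)) k ⧸ J'.comap (bind₁ (p σ)))) →
    ∃ κ : ℕ, ∀ (L : Type) [Field L] [Algebra k L] [IsFF k L] (z : Fin (N + 1) → L),
      (∃ j, z j ≠ 0) → (∀ f ∈ J, aeval z f = 0) →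
      ∃ σ, (∃ j, aeval z (p σ j) ≠ 0) ∧ pht k z ≤ κ * pht k (fun j => aeval z (p σ j)) := by
  classical
  induction J using WellFoundedGT.induction with
  | ind J ih =>
  intro hJ hQ
  -- adding a form
  have hadd : ∀ (H : MvPolynomial (Fin (N + 1)) k) (w : ℕ), H.IsHomogeneous w → H ∉ J →
      ∃ κ : ℕ, ∀ (L : Type) [Field L] [Algebra k L] [IsFF k L] (z : Fin (N + 1) → L),
      (∃ j, z j ≠ 0) → (∀ f ∈ J, aeval z f = 0) → aeval z H = 0 →
      ∃ σ, (∃ j, aeval z (p σ j) ≠ 0) ∧ pht k z ≤ κ * pht k (fun j => aeval z (p σ j)) := by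
    intro H w hH hHJ
    have hlt : J < J ⊔ Ideal.span {H} := by
      refine lt_of_le_of_ne le_sup_left ?_
      intro h
      apply hHJ
      rw [h]
      exact Ideal.mem_sup_right (Ideal.subset_span rfl)
    obtain ⟨κ, hκ⟩ := ih _ hlt (homg_sup hJ hH) fun J' h1 h2 h3 h4 =>
      hQ J' (le_sup_left.trans h1) h2 h3 h4
    refine ⟨κ, fun L _ _ _ z hz0 hz hzH => hκ L z hz0 fun f hf => ?_⟩
    have h1 : J ⊔ Ideal.span {H} ≤ RingHom.ker (aeval z : _ →ₐ[k] L).toRingHom := by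
      refine sup_le ?_ ?_
      · intro f hf
        exact hz f hf
      · rw [Ideal.span_le]
        rintro _ rfl
        exact hzH
    exact h1 hf
  by_cases hT : J = ⊤
  · refine ⟨0, fun L _ _ _ z _ hz => ?_⟩
    have := hz 1 (by rw [hT]; exact Submodule.mem_top)
    rw [map_one] at this
    exact (one_ne_zero this).elim
  rcases prime_or hJ hT with hprime | ⟨a, b, wa, wb, ha, hb, haJ, hbJ, hab⟩
  · by_cases hX : ∃ j, X j ∉ J
    · obtain ⟨σ, hσ, htr⟩ := hQ J le_rfl hprime hJ hX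
      obtain ⟨H, w, κ₁, hHJ, hHw, hH⟩ := exists_comparison hprime hJ (hc σ) (hp σ) hσ htr
      obtain ⟨κ₂, hκ₂⟩ := hadd H w hHw hHJ
      refine ⟨κ₁ + κ₂, fun L _ _ _ z hz0 hz => ?_⟩
      by_cases hzH : aeval z H = 0
      · obtain ⟨σ', hσ', h1⟩ := hκ₂ L z hz0 hz hzH
        refine ⟨σ', hσ', h1.trans ?_⟩
        push_cast
        have := pht_nonneg (k := k) hσ'
        nlinarith
      · obtain ⟨h1, h2⟩ := hH L z hz0 hz hzH
        refine ⟨σ, h1, h2.trans ?_⟩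
        push_cast
        have := pht_nonneg (k := k) h1
        nlinarith
    · push Not at hX
      refine ⟨0, fun L _ _ _ z hz0 hz => ?_⟩
      obtain ⟨j, hj⟩ := hz0
      have := hz _ (hX j)
      rw [aeval_X] at this
      exact (hj this).elim
  · obtain ⟨κ₁, hκ₁⟩ := hadd a wa ha haJ
    obtain ⟨κ₂, hκ₂⟩ := hadd b wb hb hbJ
    refine ⟨κ₁ + κ₂, fun L _ _ _ z hz0 hz => ?_⟩
    have h1 := hz _ hab
    rw [map_mul] at h1
    rcases mul_eq_zero.1 h1 with h1 | h1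
    · obtain ⟨σ', hσ', h1⟩ := hκ₁ L z hz0 hz h1
      refine ⟨σ', hσ', h1.trans ?_⟩
      push_cast
      have := pht_nonneg (k := k) hσ'
      nlinarith
    · obtain ⟨σ', hσ', h1⟩ := hκ₂ L z hz0 hz h1
      refine ⟨σ', hσ', h1.trans ?_⟩
      push_cast
      have := pht_nonneg (k := k) hσ'
      nlinarith

/-- From the degree of the image to the canonical degree. -/
theorem canonical_of_height {J : Ideal (MvPolynomial (Fin (N + 1)) k)}
    (hJ : ∀ f ∈ J, ∀ M, homogeneousComponent M f ∈ J) {δ : ℚ} (hδ : 0 < δ) (κ t : ℕ) :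
    ∃ A : ℕ, ∀ (L : Type) [Field L] [Algebra k L] [IsFF k L] (z : Fin (N + 1) → L) (h : ℤ),
      (∃ a b, z b ≠ 0 ∧ Transcendental k (z a / z b)) → (∀ f ∈ J, aeval z f = 0) →
      pht k z ≤ κ * h → (0 < h → δ * h ≤ canDeg k L) →
      pht k z ≤ A * canDeg k L ∧
      ∀ u : Fin (t + 1) → Fin (N + 1) → L, LinearIndependent L u →
        (∀ v, v ∈ Submodule.span L (Set.range u) ↔
          ∀ f ∈ J, ∑ j, aeval z (pderiv j f) * v j = 0) →
        ght k (mins u) - (t + 1) * pht k z ≤ A * canDeg k L := by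
  obtain ⟨κ', hκ'⟩ := exists_kappa hJ t
  obtain ⟨A, hA⟩ := exists_nat_ge (((1 : ℚ) + κ') * (κ / δ))
  refine ⟨A, fun L _ _ _ z h hz hzJ h1 h2 => ?_⟩
  obtain ⟨a, b, hb, hab⟩ := hz
  have hzpos : 0 < pht k z := (hgt_pos_of_tr hab).trans_le (hgt_le_pht hb hab)
  have hh : 0 < h := by
    by_contra hcon
    push Not at hcon
    have : (κ : ℤ) * h ≤ 0 := mul_nonpos_of_nonneg_of_nonpos (by positivity) hcon
    linarith
  have h3 := h2 hh
  have hq : (0 : ℚ) < pht k z := by exact_mod_cast hzpos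
  have hhq : (0 : ℚ) < h := by exact_mod_cast hh
  have h4 : (pht k z : ℚ) ≤ κ / δ * canDeg k L := by
    have h5 : ((pht k z : ℤ) : ℚ) ≤ κ * h := by exact_mod_cast h1
    calc (pht k z : ℚ) ≤ κ * h := h5
      _ = κ / δ * (δ * h) := by field_simp
      _ ≤ κ / δ * canDeg k L := mul_le_mul_of_nonneg_left h3 (by positivity)
  have h5 : (0 : ℚ) ≤ canDeg k L := le_trans (by positivity) h3
  have h6 : ((1 : ℚ) + κ') * (κ / δ) * canDeg k L ≤ A * canDeg k L :=
    mul_le_mul_of_nonneg_right hA h5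
  have h7 : (0 : ℚ) ≤ (κ : ℚ) / δ * canDeg k L := by positivity
  have h8 : (0 : ℚ) ≤ (κ' : ℚ) * (κ / δ * canDeg k L) := by positivity
  refine ⟨?_, fun u hu huT => ?_⟩
  · have h9 : ((pht k z : ℤ) : ℚ) ≤ ((A * canDeg k L : ℤ) : ℚ) := by
      push_cast
      nlinarith
    exact_mod_cast h9
  · have h9 := hκ' L z ⟨b, hb⟩ hzJ u hu huT
    have h10 : ((ght k (mins u) : ℤ) : ℚ) ≤ κ' * pht k z := by exact_mod_cast h9
    have h11 : (κ' : ℚ) * pht k z ≤ κ' * (κ / δ * canDeg k L) :=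
      mul_le_mul_of_nonneg_left h4 (by positivity)
    have h12 : ((ght k (mins u) - (t + 1) * pht k z : ℤ) : ℚ) ≤ ((A * canDeg k L : ℤ) : ℚ) := by
      push_cast
      have h13 : (0 : ℚ) ≤ ((t : ℚ) + 1) * pht k z := by positivity
      nlinarith
    exact_mod_cast h12

/-- Canonical degrees of curves on ramified coverings. -/
theorem final_T {d e : Fin q → ℕ} (hd : ∀ i, 0 < d i) (he : ∀ i, 0 < e i)
    {I : Ideal (MvPolynomial (Fin (n + 1)) k)}
    (hI : ∀ f ∈ I, ∀ N, homogeneousComponent N f ∈ I) {m : ℕ}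
    (hdim : Algebra.trdeg k (MvPolynomial (Fin (n + 1)) k ⧸ I) ≤ m + 1) :
    ∃ k₁ : Subfield k, Countable k₁ ∧
      ∀ g : Fin q → MvPolynomial (Fin (n + 1)) k, (∀ i, (g i).IsHomogeneous (d i)) →
      AlgebraicIndependent k₁ (fun p : (i : Fin q) × Expo n (d i) => (g p.1).coeff p.2.1) →
      (∀ (L : Type) [Field L] [Algebra k L] [IsFF k L] (x : Fin (n + 1) → L),
        (∃ a b, x b ≠ 0 ∧ Transcendental k (x a / x b)) → (∀ f ∈ I, aeval x f = 0) →
        (∀ P : Place k L, ∀ i, aeval x (g i) ≠ 0 →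
          (d i : ℤ) * pord P x < P.ord (aeval x (g i)) →
          (d i : ℤ) * pord P x + e i ≤ P.ord (aeval x (g i))) →
        ∃ r : ℕ, r ≤ m ∧ ∃ u : Fin (r + 1) → Fin (n + 1) → L, LinearIndependent L u ∧
          x ∈ Submodule.span L (Set.range u) ∧
          (∀ D : Derivation k L L, (fun j => D (x j)) ∈ Submodule.span L (Set.range u)) ∧
          (∀ i, ∀ f ∈ I, ∑ j, aeval x (pderiv j f) * u i j = 0) ∧
          (∑ i, (d i : ℚ) * (1 - 1 / e i) - 2 * r) * pht k x + ght k (mins u) ≤ canDeg k L) ∧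
      ∀ (N s : ℕ) (c : Fin s → ℕ) (J : Ideal (MvPolynomial (Fin (N + 1)) k))
        (p : Fin s → Fin (n + 1) → MvPolynomial (Fin (N + 1)) k), (∀ σ, 0 < c σ) →
        (∀ f ∈ J, ∀ M, homogeneousComponent M f ∈ J) → (∀ σ j, (p σ j).IsHomogeneous (c σ)) →
        (∀ a : Fin (N + 1) → k, (∀ f ∈ J, eval a f = 0) → (∀ σ j, eval a (p σ j) = 0) → a = 0) →
        (∀ σ σ' j j', p σ j * p σ' j' - p σ j' * p σ' j ∈ J) →
        (∀ σ, ∀ f ∈ I, bind₁ (p σ) f ∈ J) →
        (∀ i σ, ∃ M : ℕ, ∀ j j', (X j * p σ j') ^ M * bind₁ (p σ) (g i) ∈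
          (J ⊔ Ideal.span {bind₁ (p σ) (g i)}).radical ^ e i ⊔ J) →
        (∀ (L : Type) [Field L] [Algebra k L] [IsFF k L] (z : Fin (N + 1) → L) (σ : Fin s),
          (∃ j, z j ≠ 0) → (∀ f ∈ J, aeval z f = 0) →
          (∃ a b, aeval z (p σ b) ≠ 0 ∧
            Transcendental k (aeval z (p σ a) / aeval z (p σ b))) →
          (∑ i, (d i : ℚ) * (1 - 1 / e i) - 2 * m) * pht k (fun j => aeval z (p σ j)) ≤
            canDeg k L) ∧
        ((2 * m : ℚ) < ∑ i, (d i : ℚ) * (1 - 1 / e i) →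
          (∀ (t : ℕ) (σ : Fin s), J.IsPrime → (∃ j, p σ j ∉ J) →
            Algebra.trdeg k (MvPolynomial (Fin (N + 1)) k ⧸ J) ≤
              Algebra.trdeg k (MvPolynomial (Fin (n + 1)) k ⧸ J.comap (bind₁ (p σ))) →
            ∃ (A w : ℕ) (H : MvPolynomial (Fin (N + 1)) k), H ∉ J ∧ H.IsHomogeneous w ∧
              ∀ (L : Type) [Field L] [Algebra k L] [IsFF k L] (z : Fin (N + 1) → L),
              (∃ a b, z b ≠ 0 ∧ Transcendental k (z a / z b)) → (∀ f ∈ J, aeval z f = 0) →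
              aeval z H ≠ 0 → pht k z ≤ A * canDeg k L ∧
              ∀ u : Fin (t + 1) → Fin (N + 1) → L, LinearIndependent L u →
                (∀ v, v ∈ Submodule.span L (Set.range u) ↔
                  ∀ f ∈ J, ∑ j, aeval z (pderiv j f) * v j = 0) →
                ght k (mins u) - (t + 1) * pht k z ≤ A * canDeg k L) ∧
          (∀ t : ℕ, (∀ J' : Ideal (MvPolynomial (Fin (N + 1)) k), J ≤ J' → J'.IsPrime →
              (∀ f ∈ J', ∀ M, homogeneousComponent M f ∈ J') → (∃ j, X j ∉ J') →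
              ∃ σ, (∃ j, p σ j ∉ J') ∧ Algebra.trdeg k (MvPolynomial (Fin (N + 1)) k ⧸ J') ≤
                Algebra.trdeg k (MvPolynomial (Fin (n + 1)) k ⧸ J'.comap (bind₁ (p σ)))) →
            ∃ A : ℕ,
              ∀ (L : Type) [Field L] [Algebra k L] [IsFF k L] (z : Fin (N + 1) → L),
              (∃ a b, z b ≠ 0 ∧ Transcendental k (z a / z b)) → (∀ f ∈ J, aeval z f = 0) →
              pht k z ≤ A * canDeg k L ∧
              ∀ u : Fin (t + 1) → Fin (N + 1) → L, LinearIndependent L u →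
                (∀ v, v ∈ Submodule.span L (Set.range u) ↔
                  ∀ f ∈ J, ∑ j, aeval z (pderiv j f) * v j = 0) →
                ght k (mins u) - (t + 1) * pht k z ≤ A * canDeg k L)) := by
  obtain ⟨k₁, hk₁, h1⟩ := final_O (k := k) hd he hI hdim
  refine ⟨k₁, hk₁, fun g hg hai => ⟨h1 g hg hai, ?_⟩⟩
  intro N s c J p hc hJ hp hfree hcomp hIp hpow
  have hrad : ∀ j, X j ∈
      (J ⊔ Ideal.span (Set.range fun q : Fin s × Fin (n + 1) => p q.1 q.2)).radical := by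
    intro j
    rw [← vanishingIdeal_zeroLocus_eq_radical (k := k) (K := k), mem_vanishingIdeal_iff]
    intro a ha
    rw [mem_zeroLocus_iff] at ha
    have h1 := hfree a (fun f hf => by
      have := ha f (Ideal.mem_sup_left hf)
      rwa [aeval_eq_eval] at this) (fun σ j => by
      have := ha (p σ j) (Ideal.mem_sup_right (Ideal.subset_span ⟨(σ, j), rfl⟩))
      rwa [aeval_eq_eval] at this)
    rw [aeval_X, h1]
    rfl
  have hB1 : ∀ (L : Type) [Field L] [Algebra k L] [IsFF k L] (z : Fin (N + 1) → L) (σ : Fin s),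
      (∃ j, z j ≠ 0) → (∀ f ∈ J, aeval z f = 0) →
      (∃ a b, aeval z (p σ b) ≠ 0 ∧
        Transcendental k (aeval z (p σ a) / aeval z (p σ b))) →
      (∑ i, (d i : ℚ) * (1 - 1 / e i) - 2 * m) * pht k (fun j => aeval z (p σ j)) ≤
        canDeg k L := by
    intro L _ _ _ z σ hz0 hz hnc
    have hx : ∃ j, aeval z (p σ j) ≠ 0 := by
      obtain ⟨a, b, hb, -⟩ := hnc
      exact ⟨b, hb⟩
    obtain ⟨r, hr, u, hu, -, -, -, h3⟩ := h1 g hg hai L (fun j => aeval z (p σ j)) hnc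
      (fun f hf => by
        rw [← aeval_bind₁]
        exact hz _ (hIp σ f hf))
      (fun P i h0 h2 => orb_of_charts hJ hz0 hz hp hrad hcomp hg hpow σ hx P i h0 h2)
    have hpos : (0 : ℚ) ≤ pht k (fun j => aeval z (p σ j)) := by exact_mod_cast pht_nonneg hx
    have hg0 : (0 : ℚ) ≤ ght k (mins u) := by exact_mod_cast ght_nonneg (exists_mins hu)
    have h7 : (0 : ℚ) ≤ 2 * ((m : ℚ) - r) * pht k (fun j => aeval z (p σ j)) := by
      have : (r : ℚ) ≤ m := by exact_mod_cast hr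
      have : (0 : ℚ) ≤ (m : ℚ) - r := by linarith
      positivity
    nlinarith [h3, hg0, h7]
  refine ⟨hB1, fun hδ => ?_⟩
  obtain ⟨δ, hδd⟩ : ∃ δ, δ = ∑ i, (d i : ℚ) * (1 - 1 / e i) - 2 * m := ⟨_, rfl⟩
  have hδ0 : 0 < δ := by rw [hδd]; linarith
  rw [← hδd] at hB1
  refine ⟨fun t σ hprime hσ htr => ?_, fun t hQ => ?_⟩
  · obtain ⟨H, w, κ, hHJ, hHw, hH⟩ := exists_comparison hprime hJ (hc σ) (hp σ) hσ htr
    obtain ⟨A, hA⟩ := canonical_of_height hJ hδ0 κ t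
    refine ⟨A, w, H, hHJ, hHw, fun L _ _ _ z hz hzJ hzH => ?_⟩
    have hz0 : ∃ j, z j ≠ 0 := by
      obtain ⟨a, b, hb, -⟩ := hz
      exact ⟨b, hb⟩
    obtain ⟨h2, h3⟩ := hH L z hz0 hzJ hzH
    exact hA L z _ hz hzJ h3 fun h4 => hB1 L z σ hz0 hzJ (nonconst_of_pht h2 h4)
  · obtain ⟨κ, hκ⟩ := finite_comparison hc hp J hJ hQ
    obtain ⟨A, hA⟩ := canonical_of_height hJ hδ0 κ t
    refine ⟨A, fun L _ _ _ z hz hzJ => ?_⟩
    have hz0 : ∃ j, z j ≠ 0 := by
      obtain ⟨a, b, hb, -⟩ := hz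
      exact ⟨b, hb⟩
    obtain ⟨σ, h2, h3⟩ := hκ L z hz0 hzJ
    exact hA L z _ hz hzJ h3 fun h4 => hB1 L z σ hz0 hzJ (nonconst_of_pht h2 h4)

end Pool.Agent.TH875.Vg
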