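import Pool.Agent.TH875.Vg.GfD

/-! Explicit constants. -/

set_option autoImplicit false

open FF MvPolynomial
open Pool.Agent.W603.LV Pool.Agent.W603.PV

namespace Pool.Agent.TH875.Vg

variable {k : Type} [Field k] [CharZero k] [IsAlgClosed k] {n N s q : ℕ}

/-- Vojta's inequality for curves with high contact orders. -/
theorem final_W {I : Ideal (MvPolynomial (Fin (n + 1)) k)}
    (hI : ∀ f ∈ I, ∀ N, homogeneousComponent N f ∈ I) {m : ℕ} (hm : 1 ≤ m)
    (hdim : Algebra.trdeg k (MvPolynomial (Fin (n + 1)) k ⧸ I) ≤ m + 1)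
    {d e : Fin q → ℕ} (hd : ∀ i, 0 < d i) (he : ∀ i, 0 < e i)
    (hδ : (2 * m : ℚ) < ∑ i, (d i : ℚ) * (1 - 1 / e i)) :
    ∃ k₁ : Subfield k, Countable k₁ ∧
      ∀ g : Fin q → MvPolynomial (Fin (n + 1)) k, (∀ i, (g i).IsHomogeneous (d i)) →
      AlgebraicIndependent k₁ (fun p : (i : Fin q) × Expo n (d i) => (g p.1).coeff p.2.1) →
      ∀ (L : Type) [Field L] [Algebra k L] [IsFF k L] (x : Fin (n + 1) → L),
        (∃ a b, x b ≠ 0 ∧ Transcendental k (x a / x b)) → (∀ f ∈ I, aeval x f = 0) →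
        (∀ P : Place k L, ∀ i, aeval x (g i) ≠ 0 →
          (d i : ℤ) * pord P x < P.ord (aeval x (g i)) →
          (d i : ℤ) * pord P x + e i ≤ P.ord (aeval x (g i))) →
        ∀ κ : ℚ, ∀ u : Fin (m + 1) → Fin (n + 1) → L, LinearIndependent L u →
          (∀ v, v ∈ Submodule.span L (Set.range u) ↔
            ∀ f ∈ I, ∑ j, aeval x (pderiv j f) * v j = 0) →
          (ght k (mins u) : ℚ) ≤ κ * pht k x →
          (ght k (mins u) : ℚ) - (m + 1) * pht k x +
            (∑ i, (d i : ℚ) * (1 - 1 / e i)) * pht k x ≤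
          (1 + max ((m - 1) / (∑ i, (d i : ℚ) * (1 - 1 / e i) - 2 * m))
            ((κ + m - 3) / (∑ i, (d i : ℚ) * (1 - 1 / e i) - 2 * m + 2))) * canDeg k L := by
  obtain ⟨k₁, hk₁, h1⟩ := final_O (k := k) hd he hI hdim
  refine ⟨k₁, hk₁, fun g hg hai L _ _ _ x hx hxI horb κ u hu huT hκ => ?_⟩
  obtain ⟨δ, hδd⟩ : ∃ δ, δ = ∑ i, (d i : ℚ) * (1 - 1 / e i) := ⟨_, rfl⟩
  obtain ⟨r, hr, u', hu', -, -, hut', h2⟩ := h1 g hg hai L x hx hxI horb
  rw [← hδd] at hδ h2 ⊢
  obtain ⟨a, b, hb, hab⟩ := hx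
  have hpos : 0 < pht k x := (hgt_pos_of_tr hab).trans_le (hgt_le_pht hb hab)
  have hq : (0 : ℚ) < pht k x := by exact_mod_cast hpos
  have hg' : (0 : ℚ) ≤ ght k (mins u') := by exact_mod_cast ght_nonneg (exists_mins hu')
  have hgu : (0 : ℚ) ≤ ght k (mins u) := by exact_mod_cast ght_nonneg (exists_mins hu)
  have hm1 : (1 : ℚ) ≤ m := by exact_mod_cast hm
  obtain ⟨h, hh⟩ : ∃ h : ℚ, h = pht k x := ⟨_, rfl⟩
  obtain ⟨G, hG⟩ : ∃ G : ℚ, G = canDeg k L := ⟨_, rfl⟩
  obtain ⟨T, hT⟩ : ∃ T : ℚ, T = ght k (mins u) := ⟨_, rfl⟩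
  rw [← hh] at hq hκ ⊢
  rw [← hh, ← hG] at h2
  rw [← hG, ← hT]
  rw [← hT] at hκ hgu
  have hδm : 0 < δ - 2 * m := by linarith
  have hδm2 : 0 < δ - 2 * m + 2 := by linarith
  have hrm : (r : ℚ) ≤ m := by exact_mod_cast hr
  have hhG : (δ - 2 * m) * h ≤ G := by
    have h3 : 0 ≤ 2 * ((m : ℚ) - r) * h := by
      have : (0 : ℚ) ≤ (m : ℚ) - r := by linarith
      positivity
    nlinarith
  have hG0 : 0 ≤ G := le_trans (by positivity) hhG
  rcases hr.lt_or_eq with hlt | heq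
  · -- `r < m`
    have hlt' : (r : ℚ) + 1 ≤ m := by exact_mod_cast hlt
    have h3 : (δ - 2 * m + 2) * h ≤ G := by
      have h4 : 0 ≤ 2 * ((m : ℚ) - r - 1) * h := by
        have : (0 : ℚ) ≤ (m : ℚ) - r - 1 := by linarith
        positivity
      nlinarith
    have hκ0 : 0 ≤ κ := by
      by_contra hcon
      push Not at hcon
      have := mul_neg_of_neg_of_pos hcon hq
      linarith
    have h5 : T - (m + 1) * h + δ * h ≤ (κ - (m + 1) + δ) * h := by nlinarith
    have h6 : 0 ≤ κ - (m + 1) + δ := by linarith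
    have h7 : (κ - (m + 1) + δ) * h ≤ (κ - (m + 1) + δ) * (G / (δ - 2 * m + 2)) := by
      refine mul_le_mul_of_nonneg_left ?_ h6
      rw [le_div_iff₀ hδm2]
      linarith
    have h8 : (κ - (m + 1) + δ) * (G / (δ - 2 * m + 2)) =
        (1 + (κ + m - 3) / (δ - 2 * m + 2)) * G := by
      have h10 : κ - (m + 1) + δ = (δ - 2 * m + 2) + (κ + m - 3) := by ring
      rw [h10]
      generalize δ - 2 * m + 2 = D at hδm2
      have := hδm2.ne'
      field_simp
    have h9 : (1 + (κ + m - 3) / (δ - 2 * m + 2)) * G ≤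
        (1 + max ((m - 1) / (δ - 2 * m)) ((κ + m - 3) / (δ - 2 * m + 2))) * G := by
      refine mul_le_mul_of_nonneg_right ?_ hG0
      have := le_max_right (((m : ℚ) - 1) / (δ - 2 * m)) ((κ + m - 3) / (δ - 2 * m + 2))
      linarith
    linarith
  · -- `r = m`
    subst heq
    have h3 : ght k (mins u') = ght k (mins u) := by
      obtain ⟨g0, hg0, hg1⟩ := mins_change (u := u) hu' (fun i => by
        rw [huT]
        intro f hf
        exact hut' i f hf)
      have h4 : mins u' = fun σ => g0 * mins u σ := funext hg1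
      rw [h4]
      exact ght_smul hg0 (exists_mins hu)
    rw [h3, ← hT] at h2
    have h5 : T - (r + 1) * h + δ * h ≤ G + (r - 1) * h := by nlinarith
    have h6 : ((r : ℚ) - 1) * h ≤ (r - 1) * (G / (δ - 2 * r)) := by
      refine mul_le_mul_of_nonneg_left ?_ (by linarith)
      rw [le_div_iff₀ hδm]
      linarith
    have h8 : G + ((r : ℚ) - 1) * (G / (δ - 2 * r)) = (1 + (r - 1) / (δ - 2 * r)) * G := by
      field_simp
    have h9 : (1 + ((r : ℚ) - 1) / (δ - 2 * r)) * G ≤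
        (1 + max ((r - 1) / (δ - 2 * r)) ((κ + r - 3) / (δ - 2 * r + 2))) * G := by
      refine mul_le_mul_of_nonneg_right ?_ hG0
      have := le_max_left (((r : ℚ) - 1) / (δ - 2 * r)) ((κ + r - 3) / (δ - 2 * r + 2))
      linarith
    linarith

end Pool.Agent.TH875.Vg
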