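import Pool.Agent.TH875.Vg.GfE

/-! Kummer coverings. -/

set_option autoImplicit false

open FF MvPolynomial
open Pool.Agent.W603.LV Pool.Agent.W603.PV

namespace Pool.Agent.TH875.Vg

section

variable {L : Type} [Field L] {n q : ℕ}

theorem det_comb {M : ℕ} (U : Fin M → Fin (n + 1) → L) (W : Fin M → Fin (n + 1) → L) :
    (Matrix.of fun a b => ∑ j, W b j * U a j).det =
      ∑ f : Fin M → Fin (n + 1), (∏ b, W b (f b)) * mins U f := by
  have h := (Matrix.detRowAlternating (n := Fin M) (R := L)).toMultilinearMap.map_sum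
    (fun b (j : Fin (n + 1)) => W b j • fun a => U a j)
  have h1 : (Matrix.of fun a b => ∑ j, W b j * U a j).det =
      (Matrix.detRowAlternating (n := Fin M) (R := L)).toMultilinearMap
        (fun b => ∑ j : Fin (n + 1), W b j • fun a => U a j) := by
    rw [← Matrix.det_transpose]
    change _ = Matrix.det _
    congr 1
    ext b a
    simp [Matrix.transpose_apply, Finset.sum_apply]
  rw [h1, h]
  refine Finset.sum_congr rfl fun f _ => ?_
  rw [MultilinearMap.map_smul_univ, smul_eq_mul]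
  congr 1
  change Matrix.det _ = _
  unfold mins
  rw [← Matrix.det_transpose]
  rfl

/-- the minors of vectors with arbitrary coordinates -/
noncomputable def gmins {ι : Type} {M : ℕ} (v : Fin M → ι → L) (σ : Fin M → ι) : L :=
  (Matrix.of fun i a => v i (σ a)).det

/-- the matrix of the columns -/
def wcol (c : Fin q → Fin (n + 1) → L) : Fin (n + 1) ⊕ Fin q → Fin (n + 1) → L
  | Sum.inl j => fun j' => if j' = j then 1 else 0
  | Sum.inr i => c i

theorem gmins_eq {M : ℕ} {v : Fin M → Fin (n + 1) ⊕ Fin q → L} {c : Fin q → Fin (n + 1) → L}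
    (hv : ∀ a i, v a (Sum.inr i) = ∑ j, c i j * v a (Sum.inl j)) (σ : Fin M → Fin (n + 1) ⊕ Fin q) :
    gmins v σ = ∑ f : Fin M → Fin (n + 1), (∏ b, wcol c (σ b) (f b)) *
      mins (fun a j => v a (Sum.inl j)) f := by
  rw [← det_comb]
  unfold gmins
  congr 1
  ext a b
  rw [Matrix.of_apply, Matrix.of_apply]
  rcases σ b with j | i
  · simp [wcol]
  · rw [hv]
    rfl

end

section

variable {k : Type} [Field k] {L : Type} [Field L] [Algebra k L] {n q : ℕ}

/-- the order of the minors of the tangent space of the covering -/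
theorem gmins_ge (P : Place k L) {M : ℕ} {v : Fin M → Fin (n + 1) ⊕ Fin q → L}
    {c : Fin q → Fin (n + 1) → L}
    (hv : ∀ a i, v a (Sum.inr i) = ∑ j, c i j * v a (Sum.inl j)) {ρ : Fin q → ℤ}
    (hρ : ∀ i, 0 ≤ ρ i) (hc : ∀ i j, Ge P (-ρ i) (c i j)) (σ : Fin M → Fin (n + 1) ⊕ Fin q) :
    Ge P (gord P (mins fun a j => v a (Sum.inl j)) - ∑ i, ρ i) (gmins v σ) := by
  classical
  by_cases hσ : Function.Injective σ
  · rw [gmins_eq hv]
    refine Ge.sum _ _ fun f _ => ?_
    by_cases h0 : mins (fun a j => v a (Sum.inl j)) f = 0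
    · rw [h0, mul_zero]; exact Ge.zero
    have h1 : Ge P (gord P (mins fun a j => v a (Sum.inl j)))
        (mins (fun a j => v a (Sum.inl j)) f) := Or.inr (gord_le P h0)
    obtain ⟨β, hβ⟩ : ∃ β : Fin (n + 1) ⊕ Fin q → ℤ, β = fun s => Sum.elim (fun _ => 0) (fun i => ρ i) s :=
      ⟨_, rfl⟩
    have h2 : ∀ b, Ge P (-β (σ b)) (wcol c (σ b) (f b)) := by
      intro b
      rw [hβ]
      rcases σ b with j | i
      · simp only [Sum.elim_inl, neg_zero, wcol]
        split_ifs
        · exact Ge.one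
        · exact Ge.zero
      · exact hc i (f b)
    have h3 := (Ge.prod Finset.univ (fun b => wcol c (σ b) (f b)) (fun b => -β (σ b))
      (fun b _ => h2 b)).mul h1
    refine h3.mono ?_
    have h4 : ∑ b, β (σ b) ≤ ∑ i, ρ i := by
      have h5 : ∑ b, β (σ b) = ∑ s ∈ Finset.univ.image σ, β s := by
        rw [Finset.sum_image fun a _ b _ h => hσ h]
      rw [h5]
      calc ∑ s ∈ Finset.univ.image σ, β s ≤ ∑ s, β s := by
            refine Finset.sum_le_sum_of_subset_of_nonneg (Finset.subset_univ _) fun s _ _ => ?_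
            rw [hβ]
            rcases s with j | i
            · exact le_rfl
            · exact hρ i
        _ = ∑ i, ρ i := by
            rw [hβ, Fintype.sum_sum_type]
            simp
    rw [Finset.sum_neg_distrib]
    linarith
  · have h1 : gmins v σ = 0 := by
      unfold Function.Injective at hσ
      push Not at hσ
      obtain ⟨a, b, hab, hne⟩ := hσ
      unfold gmins
      refine Matrix.det_zero_of_column_eq hne fun i => ?_
      rw [Matrix.of_apply, Matrix.of_apply, hab]
    rw [h1]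
    exact Ge.zero

end

variable {k : Type} [Field k] [CharZero k] [IsAlgClosed k] {L : Type} [Field L] [Algebra k L]
  [IsFF k L] {n q : ℕ}

theorem exists_gmins {M : ℕ} {v : Fin M → Fin (n + 1) ⊕ Fin q → L}
    (hu : LinearIndependent L fun a j => v a (Sum.inl j)) : ∃ σ, gmins v σ ≠ 0 := by
  obtain ⟨σ, hσ⟩ := exists_mins hu
  exact ⟨fun a => Sum.inl (σ a), hσ⟩

/-- The height of the tangent space of a Kummer covering. -/
theorem ght_kummer {x : Fin (n + 1) → L} (hx : ∃ j, x j ≠ 0) {y : Fin q → L} {e : Fin q → ℕ}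
    (he : ∀ i, 0 < e i) {g : Fin q → MvPolynomial (Fin (n + 1)) k}
    (hg : ∀ i, (g i).IsHomogeneous (e i)) (hy0 : ∀ i, y i ≠ 0)
    (hy : ∀ i, y i ^ e i = aeval x (g i)) {M : ℕ} {v : Fin M → Fin (n + 1) ⊕ Fin q → L}
    (hv : ∀ a i, e i * y i ^ (e i - 1) * v a (Sum.inr i) =
      ∑ j, aeval x (pderiv j (g i)) * v a (Sum.inl j))
    (hu : LinearIndependent L fun a j => v a (Sum.inl j)) :
    (∀ P : Place k L, gord P (Sum.elim x y) = pord P x) ∧
    ght k (gmins v) ≤ ght k (mins fun a j => v a (Sum.inl j)) + (∑ i, ((e i : ℤ) - 1)) * pht k x := by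
  classical
  have hyP : ∀ (P : Place k L) i, pord P x ≤ P.ord (y i) := by
    intro P i
    have h1 : aeval x (g i) ≠ 0 := by rw [← hy]; exact pow_ne_zero _ (hy0 i)
    have h2 := (ge_form P x (hg i) fun α _ => Ge.const _).resolve_left h1
    rw [← hy, ← zpow_natCast, P.ord_zpow] at h2
    exact le_of_mul_le_mul_left h2 (by exact_mod_cast he i)
  have hz : ∃ s, Sum.elim x y s ≠ 0 := by
    obtain ⟨j, hj⟩ := hx
    exact ⟨Sum.inl j, hj⟩
  refine ⟨fun P => ?_, ?_⟩
  · apply le_antisymm
    · obtain ⟨j, hj, hjo⟩ := exists_pord P hx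
      rw [← hjo]
      exact gord_le P (w := Sum.elim x y) (j := Sum.inl j) hj
    · obtain ⟨s, hs, hso⟩ := exists_gord P hz
      rw [← hso]
      rcases s with j | i
      · exact pord_le P hs
      · exact hyP P i
  · have hL0 : CharZero L := charZero_of_injective_algebraMap (algebraMap k L).injective
    obtain ⟨c, hcd⟩ : ∃ c : Fin q → Fin (n + 1) → L, c = fun i j =>
        ((e i : L) * y i ^ (e i - 1))⁻¹ * aeval x (pderiv j (g i)) := ⟨_, rfl⟩
    have hen : ∀ i, (e i : L) * y i ^ (e i - 1) ≠ 0 := fun i =>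
      mul_ne_zero (by exact_mod_cast (he i).ne') (pow_ne_zero _ (hy0 i))
    have hvc : ∀ a i, v a (Sum.inr i) = ∑ j, c i j * v a (Sum.inl j) := by
      intro a i
      rw [hcd]
      simp only [mul_assoc ((e i : L) * y i ^ (e i - 1))⁻¹]
      rw [← Finset.mul_sum, ← hv, ← mul_assoc, inv_mul_cancel₀ (hen i), one_mul]
    obtain ⟨ρ, hρd⟩ : ∃ ρ : Place k L → Fin q → ℤ, ρ = fun P i =>
        ((e i : ℤ) - 1) * (P.ord (y i) - pord P x) := ⟨_, rfl⟩
    have he1 : ∀ i, (0 : ℤ) ≤ (e i : ℤ) - 1 := fun i => by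
      have : (1 : ℤ) ≤ e i := by exact_mod_cast he i
      linarith
    have hρ : ∀ P i, 0 ≤ ρ P i := by
      intro P i
      rw [hρd]
      exact mul_nonneg (he1 i) (by linarith [hyP P i])
    have hc : ∀ P i j, Ge P (-ρ P i) (c i j) := by
      intro P i j
      have h1 : Ge P (-(((e i : ℤ) - 1) * P.ord (y i))) ((e i : L) * y i ^ (e i - 1))⁻¹ := by
        right
        have h2 : P.ord (e i : L) = 0 := by
          have := P.ord_const (c := (e i : k)) (by exact_mod_cast (he i).ne')
          rwa [map_natCast] at this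
        have h3 : ((e i - 1 : ℕ) : ℤ) = (e i : ℤ) - 1 := by
          rw [Nat.cast_sub (he i)]
          rfl
        rw [P.ord_inv, P.ord_mul (by exact_mod_cast (he i).ne') (pow_ne_zero _ (hy0 i)), h2,
          zero_add, ← zpow_natCast, P.ord_zpow, h3]
      have h4 := ge_form P x ((hg i).pderiv (i := j)) fun α _ => Ge.const (P := P) _
      have h5 := h1.mul h4
      rw [hcd]
      refine h5.mono (le_of_eq ?_)
      rw [hρd]
      have h3 : ((e i - 1 : ℕ) : ℤ) = (e i : ℤ) - 1 := by
        rw [Nat.cast_sub (he i)]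
        rfl
      simp only
      rw [h3]
      ring
    have hgu := exists_mins hu
    have hgv := exists_gmins hu
    obtain ⟨T1, hT1⟩ := exists_supp (k := k) (Finset.univ : Finset (Fin (n + 1))) x
    obtain ⟨T2, hT2⟩ := exists_supp (k := k) (Finset.univ : Finset (Fin q)) y
    obtain ⟨T3, hT3⟩ := exists_supp (k := k)
      (Finset.univ : Finset (Fin M → Fin (n + 1))) (mins fun a j => v a (Sum.inl j))
    obtain ⟨T4, hT4⟩ := exists_supp (k := k)
      (Finset.univ : Finset (Fin M → Fin (n + 1) ⊕ Fin q)) (gmins v)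
    obtain ⟨T, hTd⟩ : ∃ T, T = T1 ∪ T2 ∪ (T3 ∪ T4) := ⟨_, rfl⟩
    have hTx : ∀ j, ∀ P : Place k L, P.ord (x j) ≠ 0 → P ∈ T := fun j P hP => by
      rw [hTd]
      exact Finset.mem_union_left _ (Finset.mem_union_left _ (hT1 j (Finset.mem_univ _) P hP))
    have hTy : ∀ j, ∀ P : Place k L, P.ord (y j) ≠ 0 → P ∈ T := fun j P hP => by
      rw [hTd]
      exact Finset.mem_union_left _ (Finset.mem_union_right _ (hT2 j (Finset.mem_univ _) P hP))
    have hTu : ∀ σ, ∀ P : Place k L, P.ord (mins (fun a j => v a (Sum.inl j)) σ) ≠ 0 → P ∈ T :=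
      fun j P hP => by
      rw [hTd]
      exact Finset.mem_union_right _ (Finset.mem_union_left _ (hT3 j (Finset.mem_univ _) P hP))
    have hTv : ∀ σ, ∀ P : Place k L, P.ord (gmins v σ) ≠ 0 → P ∈ T := fun j P hP => by
      rw [hTd]
      exact Finset.mem_union_right _ (Finset.mem_union_right _ (hT4 j (Finset.mem_univ _) P hP))
    rw [ght_finset hgv T hTv, ght_finset hgu T hTu, Sys.pht_finset hx T hTx]
    have hloc : ∀ P : Place k L, gord P (mins fun a j => v a (Sum.inl j)) - ∑ i, ρ P i ≤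
        gord P (gmins v) := by
      intro P
      obtain ⟨σ, hσ, hσo⟩ := exists_gord P hgv
      rw [← hσo]
      exact (gmins_ge P hvc (hρ P) (hc P) σ).resolve_left hσ
    have hsum := Finset.sum_le_sum fun P (_ : P ∈ T) => hloc P
    have h6 : ∀ i, ∑ P ∈ T, ρ P i = ((e i : ℤ) - 1) * (- ∑ P ∈ T, pord P x) := by
      intro i
      rw [hρd]
      simp only
      rw [← Finset.mul_sum, Finset.sum_sub_distrib, sum_ord_finset _ T (hTy i), zero_sub]
    rw [Finset.sum_sub_distrib, Finset.sum_comm, Finset.sum_congr rfl fun i _ => h6 i,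
      ← Finset.sum_mul] at hsum
    linarith

omit [IsAlgClosed k] [IsFF k L] in
/-- The tangent spaces of a Kummer covering. -/
theorem kummer_tangent {x : Fin (n + 1) → L} {y : Fin q → L} {e : Fin q → ℕ}
    (he : ∀ i, 0 < e i) {g : Fin q → MvPolynomial (Fin (n + 1)) k} (hy0 : ∀ i, y i ≠ 0)
    {I : Ideal (MvPolynomial (Fin (n + 1)) k)} {M : ℕ}
    {v : Fin M → Fin (n + 1) ⊕ Fin q → L} (hv : LinearIndependent L v)
    (hvT : ∀ w, w ∈ Submodule.span L (Set.range v) ↔
      (∀ f ∈ I, ∑ j, aeval x (pderiv j f) * w (Sum.inl j) = 0) ∧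
      ∀ i, e i * y i ^ (e i - 1) * w (Sum.inr i) =
        ∑ j, aeval x (pderiv j (g i)) * w (Sum.inl j)) :
    LinearIndependent L (fun a j => v a (Sum.inl j)) ∧
    ∀ w, w ∈ Submodule.span L (Set.range fun a j => v a (Sum.inl j)) ↔
      ∀ f ∈ I, ∑ j, aeval x (pderiv j f) * w j = 0 := by
  have hL0 : CharZero L := charZero_of_injective_algebraMap (algebraMap k L).injective
  have hen : ∀ i, (e i : L) * y i ^ (e i - 1) ≠ 0 := fun i =>
    mul_ne_zero (by exact_mod_cast (he i).ne') (pow_ne_zero _ (hy0 i))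
  have hcomb : ∀ lam : Fin M → L, ∀ j,
      (∑ a, lam a • fun j => v a (Sum.inl j)) j = (∑ a, lam a • v a) (Sum.inl j) := by
    intro lam j
    simp [Finset.sum_apply]
  constructor
  · rw [Fintype.linearIndependent_iff] at hv ⊢
    intro lam hlam
    apply hv
    have h1 : (∑ a, lam a • v a) ∈ Submodule.span L (Set.range v) :=
      Submodule.sum_mem _ fun a _ => Submodule.smul_mem _ _ (Submodule.subset_span ⟨a, rfl⟩)
    have h2 := ((hvT _).1 h1).2
    have h3 : ∀ j, (∑ a, lam a • v a) (Sum.inl j) = 0 := by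
      intro j
      rw [← hcomb, hlam]
      rfl
    funext s
    rcases s with j | i
    · exact h3 j
    · have h4 := h2 i
      have h5 : ∑ j, aeval x (pderiv j (g i)) * (∑ a, lam a • v a) (Sum.inl j) = 0 :=
        Finset.sum_eq_zero fun j _ => by rw [h3, mul_zero]
      rw [h5] at h4
      exact (mul_eq_zero.1 h4).resolve_left (hen i)
  · intro w
    constructor
    · intro hw f hf
      obtain ⟨lam, rfl⟩ := (Submodule.mem_span_range_iff_exists_fun L).1 hw
      have h1 : (∑ a, lam a • v a) ∈ Submodule.span L (Set.range v) :=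
        Submodule.sum_mem _ fun a _ => Submodule.smul_mem _ _ (Submodule.subset_span ⟨a, rfl⟩)
      have h2 := ((hvT _).1 h1).1 f hf
      rw [← h2]
      refine Finset.sum_congr rfl fun j _ => ?_
      rw [hcomb]
    · intro hw
      obtain ⟨w', hw'⟩ : ∃ w' : Fin (n + 1) ⊕ Fin q → L, w' = Sum.elim w (fun i =>
        ((e i : L) * y i ^ (e i - 1))⁻¹ * ∑ j, aeval x (pderiv j (g i)) * w j) := ⟨_, rfl⟩
      have h1 : w' ∈ Submodule.span L (Set.range v) := by
        rw [hvT, hw']
        refine ⟨hw, fun i => ?_⟩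
        simp only [Sum.elim_inr, Sum.elim_inl]
        rw [← mul_assoc, mul_inv_cancel₀ (hen i), one_mul]
      obtain ⟨lam, hlam⟩ := (Submodule.mem_span_range_iff_exists_fun L).1 h1
      rw [Submodule.mem_span_range_iff_exists_fun]
      refine ⟨lam, ?_⟩
      funext j
      rw [hcomb, hlam, hw']
      rfl

/-- Vojta's inequality for Kummer coverings, given the one for curves with high contact orders. -/
theorem kummer_final {x : Fin (n + 1) → L} (hx : ∃ a b, x b ≠ 0 ∧ Transcendental k (x a / x b))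
    {y : Fin q → L} {e : Fin q → ℕ}
    (he : ∀ i, 0 < e i) {g : Fin q → MvPolynomial (Fin (n + 1)) k}
    (hg : ∀ i, (g i).IsHomogeneous (e i)) (hy0 : ∀ i, y i ≠ 0)
    (hy : ∀ i, y i ^ e i = aeval x (g i)) {I : Ideal (MvPolynomial (Fin (n + 1)) k)} {m : ℕ}
    {v : Fin (m + 1) → Fin (n + 1) ⊕ Fin q → L} (hv : LinearIndependent L v)
    (hvT : ∀ w, w ∈ Submodule.span L (Set.range v) ↔
      (∀ f ∈ I, ∑ j, aeval x (pderiv j f) * w (Sum.inl j) = 0) ∧
      ∀ i, e i * y i ^ (e i - 1) * w (Sum.inr i) =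
        ∑ j, aeval x (pderiv j (g i)) * w (Sum.inl j)) {B : ℚ}
    (hB : (∀ P : Place k L, ∀ i, aeval x (g i) ≠ 0 →
          (e i : ℤ) * pord P x < P.ord (aeval x (g i)) →
          (e i : ℤ) * pord P x + e i ≤ P.ord (aeval x (g i))) →
        ∀ u : Fin (m + 1) → Fin (n + 1) → L, LinearIndependent L u →
          (∀ v, v ∈ Submodule.span L (Set.range u) ↔
            ∀ f ∈ I, ∑ j, aeval x (pderiv j f) * v j = 0) →
          (ght k (mins u) : ℚ) - (m + 1) * pht k x +
            (∑ i, (e i : ℚ) * (1 - 1 / e i)) * pht k x ≤ B) :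
    (ght k (gmins v) : ℚ) - (m + 1) * ght k (Sum.elim x y) ≤ B := by
  obtain ⟨a, b, hb, hab⟩ := hx
  obtain ⟨h1, h2⟩ := kummer_tangent he hy0 hv hvT
  obtain ⟨h3, h4⟩ := ght_kummer ⟨b, hb⟩ he hg hy0 hy (fun a i => by
    exact ((hvT (v a)).1 (Submodule.subset_span ⟨a, rfl⟩)).2 i) h1
  have h5 : ght k (Sum.elim x y) = pht k x := by
    unfold ght pht
    rw [finsum_congr h3]
  have h6 := hB (fun P i h7 h8 => by
    rw [← hy, ← zpow_natCast, P.ord_zpow] at h8 ⊢
    have h9 : pord P x < P.ord (y i) := lt_of_mul_lt_mul_left h8 (by positivity)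
    nlinarith [h9, he i]) _ h1 h2
  rw [h5]
  have h7 : ∑ i, (e i : ℚ) * (1 - 1 / e i) = ∑ i, ((e i : ℚ) - 1) := by
    refine Finset.sum_congr rfl fun i _ => ?_
    have : (e i : ℚ) ≠ 0 := by exact_mod_cast (he i).ne'
    field_simp
  rw [h7] at h6
  have h8 : (ght k (gmins v) : ℚ) ≤ ght k (mins fun a j => v a (Sum.inl j)) +
      (∑ i, ((e i : ℚ) - 1)) * pht k x := by exact_mod_cast h4
  linarith

end Pool.Agent.TH875.Vg
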