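import Pool.Agent.TH875.Vg.GfF

/-! The ideal of a Kummer covering. -/

set_option autoImplicit false

open FF MvPolynomial
open Pool.Agent.W603.LV Pool.Agent.W603.PV

namespace Pool.Agent.TH875.Vg

/-- the ideal of the Kummer covering `y i ^ e i = g i (x)` -/
noncomputable def kIdeal {k : Type} [Field k] {n q : ℕ} (I : Ideal (MvPolynomial (Fin (n + 1)) k))
    (e : Fin q → ℕ) (g : Fin q → MvPolynomial (Fin (n + 1)) k) :
    Ideal (MvPolynomial (Fin (n + 1) ⊕ Fin q) k) :=
  Ideal.span ({F | ∃ f ∈ I, F = rename Sum.inl f} ∪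
    Set.range fun i => X (Sum.inr i) ^ e i - rename Sum.inl (g i))

variable {k : Type} [Field k] {L : Type} [Field L] [Algebra k L] {n q : ℕ}
  {I : Ideal (MvPolynomial (Fin (n + 1)) k)} {e : Fin q → ℕ}
  {g : Fin q → MvPolynomial (Fin (n + 1)) k} {z : Fin (n + 1) ⊕ Fin q → L}

theorem kIdeal_zero (hz : ∀ F ∈ kIdeal I e g, aeval z F = 0) :
    (∀ f ∈ I, aeval (fun j => z (Sum.inl j)) f = 0) ∧
      ∀ i, z (Sum.inr i) ^ e i = aeval (fun j => z (Sum.inl j)) (g i) := by
  constructor
  · intro f hf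
    have h1 := hz (rename Sum.inl f) (Ideal.subset_span (Or.inl ⟨f, hf, rfl⟩))
    rw [aeval_rename] at h1
    exact h1
  · intro i
    have h1 := hz _ (Ideal.subset_span (Or.inr ⟨i, rfl⟩))
    rw [map_sub, map_pow, aeval_X, aeval_rename, sub_eq_zero] at h1
    exact h1

theorem sum_rename (f : MvPolynomial (Fin (n + 1)) k) (w : Fin (n + 1) ⊕ Fin q → L) :
    ∑ s, aeval z (pderiv s (rename (Sum.inl : Fin (n + 1) → Fin (n + 1) ⊕ Fin q) f)) * w s =
      ∑ j, aeval (fun j => z (Sum.inl j)) (pderiv j f) * w (Sum.inl j) := by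
  rw [Fintype.sum_sum_type]
  have h1 : ∑ i : Fin q, aeval z (pderiv (Sum.inr i)
      (rename (Sum.inl : Fin (n + 1) → Fin (n + 1) ⊕ Fin q) f)) * w (Sum.inr i) = 0 := by
    refine Finset.sum_eq_zero fun i _ => ?_
    rw [pderiv_eq_zero_of_notMem_vars, map_zero, zero_mul]
    intro h
    obtain ⟨j, -, hj⟩ := mem_vars_rename _ _ h
    exact absurd hj (by simp)
  rw [h1, add_zero]
  refine Finset.sum_congr rfl fun j _ => ?_
  rw [pderiv_rename Sum.inl_injective, aeval_rename]
  rfl

theorem sum_pow (i : Fin q) (a : ℕ) (w : Fin (n + 1) ⊕ Fin q → L) :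
    ∑ s, aeval z (pderiv s (X (Sum.inr i) ^ a : MvPolynomial (Fin (n + 1) ⊕ Fin q) k)) * w s =
      a * z (Sum.inr i) ^ (a - 1) * w (Sum.inr i) := by
  classical
  rw [Finset.sum_eq_single (Sum.inr i)]
  · rw [pderiv_pow, pderiv_X_self]
    simp
  · intro s _ hs
    rw [pderiv_pow, pderiv_X_of_ne (Ne.symm hs)]
    simp
  · simp

theorem kIdeal_tangent (hz : ∀ F ∈ kIdeal I e g, aeval z F = 0)
    (w : Fin (n + 1) ⊕ Fin q → L) :
    (∀ F ∈ kIdeal I e g, ∑ s, aeval z (pderiv s F) * w s = 0) ↔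
      (∀ f ∈ I, ∑ j, aeval (fun j => z (Sum.inl j)) (pderiv j f) * w (Sum.inl j) = 0) ∧
      ∀ i, e i * z (Sum.inr i) ^ (e i - 1) * w (Sum.inr i) =
        ∑ j, aeval (fun j => z (Sum.inl j)) (pderiv j (g i)) * w (Sum.inl j) := by
  have hgen : ∀ i, ∑ s, aeval z (pderiv s (X (Sum.inr i) ^ e i - rename Sum.inl (g i))) * w s =
      e i * z (Sum.inr i) ^ (e i - 1) * w (Sum.inr i) -
        ∑ j, aeval (fun j => z (Sum.inl j)) (pderiv j (g i)) * w (Sum.inl j) := by
    intro i
    simp only [map_sub, sub_mul, Finset.sum_sub_distrib]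
    rw [sum_pow, sum_rename]
  constructor
  · intro h
    constructor
    · intro f hf
      rw [← sum_rename (z := z)]
      exact h _ (Ideal.subset_span (Or.inl ⟨f, hf, rfl⟩))
    · intro i
      have h1 := h _ (Ideal.subset_span (Or.inr ⟨i, rfl⟩))
      rw [hgen, sub_eq_zero] at h1
      exact h1
  · rintro ⟨h1, h2⟩ F hF
    unfold kIdeal at hF
    induction hF using Submodule.span_induction with
    | mem F hF =>
      rcases hF with ⟨f, hf, rfl⟩ | ⟨i, rfl⟩
      · rw [sum_rename]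
        exact h1 f hf
      · simp only
        rw [hgen, h2, sub_self]
    | zero => simp
    | add f g _ _ hf hg =>
      simp only [map_add, add_mul, Finset.sum_add_distrib]
      rw [hf, hg, add_zero]
    | smul a f hf' hf =>
      have hf0 : aeval z f = 0 := hz f hf'
      have h1 : ∀ j, aeval z (pderiv j (a • f)) * w j =
          aeval z a * (aeval z (pderiv j f) * w j) := by
        intro j
        rw [smul_eq_mul, Derivation.leibniz, map_add, smul_eq_mul, smul_eq_mul, map_mul, map_mul,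
          hf0]
        ring
      rw [Finset.sum_congr rfl fun j _ => h1 j, ← Finset.mul_sum, hf, mul_zero]

theorem kIdeal_nonconst [IsAlgClosed k] (he : ∀ i, 0 < e i)
    (hg : ∀ i, (g i).IsHomogeneous (e i)) (hz : ∀ F ∈ kIdeal I e g, aeval z F = 0)
    (hnc : ∃ a b, z b ≠ 0 ∧ Transcendental k (z a / z b)) :
    ∃ a b, z (Sum.inl b) ≠ 0 ∧ Transcendental k (z (Sum.inl a) / z (Sum.inl b)) := by
  obtain ⟨-, hy⟩ := kIdeal_zero hz
  obtain ⟨a, b, hb, hab⟩ := hnc
  have hx : ∃ j, z (Sum.inl j) ≠ 0 := by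
    by_contra hcon
    push Not at hcon
    apply hb
    rcases b with j | i
    · exact hcon j
    · have h1 := hy i
      have h2 : (fun j => z (Sum.inl j)) = fun j => (0 : L) * (0 : L) := by
        funext j
        rw [hcon, zero_mul]
      rw [h2, Sys.aeval_smul (hg i) 0 (fun _ => 0), zero_pow (he i).ne', zero_mul] at h1
      exact pow_eq_zero_iff (he i).ne' |>.1 h1
  obtain ⟨b0, hb0⟩ := hx
  by_contra hcon
  push Not at hcon
  have h1 : ∀ j, ∃ c : k, z (Sum.inl j) / z (Sum.inl b0) = algebraMap k L c := by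
    intro j
    by_contra h2
    apply hcon j b0 hb0
    intro h3
    apply h2
    have h4 := IsAlgClosed.degree_eq_one_of_irreducible k (minpoly.irreducible h3.isIntegral)
    obtain ⟨c, hc⟩ := minpoly.mem_range_of_degree_eq_one k _ h4
    exact ⟨c, hc.symm⟩
  choose c hc using h1
  have h2 : ∀ s, IsAlgebraic k (z s / z (Sum.inl b0)) := by
    intro s
    rcases s with j | i
    · rw [hc]
      exact isAlgebraic_algebraMap _
    · apply IsAlgebraic.of_pow (he i)
      rw [div_pow, hy]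
      have h3 : (fun j => z (Sum.inl j)) = fun j => z (Sum.inl b0) * algebraMap k L (c j) := by
        funext j
        rw [← hc, mul_div_cancel₀ _ hb0]
      rw [h3, Sys.aeval_smul (hg i), mul_comm, mul_div_assoc, div_self (pow_ne_zero _ hb0), mul_one]
      have h4 : aeval (fun j => algebraMap k L (c j)) (g i) = algebraMap k L (aeval c (g i)) :=
        aeval_algebraMap_apply (B := L) c (g i)
      rw [h4]
      exact isAlgebraic_algebraMap _
  apply hab
  have h3 : z a / z b = (z a / z (Sum.inl b0)) * (z b / z (Sum.inl b0))⁻¹ := by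
    rw [inv_div]
    field_simp
  rw [h3]
  exact (h2 a).mul (h2 b).inv

variable [CharZero k] [IsAlgClosed k] [IsFF k L]

/-- Vojta's inequality for Kummer coverings, given the one for curves with high contact orders. -/
theorem kIdeal_final (hz : ∀ F ∈ kIdeal I e g, aeval z F = 0) (he : ∀ i, 0 < e i)
    (hg : ∀ i, (g i).IsHomogeneous (e i))
    (hnc : ∃ a b, z b ≠ 0 ∧ Transcendental k (z a / z b)) (hy0 : ∀ i, z (Sum.inr i) ≠ 0)
    {m : ℕ} {v : Fin (m + 1) → Fin (n + 1) ⊕ Fin q → L} (hv : LinearIndependent L v)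
    (hvT : ∀ w, w ∈ Submodule.span L (Set.range v) ↔
      ∀ F ∈ kIdeal I e g, ∑ s, aeval z (pderiv s F) * w s = 0) {B : ℚ}
    (hB : (∃ a b, z (Sum.inl b) ≠ 0 ∧ Transcendental k (z (Sum.inl a) / z (Sum.inl b))) →
        (∀ f ∈ I, aeval (fun j => z (Sum.inl j)) f = 0) →
        (∀ P : Place k L, ∀ i, aeval (fun j => z (Sum.inl j)) (g i) ≠ 0 →
          (e i : ℤ) * pord P (fun j => z (Sum.inl j)) <
            P.ord (aeval (fun j => z (Sum.inl j)) (g i)) →
          (e i : ℤ) * pord P (fun j => z (Sum.inl j)) + e i ≤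
            P.ord (aeval (fun j => z (Sum.inl j)) (g i))) →
        ∀ u : Fin (m + 1) → Fin (n + 1) → L, LinearIndependent L u →
          (∀ v, v ∈ Submodule.span L (Set.range u) ↔
            ∀ f ∈ I, ∑ j, aeval (fun j => z (Sum.inl j)) (pderiv j f) * v j = 0) →
          (ght k (mins u) : ℚ) - (m + 1) * pht k (fun j => z (Sum.inl j)) +
            (∑ i, (e i : ℚ) * (1 - 1 / e i)) * pht k (fun j => z (Sum.inl j)) ≤ B) :
    (ght k (gmins v) : ℚ) - (m + 1) * ght k z ≤ B := by
  obtain ⟨hxI, hy⟩ := kIdeal_zero hz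
  have hx := kIdeal_nonconst he hg hz hnc
  have h1 : z = Sum.elim (fun j => z (Sum.inl j)) (fun i => z (Sum.inr i)) := by
    funext s
    rcases s with j | i <;> rfl
  rw [h1]
  exact kummer_final (x := fun j => z (Sum.inl j)) (y := fun i => z (Sum.inr i)) hx he hg hy0 hy
    (I := I) hv (fun w => by rw [hvT, kIdeal_tangent hz]) (hB hx hxI)

end Pool.Agent.TH875.Vg
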