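import Pool.Agent.TH875.Vg.Loc
import Pool.Agent.W603.PV.Trunc

/-! The order of the determinant at a place. -/

set_option autoImplicit false

open FF MvPolynomial
open Pool.Agent.W603.LV Pool.Agent.W603.PV

namespace Pool.Agent.TH875.Vg.Sys

open Matrix Module

variable {k F : Type} [Field k] [Field F] [Algebra k F] {n q : ℕ} (S : Sys k F n q)
variable {L : Type} [Field L] [Algebra k L] [Algebra F L]

/-- the pole orders of the coefficients of finitely many polynomials -/
noncomputable def loss (PP : Finset (MvPolynomial (Fin (n + 1)) F)) (P : Place k L) : ℤ :=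
  ∑ g ∈ PP, ∑ α ∈ g.support, max (-P.ord (algebraMap F L (g.coeff α))) 0

omit [Algebra k F] in
theorem loss_nonneg (PP : Finset (MvPolynomial (Fin (n + 1)) F)) (P : Place k L) :
    0 ≤ loss PP P :=
  Finset.sum_nonneg fun _ _ => Finset.sum_nonneg fun _ _ => le_max_right _ _

omit [Algebra k F] in
theorem ge_loss {PP : Finset (MvPolynomial (Fin (n + 1)) F)} (P : Place k L)
    {g : MvPolynomial (Fin (n + 1)) F} (hg : g ∈ PP) (α : Fin (n + 1) →₀ ℕ) :
    Ge P (-loss PP P) (algebraMap F L (g.coeff α)) := by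
  by_cases h : g.coeff α = 0
  · rw [h, map_zero]; exact Ge.zero
  · right
    have h1 : max (-P.ord (algebraMap F L (g.coeff α))) 0 ≤
        ∑ α ∈ g.support, max (-P.ord (algebraMap F L (g.coeff α))) 0 :=
      Finset.single_le_sum (f := fun α => max (-P.ord (algebraMap F L (g.coeff α))) 0)
        (fun _ _ => le_max_right _ _) (mem_support_iff.2 h)
    have h2 : ∑ α ∈ g.support, max (-P.ord (algebraMap F L (g.coeff α))) 0 ≤ loss PP P :=
      Finset.single_le_sum (f := fun g : MvPolynomial (Fin (n + 1)) F =>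
        ∑ α ∈ g.support, max (-P.ord (algebraMap F L (g.coeff α))) 0)
        (fun _ _ => Finset.sum_nonneg fun _ _ => le_max_right _ _) hg
    have h3 := le_max_left (-P.ord (algebraMap F L (g.coeff α))) 0
    linarith

/-- an enumeration -/
noncomputable def eZ {Z : Finset (Fin q)} (hZ : Z.card ≤ n) :
    Z ⊕ (Fin 2 ⊕ Fin (n - Z.card)) ≃ O n := Fintype.equivOfCardEq (by
      rw [Fintype.card_sum, Fintype.card_sum, Fintype.card_coe, Fintype.card_fin,
        Fintype.card_fin, Fintype.card_option, Fintype.card_fin]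
      omega)

open Classical in
/-- A polynomial identity which shows that the forms in `I` are in general position, with
coefficients in `PP`. -/
def NSd (PP : Finset (MvPolynomial (Fin (n + 1)) F)) (Z I : Finset (Fin q)) (j : Fin (n + 1)) :
    Prop :=
  ∀ (_ : Z ⊆ I) (hZ : Z.card ≤ n),
      ∃ (M : ℕ) (a : Fin q → MvPolynomial (Fin (n + 1)) F)
        (b : (Fin 2 ⊕ Fin (n - Z.card) → Fin q ⊕ O n) → MvPolynomial (Fin (n + 1)) F),
        (∀ i, a i ∈ PP) ∧ (∀ σ, b σ ∈ PP) ∧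
        (X j : MvPolynomial (Fin (n + 1)) F) ^ M = ∑ i ∈ I, a i * S.f i +
          ∑ σ ∈ Finset.univ.filter (fun σ : Fin 2 ⊕ Fin (n - Z.card) → Fin q ⊕ O n =>
            Adapted Z I σ), b σ * S.DenP (eZ hZ) σ

theorem NSd.mono {PP QQ : Finset (MvPolynomial (Fin (n + 1)) F)} (h : PP ⊆ QQ)
    {Z I : Finset (Fin q)} {j : Fin (n + 1)} (hP : S.NSd PP Z I j) : S.NSd QQ Z I j := by
  intro hZI hZ
  obtain ⟨M, a, b, ha, hb, he⟩ := hP hZI hZ
  exact ⟨M, a, b, fun i => h (ha i), fun σ => h (hb σ), he⟩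

theorem exists_NSd [CharZero k] [IsFF k F] (Z I : Finset (Fin q)) (j : Fin (n + 1)) :
    ∃ PP, S.NSd PP Z I j := by
  classical
  by_cases h : Z ⊆ I ∧ Z.card ≤ n
  · obtain ⟨hZI, hZ⟩ := h
    obtain ⟨M, a, b, h⟩ := S.ns hZI (eZ hZ) j
    refine ⟨Finset.univ.image a ∪ Finset.univ.image b, fun _ _ => ⟨M, a, b, fun i => ?_,
      fun σ => ?_, h⟩⟩
    · exact Finset.mem_union_left _ (Finset.mem_image_of_mem a (Finset.mem_univ i))
    · exact Finset.mem_union_right _ (Finset.mem_image_of_mem b (Finset.mem_univ σ))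
  · exact ⟨∅, fun h1 h2 => absurd ⟨h1, h2⟩ h⟩

/-- the polynomials that occur -/
theorem exists_polys [CharZero k] [IsFF k F] : ∃ PP : Finset (MvPolynomial (Fin (n + 1)) F),
    (∀ i, S.f i ∈ PP) ∧ (∀ i b c, X b * pderiv c (S.f i) ∈ PP) ∧ C S.t ∈ PP ∧
    ∀ (Z I : Finset (Fin q)) (j : Fin (n + 1)), S.NSd PP Z I j := by
  classical
  choose QQ hQQ using fun w : Finset (Fin q) × Finset (Fin q) × Fin (n + 1) =>
    S.exists_NSd w.1 w.2.1 w.2.2
  set P1 : Finset (MvPolynomial (Fin (n + 1)) F) := Finset.univ.image S.f with hP1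
  set P2 : Finset (MvPolynomial (Fin (n + 1)) F) :=
    Finset.univ.image (fun w : Fin q × Fin (n + 1) × Fin (n + 1) =>
      X w.2.1 * pderiv w.2.2 (S.f w.1)) with hP2
  refine ⟨P1 ∪ (P2 ∪ ({C S.t} ∪ Finset.univ.biUnion QQ)), ?_, ?_, ?_, ?_⟩
  · intro i
    exact Finset.mem_union_left _ (Finset.mem_image_of_mem S.f (Finset.mem_univ i))
  · intro i b c
    apply Finset.mem_union_right
    apply Finset.mem_union_left
    rw [hP2, Finset.mem_image]
    exact ⟨(i, b, c), Finset.mem_univ _, rfl⟩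
  · apply Finset.mem_union_right
    apply Finset.mem_union_right
    apply Finset.mem_union_left
    exact Finset.mem_singleton_self _
  · intro Z I j
    refine NSd.mono S ?_ (hQQ (Z, I, j))
    refine Finset.Subset.trans ?_ Finset.subset_union_right
    refine Finset.Subset.trans ?_ Finset.subset_union_right
    refine Finset.Subset.trans ?_ Finset.subset_union_right
    exact Finset.subset_biUnion_of_mem QQ (Finset.mem_univ _)

/-- the places where the point meets one of the divisors -/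
def mt (k : Type) [Field k] [Algebra k F] (S : Sys k F n q) {L : Type} [Field L] [Algebra k L]
    [Algebra F L] (x : Fin (n + 1) → L) : Set (Place k L) :=
  {P | ∃ i, aeval x (S.f i) ≠ 0 ∧ S.d i * pord P x < P.ord (aeval x (S.f i))}

variable [IsScalarTower k F L] [CharZero k] [IsFF k L] [IsAlgClosed k]

open Classical in
theorem local_main {PP : Finset (MvPolynomial (Fin (n + 1)) F)} (hPP1 : ∀ i, S.f i ∈ PP)
    (hPP2 : ∀ i b c, X b * pderiv c (S.f i) ∈ PP) (hPP3 : C S.t ∈ PP)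
    {x : Fin (n + 1) → L} (hx : ∃ j, x j ≠ 0) {Z : Finset (Fin q)} (hZ : Z.card ≤ n)
    (hZx : ∀ i, i ∈ Z ↔ aeval x (S.f i) = 0)
    (hPP4 : ∀ (I : Finset (Fin q)) (j : Fin (n + 1)), S.NSd PP Z I j)
    {D : Derivation k L L} (hD0 : D ≠ 0) {δ : S.Idx → Derivation ℤ L L}
    (hδ : ∀ p, IsLift (S.dd p) (δ p)) (c : Fin (n - Z.card) → Col n q S.d) {W : L}
    (hW0 : W ≠ 0) (hW : ∀ r : Matrix (Fin 2 ⊕ Fin (n - Z.card)) (O n) L,
      Den (eZ hZ) (Matrix.of fun z : Z => S.R x z) r ≠ 0 →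
      W * Den (eZ hZ) (Matrix.of fun z : Z => S.R x z) r = (r * S.U D δ x c).det)
    (P : Place k L) :
    ((n : ℤ) + 1 + ∑ a, (S.cost (c a) : ℤ) - ∑ i ∈ Z, (S.d i : ℤ)) * pord P x + vo P D +
      ∑ i ∈ Finset.univ \ Z, (P.ord (aeval x (S.f i)) - S.d i * pord P x) -
      (if P ∈ S.mt k x then 1 else 0) - (2 * (n + 2) + 1 + q) * loss PP P ≤ P.ord W := by
  set a := loss PP P with had
  have ha : 0 ≤ a := loss_nonneg PP P
  set e := pord P x with he
  set π := unif P with hπd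
  have hπ : P.ord π = 1 := ord_unif P
  have hπ0 : π ≠ 0 := by
    intro h
    rw [h, P.ord_zero] at hπ; omega
  set τ := π ^ e with hτd
  have hτ : τ ≠ 0 := zpow_ne_zero _ hπ0
  have hτo : P.ord τ = e := by rw [hτd, P.ord_zpow, hπ, mul_one]
  set y : Fin (n + 1) → L := fun j => τ⁻¹ * x j with hyd
  have hxy : x = fun j => τ * y j := by
    funext j
    rw [hyd]
    simp only
    rw [← mul_assoc, mul_inv_cancel₀ hτ, one_mul]
  have hτi : Ge P (-e) τ⁻¹ := Or.inr (by rw [P.ord_inv, hτo])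
  have hy : ∀ j, Ge P 0 (y j) := by
    intro j
    have := hτi.mul (ge_pord P x j)
    rw [← he] at this
    simpa using this
  obtain ⟨j1, hj1, hj1o⟩ := exists_pord P hx
  have hyj1 : y j1 ≠ 0 := mul_ne_zero (inv_ne_zero hτ) hj1
  have hyj1o : P.ord (y j1) = 0 := by
    have : P.ord (y j1) = P.ord τ⁻¹ + P.ord (x j1) := P.ord_mul (inv_ne_zero hτ) hj1
    rw [this, P.ord_inv, hτo, hj1o, ← he]; ring
  -- derivations
  have hDπ := der_pi_ne_zero hD0 P hπ
  obtain ⟨D', hD'd⟩ : ∃ D' : Derivation k L L, D' = (D π)⁻¹ • D := ⟨_, rfl⟩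
  have hD'π : D' π = 1 := by
    rw [hD'd, Derivation.coe_smul, Pi.smul_apply, smul_eq_mul, inv_mul_cancel₀ hDπ]
  have hDD' : ∀ f, D f = D π * D' f := by
    intro f
    rw [hD'd, Derivation.coe_smul, Pi.smul_apply, smul_eq_mul, ← mul_assoc, mul_inv_cancel₀ hDπ,
      one_mul]
  have hD'0 : D' ≠ 0 := by
    rintro h
    rw [h] at hD'π
    simp at hD'π
  have hπt : Transcendental k π := P.transcendental_of_ord_ne (by omega)
  choose δ' hδ' hδ'π using fun p => exists_lift (S.dd p) hπt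
  have hg : ∀ p, ∃ g : L, ∀ f, δ p f = δ' p f + g * D' f := by
    intro p
    obtain ⟨E, hE⟩ := (hδ p).diff (hδ' p)
    obtain ⟨g, hg⟩ := der_smul (D' := E) hD'0
    refine ⟨g, fun f => ?_⟩
    rw [hE f, hg]
    rfl
  choose g hg using hg
  obtain ⟨T, hT, hTdet⟩ := S.U_trans (s := D π) hτ y hDD' hg c
  rw [← hxy] at hT
  -- values
  have hval : ∀ i, aeval x (S.f i) = τ ^ S.d i * aeval y (S.f i) := by
    intro i
    conv_lhs => rw [hxy]
    exact aeval_smul (S.hom i) τ y
  have hval0 : ∀ i, aeval y (S.f i) = 0 ↔ i ∈ Z := by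
    intro i
    rw [hZx, hval i, mul_eq_zero]
    constructor
    · exact fun h => Or.inr h
    · exact fun h => h.resolve_left (pow_ne_zero _ hτ)
  have hord : ∀ i, i ∉ Z → P.ord (aeval x (S.f i)) - S.d i * e = P.ord (aeval y (S.f i)) := by
    intro i hi
    have h0 : aeval y (S.f i) ≠ 0 := fun h => hi ((hval0 i).1 h)
    rw [hval i, P.ord_mul (pow_ne_zero _ hτ) h0, P.ord_pow, hτo]
    ring
  set I : Finset (Fin q) := Finset.univ.filter fun i => Ge P (a + 1) (aeval y (S.f i)) with hI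
  have hZI : Z ⊆ I := by
    intro i hi
    rw [hI, Finset.mem_filter]
    exact ⟨Finset.mem_univ _, Or.inl ((hval0 i).2 hi)⟩
  -- coefficients
  have hc1 : ∀ i α, Ge P (-a) (algebraMap F L ((S.f i).coeff α)) := fun i α =>
    ge_loss P (hPP1 i) α
  have hc2 : ∀ i b c α, Ge P (-a) (algebraMap F L ((X b * pderiv c (S.f i)).coeff α)) :=
    fun i b c α => ge_loss P (hPP2 i b c) α
  have hc3 : Ge P (-a) (algebraMap F L S.t) := by
    have := ge_loss P hPP3 0
    rwa [coeff_zero_C] at this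
  -- choice of the rows
  obtain ⟨σ, hσ, hden⟩ : ∃ σ : Fin 2 ⊕ Fin (n - Z.card) → Fin q ⊕ O n, Adapted Z I σ ∧
      ¬ Ge P (a + 1) (aeval y (S.DenP (eZ hZ) σ)) := by
    by_contra hcon
    push Not at hcon
    obtain ⟨M, A, B, hA, hB, hAB⟩ := hPP4 I j1 hZI hZ
    have h1 := congrArg (aeval y) hAB
    rw [map_pow, aeval_X, map_add, map_sum, map_sum] at h1
    have h2 : Ge P 1 (y j1 ^ M) := by
      rw [h1]
      refine Ge.add (Ge.sum _ _ fun i hi => ?_) (Ge.sum _ _ fun σ hσ => ?_)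
      · rw [map_mul]
        have h3 := ge_aeval_poly P hy (A i) (fun α => ge_loss P (hA i) α)
        have h4 := h3.mul (Finset.mem_filter.1 hi).2
        exact h4.mono (by omega)
      · rw [map_mul]
        have h3 := ge_aeval_poly P hy (B σ) (fun α => ge_loss P (hB σ) α)
        have h4 := h3.mul (hcon σ (Finset.mem_filter.1 hσ).2)
        exact h4.mono (by omega)
    rcases h2 with h2 | h2
    · exact pow_ne_zero M hyj1 h2
    · rw [P.ord_pow, hyj1o] at h2
      omega
  have hden0 : aeval y (S.DenP (eZ hZ) σ) ≠ 0 := fun h => hden (Or.inl h)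
  have hdeno : P.ord (aeval y (S.DenP (eZ hZ) σ)) ≤ a := by
    by_contra h
    exact hden (Or.inr (by omega))
  rw [aeval_DenP] at hden0 hdeno
  set r : Matrix (Fin 2 ⊕ Fin (n - Z.card)) (O n) L := Matrix.of fun b => S.row y (σ b) with hr
  have hDen := S.Den_trans (eZ hZ) hτ y r
  rw [← hxy] at hDen
  have hDen0 : Den (eZ hZ) (Matrix.of fun z : Z => S.R x z)
      (r * Matrix.diagonal fun o => ((Sd τ : O n → L) o)⁻¹) ≠ 0 := by
    rw [hDen]
    exact mul_ne_zero (mul_ne_zero (pow_ne_zero _ hτ) hden0) (pow_ne_zero _ (inv_ne_zero hτ))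
  have hWr := hW _ hDen0
  have hprod : r * (Matrix.diagonal fun o => ((Sd τ : O n → L) o)⁻¹) * S.U D δ x c =
      r * S.U D' δ' y c * T := by
    have h1 : (Matrix.diagonal fun o => ((Sd τ : O n → L) o)⁻¹) * Matrix.diagonal (Sd τ) =
        (1 : Matrix (O n) (O n) L) := by
      rw [Matrix.diagonal_mul_diagonal, ← Matrix.diagonal_one]
      congr 1
      funext o
      exact inv_mul_cancel₀ (Sd_ne hτ o)
    generalize (Matrix.diagonal fun o => ((Sd τ : O n → L) o)⁻¹) = Di at h1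
    generalize Matrix.diagonal (Sd τ : O n → L) = Dg at h1 hT
    rw [hT]
    calc r * Di * (Dg * (S.U D' δ' y c * T)) = r * ((Di * Dg) * (S.U D' δ' y c * T)) := by
          simp only [Matrix.mul_assoc]
      _ = _ := by rw [h1, Matrix.one_mul, Matrix.mul_assoc]
  rw [hprod, Matrix.det_mul, hTdet, hDen, Finset.prod_pow_eq_pow_sum] at hWr
  set N := (r * S.U D' δ' y c).det with hN
  have hN0 : N ≠ 0 := by
    intro h
    rw [h, zero_mul] at hWr
    rcases mul_eq_zero.1 hWr with h1 | h1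
    · exact hW0 h1
    · exact (mul_ne_zero (mul_ne_zero (pow_ne_zero _ hτ) hden0)
        (pow_ne_zero _ (inv_ne_zero hτ))) h1
  have hordW := congrArg P.ord hWr
  rw [P.ord_mul hW0 (mul_ne_zero (mul_ne_zero (pow_ne_zero _ hτ) hden0)
    (pow_ne_zero _ (inv_ne_zero hτ))), P.ord_mul (mul_ne_zero (pow_ne_zero _ hτ) hden0)
    (pow_ne_zero _ (inv_ne_zero hτ)), P.ord_mul (pow_ne_zero _ hτ) hden0, P.ord_pow, P.ord_pow,
    P.ord_inv, hτo, P.ord_mul hN0 (mul_ne_zero hDπ (pow_ne_zero _ hτ)),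
    P.ord_mul hDπ (pow_ne_zero _ hτ), P.ord_pow, hτo] at hordW
  -- the numerator
  obtain ⟨θ, hθ⟩ : ∃ θ : ℤ, θ = if (∃ i ∈ I, i ∉ Z) then 1 else 0 := ⟨_, rfl⟩
  have hθ0 : 0 ≤ θ := by rw [hθ]; split_ifs <;> omega
  have hIo : ∀ i ∈ I, i ∉ Z → a + 1 ≤ P.ord (aeval y (S.f i)) := by
    intro i hi hiZ
    exact (Finset.mem_filter.1 hi).2.resolve_left fun h => hiZ ((hval0 i).1 h)
  have hnum := S.ge_num P hπ hy ha hc1 hc2 hc3 hD'π hδ' hδ'π c
    (o := fun i => if i ∈ Z then 0 else P.ord (aeval y (S.f i))) (by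
      intro i
      by_cases hi : i ∈ Z
      · rw [if_pos hi]; exact Or.inl ((hval0 i).2 hi)
      · rw [if_neg hi]; exact Or.inr le_rfl) hθ0 hσ (by
      intro i hi hiZ
      rw [hθ, if_pos ⟨i, hi, hiZ⟩]) (by
      intro i hi hiZ
      rw [if_neg hiZ]
      have := hIo i hi hiZ
      omega)
  rw [← hr, ← hN] at hnum
  have hnum' := hnum.resolve_left hN0
  have hsumI : ∑ i ∈ I \ Z, (if i ∈ Z then (0 : ℤ) else P.ord (aeval y (S.f i))) =
      ∑ i ∈ I \ Z, P.ord (aeval y (S.f i)) :=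
    Finset.sum_congr rfl fun i hi => by rw [if_neg (Finset.mem_sdiff.1 hi).2]
  rw [hsumI] at hnum'
  -- the sum over all forms
  have hall : ∑ i ∈ Finset.univ \ Z, (P.ord (aeval x (S.f i)) - S.d i * e) ≤
      ∑ i ∈ I \ Z, P.ord (aeval y (S.f i)) + q * a := by
    rw [Finset.sum_congr rfl fun i hi => hord i (Finset.mem_sdiff.1 hi).2]
    have hsub : I \ Z ⊆ Finset.univ \ Z :=
      Finset.sdiff_subset_sdiff (Finset.subset_univ _) (Finset.Subset.refl _)
    rw [← Finset.sum_sdiff hsub, add_comm]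
    have h1 : ∑ i ∈ (Finset.univ \ Z) \ (I \ Z), P.ord (aeval y (S.f i)) ≤
        ∑ i ∈ (Finset.univ \ Z) \ (I \ Z), a := by
      refine Finset.sum_le_sum fun i hi => ?_
      rw [Finset.mem_sdiff, Finset.mem_sdiff, Finset.mem_sdiff, not_and, not_not] at hi
      have hiI : i ∉ I := fun h => hi.1.2 (hi.2 h)
      by_contra hcon
      exact hiI (Finset.mem_filter.2 ⟨Finset.mem_univ _, Or.inr (by omega)⟩)
    have h2 : ∑ i ∈ (Finset.univ \ Z) \ (I \ Z), a ≤ q * a := by
      rw [Finset.sum_const, nsmul_eq_mul]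
      refine mul_le_mul_of_nonneg_right ?_ ha
      have : ((Finset.univ \ Z) \ (I \ Z)).card ≤ Fintype.card (Fin q) := Finset.card_le_univ _
      rw [Fintype.card_fin] at this
      exact_mod_cast this
    linarith
  have hmt : θ ≤ if P ∈ S.mt k x then 1 else 0 := by
    rw [hθ]
    split_ifs with h1 h2 h2
    · exact le_rfl
    · exfalso
      obtain ⟨i, hi, hiZ⟩ := h1
      apply h2
      refine ⟨i, ?_, ?_⟩
      · intro h
        exact hiZ ((hZx i).2 h)
      · have h3 := hord i hiZ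
        have h4 := hIo i hi hiZ
        change (S.d i : ℤ) * e < P.ord (aeval x (S.f i))
        omega
    · exact zero_le_one
    · exact le_rfl
  have hvo : vo P D = P.ord (D π) := rfl
  rw [hvo]
  have hcard : ((n - Z.card : ℕ) : ℤ) ≤ n := by
    have : n - Z.card ≤ n := Nat.sub_le _ _
    exact_mod_cast this
  have hcardmul : 2 * a * ((n - Z.card : ℕ) + 2) ≤ 2 * a * (n + 2) :=
    mul_le_mul_of_nonneg_left (by linarith) (by linarith)
  push_cast at hordW hnum' ⊢
  push_cast at hcardmul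
  nlinarith [hordW, hnum', hall, hmt, hdeno, hcardmul]

end Pool.Agent.TH875.Vg.Sys
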