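import Pool.Agent.TH875.Vg.FinU

/-! Heights of points of projective spaces with arbitrary index sets. -/

set_option autoImplicit false

open FF MvPolynomial
open Pool.Agent.W603.LV Pool.Agent.W603.PV

namespace Pool.Agent.TH875.Vg

section

variable {k : Type} [Field k] {L : Type} [Field L] [Algebra k L] {ι : Type}

/-- the least order of the coordinates -/
noncomputable def gord (P : Place k L) (w : ι → L) : ℤ := ⨅ j : {j // w j ≠ 0}, P.ord (w j)

variable (k) in
/-- the height of a point of a projective space -/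
noncomputable def ght (w : ι → L) : ℤ := - ∑ᶠ P : Place k L, gord P w

variable [Finite ι]

theorem gord_le (P : Place k L) {w : ι → L} {j : ι} (hj : w j ≠ 0) : gord P w ≤ P.ord (w j) := by
  unfold gord
  exact ciInf_le (Finite.bddBelow_range _) (⟨j, hj⟩ : {j // w j ≠ 0})

theorem exists_gord (P : Place k L) {w : ι → L} (hw : ∃ j, w j ≠ 0) :
    ∃ j, w j ≠ 0 ∧ P.ord (w j) = gord P w := by
  obtain ⟨j0, hj0⟩ := hw
  have : Nonempty {j // w j ≠ 0} := ⟨⟨j0, hj0⟩⟩
  obtain ⟨j, hj⟩ := exists_eq_ciInf_of_finite (f := fun j : {j // w j ≠ 0} => P.ord (w j))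
  exact ⟨j, j.2, hj⟩

theorem gord_eq_zero (P : Place k L) {w : ι → L} (hw : ∃ j, w j ≠ 0)
    (h : ∀ j, P.ord (w j) = 0) : gord P w = 0 := by
  obtain ⟨j, -, hj⟩ := exists_gord P hw
  rw [← hj, h]

theorem ght_finset {w : ι → L} (hw : ∃ j, w j ≠ 0) (T : Finset (Place k L))
    (hT : ∀ j, ∀ P : Place k L, P.ord (w j) ≠ 0 → P ∈ T) : ght k w = - ∑ P ∈ T, gord P w := by
  unfold ght
  rw [finsum_eq_sum_of_support_subset]
  intro P hP
  by_contra hcon
  apply hP
  refine gord_eq_zero P hw fun j => ?_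
  by_contra h
  exact hcon (hT j P h)

theorem gord_smul (P : Place k L) {c : L} (hc : c ≠ 0) {w : ι → L} (hw : ∃ j, w j ≠ 0) :
    gord P (fun j => c * w j) = P.ord c + gord P w := by
  apply le_antisymm
  · obtain ⟨j, hj, hjo⟩ := exists_gord P hw
    rw [← hjo, ← P.ord_mul hc hj]
    exact gord_le P (w := fun j => c * w j) (mul_ne_zero hc hj)
  · obtain ⟨j, hj, hjo⟩ := exists_gord P (w := fun j => c * w j)
      (by obtain ⟨j, hj⟩ := hw; exact ⟨j, mul_ne_zero hc hj⟩)
    have hj' : w j ≠ 0 := fun h => hj (by simp [h])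
    rw [← hjo, P.ord_mul hc hj']
    have := gord_le P hj'
    omega

variable [CharZero k] [IsFF k L] [IsAlgClosed k]

theorem ght_smul {c : L} (hc : c ≠ 0) {w : ι → L} (hw : ∃ j, w j ≠ 0) :
    ght k (fun j => c * w j) = ght k w := by
  classical
  have := Fintype.ofFinite ι
  obtain ⟨T1, hT1⟩ := exists_supp (k := k) (Finset.univ : Finset ι) w
  obtain ⟨T2, hT2⟩ := exists_supp (k := k) (Finset.univ : Finset (Fin 1)) ![c]
  have h1 : ∀ j, ∀ P : Place k L, P.ord (w j) ≠ 0 → P ∈ T1 ∪ T2 := fun j P hP =>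
    Finset.mem_union_left _ (hT1 j (Finset.mem_univ _) P hP)
  have h2 : ∀ P : Place k L, P.ord c ≠ 0 → P ∈ T1 ∪ T2 := fun P hP =>
    Finset.mem_union_right _ (hT2 0 (Finset.mem_univ _) P hP)
  have h3 : ∀ j, ∀ P : Place k L, P.ord (c * w j) ≠ 0 → P ∈ T1 ∪ T2 := by
    intro j P hP
    by_contra hcon
    apply hP
    by_cases hj : w j = 0
    · rw [hj, mul_zero, P.ord_zero]
    · rw [P.ord_mul hc hj]
      have h4 : P.ord c = 0 := by by_contra h; exact hcon (h2 P h)
      have h5 : P.ord (w j) = 0 := by by_contra h; exact hcon (h1 j P h)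
      omega
  rw [ght_finset (w := fun j => c * w j)
    (by obtain ⟨j, hj⟩ := hw; exact ⟨j, mul_ne_zero hc hj⟩) (T1 ∪ T2) h3,
    ght_finset hw (T1 ∪ T2) h1,
    Finset.sum_congr rfl fun P _ => gord_smul P hc hw, Finset.sum_add_distrib,
    sum_ord_finset c (T1 ∪ T2) h2, zero_add]

theorem ght_nonneg {w : ι → L} (hw : ∃ j, w j ≠ 0) : 0 ≤ ght k w := by
  classical
  have := Fintype.ofFinite ι
  obtain ⟨T1, hT1⟩ := exists_supp (k := k) (Finset.univ : Finset ι) w
  have h1 : ∀ j, ∀ P : Place k L, P.ord (w j) ≠ 0 → P ∈ T1 := fun j P hP =>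
    hT1 j (Finset.mem_univ _) P hP
  obtain ⟨j, hj⟩ := id hw
  rw [ght_finset hw T1 h1, neg_nonneg, ← sum_ord_finset (w j) T1 (h1 j)]
  exact Finset.sum_le_sum fun P _ => gord_le P hj

end

theorem pht_nonneg {k : Type} [Field k] {L : Type} [Field L] [Algebra k L] [CharZero k]
    [IsFF k L] [IsAlgClosed k] {n : ℕ} {x : Fin (n + 1) → L} (hx : ∃ j, x j ≠ 0) :
    0 ≤ pht k x := ght_nonneg (w := x) hx

namespace Hyp

open Matrix Module Sys

variable {k F : Type} [Field k] [Field F] [Algebra k F] {n q : ℕ} {S : Sys k F n q} {b : ℕ}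
  (H : Hyp S b)

variable [CharZero k] [IsAlgClosed k] [IsFF k F]

/-- From the local inequalities to the global one. -/
theorem assembleV {L : Type} [Field L] [Algebra k L] [Algebra F L]
    [IsScalarTower k F L] [FiniteDimensional F L] {x : Fin (n + 1) → L} (hx : ∃ j, x j ≠ 0)
    {D : Derivation k L L} (hDd : D = der k L) {ι : Type} [Finite ι] {w : ι → L}
    (hw : ∃ j, w j ≠ 0) (PP : Finset (MvPolynomial (Fin (n + 1)) F)) (N K : ℤ)
    (hloc : ∀ P : Place k L, (N - ∑ i ∈ S.Zs x, (S.d i : ℤ)) * pord P x + vo P D +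
      ∑ i ∈ Finset.univ \ S.Zs x, (P.ord (aeval x (S.f i)) - S.d i * pord P x) -
      (open Classical in if P ∈ H.mt k x then 1 else 0) - K * loss PP P ≤ gord P w) :
    (H.mt k x).Finite ∧
    (∑ i, (S.d i : ℤ) - N) * pht k x + ght k w ≤
      canDeg k L + (H.mt k x).ncard + (K * hsum k PP) * Module.finrank F L := by
  classical
  have := Fintype.ofFinite ι
  have hL : IsFF k L := isFF_of_finite (F := F)
  have hD0 : der k L ≠ 0 := der_ne
  rw [← hDd] at hD0
  -- a large finite set of places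
  obtain ⟨T1, hT1⟩ := exists_supp (k := k) (Finset.univ : Finset (Fin q))
    (fun i => aeval x (S.f i))
  obtain ⟨T2, hT2⟩ := exists_supp (k := k) (Finset.univ : Finset (Fin (n + 1))) x
  obtain ⟨T3, hT3⟩ := exists_supp (k := k) (Finset.univ : Finset ι) w
  obtain ⟨T4, hT4⟩ := exists_supp (k := k)
    (PP.biUnion fun g => g.support.image fun α => g.coeff α) (fun a => algebraMap F L a)
  obtain ⟨T5, hT5⟩ := exists_supp (k := k) (Finset.univ : Finset (Fin b)) (fun j => H.ell x j)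
  obtain ⟨T, hTd⟩ : ∃ T, T = T1 ∪ T2 ∪ T3 ∪ T4 ∪ T5 ∪ (vo_finite hD0).toFinset := ⟨_, rfl⟩
  have hTf : ∀ i, ∀ P : Place k L, P.ord (aeval x (S.f i)) ≠ 0 → P ∈ T := by
    intro i P hP
    have := hT1 i (Finset.mem_univ _) P hP
    simp [hTd, this]
  have hTx : ∀ j, ∀ P : Place k L, P.ord (x j) ≠ 0 → P ∈ T := by
    intro i P hP
    have := hT2 i (Finset.mem_univ _) P hP
    simp [hTd, this]
  have hTw : ∀ j, ∀ P : Place k L, P.ord (w j) ≠ 0 → P ∈ T := by
    intro j P hP
    have := hT3 j (Finset.mem_univ _) P hP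
    simp [hTd, this]
  have hTc : ∀ g ∈ PP, ∀ α ∈ g.support, ∀ P : Place k L,
      P.ord (algebraMap F L (g.coeff α)) ≠ 0 → P ∈ T := by
    intro g hg α hα P hP
    have := hT4 (g.coeff α) (Finset.mem_biUnion.2 ⟨g, hg, Finset.mem_image_of_mem _ hα⟩) P hP
    simp [hTd, this]
  have hTl : ∀ j, ∀ P : Place k L, P.ord (H.ell x j) ≠ 0 → P ∈ T := by
    intro j P hP
    have := hT5 j (Finset.mem_univ _) P hP
    simp [hTd, this]
  have hTv : ∀ P : Place k L, vo P D ≠ 0 → P ∈ T := by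
    intro P hP
    simp [hTd, hP]
  have hmtT : H.mt k x ⊆ (T : Set (Place k L)) := by
    rintro P (⟨i, _, hi⟩ | ⟨j, _, hj⟩)
    · by_contra hcon
      rw [pord_eq_zero P hx (fun j => by by_contra h; exact hcon (hTx j P h)), mul_zero] at hi
      exact hcon (hTf i P hi.ne')
    · by_contra hcon
      rw [pord_eq_zero P hx (fun j => by by_contra h; exact hcon (hTx j P h))] at hj
      exact hcon (hTl j P hj.ne')
  have hmtfin : (H.mt k x).Finite := (Finset.finite_toSet T).subset hmtT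
  refine ⟨hmtfin, ?_⟩
  -- the sum
  have hsum := Finset.sum_le_sum fun P (_ : P ∈ T) => hloc P
  have hpht := pht_finset hx T hTx
  have hght := ght_finset hw T hTw
  have hvo : ∑ P ∈ T, vo P D = -canDeg k L := by
    have h1 := canDeg_finset (D := D) hD0 T hTv
    rw [← h1]
  have hmt : ∑ P ∈ T, (if P ∈ H.mt k x then (1 : ℤ) else 0) = (H.mt k x).ncard := by
    rw [← Finset.sum_filter, Finset.sum_const, nsmul_eq_mul, mul_one]
    congr 1
    rw [Set.ncard_eq_toFinset_card _ hmtfin]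
    congr 1
    ext P
    rw [Finset.mem_filter, Set.Finite.mem_toFinset]
    exact ⟨fun h => h.2, fun h => ⟨hmtT h, h⟩⟩
  have hloss : ∑ P ∈ T, loss PP P = Module.finrank F L * Hyp.hsum k PP := by
    unfold loss Hyp.hsum
    rw [Finset.sum_comm, Finset.mul_sum]
    refine Finset.sum_congr rfl fun g hg => ?_
    rw [Finset.sum_comm, Finset.mul_sum]
    refine Finset.sum_congr rfl fun α hα => ?_
    rw [← hgt_algebraMap (L := L) (g.coeff α), hgt_finset _ T (hTc g hg α hα)]
  have hfsum : ∑ P ∈ T, ∑ i ∈ Finset.univ \ S.Zs x,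
      (P.ord (aeval x (S.f i)) - S.d i * pord P x) =
      (∑ i ∈ Finset.univ \ S.Zs x, (S.d i : ℤ)) * pht k x := by
    rw [Finset.sum_comm, Finset.sum_mul]
    refine Finset.sum_congr rfl fun i _ => ?_
    rw [Finset.sum_sub_distrib, sum_ord_finset _ T (hTf i), ← Finset.mul_sum, hpht]
    ring
  rw [Finset.sum_sub_distrib, Finset.sum_sub_distrib, Finset.sum_add_distrib,
    Finset.sum_add_distrib, ← Finset.mul_sum, ← Finset.mul_sum, hvo, hfsum,
    hmt, hloss] at hsum
  have hpo : ∑ P ∈ T, pord P x = - pht k x := by rw [hpht]; ring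
  have hgo : ∑ P ∈ T, gord P w = - ght k w := by rw [hght]; ring
  rw [hpo, hgo] at hsum
  have hdsum : ∑ i ∈ Finset.univ \ S.Zs x, (S.d i : ℤ) =
      ∑ i, (S.d i : ℤ) - ∑ i ∈ S.Zs x, (S.d i : ℤ) := by
    rw [← Finset.sum_sdiff (Finset.subset_univ (S.Zs x))]
    ring
  rw [hdsum] at hsum
  linarith

end Hyp

end Pool.Agent.TH875.Vg
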