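import Pool.Agent.TH875.Vg.MainK

/-! Bounds for the heights of the coefficients that are uniform in the constants. -/

set_option autoImplicit false

open FF MvPolynomial
open Pool.Agent.W603.LV Pool.Agent.W603.PV

namespace Pool.Agent.TH875.Vg

variable {k F : Type} [Field k] [Field F] [Algebra k F] {n q : ℕ}

section

variable [CharZero k] [IsFF k F]

theorem hgt_mono {a b : F} (h : ∀ P : Place k F, max (-P.ord a) 0 ≤ max (-P.ord b) 0) :
    hgt k a ≤ hgt k b := by
  classical
  obtain ⟨T1, hT1⟩ := exists_supp (k := k) (Finset.univ : Finset (Fin 2)) ![a, b]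
  rw [hgt_finset a T1 fun P hP => hT1 0 (Finset.mem_univ _) P hP,
    hgt_finset b T1 fun P hP => hT1 1 (Finset.mem_univ _) P hP]
  exact Finset.sum_le_sum fun P _ => h P

theorem hgt_add_const (a : F) (c : k) : hgt k (a + algebraMap k F c) ≤ hgt k a := by
  refine hgt_mono fun P => ?_
  have h1 : Ge P (-(max (-P.ord a) 0)) a := Or.inr (by
    have := le_max_left (-P.ord a) 0
    omega)
  have h2 : Ge P (-(max (-P.ord a) 0)) (algebraMap k F c) := (Ge.const c).mono (by
    have := le_max_right (-P.ord a) 0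
    omega)
  rcases h1.add h2 with h3 | h3
  · rw [h3, P.ord_zero]
    have := le_max_right (-P.ord a) 0
    simpa using this
  · have := le_max_right (-P.ord a) 0
    exact max_le (by omega) this

theorem hgt_mul_nat (a : F) (N : ℕ) : hgt k (a * N) ≤ hgt k a := by
  refine hgt_mono fun P => ?_
  have h1 : Ge P (-(max (-P.ord a) 0)) a := Or.inr (by
    have := le_max_left (-P.ord a) 0
    omega)
  rcases h1.mul (Ge.natCast N) with h3 | h3
  · rw [h3, P.ord_zero]
    have := le_max_right (-P.ord a) 0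
    simpa using this
  · have := le_max_right (-P.ord a) 0
    exact max_le (by omega) this

end

/-- the sum of the heights of the coefficients of a polynomial -/
noncomputable def hs (k : Type) [Field k] [Algebra k F] (g : MvPolynomial (Fin (n + 1)) F) : ℤ :=
  ∑ α ∈ g.support, hgt k (g.coeff α)

theorem hs_nonneg (g : MvPolynomial (Fin (n + 1)) F) : 0 ≤ hs k g :=
  Finset.sum_nonneg fun _ _ => hgt_nonneg _

variable [CharZero k] [IsFF k F]

omit [CharZero k] [IsFF k F] in
theorem hs_C_le (a : F) : hs k (C a : MvPolynomial (Fin (n + 1)) F) ≤ hgt k a := by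
  classical
  unfold hs
  by_cases h : a = 0
  · rw [h, C_0, support_zero, Finset.sum_empty]; exact hgt_nonneg _
  · have h1 : (C a : MvPolynomial (Fin (n + 1)) F).support = {0} := by
      rw [C_apply, support_monomial, if_neg h]
    rw [h1, Finset.sum_singleton, coeff_zero_C]

omit [CharZero k] [IsFF k F] in
theorem sum_le_hs (A : Finset (Fin (n + 1) →₀ ℕ)) (f : MvPolynomial (Fin (n + 1)) F) :
    ∑ α ∈ A, hgt k (f.coeff α) ≤ hs k f := by
  classical
  have h1 : ∑ α ∈ A, hgt k (f.coeff α) ≤ ∑ α ∈ A ∪ f.support, hgt k (f.coeff α) :=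
    Finset.sum_le_sum_of_subset_of_nonneg Finset.subset_union_left fun _ _ _ => hgt_nonneg _
  have h2 : ∑ α ∈ f.support, hgt k (f.coeff α) = ∑ α ∈ A ∪ f.support, hgt k (f.coeff α) := by
    refine Finset.sum_subset Finset.subset_union_right fun α _ hα => ?_
    rw [notMem_support_iff.1 hα]
    exact hgt_zero
  unfold hs
  rw [h2]
  exact h1

theorem hs_add_map_le (h : MvPolynomial (Fin (n + 1)) F) (g : MvPolynomial (Fin (n + 1)) k) :
    hs k (h + map (algebraMap k F) g) ≤ hs k h := by
  refine le_trans ?_ (sum_le_hs (k := k) (h + map (algebraMap k F) g).support h)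
  unfold hs
  refine Finset.sum_le_sum fun α _ => ?_
  rw [coeff_add, coeff_map]
  exact hgt_add_const _ _

theorem hs_X_pderiv_le (b c : Fin (n + 1)) (f : MvPolynomial (Fin (n + 1)) F) :
    hs k (X b * pderiv c f) ≤ hs k f := by
  classical
  have hsup : ∀ β ∈ (X b * pderiv c f).support, b ∈ β.support := by
    intro β hβ
    by_contra hcon
    rw [mem_support_iff, coeff_X_mul', if_neg hcon] at hβ
    exact hβ rfl
  obtain ⟨φ, hφ⟩ : ∃ φ : (Fin (n + 1) →₀ ℕ) → (Fin (n + 1) →₀ ℕ), φ =
    fun β => β - Finsupp.single b 1 + Finsupp.single c 1 := ⟨_, rfl⟩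
  have hinj : ∀ β ∈ (X b * pderiv c f).support, ∀ β' ∈ (X b * pderiv c f).support,
      φ β = φ β' → β = β' := by
    intro β hβ β' hβ' h
    rw [hφ] at h
    have h1 := add_right_cancel h
    have h2 : ∀ γ : Fin (n + 1) →₀ ℕ, b ∈ γ.support → γ = γ - Finsupp.single b 1 +
        Finsupp.single b 1 := by
      intro γ hγ
      rw [tsub_add_cancel_of_le]
      rw [Finsupp.single_le_iff]
      have := Finsupp.mem_support_iff.1 hγ
      omega
    rw [h2 β (hsup β hβ), h2 β' (hsup β' hβ'), h1]
  refine le_trans ?_ (sum_le_hs (k := k) ((X b * pderiv c f).support.image φ) f)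
  rw [Finset.sum_image hinj]
  unfold hs
  refine Finset.sum_le_sum fun β hβ => ?_
  rw [coeff_X_mul', if_pos (hsup β hβ), coeff_pderiv]
  have := hgt_mul_nat (k := k) (f.coeff (φ β)) ((β - Finsupp.single b 1 : Fin (n + 1) →₀ ℕ) c + 1)
  rw [Nat.cast_add, Nat.cast_one] at this
  rw [hφ] at this ⊢
  exact this

omit [CharZero k] [IsFF k F] in
open Classical in
theorem hsum_union_le (A B : Finset (MvPolynomial (Fin (n + 1)) F)) :
    Hyp.hsum k (A ∪ B) ≤ Hyp.hsum k A + Hyp.hsum k B := by
  have h1 := Finset.sum_union_inter (s₁ := A) (s₂ := B) (f := hs k (F := F) (n := n))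
  have h2 : 0 ≤ ∑ g ∈ A ∩ B, hs k g := Finset.sum_nonneg fun _ _ => hs_nonneg _
  change ∑ g ∈ A ∪ B, hs k g ≤ ∑ g ∈ A, hs k g + ∑ g ∈ B, hs k g
  linarith

omit [CharZero k] [IsFF k F] in
open Classical in
theorem hsum_image_le {ι : Type} [Fintype ι] (f : ι → MvPolynomial (Fin (n + 1)) F) :
    Hyp.hsum k (Finset.univ.image f) ≤ ∑ i, hs k (f i) := by
  change ∑ g ∈ Finset.univ.image f, hs k g ≤ _
  exact Finset.sum_image_le_of_nonneg fun _ _ => hs_nonneg _

omit [CharZero k] [IsFF k F] in
theorem hsum_singleton_le (f : MvPolynomial (Fin (n + 1)) F) :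
    Hyp.hsum k {f} ≤ hs k f := by
  unfold Hyp.hsum hs
  rw [Finset.sum_singleton]

variable {S : Sys k F n q} {b : ℕ} (H : Hyp S b)

/-- a bound for the heights that does not depend on the constant forms -/
noncomputable def Hyp.hb (k : Type) [Field k] [Algebra k F] (h : Fin q → MvPolynomial (Fin (n + 1)) F)
    (t : F) {b : ℕ} (l : Fin b → Fin (n + 1) → F) : ℤ :=
  (∑ i, hs k (h i) + ∑ w : Fin q × Fin (n + 1) × Fin (n + 1), hs k (h w.1)) +
    (hgt k t + ∑ w : Fin b × Fin (n + 1), hgt k (l w.1 w.2))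

theorem Hyp.hsum_PPof_le {h : Fin q → MvPolynomial (Fin (n + 1)) F}
    {g : Fin q → MvPolynomial (Fin (n + 1)) k}
    (hf : ∀ i, S.f i = h i + map (algebraMap k F) (g i)) :
    Hyp.hsum k H.PPof ≤ Hyp.hb k h S.t H.lam := by
  classical
  unfold Hyp.PPof Hyp.hb
  refine (hsum_union_le _ _).trans (add_le_add ((hsum_union_le _ _).trans (add_le_add ?_ ?_))
    ((hsum_union_le _ _).trans (add_le_add ?_ ?_)))
  · refine (hsum_image_le _).trans (Finset.sum_le_sum fun i _ => ?_)
    rw [hf]
    exact hs_add_map_le _ _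
  · refine (hsum_image_le _).trans (Finset.sum_le_sum fun w _ => ?_)
    refine (hs_X_pderiv_le _ _ _).trans ?_
    rw [hf]
    exact hs_add_map_le _ _
  · exact (hsum_singleton_le _).trans (hs_C_le _)
  · exact (hsum_image_le _).trans (Finset.sum_le_sum fun w _ => hs_C_le _)

theorem Hyp.hsum_PPex_le [IsAlgClosed k] {h : Fin q → MvPolynomial (Fin (n + 1)) F}
    {g : Fin q → MvPolynomial (Fin (n + 1)) k}
    (hf : ∀ i, S.f i = h i + map (algebraMap k F) (g i)) (a : Fin b → F)
    (Mm : Fin (n + 1) → Fin b → F) :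
    Hyp.hsum k (H.PPex a Mm) ≤ Hyp.hb k h S.t H.lam + (∑ j, hgt k (a j) +
      (∑ j, hgt k (a j) + ∑ w : Fin (n + 1) × Fin b, hgt k (Mm w.1 w.2))) := by
  classical
  unfold Hyp.PPex
  refine (hsum_union_le _ _).trans (add_le_add (H.hsum_PPof_le hf)
    ((hsum_union_le _ _).trans (add_le_add ?_
      ((hsum_union_le _ _).trans (add_le_add ?_ ?_)))))
  · exact (hsum_image_le _).trans (Finset.sum_le_sum fun w _ => hs_C_le _)
  · refine (hsum_image_le _).trans (Finset.sum_le_sum fun w _ => (hs_C_le _).trans ?_)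
    rw [hgt_inv]
  · exact (hsum_image_le _).trans (Finset.sum_le_sum fun w _ => hs_C_le _)

end Pool.Agent.TH875.Vg
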