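import Pool.Agent.TH875.Vg.LocX

/-! Hyperplanes: linear algebra and definitions. -/

set_option autoImplicit false

open FF MvPolynomial
open Pool.Agent.W603.LV Pool.Agent.W603.PV

namespace Pool.Agent.TH875.Vg

open Matrix Module

/-- An independent part of a family of linear forms. -/
theorem exists_sub {L U ι : Type*} [Field L] [AddCommGroup U] [Module L U]
    [FiniteDimensional L U] (ψ : ι → Dual L U) :
    ∃ (r : ℕ) (α : Fin r → ι), (∀ u, (∀ a, ψ (α a) u = 0) → ∀ i, ψ i u = 0) ∧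
      (∀ a, ψ (α a) ≠ 0) ∧
      ∀ K : Submodule L U, (∀ u, u ∈ K ↔ ∀ i, ψ i u = 0) → r + finrank L K = finrank L U := by
  classical
  obtain ⟨κ, a, -, hspan, hli⟩ := exists_linearIndependent' L ψ
  have hfin : Finite κ := hli.finite
  have := Fintype.ofFinite κ
  have e : Fin (Fintype.card κ) ≃ κ := (Fintype.equivFin κ).symm
  refine ⟨Fintype.card κ, a ∘ e, fun u hu i => ?_, fun b => hli.ne_zero (e b), fun K hK => ?_⟩
  · have h1 : ψ i ∈ Submodule.span L (Set.range (ψ ∘ a)) := by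
      rw [hspan]; exact Submodule.subset_span ⟨i, rfl⟩
    have h2 : ∀ f ∈ Submodule.span L (Set.range (ψ ∘ a)), f u = 0 := by
      intro f hf
      induction hf using Submodule.span_induction with
      | mem f hf =>
        obtain ⟨c, rfl⟩ := hf
        have := hu (e.symm c)
        simpa using this
      | zero => rfl
      | add f g _ _ hf hg => rw [LinearMap.add_apply, hf, hg, add_zero]
      | smul c f _ hf => rw [LinearMap.smul_apply, hf, smul_zero]
    exact h2 _ h1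
  · have h1 : K = (Submodule.span L (Set.range ψ)).dualCoannihilator := by
      apply SetLike.coe_injective
      rw [Submodule.coe_dualCoannihilator_span]
      ext u
      simp [hK]
    rw [h1, ← Subspace.finrank_add_finrank_dualCoannihilator_eq (Submodule.span L (Set.range ψ)),
      ← hspan, finrank_span_eq_card hli]

/-- Coordinates on a subspace, with as many as possible of the given linear forms. -/
theorem exists_TJ {L : Type*} [Field L] {n b : ℕ} (V : Submodule L (Option (Fin (n + 1)) → L))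
    (φ : Fin b → ((Option (Fin (n + 1)) → L) →ₗ[L] L)) (hV : ∃ v ∈ V, v none ≠ 0) {c : ℕ}
    (hc : ∀ K' : Submodule L (Option (Fin (n + 1)) → L),
      (∀ v ∈ K', v ∈ V ∧ v none = 0 ∧ ∀ j, φ j v = 0) → finrank L K' ≤ c) :
    ∃ (r s : ℕ) (α : Fin r → Fin b) (β : Fin s → Fin (n + 1)), r + s + 1 = finrank L V ∧ s ≤ c ∧
      (∀ v ∈ V, v none = 0 → (∀ a, φ (α a) v = 0) → (∀ a, v (some (β a)) = 0) → v = 0) ∧
      ∀ a, ∃ v ∈ V, φ (α a) v ≠ 0 := by
  classical
  obtain ⟨v0, hv0, hv0n⟩ := hV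
  set f : V →ₗ[L] L := (LinearMap.proj none).comp V.subtype with hf
  have hfs : LinearMap.range f = ⊤ := by
    rw [LinearMap.range_eq_top]
    intro c
    refine ⟨(c / v0 none) • ⟨v0, hv0⟩, ?_⟩
    rw [map_smul]
    change c / v0 none * v0 none = c
    rw [div_mul_cancel₀ _ hv0n]
  have h1 := LinearMap.finrank_range_add_finrank_ker f
  rw [hfs, finrank_top, Module.finrank_self, ← Submodule.finrank_map_subtype_eq] at h1
  obtain ⟨U1, hU1⟩ : ∃ U1, U1 = (LinearMap.ker f).map V.subtype := ⟨_, rfl⟩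
  rw [← hU1] at h1
  have hU1mem : ∀ v, v ∈ U1 ↔ v ∈ V ∧ v none = 0 := by
    intro v
    rw [hU1, Submodule.mem_map]
    constructor
    · rintro ⟨u, hu, rfl⟩
      exact ⟨u.2, hu⟩
    · rintro ⟨h2, h3⟩
      exact ⟨⟨v, h2⟩, h3, rfl⟩
  obtain ⟨r, α, hα1, hα2, hα3⟩ := exists_sub (L := L) (U := U1)
    (fun j => (φ j).comp U1.subtype)
  obtain ⟨K1, hK1⟩ : ∃ K1 : Submodule L U1, K1 = ⨅ j, LinearMap.ker ((φ j).comp U1.subtype) :=
    ⟨_, rfl⟩
  have hK1mem : ∀ u, u ∈ K1 ↔ ∀ i, ((φ i).comp U1.subtype) u = 0 := by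
    intro u
    rw [hK1, Submodule.mem_iInf]
    rfl
  have h2 := hα3 K1 hK1mem
  rw [← Submodule.finrank_map_subtype_eq] at h2
  obtain ⟨K2, hK2⟩ : ∃ K2, K2 = K1.map U1.subtype := ⟨_, rfl⟩
  rw [← hK2] at h2
  have hK2mem : ∀ v, v ∈ K2 ↔ v ∈ V ∧ v none = 0 ∧ ∀ j, φ j v = 0 := by
    intro v
    rw [hK2, Submodule.mem_map]
    constructor
    · rintro ⟨u, hu, rfl⟩
      exact ⟨((hU1mem _).1 u.2).1, ((hU1mem _).1 u.2).2, fun j => (hK1mem u).1 hu j⟩
    · rintro ⟨h3, h4, h5⟩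
      exact ⟨⟨v, (hU1mem v).2 ⟨h3, h4⟩⟩, (hK1mem _).2 h5, rfl⟩
  obtain ⟨s, β, hβ1, -, hβ3⟩ := exists_sub (L := L) (U := K2)
    (fun j => (LinearMap.proj (some j)).comp K2.subtype)
  have hker : ∀ u : K2, (∀ i, ((LinearMap.proj (some i)).comp K2.subtype) u = 0) → u = 0 := by
    intro u hu
    apply Subtype.ext
    funext o
    rcases o with _ | o
    · exact ((hK2mem _).1 u.2).2.1
    · exact hu o
  have h3 := hβ3 ⊥ (fun u => by
    rw [Submodule.mem_bot]
    exact ⟨fun h i => by rw [h, map_zero], hker u⟩)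
  rw [finrank_bot, add_zero] at h3
  refine ⟨r, s, α, β, by omega, ?_, ?_, ?_⟩
  · rw [h3]
    exact hc K2 fun v hv => (hK2mem v).1 hv
  · intro v hv hvn hvα hvβ
    have h5 : v ∈ U1 := (hU1mem v).2 ⟨hv, hvn⟩
    have h6 := hα1 ⟨v, h5⟩ fun a => hvα a
    have h7 : v ∈ K2 := (hK2mem v).2 ⟨hv, hvn, fun j => h6 j⟩
    have h8 := hβ1 ⟨v, h7⟩ fun a => hvβ a
    exact congrArg Subtype.val (hker _ h8)
  · intro a
    by_contra hcon
    push Not at hcon
    apply hα2 a
    ext u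
    exact hcon _ ((hU1mem _).1 u.2).1

end Pool.Agent.TH875.Vg
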