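import Pool.Agent.TH875.Vg.Hyp
import Pool.Agent.TH875.Vg.LocY

/-! Hyperplanes. -/

set_option autoImplicit false

open FF MvPolynomial
open Pool.Agent.W603.LV Pool.Agent.W603.PV

namespace Pool.Agent.TH875.Vg

open Matrix Module

/-- Linear forms over `F`, with the derivatives of their coefficients. -/
structure Hyp {k F : Type} [Field k] [Field F] [Algebra k F] {n q : ℕ} (S : Sys k F n q)
    (b : ℕ) where
  lam : Fin b → Fin (n + 1) → F
  mu : Fin b → Fin (n + 1) → F
  nice : ∀ (L : Type) [Field L] [Algebra k L] [Algebra F L] [IsScalarTower k F L] (j : Fin b)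
    (a : Fin (n + 1)),
    (∀ (p : S.Idx) (δ : Derivation ℤ L L), IsLift (S.dd p) δ →
      δ (algebraMap F L (lam j a)) = algebraMap F L (mu j a) * δ (algebraMap F L S.t)) ∧
    ∀ D : Derivation k L L,
      D (algebraMap F L (lam j a)) = algebraMap F L (mu j a) * D (algebraMap F L S.t)

namespace Hyp

variable {k F : Type} [Field k] [Field F] [Algebra k F] {n q : ℕ} {S : Sys k F n q} {b : ℕ}
  (H : Hyp S b)
variable {L : Type} [Field L] [Algebra k L] [Algebra F L]

/-- the value of a linear form -/
noncomputable def ell (x : Fin (n + 1) → L) (j : Fin b) : L :=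
  ∑ a, algebraMap F L (H.lam j a) * x a

/-- the differential of a linear form -/
noncomputable def dell (x : Fin (n + 1) → L) (j : Fin b) : (O n → L) →ₗ[L] L where
  toFun v := (∑ a, algebraMap F L (H.mu j a) * x a) * v none +
    ∑ a, algebraMap F L (H.lam j a) * v (some a)
  map_add' v w := by
    simp only [Pi.add_apply, mul_add, Finset.sum_add_distrib]
    ring
  map_smul' c v := by
    simp only [Pi.smul_apply, smul_eq_mul, RingHom.id_apply, mul_add, Finset.mul_sum]
    congr 1
    · ring
    · exact Finset.sum_congr rfl fun a _ => by ring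

theorem dell_apply (x : Fin (n + 1) → L) (j : Fin b) (v : O n → L) :
    H.dell x j v = (∑ a, algebraMap F L (H.mu j a) * x a) * v none +
      ∑ a, algebraMap F L (H.lam j a) * v (some a) := rfl

theorem dell_ext0 (x y : Fin (n + 1) → L) (j : Fin b) : H.dell x j (Sys.ext0 y) = H.ell y j := by
  rw [dell_apply]
  simp only [Sys.ext0, Option.elim, mul_zero, zero_add]
  rfl

theorem der_ell [IsScalarTower k F L] (δ : Derivation ℤ L L) (x : Fin (n + 1) → L) (j : Fin b)
    (h : ∀ a, δ (algebraMap F L (H.lam j a)) =
      algebraMap F L (H.mu j a) * δ (algebraMap F L S.t)) :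
    H.dell x j (S.vec δ x) = δ (H.ell x j) := by
  rw [dell_apply]
  unfold ell
  rw [map_sum]
  simp only [Sys.vec, Option.elim]
  rw [Finset.sum_mul, ← Finset.sum_add_distrib]
  refine Finset.sum_congr rfl fun a _ => ?_
  rw [δ.leibniz, smul_eq_mul, smul_eq_mul, h a]
  ring

theorem dell_vec [IsScalarTower k F L] {p : S.Idx} {δ : Derivation ℤ L L}
    (h : IsLift (S.dd p) δ) (x : Fin (n + 1) → L) (j : Fin b) :
    H.dell x j (S.vec δ x) = δ (H.ell x j) :=
  H.der_ell δ x j fun a => (H.nice L j a).1 p δ h

theorem dell_vecD [IsScalarTower k F L] (D : Derivation k L L) (x : Fin (n + 1) → L)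
    (j : Fin b) : H.dell x j (S.vec (toZ D) x) = D (H.ell x j) :=
  H.der_ell (toZ D) x j fun a => (H.nice L j a).2 D

theorem dell_zero [IsScalarTower k F L] {x : Fin (n + 1) → L} {j : Fin b} (h : H.ell x j = 0)
    {v : O n → L} (hv : v ∈ S.V x) : H.dell x j v = 0 := by
  unfold Sys.V at hv
  induction hv using Submodule.span_induction with
  | mem v hv =>
    rcases hv with hv | ⟨D, rfl⟩ | ⟨p, δ, hδ, rfl⟩
    · rw [Set.mem_singleton_iff] at hv
      rw [hv, dell_ext0, h]
    · rw [dell_vecD, h, map_zero]
    · rw [H.dell_vec hδ, h, map_zero]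
  | zero => rw [map_zero]
  | add v w _ _ hv hw => rw [map_add, hv, hw, add_zero]
  | smul a v _ hv => rw [map_smul, hv, smul_zero]

theorem ell_smul (τ : L) (y : Fin (n + 1) → L) (j : Fin b) :
    H.ell (fun j => τ * y j) j = τ * H.ell y j := by
  unfold ell
  rw [Finset.mul_sum]
  exact Finset.sum_congr rfl fun a _ => by ring

theorem dell_Sd (τ : L) (y : Fin (n + 1) → L) (j : Fin b) (w : O n → L) :
    H.dell (fun j => τ * y j) j (fun o => Sys.Sd τ o * w o) = τ * H.dell y j w := by
  rw [dell_apply, dell_apply]
  simp only [Sys.Sd, Option.elim, mul_add, Finset.mul_sum, Finset.sum_mul]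
  congr 1
  · exact Finset.sum_congr rfl fun a _ => by ring
  · exact Finset.sum_congr rfl fun a _ => by ring

/-- the entries of a vector and the values of the linear forms -/
noncomputable def ev (x : Fin (n + 1) → L) : (O n → L) →ₗ[L] (O n ⊕ Fin b → L) where
  toFun v := Sum.elim v fun j => H.dell x j v
  map_add' v w := by
    funext o
    rcases o with o | j
    · rfl
    · simp
  map_smul' c v := by
    funext o
    rcases o with o | j
    · rfl
    · simp

theorem ev_inl (x : Fin (n + 1) → L) (v : O n → L) (o : O n) : H.ev x v (Sum.inl o) = v o := rfl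

theorem ev_inr (x : Fin (n + 1) → L) (v : O n → L) (j : Fin b) :
    H.ev x v (Sum.inr j) = H.dell x j v := rfl

/-- the entries of a vector and the values of the logarithmic differentials of the linear forms -/
noncomputable def evl (x : Fin (n + 1) → L) : (O n → L) →ₗ[L] (O n ⊕ Fin b → L) where
  toFun v := Sum.elim v fun j => (H.ell x j)⁻¹ * H.dell x j v
  map_add' v w := by
    funext o
    rcases o with o | j
    · rfl
    · simp [mul_add]
  map_smul' c v := by
    funext o
    rcases o with o | j
    · rfl
    · simp only [Sum.elim_inr, map_smul, smul_eq_mul, RingHom.id_apply, Pi.smul_apply]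
      ring

theorem evl_inl (x : Fin (n + 1) → L) (v : O n → L) (o : O n) : H.evl x v (Sum.inl o) = v o := rfl

theorem evl_inr (x : Fin (n + 1) → L) (v : O n → L) (j : Fin b) :
    H.evl x v (Sum.inr j) = (H.ell x j)⁻¹ * H.dell x j v := rfl

theorem evl_injective (x : Fin (n + 1) → L) : Function.Injective (H.evl x) := by
  intro v w h
  funext o
  exact congrFun h (Sum.inl o)

/-- the scaling of the entries -/
def Sx (τ : L) : O n ⊕ Fin b → L := Sum.elim (Sys.Sd τ) fun _ => τ

theorem ev_Sd (τ : L) (y : Fin (n + 1) → L) (w : O n → L) (o : O n ⊕ Fin b) :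
    H.ev (fun j => τ * y j) (fun o => Sys.Sd τ o * w o) o = Sx τ o * H.ev y w o := by
  rcases o with o | j
  · rfl
  · exact H.dell_Sd τ y j w

end Hyp

end Pool.Agent.TH875.Vg
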