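import Pool.Agent.TH875.Vg.OrbD

/-! A bound for the height of the tangent space. -/

set_option autoImplicit false

open FF MvPolynomial
open Pool.Agent.W603.LV Pool.Agent.W603.PV

namespace Pool.Agent.TH875.Vg

open Matrix Module

section

variable {L : Type} [Field L] {n : ℕ}

/-- change of basis -/
theorem mins_change {M : ℕ} {u u' : Fin M → Fin (n + 1) → L} (hu' : LinearIndependent L u')
    (h : ∀ i, u' i ∈ Submodule.span L (Set.range u)) :
    ∃ g : L, g ≠ 0 ∧ ∀ σ, mins u' σ = g * mins u σ := by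
  classical
  choose G hG using fun i => (Submodule.mem_span_range_iff_exists_fun L).1 (h i)
  have h1 : ∀ σ, mins u' σ = (Matrix.of G).det * mins u σ := by
    intro σ
    unfold mins
    rw [← Matrix.det_mul]
    congr 1
    ext i a
    rw [Matrix.of_apply, Matrix.mul_apply, ← hG i, Finset.sum_apply]
    rfl
  refine ⟨(Matrix.of G).det, ?_, h1⟩
  obtain ⟨σ, hσ⟩ := exists_mins hu'
  intro h2
  rw [h1, h2, zero_mul] at hσ
  exact hσ rfl

/-- the vectors of a subspace given by Cramer's rule -/
noncomputable def crv {ρ : ℕ} (r : Fin ρ → Fin (n + 1) → L) (β : Fin ρ → Fin (n + 1))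
    (l : Fin (n + 1)) : Fin (n + 1) → L := fun j =>
  mins r β * (if j = l then 1 else 0) -
    ∑ b, (if j = β b then 1 else 0) *
      (cramer (Matrix.of fun i b => r i (β b)) fun a => r a l) b

theorem crv_dot {ρ : ℕ} (r : Fin ρ → Fin (n + 1) → L) (β : Fin ρ → Fin (n + 1))
    (l : Fin (n + 1)) (a : Fin ρ) : ∑ j, r a j * crv r β l j = 0 := by
  have h1 := congrFun (mulVec_cramer (Matrix.of fun i b => r i (β b)) (fun a => r a l)) a
  simp only [Matrix.mulVec, dotProduct, Matrix.of_apply, Pi.smul_apply, smul_eq_mul] at h1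
  simp only [crv, mul_sub, Finset.mul_sum, Finset.sum_sub_distrib]
  rw [sub_eq_zero]
  have h2 : ∑ j, r a j * (mins r β * (if j = l then 1 else 0)) = mins r β * r a l := by
    rw [Finset.sum_eq_single l]
    · simp; ring
    · intro j _ hj
      simp [hj]
    · simp
  rw [h2, Finset.sum_comm]
  unfold mins
  rw [← h1]
  refine Finset.sum_congr rfl fun b _ => ?_
  rw [Finset.sum_eq_single (β b)]
  · simp
  · intro j _ hj
    simp [hj]
  · simp

theorem crv_comb {ρ : ℕ} (r : Fin ρ → Fin (n + 1) → L) (β : Fin ρ → Fin (n + 1))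
    {v : Fin (n + 1) → L} (hv : ∀ a, ∑ j, r a j * v j = 0) :
    ∑ l, v l • crv r β l = mins r β • v := by
  funext j
  rw [Finset.sum_apply]
  simp only [Pi.smul_apply, smul_eq_mul, crv, mul_sub, Finset.mul_sum, Finset.sum_sub_distrib]
  have h1 : ∑ l, v l * (mins r β * (if j = l then 1 else 0)) = mins r β * v j := by
    rw [Finset.sum_eq_single j]
    · simp; ring
    · intro l _ hl
      rw [if_neg (Ne.symm hl)]
      simp
    · simp
  rw [h1, Finset.sum_comm]
  have h2 : ∀ b, ∑ l, v l * ((if j = β b then 1 else 0) *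
      (cramer (Matrix.of fun i b => r i (β b)) fun a => r a l) b) = 0 := by
    intro b
    have h3 : (cramer (Matrix.of fun i b => r i (β b)) (∑ l, v l • fun a => r a l)) = 0 := by
      have h4 : (∑ l, v l • fun a => r a l) = (0 : Fin ρ → L) := by
        funext a
        rw [Finset.sum_apply, Pi.zero_apply, ← hv a]
        refine Finset.sum_congr rfl fun l _ => ?_
        rw [Pi.smul_apply, smul_eq_mul, mul_comm]
      rw [h4, map_zero]
    rw [map_sum] at h3
    have h5 := congrFun h3 b
    rw [Finset.sum_apply, Pi.zero_apply] at h5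
    have h6 : ∑ l, v l * ((if j = β b then 1 else 0) *
        (cramer (Matrix.of fun i b => r i (β b)) fun a => r a l) b) =
        (if j = β b then 1 else 0) *
          ∑ l, (cramer (Matrix.of fun i b => r i (β b)) (v l • fun a => r a l)) b := by
      rw [Finset.mul_sum]
      refine Finset.sum_congr rfl fun l _ => ?_
      rw [map_smul, Pi.smul_apply, smul_eq_mul]
      ring
    rw [h6, h5, mul_zero]
  rw [Finset.sum_eq_zero fun b _ => h2 b, sub_zero]

end

variable {k : Type} [Field k] {L : Type} [Field L] [Algebra k L] {n : ℕ}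

theorem crv_ge (P : Place k L) {ρ : ℕ} {r : Fin ρ → Fin (n + 1) → L} (β : Fin ρ → Fin (n + 1))
    {D : Fin ρ → ℤ} (hr : ∀ a j, Ge P (D a) (r a j)) (l j : Fin (n + 1)) :
    Ge P (∑ a, D a) (crv r β l j) := by
  have h01 : ∀ p : Prop, ∀ [Decidable p], Ge P 0 (if p then (1 : L) else 0) := by
    intro p _
    split_ifs
    · exact Ge.one
    · exact Ge.zero
  refine Ge.sub ?_ (Ge.sum _ _ fun b _ => ?_)
  · have h1 : Ge P (∑ a, D a) (mins r β) := by
      unfold mins
      have := ge_det' P (Matrix.of fun i a => r i (β a)) (fun a => D a) (fun _ => 0) (fun i j => by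
        simpa using hr i (β j))
      simpa using this
    simpa using h1.mul (h01 (j = l))
  · have h1 : Ge P (∑ a, D a) ((cramer (Matrix.of fun i b => r i (β b)) fun a => r a l) b) := by
      rw [cramer_apply]
      have := ge_det' P ((Matrix.of fun i b => r i (β b)).updateCol b (fun a => r a l))
        (fun a => D a) (fun _ => 0) (fun i j => by
          rw [Matrix.updateCol_apply]
          split_ifs
          · simpa using hr i l
          · simpa using hr i (β j))
      simpa using this
    simpa using (h01 (j = β b)).mul h1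

section

variable [CharZero k] [IsAlgClosed k] [IsFF k L]

/-- A bound for the height of a space given by equations. -/
theorem ght_ker_le {x : Fin (n + 1) → L} (hx : ∃ j, x j ≠ 0) {ι : Type} [Finite ι]
    (R : ι → Fin (n + 1) → L) (D : ι → ℕ) (hR : ∀ P : Place k L, ∀ i j, Ge P (D i * pord P x) (R i j))
    {M : ℕ} {u : Fin M → Fin (n + 1) → L} (hu : LinearIndependent L u)
    (huR : ∀ v, v ∈ Submodule.span L (Set.range u) ↔ ∀ i, ∑ j, R i j * v j = 0) {K : ℕ}
    (hK : ∀ s : Finset ι, ∑ i ∈ s, D i ≤ K) : ght k (mins u) ≤ M * K * pht k x := by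
  classical
  have := Fintype.ofFinite ι
  obtain ⟨κ', a, ha, hspan, hli⟩ := exists_linearIndependent' L R
  have hfin : Finite κ' := hli.finite
  have := Fintype.ofFinite κ'
  obtain ⟨ρ, hρ⟩ : ∃ ρ, ρ = Fintype.card κ' := ⟨_, rfl⟩
  have e : Fin ρ ≃ κ' := (Fintype.equivFinOfCardEq hρ.symm).symm
  obtain ⟨r, hr⟩ : ∃ r : Fin ρ → Fin (n + 1) → L, r = fun i => R (a (e i)) := ⟨_, rfl⟩
  have hrli : LinearIndependent L r := by
    rw [hr]
    exact hli.comp e e.injective
  have hrv : ∀ v : Fin (n + 1) → L, (∀ i, ∑ j, r i j * v j = 0) → ∀ i, ∑ j, R i j * v j = 0 := by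
    intro v hv i
    have h1 : R i ∈ Submodule.span L (Set.range (R ∘ a)) := by
      rw [hspan]; exact Submodule.subset_span ⟨i, rfl⟩
    have h2 : ∀ w ∈ Submodule.span L (Set.range (R ∘ a)), ∑ j, w j * v j = 0 := by
      intro w hw
      induction hw using Submodule.span_induction with
      | mem w hw =>
        obtain ⟨c, rfl⟩ := hw
        have := hv (e.symm c)
        rw [hr] at this
        simpa using this
      | zero => simp
      | add v w _ _ hv hw =>
        simp only [Pi.add_apply, add_mul, Finset.sum_add_distrib]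
        rw [hv, hw, add_zero]
      | smul c w _ hw =>
        simp only [Pi.smul_apply, smul_eq_mul, mul_assoc, ← Finset.mul_sum]
        rw [hw, mul_zero]
    exact h2 _ h1
  obtain ⟨β, hβ⟩ := exists_mins hrli
  -- the space is spanned by the vectors of Cramer's rule
  have hQ : ∀ l, crv r β l ∈ Submodule.span L (Set.range u) := by
    intro l
    rw [huR]
    exact hrv _ fun i => crv_dot r β l i
  have hspan2 : Submodule.span L (Set.range (crv r β)) = Submodule.span L (Set.range u) := by
    apply le_antisymm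
    · rw [Submodule.span_le]
      rintro _ ⟨l, rfl⟩
      exact hQ l
    · intro v hv
      have h1 := crv_comb r β (v := v) (fun i => by
        have := (huR v).1 hv (a (e i))
        rw [hr]
        exact this)
      have h2 : v = (mins r β)⁻¹ • ∑ l, v l • crv r β l := by
        rw [h1, smul_smul, inv_mul_cancel₀ hβ, one_smul]
      rw [h2]
      exact Submodule.smul_mem _ _ (Submodule.sum_mem _ fun l _ =>
        Submodule.smul_mem _ _ (Submodule.subset_span ⟨l, rfl⟩))
  obtain ⟨κ₂, a₂, ha₂, hspan₂, hli₂⟩ := exists_linearIndependent' L (crv r β)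
  have hfin₂ : Finite κ₂ := hli₂.finite
  have := Fintype.ofFinite κ₂
  have hcard₂ : Fintype.card κ₂ = M := by
    have h1 := finrank_span_eq_card hli₂
    rw [hspan₂, hspan2, finrank_span_eq_card hu, Fintype.card_fin] at h1
    exact h1.symm
  have e₂ : Fin M ≃ κ₂ := (Fintype.equivFinOfCardEq hcard₂).symm
  obtain ⟨u', hu'⟩ : ∃ u' : Fin M → Fin (n + 1) → L, u' = fun i => crv r β (a₂ (e₂ i)) :=
    ⟨_, rfl⟩
  have hu'li : LinearIndependent L u' := by
    rw [hu']
    exact hli₂.comp e₂ e₂.injective
  obtain ⟨g, hg, hgm⟩ := mins_change (u := u) hu'li (fun i => by rw [hu']; exact hQ _)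
  obtain ⟨D', hD'⟩ : ∃ D' : ℕ, D' = ∑ i, D (a (e i)) := ⟨_, rfl⟩
  have hD'K : D' ≤ K := by
    have h1 : D' = ∑ i ∈ Finset.univ.image (fun i => a (e i)), D i := by
      rw [hD', Finset.sum_image]
      intro i _ j _ h
      exact e.injective (ha h)
    rw [h1]
    exact hK _
  have hge : ∀ P : Place k L, ∀ σ, Ge P (M * (D' * pord P x)) (mins u' σ) := by
    intro P σ
    have h1 : ∀ i j, Ge P (D' * pord P x) (u' i j) := by
      intro i j
      rw [hu']
      have h2 := crv_ge P (r := r) β (D := fun i => D (a (e i)) * pord P x) (fun i j => by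
        rw [hr]; exact hR P _ j) (a₂ (e₂ i)) j
      rw [← Finset.sum_mul] at h2
      rw [hD']
      push_cast
      exact h2
    have h3 := ge_det' P (Matrix.of fun i a => u' i (σ a)) (fun _ => D' * pord P x) (fun _ => 0)
      (fun i j => by simpa using h1 i (σ j))
    simpa [mins] using h3
  obtain ⟨σ0, hσ0⟩ := exists_mins hu
  have hw : ∃ σ, g * mins u σ ≠ 0 := ⟨σ0, mul_ne_zero hg hσ0⟩
  rw [← ght_smul (k := k) hg (w := mins u) ⟨σ0, hσ0⟩]
  obtain ⟨T1, hT1⟩ := exists_supp (k := k) (Finset.univ : Finset (Fin (n + 1))) x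
  obtain ⟨T2, hT2⟩ := exists_supp (k := k) (Finset.univ : Finset (Fin M → Fin (n + 1)))
    fun σ => g * mins u σ
  rw [ght_finset hw (T1 ∪ T2) (fun σ P hP =>
    Finset.mem_union_right _ (hT2 σ (Finset.mem_univ _) P hP)), Sys.pht_finset hx (T1 ∪ T2)
    (fun j P hP => Finset.mem_union_left _ (hT1 j (Finset.mem_univ _) P hP))]
  have hlow : ∀ P : Place k L, M * (D' * pord P x) ≤ gord P (fun σ => g * mins u σ) := by
    intro P
    obtain ⟨σ, hσ, hσo⟩ := exists_gord P hw
    rw [← hσo, ← hgm σ]
    exact (hge P σ).resolve_left (by rw [hgm σ]; exact hσ)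
  have hsum := Finset.sum_le_sum fun P (_ : P ∈ T1 ∪ T2) => hlow P
  rw [← Finset.mul_sum, ← Finset.mul_sum] at hsum
  have hpos : 0 ≤ - ∑ P ∈ T1 ∪ T2, pord P x := by
    rw [← Sys.pht_finset (k := k) hx (T1 ∪ T2)
      (fun j P hP => Finset.mem_union_left _ (hT1 j (Finset.mem_univ _) P hP))]
    exact pht_nonneg hx
  have h4 : (M : ℤ) * D' * (- ∑ P ∈ T1 ∪ T2, pord P x) ≤
      (M : ℤ) * K * (- ∑ P ∈ T1 ∪ T2, pord P x) := by
    refine mul_le_mul_of_nonneg_right ?_ hpos
    have : (D' : ℤ) ≤ K := by exact_mod_cast hD'K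
    exact mul_le_mul_of_nonneg_left this (by positivity)
  linarith

/-- The height of the tangent space is at most a multiple of the height of the point. -/
theorem exists_kappa {J : Ideal (MvPolynomial (Fin (n + 1)) k)}
    (hJ : ∀ f ∈ J, ∀ N, homogeneousComponent N f ∈ J) (m : ℕ) :
    ∃ κ : ℕ, ∀ (L : Type) [Field L] [Algebra k L] [IsFF k L] (x : Fin (n + 1) → L),
      (∃ j, x j ≠ 0) → (∀ f ∈ J, aeval x f = 0) →
      ∀ u : Fin (m + 1) → Fin (n + 1) → L, LinearIndependent L u →
      (∀ v, v ∈ Submodule.span L (Set.range u) ↔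
        ∀ f ∈ J, ∑ j, aeval x (pderiv j f) * v j = 0) →
      ght k (mins u) ≤ κ * pht k x := by
  classical
  obtain ⟨s, hs⟩ : ∃ s : Finset (MvPolynomial (Fin (n + 1)) k), Ideal.span (s : Set _) = J :=
    (isNoetherianRing_iff_ideal_fg _).1 inferInstance J
  obtain ⟨s', hs'd⟩ : ∃ s' : Finset (MvPolynomial (Fin (n + 1)) k), s' =
      s.biUnion fun f => (Finset.range (f.totalDegree + 1)).image
        fun N => homogeneousComponent N f := ⟨_, rfl⟩
  have hs'J : ∀ f ∈ s', f ∈ J := by
    intro f hf
    rw [hs'd, Finset.mem_biUnion] at hf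
    obtain ⟨f0, hf0, hf⟩ := hf
    obtain ⟨N, -, rfl⟩ := Finset.mem_image.1 hf
    exact hJ f0 (by rw [← hs]; exact Ideal.subset_span hf0) N
  have hs' : Ideal.span (s' : Set _) = J := by
    apply le_antisymm
    · rw [Ideal.span_le]
      exact hs'J
    · rw [← hs, Ideal.span_le]
      intro f hf
      rw [← sum_homogeneousComponent f]
      refine Ideal.sum_mem _ fun N hN => Ideal.subset_span ?_
      rw [hs'd, Finset.mem_coe, Finset.mem_biUnion]
      exact ⟨f, hf, Finset.mem_image_of_mem _ hN⟩
  have hhom : ∀ f ∈ s', f.IsHomogeneous f.totalDegree := by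
    intro f hf
    rw [hs'd, Finset.mem_biUnion] at hf
    obtain ⟨f0, hf0, hf⟩ := hf
    obtain ⟨N, -, rfl⟩ := Finset.mem_image.1 hf
    have h1 := homogeneousComponent_isHomogeneous N f0
    by_cases h2 : homogeneousComponent N f0 = 0
    · rw [h2]; exact isHomogeneous_zero _ _ _
    · rw [h1.totalDegree h2]
      exact h1
  refine ⟨(m + 1) * ∑ f : s', ((f : MvPolynomial (Fin (n + 1)) k).totalDegree - 1), ?_⟩
  intro L _ _ _ x hx hxJ u hu huT
  have h1 := ght_ker_le hx (fun (f : s') j => aeval x (pderiv j (f : MvPolynomial (Fin (n + 1)) k)))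
    (fun f => (f : MvPolynomial (Fin (n + 1)) k).totalDegree - 1) (fun P f j =>
      ge_form P x ((hhom f f.2).pderiv (i := j)) fun α _ => Ge.const _) hu (by
      intro v
      rw [huT]
      constructor
      · intro h f
        exact h f (hs'J f f.2)
      · intro h
        exact tangent_gen hs' hxJ fun f hf => h ⟨f, hf⟩)
    (K := ∑ f : s', ((f : MvPolynomial (Fin (n + 1)) k).totalDegree - 1))
    (fun t => Finset.sum_le_sum_of_subset (Finset.subset_univ t))
  push_cast at h1 ⊢
  exact h1

end

end Pool.Agent.TH875.Vg
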