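import Pool.Agent.W603.LV.Ex
import Pool.Agent.W603.PV.Ext

/-! Derivations of the constant field and their extensions to a function field. -/

set_option autoImplicit false

open Polynomial FF
open scoped TensorProduct

namespace Pool.Agent.TH875.Vg

open Pool.Agent.W603.LV

/-- Extension of derivations to algebraic extensions in characteristic zero. -/
theorem ext_der {A L : Type*} [CommRing A] [IsDomain A] [Field L] [Algebra A L] [FaithfulSMul A L]
    [CharZero L] [Algebra.IsAlgebraic A L] (d : Derivation ℤ A L) :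
    ∃ D : Derivation ℤ L L, ∀ a, D (algebraMap A L a) = d a := by
  have hA : CharZero A :=
    (RingHom.charZero_iff (ϕ := algebraMap A L) (FaithfulSMul.algebraMap_injective A L)).2
      inferInstance
  let _ : Algebra (FractionRing A) L := FractionRing.liftAlgebra A L
  have hst2 : IsScalarTower A (FractionRing A) L := inferInstance
  have halg2 : Algebra.IsAlgebraic (FractionRing A) L :=
    (IsFractionRing.comap_isAlgebraic_iff (A := A) (K := FractionRing A) (C := L)).1 inferInstance
  have hchar : CharZero (FractionRing A) :=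
    charZero_of_injective_algebraMap (IsFractionRing.injective A (FractionRing A))
  have hsep : Algebra.IsSeparable (FractionRing A) L := inferInstance
  have h1 : Algebra.FormallyEtale (FractionRing A) L := Algebra.FormallyEtale.of_isSeparable _ _
  have h2 : Algebra.FormallyEtale A (FractionRing A) :=
    Algebra.FormallyEtale.of_isLocalization (nonZeroDivisors A)
  have h3 : Algebra.FormallyEtale A L := Algebra.FormallyEtale.comp A (FractionRing A) L
  let e := KaehlerDifferential.tensorKaehlerEquivOfFormallyEtale ℤ A L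
  let l : Ω[A⁄ℤ] →ₗ[A] L := d.liftKaehlerDifferential
  let φ : Ω[L⁄ℤ] →ₗ[L] L := (LinearMap.liftBaseChange L l).comp e.symm.toLinearMap
  refine ⟨φ.compDer (KaehlerDifferential.D ℤ L), fun a => ?_⟩
  change (LinearMap.liftBaseChange L l) (e.symm (KaehlerDifferential.D ℤ L (algebraMap A L a))) = _
  rw [KaehlerDifferential.tensorKaehlerEquivOfFormallyEtale_symm_D_algebraMap,
    LinearMap.liftBaseChange_tmul, one_smul]
  simp [l]

section

variable {k : Type*} [Field k]

/-- the derivation of the polynomial ring given by a derivation of the coefficients -/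
noncomputable def dC (d : Derivation ℤ k k) : Derivation ℤ k[X] k[X] :=
  (PolynomialModule.equivPolynomialSelf (R := k)).toLinearMap.compDer d.mapCoeffs

theorem dC_coeff (d : Derivation ℤ k k) (p : k[X]) (i : ℕ) :
    (dC d p).coeff i = d (p.coeff i) := rfl

theorem dC_monomial (d : Derivation ℤ k k) (i : ℕ) (a : k) :
    dC d (monomial i a) = monomial i (d a) := by
  ext j
  rw [dC_coeff, coeff_monomial, coeff_monomial]
  split_ifs <;> simp

theorem dC_X_pow_mul (d : Derivation ℤ k k) (M : ℕ) (h : k[X]) :
    dC d (X ^ M * h) = X ^ M * dC d h := by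
  ext j
  rw [dC_coeff, coeff_X_pow_mul', coeff_X_pow_mul']
  split_ifs
  · rw [dC_coeff]
  · rw [map_zero]

variable {L : Type*} [Field L] [Algebra k L]

/-- `δ` extends the derivation `d` of the constants. -/
def IsLift (d : Derivation ℤ k k) (δ : Derivation ℤ L L) : Prop :=
  ∀ c : k, δ (algebraMap k L c) = algebraMap k L (d c)

theorem IsLift.aeval {d : Derivation ℤ k k} {δ : Derivation ℤ L L} (h : IsLift d δ) (t : L)
    (p : k[X]) : δ (Polynomial.aeval t p) =
      Polynomial.aeval t (dC d p) + Polynomial.aeval t (derivative p) * δ t := by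
  induction p using Polynomial.induction_on' with
  | add p q hp hq =>
    simp only [map_add, hp, hq]
    ring
  | monomial i a =>
    rw [dC_monomial, aeval_monomial, aeval_monomial, derivative_monomial, aeval_monomial,
      δ.leibniz, h a, δ.leibniz_pow]
    simp only [smul_eq_mul, nsmul_eq_mul, map_mul, map_natCast]
    ring

/-- the derivation of the coefficients of a polynomial in two variables -/
noncomputable def d2 (d : Derivation ℤ k k) (G : k[X][X]) : k[X][X] :=
  ∑ i ∈ G.support, monomial i (dC d (G.coeff i))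

theorem IsLift.chain {d : Derivation ℤ k k} {δ : Derivation ℤ L L} (h : IsLift d δ) (t y : L)
    (G : k[X][X]) : δ (E2 t y G) = E2 t y (d2 d G) + E2 t y (dX G) * δ t +
      E2 t y (derivative G) * δ y := by
  have h1 : G = ∑ i ∈ G.support, monomial i (G.coeff i) := G.as_sum_support
  have h2 : E2 t y G = ∑ i ∈ G.support, Polynomial.aeval t (G.coeff i) * y ^ i := by
    conv_lhs => rw [h1]
    rw [map_sum]
    exact Finset.sum_congr rfl fun i _ => E2_monomial t y i _
  have h3 : E2 t y (derivative G) =
      ∑ i ∈ G.support, Polynomial.aeval t (G.coeff i) * (i : L) * y ^ (i - 1) := by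
    conv_lhs => rw [h1]
    rw [derivative_sum, map_sum]
    refine Finset.sum_congr rfl fun i _ => ?_
    rw [derivative_monomial, E2_monomial, map_mul, map_natCast]
  have h4 : E2 t y (dX G) =
      ∑ i ∈ G.support, Polynomial.aeval t (derivative (G.coeff i)) * y ^ i := by
    unfold dX
    rw [map_sum]
    exact Finset.sum_congr rfl fun i _ => E2_monomial t y i _
  have h5 : E2 t y (d2 d G) =
      ∑ i ∈ G.support, Polynomial.aeval t (dC d (G.coeff i)) * y ^ i := by
    unfold d2
    rw [map_sum]
    exact Finset.sum_congr rfl fun i _ => E2_monomial t y i _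
  rw [h2, h3, h4, h5, map_sum, Finset.sum_mul, Finset.sum_mul, ← Finset.sum_add_distrib,
    ← Finset.sum_add_distrib]
  refine Finset.sum_congr rfl fun i _ => ?_
  rw [δ.leibniz, h.aeval, δ.leibniz_pow]
  simp only [smul_eq_mul, nsmul_eq_mul]
  ring

/-- Two extensions differ by a derivation that is trivial on the constants. -/
theorem IsLift.diff {d : Derivation ℤ k k} {δ δ' : Derivation ℤ L L} (h : IsLift d δ)
    (h' : IsLift d δ') : ∃ E : Derivation k L L, ∀ f, δ f = δ' f + E f := by
  refine ⟨Derivation.mk' { toFun := fun f => δ f - δ' f, map_add' := ?_, map_smul' := ?_ } ?_,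
    fun f => ?_⟩
  · intro f g
    simp only [map_add]; ring
  · intro c f
    have e1 : δ (c • f) = algebraMap k L c * δ f + f * algebraMap k L (d c) := by
      rw [Algebra.smul_def, δ.leibniz, h c]; rfl
    have e2 : δ' (c • f) = algebraMap k L c * δ' f + f * algebraMap k L (d c) := by
      rw [Algebra.smul_def, δ'.leibniz, h' c]; rfl
    rw [e1, e2, RingHom.id_apply, Algebra.smul_def]
    ring
  · intro f g
    simp only [LinearMap.coe_mk, AddHom.coe_mk, δ.leibniz, δ'.leibniz, smul_eq_mul]
    ring
  · simp

/-- a derivation over `k`, considered over `ℤ` -/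
noncomputable def toZ (D : Derivation k L L) : Derivation ℤ L L :=
  Derivation.mk' ((D : L →ₗ[k] L).toAddMonoidHom.toIntLinearMap) (by
    intro a b
    exact D.leibniz a b)

theorem toZ_apply (D : Derivation k L L) (f : L) : toZ D f = D f := rfl

section lift

variable [CharZero k] [IsFF k L]

/-- Existence of extensions that annihilate a given nonconstant function. -/
theorem exists_lift (d : Derivation ℤ k k) {t : L} (ht : Transcendental k t) :
    ∃ δ : Derivation ℤ L L, IsLift d δ ∧ δ t = 0 := by
  have hinj : Function.Injective (Polynomial.aeval t : k[X] →ₐ[k] L) :=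
    transcendental_iff_injective.1 ht
  let _ : Algebra k[X] L := ((Polynomial.aeval t : k[X] →ₐ[k] L) : k[X] →+* L).toAlgebra
  have hfs : FaithfulSMul k[X] L := (faithfulSMul_iff_algebraMap_injective _ _).2 hinj
  have hst : IsScalarTower k k[X] L := IsScalarTower.of_algebraMap_eq' (by
    ext c
    simp [RingHom.algebraMap_toAlgebra])
  have hcL : CharZero L := charZero_of_injective_algebraMap (algebraMap k L).injective
  have halg : Algebra.IsAlgebraic k[X] L := by
    constructor
    intro f
    obtain ⟨G, hG, hG'⟩ := exists_poly ht f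
    refine ⟨G, ?_, hG⟩
    rintro rfl
    apply hG'
    rw [derivative_zero, map_zero]
  obtain ⟨δ, hδ⟩ := ext_der (A := k[X]) (L := L) ((Algebra.linearMap k[X] L).compDer (dC d))
  refine ⟨δ, fun c => ?_, ?_⟩
  · have h1 := hδ (C c)
    have h2 : algebraMap k[X] L (C c) = algebraMap k L c := by
      simp [RingHom.algebraMap_toAlgebra]
    rw [h2] at h1
    rw [h1]
    change algebraMap k[X] L (dC d (C c)) = _
    rw [← monomial_zero_left, dC_monomial, monomial_zero_left]
    simp [RingHom.algebraMap_toAlgebra]
  · have h1 := hδ X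
    have h2 : algebraMap k[X] L X = t := by simp [RingHom.algebraMap_toAlgebra]
    rw [h2] at h1
    rw [h1]
    change algebraMap k[X] L (dC d X) = 0
    have h3 : dC d (X : k[X]) = 0 := by
      rw [← monomial_one_one_eq_X, dC_monomial]
      have : d (1 : k) = 0 := d.map_one_eq_zero
      rw [this, monomial_zero_right]
    rw [h3, map_zero]

variable [IsAlgClosed k]

/-- An extension annihilating a uniformizer does not decrease orders. -/
theorem IsLift.reg {d : Derivation ℤ k k} {δ : Derivation ℤ L L} (h : IsLift d δ)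
    (P : Place k L) {π : L} (hπ : P.ord π = 1) (hδ : δ π = 0) {f : L} (hf : Ge P 0 f) :
    Ge P 0 (δ f) := by
  have hπ0 : Ge P 0 π := Or.inr (by omega)
  have ht : Transcendental k π := P.transcendental_of_ord_ne (by omega)
  obtain ⟨G, hG, hG'⟩ := exists_poly ht f
  have hM0 : 0 ≤ P.ord (E2 π f (derivative G)) :=
    (reg_E2 P hπ0 hf (derivative G)).resolve_left hG'
  obtain ⟨M, hM⟩ := Int.eq_ofNat_of_zero_le hM0
  obtain ⟨p, hp⟩ := approx P hπ hf (M + 1)
  set q : L := Polynomial.aeval π p with hq
  have hq0 : Ge P 0 q := ge_aeval P hπ0 p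
  have hqf : Ge P (M + 1 : ℕ) (q - f) := by
    rw [← neg_sub]; exact hp.neg
  have hDq : Ge P 0 (δ q) := by
    rw [hq, h.aeval, hδ, mul_zero, add_zero]
    exact ge_aeval P hπ0 _
  -- the value at `q`
  have h1 : Ge P (M + M + 1 : ℕ) (E2 π q G) := by
    obtain ⟨c, hc, e⟩ := E2_taylor P hπ0 hf hq0 G
    rw [e, hG, zero_add]
    refine Ge.add ?_ ?_
    · have : Ge P (M : ℤ) (E2 π f (derivative G)) := Or.inr hM.ge
      have := this.mul hqf
      exact this.mono (by push_cast; linarith)
    · have := hc.mul (hqf.pow 2)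
      exact this.mono (by push_cast; linarith)
  have e1 : E2 π q G = Polynomial.aeval π (eval p G) := by
    rw [hq, E2_apply]
    exact eval₂_at_apply ((Polynomial.aeval π : k[X] →ₐ[k] L) : k[X] →+* L) p
  rw [e1] at h1
  have h2 : Ge P (M + M : ℕ) (δ (Polynomial.aeval π (eval p G))) := by
    obtain ⟨g, hg⟩ := X_pow_dvd P hπ _ _ h1
    rw [h.aeval, hδ, mul_zero, add_zero, hg, dC_X_pow_mul, map_mul, map_pow, aeval_X]
    have h5 : Ge P 1 π := Or.inr hπ.ge
    have h6 := (h5.pow (M + M + 1)).mul (ge_aeval P hπ0 (dC d g))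
    exact h6.mono (by push_cast; linarith)
  rw [← e1, h.chain π q G, hδ, mul_zero, add_zero] at h2
  -- congruences
  have h3 : Ge P (M : ℤ) (E2 π q (derivative G)) := by
    have h4 := E2_sub P hπ0 hq0 hf hqf (derivative G)
    have h5 : Ge P (M : ℤ) (E2 π f (derivative G)) := Or.inr hM.ge
    have h6 := (h4.mono (by push_cast; linarith : (M : ℤ) ≤ _)).add h5
    simpa using h6
  have h4 : Ge P (M : ℤ) (E2 π q (d2 d G)) := by
    have h5 := (h2.mono (by push_cast; linarith : (M : ℤ) ≤ _)).sub (h3.mul hDq |>.mono (by simp))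
    simpa using h5
  have h5 : Ge P (M : ℤ) (E2 π f (d2 d G)) := by
    have h6 := E2_sub P hπ0 hq0 hf hqf (d2 d G)
    have h7 := h4.sub (h6.mono (by push_cast; linarith : (M : ℤ) ≤ _))
    simpa using h7
  have h6 := h.chain π f G
  rw [hG, map_zero, hδ, mul_zero, add_zero] at h6
  have h7 : E2 π f (derivative G) * δ f = - E2 π f (d2 d G) := by linear_combination -h6
  have h8 : Ge P (0 + M : ℤ) (E2 π f (derivative G) * δ f) := by
    rw [h7, zero_add]; exact h5.neg
  exact Ge.of_mul' hG' hM h8

theorem IsLift.ge {d : Derivation ℤ k k} {δ : Derivation ℤ L L} (h : IsLift d δ)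
    (P : Place k L) {π : L} (hπ : P.ord π = 1) (hδ : δ π = 0) {N : ℤ} {f : L} (hf : Ge P N f) :
    Ge P N (δ f) := by
  have hπ0 : π ≠ 0 := by
    rintro rfl
    rw [P.ord_zero] at hπ; omega
  have hz : Ge P (-N) (π ^ (-N)) := Or.inr (by rw [P.ord_zpow, hπ]; simp)
  have hz' : Ge P N (π ^ N) := Or.inr (by rw [P.ord_zpow, hπ]; simp)
  have h1 : Ge P 0 (π ^ (-N) * f) := by
    have := hz.mul hf
    simpa using this
  have h2 := h.reg P hπ hδ h1
  have h3 : δ (π ^ (-N) * f) = π ^ (-N) * δ f := by
    rw [δ.leibniz, δ.leibniz_zpow, hδ]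
    simp
  rw [h3] at h2
  have h4 := hz'.mul h2
  have e : π ^ N * (π ^ (-N) * δ f) = δ f := by
    rw [← mul_assoc, ← zpow_add₀ hπ0]; simp
  rw [e] at h4
  simpa using h4

end lift

end

/-- Derivations with prescribed values on algebraically independent elements. -/
theorem exists_generic {k : Type*} [Field k] [CharZero k] (k₁ : Subfield k) {ι : Type*}
    {c : ι → k} (hc : AlgebraicIndependent k₁ c) [DecidableEq ι] (j : ι) :
    ∃ d : Derivation ℤ k k, (∀ a ∈ k₁, d a = 0) ∧ ∀ i, d (c i) = if i = j then 1 else 0 := by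
  classical
  have hcr : AlgebraicIndepOn k₁ id (Set.range c) :=
    (algebraicIndependent_subtype_range hc.injective).2 hc
  obtain ⟨t, hst, ht⟩ := exists_isTranscendenceBasis_superset (s := Set.range c) hcr
  let _ : Algebra (MvPolynomial t k₁) k :=
    ((MvPolynomial.aeval (Subtype.val : t → k) : MvPolynomial t k₁ →ₐ[k₁] k) :
      MvPolynomial t k₁ →+* k).toAlgebra
  have hmap : ∀ p, algebraMap (MvPolynomial t k₁) k p =
    MvPolynomial.aeval (Subtype.val : t → k) p := fun _ => rfl
  have hinj : Function.Injective (algebraMap (MvPolynomial t k₁) k) := ht.1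
  have hfs : FaithfulSMul (MvPolynomial t k₁) k := (faithfulSMul_iff_algebraMap_injective _ _).2 hinj
  have halg0 := ht.isAlgebraic
  have halg : Algebra.IsAlgebraic (MvPolynomial t k₁) k := by
    refine Algebra.IsAlgebraic.of_ringHom_of_comp_eq
      (S := Algebra.adjoin k₁ (Set.range (Subtype.val : t → k))) (B := k)
      (ht.1.aevalEquiv : MvPolynomial t k₁ →+* Algebra.adjoin k₁ (Set.range (Subtype.val : t → k)))
      (RingHom.id k) ?_ Function.injective_id ?_
    · exact ht.1.aevalEquiv.surjective
    · ext x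
      · simp [hmap]
      · simp [hmap]
  obtain ⟨D, hD⟩ := ext_der (A := MvPolynomial t k₁) (L := k)
    ((Algebra.linearMap (MvPolynomial t k₁) k).compDer
      ((MvPolynomial.mkDerivation k₁ (fun x : t => if (x : k) = c j then (1 : MvPolynomial t k₁)
        else 0)).restrictScalars ℤ))
  refine ⟨D, fun a ha => ?_, fun i => ?_⟩
  · have h1 := hD (MvPolynomial.C ⟨a, ha⟩)
    rw [hmap, MvPolynomial.aeval_C] at h1
    have h2 : algebraMap k₁ k ⟨a, ha⟩ = a := rfl
    rw [h2] at h1
    rw [h1]
    change algebraMap (MvPolynomial t k₁) k (MvPolynomial.mkDerivation k₁ _ (MvPolynomial.C _)) = 0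
    simp
  · have hi : c i ∈ t := hst ⟨i, rfl⟩
    have h1 := hD (MvPolynomial.X ⟨c i, hi⟩)
    rw [hmap, MvPolynomial.aeval_X] at h1
    change D (c i) = _ at h1
    rw [h1]
    change algebraMap (MvPolynomial t k₁) k (MvPolynomial.mkDerivation k₁ _ (MvPolynomial.X _)) = _
    rw [MvPolynomial.mkDerivation_X]
    by_cases hij : i = j
    · subst hij; simp
    · rw [if_neg hij, if_neg (fun h => hij (hc.injective h)), map_zero]

end Pool.Agent.TH875.Vg
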