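import Pool.Agent.TH875.Vg.Trans

/-! Local estimates. -/

set_option autoImplicit false

open FF MvPolynomial
open Pool.Agent.W603.LV Pool.Agent.W603.PV

namespace Pool.Agent.TH875.Vg.Sys

open Matrix Module

variable {k F : Type} [Field k] [Field F] [Algebra k F] {n q : ℕ} (S : Sys k F n q)
variable {L : Type} [Field L] [Algebra k L] [Algebra F L]

theorem ge_aeval_poly (P : Place k L) {y : Fin (n + 1) → L} (hy : ∀ j, Ge P 0 (y j)) {a : ℤ}
    (g : MvPolynomial (Fin (n + 1)) F) (hg : ∀ α, Ge P (-a) (algebraMap F L (g.coeff α))) :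
    Ge P (-a) (aeval y g) := by
  rw [aeval_def, eval₂_eq']
  refine Ge.sum _ _ fun α _ => ?_
  have h1 := (hg α).mul (Ge.prod Finset.univ (fun j => y j ^ α j) (fun _ => 0)
    (fun j _ => by have := (hy j).pow (α j); simpa using this))
  simpa using h1

section der

variable [CharZero k] [IsFF k L] [IsAlgClosed k]

theorem ge_der (P : Place k L) {π : L} (hπ : P.ord π = 1) {D : Derivation k L L} (hD : D π = 1)
    {N : ℤ} {f : L} (hf : Ge P N f) : Ge P (N - 1) (D f) := by
  have hπ0 : π ≠ 0 := by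
    rintro rfl
    rw [P.ord_zero] at hπ; omega
  have hz : ∀ M : ℤ, Ge P M (π ^ M) := fun M => Or.inr (by rw [P.ord_zpow, hπ]; simp)
  have h1 : Ge P 0 (π ^ (-N) * f) := by
    have := (hz (-N)).mul hf
    simpa using this
  have h2 := der_reg P hπ D hD h1
  have e : f = π ^ N * (π ^ (-N) * f) := by
    rw [← mul_assoc, ← zpow_add₀ hπ0]; simp
  have h3 : D f = π ^ N * D (π ^ (-N) * f) + (π ^ (-N) * f) * ((N : L) * π ^ (N - 1)) := by
    conv_lhs => rw [e]
    rw [D.leibniz, D.leibniz_zpow, hD]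
    simp only [smul_eq_mul, zsmul_eq_mul, mul_one]
  rw [h3]
  refine Ge.add ?_ ?_
  · exact ((hz N).mul h2).mono (by omega)
  · have h4 := h1.mul ((Ge.intCast (P := P) N).mul (hz (N - 1)))
    exact h4.mono (by omega)

theorem ge_der0 (P : Place k L) {π : L} (hπ : P.ord π = 1) {D : Derivation k L L} (hD : D π = 1)
    {a : ℤ} (ha : 0 ≤ a) {f : L} (hf : Ge P (-a) f) : Ge P (-(2 * a)) (D f) := by
  rcases eq_or_lt_of_le ha with h | h
  · rw [← h] at hf ⊢
    have h1 := der_reg P hπ D hD (f := f) (by simpa using hf)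
    simpa using h1
  · exact (ge_der P hπ hD hf).mono (by omega)

end der

/-- the entries of the columns -/
theorem ge_co (P : Place k L) {y : Fin (n + 1) → L} (hy : ∀ j, Ge P 0 (y j)) {a : ℤ} (ha : 0 ≤ a)
    (h1 : ∀ i α, Ge P (-a) (algebraMap F L ((S.f i).coeff α)))
    (h2 : ∀ i b c α, Ge P (-a) (algebraMap F L ((X b * pderiv c (S.f i)).coeff α)))
    (c : Col n q S.d) (p : S.Idx) : Ge P (-a) (S.co y c p) := by
  rcases c with ⟨b, c⟩ | ⟨i, β, b, c⟩ | i
  · exact h2 _ _ _ _
  · have h3 : ∀ (j : Fin (n + 1)) (Q : Prop) [Decidable Q], Ge P (-a) (y j * if Q then 1 else 0) := by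
      intro j Q _
      split_ifs
      · rw [mul_one]; exact (hy j).mono (by omega)
      · rw [mul_zero]; exact Ge.zero
    simp only [co]
    exact (h3 b _).sub (h3 c _)
  · simp only [co]
    split_ifs
    · exact h1 _ _
    · exact Ge.zero

theorem ge_ex (P : Place k L) {y : Fin (n + 1) → L} (hy : ∀ j, Ge P 0 (y j))
    (c : Col n q S.d) (j : Fin (n + 1)) : Ge P 0 (S.ex y c j) := by
  rcases c with ⟨b, c⟩ | ⟨i, β, b, c⟩ | i
  · simp only [ex]
    by_cases h : j = b
    · subst h; rw [Pi.single_eq_same]; exact hy c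
    · rw [Pi.single_eq_of_ne h]; exact Ge.zero
  · exact Ge.zero
  · exact Ge.zero

variable [IsScalarTower k F L] [CharZero k] [IsFF k L] [IsAlgClosed k]

/-- The entries of the matrix. -/
theorem ge_entry (P : Place k L) {π : L} (hπ : P.ord π = 1) {y : Fin (n + 1) → L}
    (hy : ∀ j, Ge P 0 (y j)) {a : ℤ} (ha : 0 ≤ a)
    (h1 : ∀ i α, Ge P (-a) (algebraMap F L ((S.f i).coeff α)))
    (h2 : ∀ i b c α, Ge P (-a) (algebraMap F L ((X b * pderiv c (S.f i)).coeff α)))
    (ht : Ge P (-a) (algebraMap F L S.t))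
    {D : Derivation k L L} (hD : D π = 1) {δ : S.Idx → Derivation ℤ L L}
    (hδ : ∀ p, IsLift (S.dd p) (δ p)) (hδπ : ∀ p, δ p π = 0) {m : ℕ}
    (c : Fin m → Col n q S.d) {o : Fin q → ℤ} (ho : ∀ i, Ge P (o i) (aeval y (S.f i)))
    {θ : ℤ} (hθ : 0 ≤ θ) (s : Fin q ⊕ O n) (hs : (∃ i, s = Sum.inl i) → 1 ≤ θ)
    (b : Fin 2 ⊕ Fin m) :
    Ge P (Sum.elim (fun i => o i - a) (fun _ => -(2 * a)) s +
      (if b = Sum.inl 1 then -θ else 0)) (S.row y s ⬝ᵥ S.ucol D δ y c b) := by
  have hge : ∀ p {N : ℤ} {f : L}, Ge P N f → Ge P N (δ p f) := fun p _ _ hf =>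
    (hδ p).ge P hπ (hδπ p) hf
  have hco := S.ge_co P hy ha h1 h2
  rcases s with i | e
  · have hθ1 := hs ⟨i, rfl⟩
    simp only [Sum.elim_inl]
    rcases b with b | b
    · fin_cases b
      · change Ge P (o i - a + 0) (S.R y i ⬝ᵥ ext0 y)
        rw [dot_ext0, euler]
        have := (Ge.natCast (P := P) (S.d i)).mul (ho i)
        exact this.mono (by omega)
      · change Ge P (o i - a + -θ) (S.R y i ⬝ᵥ S.vec (toZ D) y)
        rw [S.dot_D]
        exact (ge_der P hπ hD (ho i)).mono (by omega)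
    · change Ge P (o i - a + 0) (S.R y i ⬝ᵥ S.col δ y (c b))
      obtain ⟨ε, _, h⟩ := S.dot_col hδ y (c b) i
      rw [h, add_zero]
      refine Ge.sub (Ge.sum _ _ fun p _ => ?_) ?_
      · have := (hco (c b) p).mul (hge p (ho i))
        exact this.mono (by omega)
      · have := (Ge.intCast (P := P) ε).mul (ho i)
        exact this.mono (by omega)
  · simp only [Sum.elim_inr, row]
    rw [single_dotProduct, one_mul]
    have hneg : ∀ {f : L}, Ge P (-(2 * a)) f → Ge P (-(2 * a) + (if b = Sum.inl 1 then -θ else 0)) f := by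
      intro f hf
      refine hf.mono ?_
      split_ifs <;> omega
    apply hneg
    rcases b with b | b
    · fin_cases b
      · change Ge P _ (ext0 y e)
        rcases e with _ | j
        · exact Ge.zero
        · exact (hy j).mono (by omega)
      · change Ge P _ (S.vec (toZ D) y e)
        rcases e with _ | j
        · exact ge_der0 P hπ hD ha ht
        · exact (der_reg P hπ D hD (hy j)).mono (by omega)
    · change Ge P _ (S.col δ y (c b) e)
      simp only [col, Pi.add_apply, Finset.sum_apply, Pi.smul_apply, smul_eq_mul]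
      refine Ge.add (Ge.sum _ _ fun p _ => ?_) ?_
      · rcases e with _ | j
        · have := (hco (c b) p).mul (hge p ht)
          exact this.mono (by omega)
        · have := (hco (c b) p).mul (hge p (hy j))
          exact this.mono (by omega)
      · rcases e with _ | j
        · exact Ge.zero
        · exact (S.ge_ex P hy (c b) j).mono (by omega)

omit [IsScalarTower k F L] [CharZero k] [IsFF k L] [IsAlgClosed k] in
/-- orders of the rows -/
theorem sum_rows {A : Type} [Fintype A] {Z I : Finset (Fin q)} {σ : A → Fin q ⊕ O n}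
    (hσ : Adapted Z I σ) {o : Fin q → ℤ} {a : ℤ} (ha : 0 ≤ a) (ho : ∀ i ∈ I, i ∉ Z → 0 ≤ o i) :
    ∑ i ∈ I \ Z, o i - 2 * a * Fintype.card A ≤
      ∑ x, (Sum.elim (fun i => o i - a) (fun _ => -(2 * a)) (σ x) : ℤ) := by
  classical
  obtain ⟨h1, h2⟩ := hσ
  have h3 : ∀ i : (I \ Z : Finset (Fin q)), ∃ x, σ x = Sum.inl (i : Fin q) := fun i =>
    h2 i (Finset.mem_sdiff.1 i.2).1 (Finset.mem_sdiff.1 i.2).2
  choose g hg using h3
  have hinj : Function.Injective g := by
    intro i j hij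
    have := hg i
    rw [hij, hg j] at this
    exact Subtype.ext (Sum.inl_injective this).symm
  have hnn : ∀ x, 0 ≤ (Sum.elim (fun i => o i - a) (fun _ => -(2 * a)) (σ x) : ℤ) + 2 * a := by
    intro x
    rcases h : σ x with i | e
    · simp only [Sum.elim_inl]
      have := ho i (h1 x i h).1 (h1 x i h).2
      omega
    · simp only [Sum.elim_inr]
      omega
  have h4 : ∑ i ∈ I \ Z, o i ≤
      ∑ x, ((Sum.elim (fun i => o i - a) (fun _ => -(2 * a)) (σ x) : ℤ) + 2 * a) := by
    rw [← Finset.sum_coe_sort (I \ Z)]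
    calc ∑ i : (I \ Z : Finset (Fin q)), o i ≤ ∑ i : (I \ Z : Finset (Fin q)),
          ((Sum.elim (fun i => o i - a) (fun _ => -(2 * a)) (σ (g i)) : ℤ) + 2 * a) := by
          refine Finset.sum_le_sum fun i _ => ?_
          rw [hg i, Sum.elim_inl]
          omega
      _ = ∑ x ∈ Finset.univ.image g,
          ((Sum.elim (fun i => o i - a) (fun _ => -(2 * a)) (σ x) : ℤ) + 2 * a) := by
          rw [Finset.sum_image fun i _ j _ h => hinj h]
      _ ≤ _ := Finset.sum_le_sum_of_subset_of_nonneg (Finset.subset_univ _) fun x _ _ => hnn x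
  rw [Finset.sum_add_distrib, Finset.sum_const, Finset.card_univ, nsmul_eq_mul] at h4
  linarith

/-- The estimate of the numerator. -/
theorem ge_num (P : Place k L) {π : L} (hπ : P.ord π = 1) {y : Fin (n + 1) → L}
    (hy : ∀ j, Ge P 0 (y j)) {a : ℤ} (ha : 0 ≤ a)
    (h1 : ∀ i α, Ge P (-a) (algebraMap F L ((S.f i).coeff α)))
    (h2 : ∀ i b c α, Ge P (-a) (algebraMap F L ((X b * pderiv c (S.f i)).coeff α)))
    (ht : Ge P (-a) (algebraMap F L S.t))
    {D : Derivation k L L} (hD : D π = 1) {δ : S.Idx → Derivation ℤ L L}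
    (hδ : ∀ p, IsLift (S.dd p) (δ p)) (hδπ : ∀ p, δ p π = 0) {m : ℕ}
    (c : Fin m → Col n q S.d) {o : Fin q → ℤ} (ho : ∀ i, Ge P (o i) (aeval y (S.f i)))
    {θ : ℤ} (hθ : 0 ≤ θ) {Z I : Finset (Fin q)} {σ : Fin 2 ⊕ Fin m → Fin q ⊕ O n}
    (hσ : Adapted Z I σ) (hs : ∀ i ∈ I, i ∉ Z → 1 ≤ θ) (hoI : ∀ i ∈ I, i ∉ Z → 0 ≤ o i) :
    Ge P (∑ i ∈ I \ Z, o i - 2 * a * (m + 2) - θ)
      ((Matrix.of fun b => S.row y (σ b)) * S.U D δ y c).det := by
  classical
  have h3 := ge_det' P ((Matrix.of fun b => S.row y (σ b)) * S.U D δ y c)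
    (fun b => Sum.elim (fun i => o i - a) (fun _ => -(2 * a)) (σ b))
    (fun b => if b = Sum.inl 1 then -θ else 0) (by
      intro b c'
      exact S.ge_entry P hπ hy ha h1 h2 ht hD hδ hδπ c ho hθ (σ b) (by
        rintro ⟨i, hi⟩
        exact hs i (hσ.1 b i hi).1 (hσ.1 b i hi).2) c')
  refine h3.mono ?_
  have h4 := sum_rows hσ ha hoI
  rw [Fintype.card_sum, Fintype.card_fin, Fintype.card_fin] at h4
  rw [Finset.sum_ite_eq' Finset.univ (Sum.inl 1 : Fin 2 ⊕ Fin m), if_pos (Finset.mem_univ _)]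
  push_cast at h4
  linarith

end Pool.Agent.TH875.Vg.Sys
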