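import Pool.Agent.TH875.Vg.FinC

/-! Curves on coverings: local considerations. -/

set_option autoImplicit false

open FF MvPolynomial
open Pool.Agent.W603.LV Pool.Agent.W603.PV

namespace Pool.Agent.TH875.Vg

variable {k : Type} [Field k] {L : Type} [Field L] [Algebra k L] {N : ℕ}

/-- the polynomials over `k` whose values at an integral point have order at least `e` -/
def mIdeal (P : Place k L) {z : Fin (N + 1) → L} (hz : ∀ j, Ge P 0 (z j)) (e : ℕ) :
    Ideal (MvPolynomial (Fin (N + 1)) k) where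
  carrier := {f | Ge P e (aeval z f)}
  add_mem' := by
    intro f g hf hg
    rw [Set.mem_ofPred_eq, map_add]
    exact hf.add hg
  zero_mem' := by
    rw [Set.mem_ofPred_eq, map_zero]
    exact Ge.zero
  smul_mem' := by
    intro c f hf
    rw [Set.mem_ofPred_eq, smul_eq_mul, map_mul]
    have h1 : Ge P 0 (aeval z c) := by
      rw [aeval_def, eval₂_eq']
      refine Ge.sum _ _ fun α _ => ?_
      have h2 := (Ge.const (P := P) (c.coeff α)).mul (Ge.prod Finset.univ (fun a => z a ^ α a)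
        (fun a => 0) (fun a _ => by simpa using (hz a).pow (α a)))
      simpa using h2
    have h3 := h1.mul hf
    rwa [zero_add] at h3

theorem mem_mIdeal (P : Place k L) {z : Fin (N + 1) → L} (hz : ∀ j, Ge P 0 (z j)) (e : ℕ)
    (f : MvPolynomial (Fin (N + 1)) k) : f ∈ mIdeal P hz e ↔ Ge P e (aeval z f) := Iff.rfl

theorem mIdeal_pow (P : Place k L) {z : Fin (N + 1) → L} (hz : ∀ j, Ge P 0 (z j)) (e : ℕ) :
    (mIdeal P hz 1) ^ e ≤ mIdeal P hz e := by
  induction e with
  | zero =>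
    intro f _
    rw [mem_mIdeal]
    have h1 : (1 : MvPolynomial (Fin (N + 1)) k) ∈ mIdeal P hz 0 := by
      rw [mem_mIdeal, map_one]
      exact Ge.one
    have h2 := (mIdeal P hz 0).mul_mem_left f h1
    rwa [mul_one, mem_mIdeal] at h2
  | succ e ih =>
    rw [pow_succ, Ideal.mul_le]
    intro f hf g hg
    have h1 := (mem_mIdeal P hz e f).1 (ih hf)
    have h2 := (mem_mIdeal P hz 1 g).1 hg
    rw [mem_mIdeal, map_mul]
    have h3 := h1.mul h2
    exact_mod_cast h3

/-- a normalised representative of a point -/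
theorem exists_norm (P : Place k L) {z : Fin (N + 1) → L} (hz : ∃ j, z j ≠ 0) :
    ∃ (τ : L) (j : Fin (N + 1)), τ ≠ 0 ∧ P.ord τ = pord P z ∧ τ⁻¹ * z j = 1 ∧
      ∀ j, Ge P 0 (τ⁻¹ * z j) := by
  obtain ⟨j, hj, hjo⟩ := exists_pord P hz
  refine ⟨z j, j, hj, hjo, inv_mul_cancel₀ hj, fun i => ?_⟩
  have h1 : Ge P (-pord P z) (z j)⁻¹ := Or.inr (by rw [P.ord_inv, hjo])
  have h2 := h1.mul (ge_pord P z i)
  simpa using h2

variable {n : ℕ}

theorem hom_zero {J : Ideal (MvPolynomial (Fin (N + 1)) k)}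
    (hJ : ∀ f ∈ J, ∀ M, homogeneousComponent M f ∈ J) {z : Fin (N + 1) → L}
    (hz : ∀ f ∈ J, aeval z f = 0) (τ : L) : ∀ f ∈ J, aeval (fun j => τ * z j) f = 0 := by
  intro f hf
  rw [← sum_homogeneousComponent f, map_sum]
  refine Finset.sum_eq_zero fun M _ => ?_
  rw [Sys.aeval_smul (homogeneousComponent_isHomogeneous M f) τ z, hz _ (hJ f hf M), mul_zero]

/-- the order of the image of a point under a morphism given by forms without common zeros -/
theorem pord_map (P : Place k L) {J : Ideal (MvPolynomial (Fin (N + 1)) k)}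
    (hJ : ∀ f ∈ J, ∀ M, homogeneousComponent M f ∈ J) {z : Fin (N + 1) → L}
    (hz0 : ∃ j, z j ≠ 0)
    (hz : ∀ f ∈ J, aeval z f = 0) {c : ℕ} {p : Fin (n + 1) → MvPolynomial (Fin (N + 1)) k}
    (hp : ∀ j, (p j).IsHomogeneous c)
    (hrad : ∀ j, X j ∈ (J ⊔ Ideal.span (Set.range p)).radical) :
    (∃ j, aeval z (p j) ≠ 0) ∧ pord P (fun j => aeval z (p j)) = c * pord P z := by
  obtain ⟨τ, j1, hτ, hτo, hj1, hint⟩ := exists_norm P hz0
  have hz' := hom_zero hJ hz τ⁻¹
  have hval : ∀ j, aeval (fun j => τ⁻¹ * z j) (p j) = τ⁻¹ ^ c * aeval z (p j) := fun j =>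
    Sys.aeval_smul (hp j) τ⁻¹ z
  have hunit : ∃ j, ¬ Ge P 1 (aeval (fun j => τ⁻¹ * z j) (p j)) := by
    by_contra hcon
    push Not at hcon
    obtain ⟨M, hM⟩ := hrad j1
    have h1 : J ⊔ Ideal.span (Set.range p) ≤ mIdeal P hint 1 := by
      refine sup_le ?_ ?_
      · intro f hf
        rw [mem_mIdeal, hz' f hf]
        exact Ge.zero
      · rw [Ideal.span_le]
        rintro _ ⟨j, rfl⟩
        exact hcon j
    have h2 := h1 hM
    rw [mem_mIdeal, map_pow, aeval_X, hj1, one_pow] at h2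
    rcases h2 with h2 | h2
    · exact one_ne_zero h2
    · rw [P.ord_one] at h2
      norm_num at h2
  obtain ⟨j, hj⟩ := hunit
  have hj0 : aeval z (p j) ≠ 0 := by
    intro h
    apply hj
    rw [hval, h, mul_zero]
    exact Ge.zero
  have hx : ∃ j, aeval z (p j) ≠ 0 := ⟨j, hj0⟩
  refine ⟨hx, le_antisymm ?_ ?_⟩
  · have h1 := pord_le P (f := fun j => aeval z (p j)) hj0
    have h2 : P.ord (aeval (fun j => τ⁻¹ * z j) (p j)) ≤ 0 := by
      by_contra hcon
      push Not at hcon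
      exact hj (Or.inr (by exact_mod_cast hcon))
    rw [hval, P.ord_mul (pow_ne_zero _ (inv_ne_zero hτ)) hj0] at h2
    have h3 : P.ord (τ⁻¹ ^ c) = -(c * pord P z) := by
      rw [← zpow_natCast, P.ord_zpow, P.ord_inv, hτo]
      ring
    rw [h3] at h2
    linarith
  · obtain ⟨j', hj', hjo'⟩ := exists_pord P hx
    rw [← hjo']
    exact (ge_form P z (hp j') fun α _ => Ge.const _).resolve_left hj'

/-- the contact orders with a form all of whose multiplicities are at least `e` -/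
theorem contact_ge (P : Place k L) {J : Ideal (MvPolynomial (Fin (N + 1)) k)}
    (hJ : ∀ f ∈ J, ∀ M, homogeneousComponent M f ∈ J) {z : Fin (N + 1) → L}
    (hz0 : ∃ j, z j ≠ 0)
    (hz : ∀ f ∈ J, aeval z f = 0) {w : ℕ} {G : MvPolynomial (Fin (N + 1)) k}
    (hG : G.IsHomogeneous w) {e : ℕ}
    (hpow : ∃ M : ℕ, ∀ j, X j ^ M * G ∈ (J ⊔ Ideal.span {G}).radical ^ e ⊔ J)
    (hGz : aeval z G ≠ 0) (h : w * pord P z < P.ord (aeval z G)) :
    w * pord P z + e ≤ P.ord (aeval z G) := by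
  obtain ⟨τ, j1, hτ, hτo, hj1, hint⟩ := exists_norm P hz0
  have hz' := hom_zero hJ hz τ⁻¹
  have hval : aeval (fun j => τ⁻¹ * z j) G = τ⁻¹ ^ w * aeval z G := Sys.aeval_smul hG τ⁻¹ z
  have hval0 : aeval (fun j => τ⁻¹ * z j) G ≠ 0 := by
    rw [hval]
    exact mul_ne_zero (pow_ne_zero _ (inv_ne_zero hτ)) hGz
  have hord : P.ord (aeval (fun j => τ⁻¹ * z j) G) = P.ord (aeval z G) - w * pord P z := by
    rw [hval, P.ord_mul (pow_ne_zero _ (inv_ne_zero hτ)) hGz, ← zpow_natCast, P.ord_zpow,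
      P.ord_inv, hτo]
    ring
  have h1 : (J ⊔ Ideal.span {G}).radical ≤ mIdeal P hint 1 := by
    intro f hf
    obtain ⟨M, hM⟩ := hf
    have h2 : J ⊔ Ideal.span {G} ≤ mIdeal P hint 1 := by
      refine sup_le ?_ ?_
      · intro f hf
        rw [mem_mIdeal, hz' f hf]
        exact Ge.zero
      · rw [Ideal.span_le]
        rintro _ rfl
        right
        rw [hord]
        push_cast
        omega
    have h3 := h2 hM
    rw [mem_mIdeal] at h3 ⊢
    by_cases hf0 : aeval (fun j => τ⁻¹ * z j) f = 0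
    · exact Or.inl hf0
    · right
      rw [map_pow] at h3
      have h4 := h3.resolve_left (pow_ne_zero _ hf0)
      rw [← zpow_natCast, P.ord_zpow] at h4
      push_cast at h4 ⊢
      by_contra hcon
      push Not at hcon
      have h5 : P.ord (aeval (fun j => τ⁻¹ * z j) f) ≤ 0 := by omega
      have h6 : (M : ℤ) * P.ord (aeval (fun j => τ⁻¹ * z j) f) ≤ 0 :=
        mul_nonpos_of_nonneg_of_nonpos (by positivity) h5
      linarith
  obtain ⟨M, hM⟩ := hpow
  have h2 : (J ⊔ Ideal.span {G}).radical ^ e ⊔ J ≤ mIdeal P hint e := by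
    refine sup_le ((Ideal.pow_right_mono h1 e).trans (mIdeal_pow P hint e)) ?_
    intro f hf
    rw [mem_mIdeal, hz' f hf]
    exact Ge.zero
  have h3 := h2 (hM j1)
  rw [mem_mIdeal, map_mul, map_pow, aeval_X, hj1, one_pow, one_mul] at h3
  have h4 := h3.resolve_left hval0
  rw [hord] at h4
  linarith

end Pool.Agent.TH875.Vg
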