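import Pool.Agent.TH875.Vg.LocI

/-! The order of the determinant at a place, for arbitrary rows. -/

set_option autoImplicit false

open FF MvPolynomial
open Pool.Agent.W603.LV Pool.Agent.W603.PV

namespace Pool.Agent.TH875.Vg.Hyp

open Matrix Module Sys

variable {k F : Type} [Field k] [Field F] [Algebra k F] {n q : ℕ} {S : Sys k F n q} {b : ℕ}
  (H : Hyp S b)
variable {L : Type} [Field L] [Algebra k L] [Algebra F L]
variable [IsScalarTower k F L] [CharZero k] [IsFF k L] [IsAlgClosed k]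

open Classical in
theorem local_HE {PP : Finset (MvPolynomial (Fin (n + 1)) F)} (hPP1 : ∀ i, S.f i ∈ PP)
    (hPP2 : ∀ i b c, X b * pderiv c (S.f i) ∈ PP) (hPP3 : C S.t ∈ PP)
    (hPP4 : ∀ j e, C (H.lam j e) ∈ PP)
    {x : Fin (n + 1) → L} {j0 : Fin (n + 1)} (hj0 : x j0 ≠ 0)
    {D : Derivation k L L} (hD0 : D ≠ 0) {δ : S.Idx → Derivation ℤ L L}
    (hδ : ∀ p, IsLift (S.dd p) (δ p)) {m : ℕ} {c : Fin m → Col n q S.d} (hBC : ∀ a, BC (c a))
    (hEB : S.EB D δ x ≤ Submodule.span L (Set.range (S.ucol D δ x c))) {N : ℕ}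
    (T' : (S.Zs x) ⊕ (Fin 2 ⊕ Fin m) → O n ⊕ Fin b) (hcard : (S.Zs x).card + (2 + m) = N + 1)
    {E : ℕ} (hT' : ∀ τ : L, ∏ a, Sx τ (T' a) = τ ^ E) (hTne : ∀ a j, T' a = Sum.inr j → H.ell x j ≠ 0)
    {W : L} (hWd : W = (Matrix.of fun a b => H.ev x (S.bas (S.Zs x) D δ x j0 c b) (T' a)).det)
    (hW0 : W ≠ 0) (P : Place k L) :
    ((E : ℤ) + ∑ a, (S.cost (c a) : ℤ) - ∑ i ∈ S.Zs x, (S.d i : ℤ)) * pord P x + vo P D +
      ∑ i ∈ Finset.univ \ S.Zs x, (P.ord (aeval x (S.f i)) - S.d i * pord P x) +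
      ∑ a, H.hc P x (T' a) -
      (if P ∈ H.mt k x then 1 else 0) - (3 * (N + 1) + q) * loss PP P ≤ P.ord W := by
  have hx : ∃ j, x j ≠ 0 := ⟨j0, hj0⟩
  have hZx : ∀ i, i ∈ S.Zs x ↔ aeval x (S.f i) = 0 := S.mem_Zs x
  set a := loss PP P with had
  have ha : 0 ≤ a := loss_nonneg PP P
  set e := pord P x with he
  set π := unif P with hπd
  have hπ : P.ord π = 1 := ord_unif P
  have hπ0 : π ≠ 0 := by
    intro h
    rw [h, P.ord_zero] at hπ; omega
  set τ := π ^ e with hτd
  have hτ : τ ≠ 0 := zpow_ne_zero _ hπ0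
  have hτo : P.ord τ = e := by rw [hτd, P.ord_zpow, hπ, mul_one]
  obtain ⟨y, hyd⟩ : ∃ y : Fin (n + 1) → L, y = fun j => τ⁻¹ * x j := ⟨_, rfl⟩
  have hxy : x = fun j => τ * y j := by
    funext j
    rw [hyd]
    simp only
    rw [← mul_assoc, mul_inv_cancel₀ hτ, one_mul]
  have hτi : Ge P (-e) τ⁻¹ := Or.inr (by rw [P.ord_inv, hτo])
  have hy : ∀ j, Ge P 0 (y j) := by
    intro j
    have := hτi.mul (ge_pord P x j)
    rw [← he] at this
    rw [hyd]
    simpa using this
  obtain ⟨j1, hj1, hj1o⟩ := exists_pord P hx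
  have hyj1 : y j1 ≠ 0 := by
    rw [hyd]
    exact mul_ne_zero (inv_ne_zero hτ) hj1
  have hyj1o : P.ord (y j1) = 0 := by
    have : P.ord (y j1) = P.ord τ⁻¹ + P.ord (x j1) := by
      rw [hyd]
      exact P.ord_mul (inv_ne_zero hτ) hj1
    rw [this, P.ord_inv, hτo, hj1o, ← he]; ring
  -- derivations
  have hDπ := der_pi_ne_zero hD0 P hπ
  obtain ⟨D', hD'd⟩ : ∃ D' : Derivation k L L, D' = (D π)⁻¹ • D := ⟨_, rfl⟩
  have hD'π : D' π = 1 := by
    rw [hD'd, Derivation.coe_smul, Pi.smul_apply, smul_eq_mul, inv_mul_cancel₀ hDπ]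
  have hDD' : ∀ f, D f = D π * D' f := by
    intro f
    rw [hD'd, Derivation.coe_smul, Pi.smul_apply, smul_eq_mul, ← mul_assoc, mul_inv_cancel₀ hDπ,
      one_mul]
  have hD'0 : D' ≠ 0 := by
    rintro h
    rw [h] at hD'π
    simp at hD'π
  have hπt : Transcendental k π := P.transcendental_of_ord_ne (by omega)
  choose δ' hδ' hδ'π using fun p => exists_lift (S.dd p) hπt
  have hg : ∀ p, ∃ g : L, ∀ f, δ p f = δ' p f + g * D' f := by
    intro p
    obtain ⟨E, hE⟩ := (hδ p).diff (hδ' p)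
    obtain ⟨g, hg⟩ := der_smul (D' := E) hD'0
    refine ⟨g, fun f => ?_⟩
    rw [hE f, hg]
    rfl
  choose g hg using hg
  obtain ⟨T, hT, hTdet⟩ := S.U_trans (s := D π) hτ y hDD' hg c
  rw [← hxy] at hT
  obtain ⟨T2, hT2, hT2det⟩ := S.bas_trans hD0 hδ hj0 hEB hτ hxy hyj1 hδ' hT
  set vy := S.bas (S.Zs x) D' δ' y j1 c with hvy
  have hellxy : ∀ j, H.ell x j = τ * H.ell y j := by
    intro j
    conv_lhs => rw [hxy]
    exact H.ell_smul τ y j
  -- the determinant
  set M : Matrix (S.Zs x ⊕ (Fin 2 ⊕ Fin m)) (S.Zs x ⊕ (Fin 2 ⊕ Fin m)) L :=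
    Matrix.of fun a b => H.ev y (vy b) (T' a) with hM
  have hev : ∀ b' o', H.ev x (S.bas (S.Zs x) D δ x j0 c b') o' =
      Sx τ o' * ∑ b'', H.ev y (vy b'') o' * T2 b'' b' := by
    intro b' o'
    have h1 : S.bas (S.Zs x) D δ x j0 c b' =
        fun o => Sd τ o * (∑ b'', T2 b'' b' • vy b'') o := by
      funext o
      rw [hT2 o b', Finset.sum_apply]
      congr 1
      refine Finset.sum_congr rfl fun b'' _ => ?_
      rw [Pi.smul_apply, smul_eq_mul, mul_comm]
    have h2 : H.ev x = H.ev (fun j => τ * y j) := by rw [← hxy]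
    rw [h2, h1, H.ev_Sd, map_sum, Finset.sum_apply]
    congr 1
    refine Finset.sum_congr rfl fun b'' _ => ?_
    rw [map_smul, Pi.smul_apply, smul_eq_mul, mul_comm]
  have hWM : W = τ ^ E * (M.det * T2.det) := by
    have h1 : (Matrix.of fun a b => H.ev x (S.bas (S.Zs x) D δ x j0 c b) (T' a)) =
        Matrix.diagonal (fun a => Sx τ (T' a)) * (M * T2) := by
      ext a b
      rw [Matrix.diagonal_mul, Matrix.mul_apply]
      exact hev b (T' a)
    rw [hWd, h1, Matrix.det_mul, Matrix.det_diagonal, hT', Matrix.det_mul]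
  have hM0 : M.det ≠ 0 := by
    intro h
    apply hW0
    rw [hWM, h]; ring
  have hT20 : T2.det ≠ 0 := by
    intro h
    apply hW0
    rw [hWM, h]; ring
  have hvyli : LinearIndependent L vy := by
    have h1 : LinearIndependent L (fun b => fun a => H.ev y (vy b) (T' a)) := by
      have h2 := (Matrix.linearIndependent_rows_iff_isUnit (A := Mᵀ)).2 (by
        rw [Matrix.isUnit_iff_isUnit_det, Matrix.det_transpose]
        exact isUnit_iff_ne_zero.2 hM0)
      exact h2
    exact LinearIndependent.of_comp ((LinearMap.funLeft L L T').comp (H.ev y)) h1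
  -- logarithmic rows
  have hTny : ∀ a j, T' a = Sum.inr j → H.ell y j ≠ 0 := by
    intro a j h h0
    apply hTne a j h
    rw [hellxy, h0, mul_zero]
  set M2 : Matrix (S.Zs x ⊕ (Fin 2 ⊕ Fin m)) (S.Zs x ⊕ (Fin 2 ⊕ Fin m)) L :=
    Matrix.of fun a b => H.evl y (vy b) (T' a) with hM2
  have hMM2 : M.det = (∏ a, (Sum.elim (fun _ => (1 : L)) (fun j => H.ell y j) (T' a))) *
      M2.det := by
    have h1 : M = Matrix.diagonal (fun a => (Sum.elim (fun _ => (1 : L))
        (fun j => H.ell y j) (T' a))) * M2 := by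
      ext a b
      rw [Matrix.diagonal_mul]
      simp only [hM, hM2, Matrix.of_apply]
      rcases h : T' a with o | j
      · rw [ev_inl, evl_inl, Sum.elim_inl, one_mul]
      · rw [ev_inr, evl_inr, Sum.elim_inr, mul_inv_cancel_left₀ (hTny a j h)]
    rw [h1, Matrix.det_mul, Matrix.det_diagonal]
  have hM20 : M2.det ≠ 0 := by
    intro h
    apply hM0
    rw [hMM2, h, mul_zero]
  have hprod0 : (∏ a, (Sum.elim (fun _ => (1 : L)) (fun j => H.ell y j) (T' a))) ≠ 0 := by
    intro h
    apply hM0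
    rw [hMM2, h, zero_mul]
  have hprodord : P.ord (∏ a, (Sum.elim (fun _ => (1 : L)) (fun j => H.ell y j) (T' a))) =
      ∑ a, H.hc P x (T' a) := by
    rw [ord_prod' _ P _ (fun a _ => by
      rcases h : T' a with o | j
      · simp
      · simpa using hTny a j h)]
    refine Finset.sum_congr rfl fun a _ => ?_
    rcases h : T' a with o | j
    · simp [hc, P.ord_one]
    · simp only [hc, Sum.elim_inr]
      rw [hellxy, P.ord_mul hτ (hTny a j h), hτo, ← he]
      ring
  -- values
  have hval : ∀ i, aeval x (S.f i) = τ ^ S.d i * aeval y (S.f i) := by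
    intro i
    conv_lhs => rw [hxy]
    exact aeval_smul (S.hom i) τ y
  have hval0 : ∀ i, aeval y (S.f i) = 0 ↔ i ∈ S.Zs x := by
    intro i
    rw [hZx, hval i, mul_eq_zero]
    constructor
    · exact fun h => Or.inr h
    · exact fun h => h.resolve_left (pow_ne_zero _ hτ)
  have hord : ∀ i, i ∉ S.Zs x → P.ord (aeval x (S.f i)) - S.d i * e = P.ord (aeval y (S.f i)) := by
    intro i hi
    have h0 : aeval y (S.f i) ≠ 0 := fun h => hi ((hval0 i).1 h)
    rw [hval i, P.ord_mul (pow_ne_zero _ hτ) h0, P.ord_pow, hτo]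
    ring
  set I : Finset (Fin q) := Finset.univ.filter fun i => Ge P (a + 1) (aeval y (S.f i)) with hI
  have hZI : S.Zs x ⊆ I := by
    intro i hi
    rw [hI, Finset.mem_filter]
    exact ⟨Finset.mem_univ _, Or.inl ((hval0 i).2 hi)⟩
  -- coefficients
  have hc1 : ∀ i α, Ge P (-a) (algebraMap F L ((S.f i).coeff α)) := fun i α =>
    ge_loss P (hPP1 i) α
  have hc2 : ∀ i b c α, Ge P (-a) (algebraMap F L ((X b * pderiv c (S.f i)).coeff α)) :=
    fun i b c α => ge_loss P (hPP2 i b c) α
  have hc3 : Ge P (-a) (algebraMap F L S.t) := by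
    have := ge_loss P hPP3 0
    rwa [coeff_zero_C] at this
  have hc4 : ∀ j e, Ge P (-a) (algebraMap F L (H.lam j e)) := by
    intro j e
    have := ge_loss P (hPP4 j e) 0
    rwa [coeff_zero_C] at this
  have hell : ∀ j, Ge P (-a) (H.ell y j) := H.ge_ell P hy hc4
  -- the dual vectors
  have hge : ∀ p {N : ℤ} {f : L}, Ge P N f → Ge P N (δ' p f) := fun p _ _ hf =>
    (hδ' p).ge P hπ (hδ'π p) hf
  have hinv : ∀ i, Ge P 0 ((y j1 ^ S.d i)⁻¹) := by
    intro i
    right
    rw [P.ord_inv, P.ord_pow, hyj1o]; simp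
  have hthR : ∀ i i', ∀ {N : ℤ}, Ge P N (aeval y (S.f i)) →
      Ge P N (S.R y i ⬝ᵥ S.th δ' y j1 i' + if i = i' then 1 else 0) := by
    intro i i' N hN
    rw [S.dot_th hδ' hyj1, sub_add_cancel]
    have := (hinv i').mul (hge ⟨i', S.pw i' j1⟩ hN)
    simpa using this
  have htho : ∀ i o, Ge P (-a) (S.th δ' y j1 i o) := by
    intro i o
    change Ge P (-a) ((y j1 ^ S.d i)⁻¹ * S.vec (δ' ⟨i, S.pw i j1⟩) y o)
    rcases o with _ | j
    · have := (hinv i).mul (hge ⟨i, S.pw i j1⟩ hc3)
      exact this.mono (by omega)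
    · have := (hinv i).mul (hge ⟨i, S.pw i j1⟩ (hy j))
      exact this.mono (by omega)
  have hthl : ∀ i j, Ge P (-a) (H.evl y (S.th δ' y j1 i) (Sum.inr j)) := by
    intro i j
    rw [evl_inr]
    unfold th
    rw [map_smul, smul_eq_mul, H.dell_vec (hδ' _)]
    refine ge_inv_mul P (N := P.ord (H.ell y j)) (fun _ => rfl) ?_
    have h1 : Ge P (P.ord (H.ell y j)) (H.ell y j) := Or.inr le_rfl
    exact ((hinv i).mul (hge _ h1)).mono (by omega)
  have hthall : ∀ i o', Ge P (-a) (H.evl y (S.th δ' y j1 i) o') := by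
    rintro i (o | j)
    · exact htho i o
    · exact hthl i j
  have hthspan : ∀ i, S.th δ' y j1 i ∈ Submodule.span L (Set.range vy) := by
    intro i
    have h1 := S.Sd_th_mem hτ y hδ' j1 i
    rw [← hxy] at h1
    have h2 := S.V_le_bas hD0 hδ hj0 hEB h1
    obtain ⟨μ, hμ⟩ := (Submodule.mem_span_range_iff_exists_fun L).1 h2
    rw [Submodule.mem_span_range_iff_exists_fun]
    refine ⟨fun b' => ∑ b, T2 b' b * μ b, ?_⟩
    funext o
    have h3 := congrFun hμ o
    rw [Finset.sum_apply] at h3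
    simp only [Pi.smul_apply, smul_eq_mul] at h3
    rw [Finset.sum_congr rfl fun b _ => by rw [hT2 o b]] at h3
    apply mul_left_cancel₀ (Sd_ne hτ o)
    rw [← h3, Finset.sum_apply]
    simp only [Pi.smul_apply, smul_eq_mul, Finset.mul_sum, Finset.sum_mul]
    rw [Finset.sum_comm]
    refine Finset.sum_congr rfl fun b _ => Finset.sum_congr rfl fun b' _ => ?_
    ring
  -- the rows
  obtain ⟨R', hR'⟩ : ∃ R' : Fin q → (O n ⊕ Fin b → L), R' = fun i => Sum.elim (S.R y i) 0 :=
    ⟨_, rfl⟩
  have hR'dot : ∀ i v, R' i ⬝ᵥ H.evl y v = S.R y i ⬝ᵥ v := by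
    intro i v
    rw [hR']
    simp only [dotProduct, Fintype.sum_sum_type, Sum.elim_inl, Sum.elim_inr, Pi.zero_apply,
      zero_mul, Finset.sum_const_zero, add_zero]
    rfl
  obtain ⟨ρ, hρ1, hρ2, hρ0, hρ⟩ := exists_local P R'
    (hvyli.map' (H.evl y) (LinearMap.ker_eq_bot.2 (H.evl_injective y))) I
    (fun i => H.evl y (S.th δ' y j1 i))
    (fun i _ => by
      obtain ⟨μ, hμ⟩ := (Submodule.mem_span_range_iff_exists_fun L).1 (hthspan i)
      rw [Submodule.mem_span_range_iff_exists_fun]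
      refine ⟨μ, ?_⟩
      rw [← hμ, map_sum]
      refine Finset.sum_congr rfl fun b' _ => ?_
      rw [map_smul]
      rfl)
    (fun i hi i' _ => by
      rw [hR'dot]
      exact hthR i i' ((Finset.mem_filter.1 hi).2.mono (by omega))) ha
    (fun i _ o => hthall i o)
  have hMge := hρ T'
  have hM2e : (Matrix.of fun a b => (⇑(H.evl y) ∘ vy) b (T' a)) = M2 := rfl
  rw [hM2e, Fintype.card_sum, Fintype.card_sum, Fintype.card_fin, Fintype.card_fin,
    Fintype.card_coe, hcard] at hMge
  have hMord := hMge.resolve_left hM20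
  -- the determinant of the local system
  obtain ⟨θ, hθ⟩ : ∃ θ : ℤ, θ = if (∃ i ∈ I, i ∉ S.Zs x) ∨
    (∃ j, H.ell y j ≠ 0 ∧ 0 < P.ord (H.ell y j)) then 1 else 0 := ⟨_, rfl⟩
  have hθ0 : 0 ≤ θ := by rw [hθ]; split_ifs <;> omega
  have hIo : ∀ i ∈ I, i ∉ S.Zs x → a + 1 ≤ P.ord (aeval y (S.f i)) := by
    intro i hi hiZ
    exact (Finset.mem_filter.1 hi).2.resolve_left fun h => hiZ ((hval0 i).1 h)
  obtain ⟨o, ho⟩ : ∃ o : Fin q → ℤ, o = fun i => if i ∈ S.Zs x then 0 else
    P.ord (aeval y (S.f i)) := ⟨_, rfl⟩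
  have hoge : ∀ i, Ge P (o i) (aeval y (S.f i)) := by
    intro i
    rw [ho]
    simp only
    by_cases hi : i ∈ S.Zs x
    · rw [if_pos hi]; exact Or.inl ((hval0 i).2 hi)
    · rw [if_neg hi]; exact Or.inr le_rfl
  have hcoord : ∀ (o' : O n) (v : O n → L), rowv R' (Sum.inr (Sum.inl o')) ⬝ᵥ H.evl y v = v o' := by
    intro o' v
    simp only [rowv, Sum.elim_inr]
    rw [single_dotProduct, one_mul]
    rfl
  have hcoordr : ∀ (j : Fin b) (v : O n → L), rowv R' (Sum.inr (Sum.inr j)) ⬝ᵥ H.evl y v =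
      H.evl y v (Sum.inr j) := by
    intro j v
    simp only [rowv, Sum.elim_inr]
    rw [single_dotProduct, one_mul]
  have hnum := ge_det' P (RM R' (⇑(H.evl y) ∘ vy) ρ)
    (fun b => Sum.elim (fun i => o i - a) (fun _ => -(2 * a)) (ρ b))
    (fun b => if b = Sum.inr (Sum.inl 1) then -θ else 0) (by
      intro b b'
      change Ge P _ (rowv R' (ρ b) ⬝ᵥ H.evl y (vy b'))
      rcases hb : ρ b with i | o'
      · -- a gradient
        change Ge P _ (R' i ⬝ᵥ H.evl y (vy b'))
        rw [hR'dot]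
        rcases b' with z | b'
        · rw [if_neg (by simp), add_zero]
          change Ge P _ (S.R y i ⬝ᵥ S.th δ' y j1 z)
          simp only [Sum.elim_inl]
          have h1 := hthR i z (hoge i)
          by_cases hiz : i = z
          · have h2 : o i = 0 := by rw [ho]; simp only; rw [if_pos (by rw [hiz]; exact z.2)]
            rw [if_pos hiz, h2] at h1
            have h3 := h1.sub (Ge.intCast (P := P) 1)
            rw [h2]
            have h4 : Ge P 0 (S.R y i ⬝ᵥ S.th δ' y j1 z) := by simpa using h3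
            exact h4.mono (by omega)
          · rw [if_neg hiz, add_zero] at h1
            exact h1.mono (by omega)
        · change Ge P _ (S.R y i ⬝ᵥ S.ucol D' δ' y c b')
          by_cases hi : i ∈ S.Zs x
          · left
            exact S.dot_ucol hδ' ((hval0 i).2 hi) c b'
          · have h1 := S.ge_entry P hπ hy ha hc1 hc2 hc3 hD'π hδ' hδ'π c hoge hθ0 (Sum.inl i) (by
              intro _
              rw [hθ, if_pos (Or.inl ⟨i, hρ1 b i hb, hi⟩)]) b'
            refine h1.mono (le_of_eq ?_)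
            congr 1
            by_cases h : b' = Sum.inl 1
            · rw [if_pos h, if_pos (by rw [h])]
            · rw [if_neg h, if_neg (fun h' => h (Sum.inr_injective h'))]
      · simp only [Sum.elim_inr]
        rcases o' with o' | j
        · -- a coordinate
          rw [hcoord]
          rcases b' with z | b'
          · rw [if_neg (by simp), add_zero]
            exact (htho z o').mono (by omega)
          · have h1 := S.ge_entry P hπ hy ha hc1 hc2 hc3 hD'π hδ' hδ'π c hoge hθ0 (Sum.inr o') (by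
              rintro ⟨i, hi⟩
              exact absurd hi (by simp)) b'
            have h2 : S.row y (Sum.inr o') ⬝ᵥ S.ucol D' δ' y c b' = S.ucol D' δ' y c b' o' := by
              simp only [Sys.row, Sum.elim_inr]
              rw [single_dotProduct, one_mul]
            rw [h2] at h1
            refine h1.mono (le_of_eq ?_)
            simp only [Sum.elim_inr]
            congr 1
            by_cases h : b' = Sum.inl 1
            · rw [if_pos h, if_pos (by rw [h])]
            · rw [if_neg h, if_neg (fun h' => h (Sum.inr_injective h'))]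
        · -- a hyperplane
          rw [hcoordr]
          rcases b' with z | b'
          · rw [if_neg (by simp), add_zero]
            exact (hthl z j).mono (by omega)
          · rcases b' with b' | b'
            · obtain rfl | rfl : b' = 0 ∨ b' = 1 := by fin_cases b' <;> simp
              · rw [if_neg (by simp), add_zero]
                change Ge P _ (H.evl y (ext0 y) (Sum.inr j))
                rw [evl_inr, dell_ext0]
                refine (ge_inv_mul P (N := P.ord (H.ell y j)) (M := 0) (fun _ => rfl)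
                  (Or.inr (by omega))).mono (by omega)
              · rw [if_pos rfl]
                change Ge P _ (H.evl y (S.vec (toZ D') y) (Sum.inr j))
                refine (H.evl_vecD P hπ ha (hell j) hD'π hθ0 ?_).mono (by omega)
                intro h1 h2
                rw [hθ, if_pos (Or.inr ⟨j, h1, h2⟩)]
            · rw [if_neg (by simp), add_zero]
              change Ge P _ (H.evl y (S.col δ' y (c b')) (Sum.inr j))
              refine (H.evl_col P (a := a) hδ' hge (hBC b') (fun p => ?_) j).mono (by omega)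
              exact S.ge_co P hy ha hc1 hc2 (c b') p)
  rw [Finset.sum_ite_eq' Finset.univ, if_pos (Finset.mem_univ _)] at hnum
  have hnum' := hnum.resolve_left hρ0
  have hrows := sum_rows' (A := S.Zs x ⊕ (Fin 2 ⊕ Fin m)) (I := I) (ρ := ρ) (o := o)
    (a := a) hρ1 hρ2 ha (by
      intro i hi
      rw [ho]
      simp only
      split_ifs with h
      · exact le_rfl
      · have := hIo i hi h
        omega)
  rw [Fintype.card_sum, Fintype.card_sum, Fintype.card_fin, Fintype.card_fin,
    Fintype.card_coe, hcard] at hrows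
  have hsumI : ∑ i ∈ I, o i = ∑ i ∈ I \ S.Zs x, P.ord (aeval y (S.f i)) := by
    rw [← Finset.sum_sdiff hZI]
    have h1 : ∑ i ∈ S.Zs x, o i = 0 := Finset.sum_eq_zero fun i hi => by
      rw [ho]; simp only; rw [if_pos hi]
    rw [h1, add_zero]
    refine Finset.sum_congr rfl fun i hi => ?_
    rw [ho]
    simp only
    rw [if_neg (Finset.mem_sdiff.1 hi).2]
  rw [hsumI] at hrows
  -- the sum over all forms
  have hall : ∑ i ∈ Finset.univ \ S.Zs x, (P.ord (aeval x (S.f i)) - S.d i * e) ≤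
      ∑ i ∈ I \ S.Zs x, P.ord (aeval y (S.f i)) + q * a := by
    rw [Finset.sum_congr rfl fun i hi => hord i (Finset.mem_sdiff.1 hi).2]
    have hsub : I \ S.Zs x ⊆ Finset.univ \ S.Zs x :=
      Finset.sdiff_subset_sdiff (Finset.subset_univ _) (Finset.Subset.refl _)
    rw [← Finset.sum_sdiff hsub, add_comm]
    have h1 : ∑ i ∈ (Finset.univ \ S.Zs x) \ (I \ S.Zs x), P.ord (aeval y (S.f i)) ≤
        ∑ i ∈ (Finset.univ \ S.Zs x) \ (I \ S.Zs x), a := by
      refine Finset.sum_le_sum fun i hi => ?_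
      rw [Finset.mem_sdiff, Finset.mem_sdiff, Finset.mem_sdiff, not_and, not_not] at hi
      have hiI : i ∉ I := fun h => hi.1.2 (hi.2 h)
      by_contra hcon
      exact hiI (Finset.mem_filter.2 ⟨Finset.mem_univ _, Or.inr (by omega)⟩)
    have h2 : ∑ i ∈ (Finset.univ \ S.Zs x) \ (I \ S.Zs x), a ≤ q * a := by
      rw [Finset.sum_const, nsmul_eq_mul]
      refine mul_le_mul_of_nonneg_right ?_ ha
      have : ((Finset.univ \ S.Zs x) \ (I \ S.Zs x)).card ≤ Fintype.card (Fin q) :=
        Finset.card_le_univ _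
      rw [Fintype.card_fin] at this
      exact_mod_cast this
    linarith
  have hmt : θ ≤ if P ∈ H.mt k x then 1 else 0 := by
    rw [hθ]
    split_ifs with h1 h2 h2
    · exact le_rfl
    · exfalso
      apply h2
      rcases h1 with ⟨i, hi, hiZ⟩ | ⟨j, hj, hjo⟩
      · left
        refine ⟨i, ?_, ?_⟩
        · intro h
          exact hiZ ((hZx i).2 h)
        · have h3 := hord i hiZ
          have h4 := hIo i hi hiZ
          change (S.d i : ℤ) * e < P.ord (aeval x (S.f i))
          omega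
      · right
        refine ⟨j, ?_, ?_⟩
        · rw [hellxy]
          exact mul_ne_zero hτ hj
        · change e < P.ord (H.ell x j)
          rw [hellxy, P.ord_mul hτ hj, hτo]
          omega
    · exact zero_le_one
    · exact le_rfl
  have hvo : vo P D = P.ord (D π) := rfl
  -- the order of the transformation
  have hprodd : ∏ z : S.Zs x, (τ ^ S.d z)⁻¹ = (τ⁻¹) ^ ∑ i ∈ S.Zs x, S.d i := by
    rw [← Finset.sum_coe_sort (S.Zs x) (fun i => S.d i), ← Finset.prod_pow_eq_pow_sum]
    exact Finset.prod_congr rfl fun z _ => (inv_pow _ _).symm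
  have hordM := congrArg P.ord hMM2
  rw [P.ord_mul hprod0 hM20, hprodord] at hordM
  have hordW := congrArg P.ord hWM
  rw [P.ord_mul (pow_ne_zero _ hτ) (mul_ne_zero hM0 hT20), P.ord_mul hM0 hT20, hT2det, hTdet,
    hprodd, Finset.prod_pow_eq_pow_sum, P.ord_mul (pow_ne_zero _ (inv_ne_zero hτ))
      (mul_ne_zero hDπ (pow_ne_zero _ hτ)), P.ord_mul hDπ (pow_ne_zero _ hτ), P.ord_pow, P.ord_pow,
    P.ord_pow, P.ord_inv, hτo] at hordW
  rw [hvo]
  push_cast at hordW hMord hrows ⊢
  nlinarith [hordW, hordM, hMord, hnum', hrows, hall, hmt]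

end Pool.Agent.TH875.Vg.Hyp
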