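import Pool.Agent.TH875.Vg.HypSet

/-! The order of the determinant at a place, with hyperplanes. -/

set_option autoImplicit false

open FF MvPolynomial
open Pool.Agent.W603.LV Pool.Agent.W603.PV

namespace Pool.Agent.TH875.Vg

open Matrix Module

/-- orders of the rows -/
theorem sum_rows' {A ι O' : Type*} [Fintype A] [DecidableEq ι] {I : Finset ι}
    {ρ : A → ι ⊕ O'} (h1 : ∀ a i, ρ a = Sum.inl i → i ∈ I) (h2 : ∀ i ∈ I, ∃ a, ρ a = Sum.inl i)
    {o : ι → ℤ} {a : ℤ} (ha : 0 ≤ a) (ho : ∀ i ∈ I, 0 ≤ o i) :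
    ∑ i ∈ I, o i - 2 * a * Fintype.card A ≤
      ∑ x, (Sum.elim (fun i => o i - a) (fun _ => -(2 * a)) (ρ x) : ℤ) := by
  classical
  have h3 : ∀ i : I, ∃ x, ρ x = Sum.inl (i : ι) := fun i => h2 i i.2
  choose g hg using h3
  have hinj : Function.Injective g := by
    intro i j hij
    have := hg i
    rw [hij, hg j] at this
    exact Subtype.ext (Sum.inl_injective this).symm
  have hnn : ∀ x, 0 ≤ (Sum.elim (fun i => o i - a) (fun _ => -(2 * a)) (ρ x) : ℤ) + 2 * a := by
    intro x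
    rcases h : ρ x with i | e
    · simp only [Sum.elim_inl]
      have := ho i (h1 x i h)
      omega
    · simp only [Sum.elim_inr]
      omega
  have h4 : ∑ i ∈ I, o i ≤
      ∑ x, ((Sum.elim (fun i => o i - a) (fun _ => -(2 * a)) (ρ x) : ℤ) + 2 * a) := by
    rw [← Finset.sum_coe_sort I]
    calc ∑ i : I, o i ≤ ∑ i : I,
          ((Sum.elim (fun i => o i - a) (fun _ => -(2 * a)) (ρ (g i)) : ℤ) + 2 * a) := by
          refine Finset.sum_le_sum fun i _ => ?_
          rw [hg i, Sum.elim_inl]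
          omega
      _ = ∑ x ∈ Finset.univ.image g,
          ((Sum.elim (fun i => o i - a) (fun _ => -(2 * a)) (ρ x) : ℤ) + 2 * a) := by
          rw [Finset.sum_image fun i _ j _ h => hinj h]
      _ ≤ _ := Finset.sum_le_sum_of_subset_of_nonneg (Finset.subset_univ _) fun x _ _ => hnn x
  rw [Finset.sum_add_distrib, Finset.sum_const, Finset.card_univ, nsmul_eq_mul] at h4
  linarith

namespace Hyp

variable {k F : Type} [Field k] [Field F] [Algebra k F] {n q : ℕ} {S : Sys k F n q} {b : ℕ}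
  (H : Hyp S b)
variable {L : Type} [Field L] [Algebra k L] [Algebra F L]

/-- the places where the point meets one of the divisors or hyperplanes -/
def mt (k : Type) [Field k] [Algebra k F] {S : Sys k F n q} (H : Hyp S b) {L : Type} [Field L]
    [Algebra k L] [Algebra F L] (x : Fin (n + 1) → L) : Set (Place k L) :=
  {P | (∃ i, aeval x (S.f i) ≠ 0 ∧ S.d i * pord P x < P.ord (aeval x (S.f i))) ∨
    ∃ j, H.ell x j ≠ 0 ∧ pord P x < P.ord (H.ell x j)}

/-- the contribution of a hyperplane -/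
noncomputable def hc (P : Place k L) (x : Fin (n + 1) → L) : O n ⊕ Fin b → ℤ :=
  Sum.elim (fun _ => 0) fun j => P.ord (H.ell x j) - pord P x

theorem ge_ell (P : Place k L) {y : Fin (n + 1) → L} (hy : ∀ j, Ge P 0 (y j)) {a : ℤ}
    (h : ∀ j e, Ge P (-a) (algebraMap F L (H.lam j e))) (j : Fin b) : Ge P (-a) (H.ell y j) := by
  unfold ell
  refine Ge.sum _ _ fun e _ => ?_
  have := (h j e).mul (hy e)
  simpa using this

theorem ge_inv_mul (P : Place k L) {u v : L} {N M : ℤ} (hu : u ≠ 0 → P.ord u = N)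
    (hv : Ge P (N + M) v) : Ge P M (u⁻¹ * v) := by
  by_cases h : u = 0
  · rw [h, _root_.inv_zero, zero_mul]; exact Ge.zero
  · have h1 : Ge P (-N) u⁻¹ := Or.inr (by rw [P.ord_inv, hu h])
    exact (h1.mul hv).mono (by omega)

variable [IsScalarTower k F L] [CharZero k] [IsFF k L] [IsAlgClosed k]

theorem evl_col (P : Place k L) {y : Fin (n + 1) → L} {a : ℤ}
    {δ : S.Idx → Derivation ℤ L L} (hδ : ∀ p, IsLift (S.dd p) (δ p))
    (hge : ∀ p {N : ℤ} {f : L}, Ge P N f → Ge P N (δ p f)) {c : Col n q S.d} (hc : BC c)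
    (hco : ∀ p, Ge P (-a) (S.co y c p)) (j : Fin b) :
    Ge P (-a) (H.evl y (S.col δ y c) (Sum.inr j)) := by
  rw [evl_inr]
  unfold Sys.col
  rw [S.ex_BC hc, Sys.ext0_zero, add_zero, map_sum]
  refine ge_inv_mul P (N := P.ord (H.ell y j)) (fun _ => rfl) (Ge.sum _ _ fun p _ => ?_)
  rw [map_smul, smul_eq_mul, H.dell_vec (hδ p)]
  have h1 : Ge P (P.ord (H.ell y j)) (H.ell y j) := Or.inr le_rfl
  exact ((hco p).mul (hge p h1)).mono (by omega)

theorem evl_vecD (P : Place k L) {π : L} (hπ : P.ord π = 1) {y : Fin (n + 1) → L} {a : ℤ}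
    (ha : 0 ≤ a) {j : Fin b} (hell : Ge P (-a) (H.ell y j))
    {D : Derivation k L L} (hD : D π = 1) {θ : ℤ} (hθ0 : 0 ≤ θ)
    (hθ : H.ell y j ≠ 0 → 0 < P.ord (H.ell y j) → 1 ≤ θ) :
    Ge P (-(2 * a) - θ) (H.evl y (S.vec (toZ D) y) (Sum.inr j)) := by
  rw [evl_inr, H.dell_vecD]
  by_cases h0 : H.ell y j = 0
  · rw [h0, _root_.inv_zero, zero_mul]; exact Ge.zero
  have h1 : -a ≤ P.ord (H.ell y j) := hell.resolve_left h0
  by_cases hs : P.ord (H.ell y j) = 0
  · have h2 : Ge P 0 (D (H.ell y j)) := der_reg P hπ D hD (Or.inr (by omega))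
    have h3 := ge_inv_mul P (N := P.ord (H.ell y j)) (M := 0) (fun _ => rfl) (by simpa [hs] using h2)
    exact h3.mono (by omega)
  · have h2 : Ge P (P.ord (H.ell y j)) (H.ell y j) := Or.inr le_rfl
    have h3 := Sys.ge_der P hπ hD h2
    have h4 := ge_inv_mul P (u := H.ell y j) (N := P.ord (H.ell y j)) (M := -1) (fun _ => rfl)
      (h3.mono (by omega))
    refine h4.mono ?_
    rcases lt_or_gt_of_ne hs with h5 | h5
    · omega
    · have := hθ h0 h5
      omega

end Hyp

end Pool.Agent.TH875.Vg
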