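import Pool.Agent.TH875.Vg.Full
import Pool.Agent.TH875.Vg.Glob

/-! The order of the determinant at a place, second version. -/

set_option autoImplicit false

open FF MvPolynomial
open Pool.Agent.W603.LV Pool.Agent.W603.PV

namespace Pool.Agent.TH875.Vg.Sys

open Matrix Module

variable {k F : Type} [Field k] [Field F] [Algebra k F] {n q : ℕ} (S : Sys k F n q)
variable {L : Type} [Field L] [Algebra k L] [Algebra F L]

omit [Algebra k L] in
theorem Sd_vec {τ : L} (hτ : τ ≠ 0) (y : Fin (n + 1) → L) (δ : Derivation ℤ L L) (o : O n) :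
    Sd τ o * S.vec δ y o = S.vec δ (fun j => τ * y j) o - (δ τ / τ) * ext0 (fun j => τ * y j) o := by
  rcases o with _ | j
  · simp [Sd, vec, ext0]
  · simp only [Sd, vec, ext0, Option.elim]
    rw [δ.leibniz, smul_eq_mul, smul_eq_mul]
    field_simp
    ring

theorem Sd_vec_mem {τ : L} (hτ : τ ≠ 0) (y : Fin (n + 1) → L) {p : S.Idx}
    {δ : Derivation ℤ L L} (h : IsLift (S.dd p) δ) :
    (fun o => Sd τ o * S.vec δ y o) ∈ S.V (fun j => τ * y j) := by
  have e : (fun o => Sd τ o * S.vec δ y o) = S.vec δ (fun j => τ * y j) -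
      (δ τ / τ) • ext0 (fun j => τ * y j) := by
    funext o
    rw [S.Sd_vec hτ]
    rfl
  rw [e]
  exact Submodule.sub_mem _ (S.vec_mem h _) (Submodule.smul_mem _ _ (S.ext0_mem _))

theorem Sd_th_mem {τ : L} (hτ : τ ≠ 0) (y : Fin (n + 1) → L) {δ : S.Idx → Derivation ℤ L L}
    (hδ : ∀ p, IsLift (S.dd p) (δ p)) (j : Fin (n + 1)) (i : Fin q) :
    (fun o => Sd τ o * S.th δ y j i o) ∈ S.V (fun j => τ * y j) := by
  have e : (fun o => Sd τ o * S.th δ y j i o) = (y j ^ S.d i)⁻¹ •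
      (fun o => Sd τ o * S.vec (δ ⟨i, S.pw i j⟩) y o) := by
    funext o
    simp only [th, Pi.smul_apply, smul_eq_mul]
    ring
  rw [e]
  exact Submodule.smul_mem _ _ (S.Sd_vec_mem hτ y (hδ _))

theorem R_Sd (τ : L) (y : Fin (n + 1) → L) (i : Fin q) (v : O n → L) :
    S.R (fun j => τ * y j) i ⬝ᵥ (fun o => Sd τ o * v o) = τ ^ S.d i * (S.R y i ⬝ᵥ v) := by
  simp only [dotProduct]
  rw [Finset.mul_sum]
  refine Finset.sum_congr rfl fun o _ => ?_
  rw [← mul_assoc, S.R_smul]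
  ring

variable [IsScalarTower k F L] [CharZero k] [IsFF k L]

/-- The transformation of the basis. -/
theorem bas_trans {m : ℕ} {D : Derivation k L L} (hD0 : D ≠ 0)
    {δ : S.Idx → Derivation ℤ L L} (hδ : ∀ p, IsLift (S.dd p) (δ p)) {x : Fin (n + 1) → L}
    {j0 : Fin (n + 1)} (hj0 : x j0 ≠ 0) {c : Fin m → Col n q S.d}
    (hEB : S.EB D δ x ≤ Submodule.span L (Set.range (S.ucol D δ x c)))
    {τ : L} (hτ : τ ≠ 0) {y : Fin (n + 1) → L} (hxy : x = fun j => τ * y j) {j1 : Fin (n + 1)}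
    (hj1 : y j1 ≠ 0) {D' : Derivation k L L} {δ' : S.Idx → Derivation ℤ L L}
    (hδ' : ∀ p, IsLift (S.dd p) (δ' p)) {T : Matrix (Fin 2 ⊕ Fin m) (Fin 2 ⊕ Fin m) L}
    (hT : S.U D δ x c = Matrix.diagonal (Sd τ) * (S.U D' δ' y c * T)) :
    ∃ T' : Matrix (S.Zs x ⊕ (Fin 2 ⊕ Fin m)) (S.Zs x ⊕ (Fin 2 ⊕ Fin m)) L,
      (∀ o b, S.bas (S.Zs x) D δ x j0 c b o =
        Sd τ o * ∑ b', S.bas (S.Zs x) D' δ' y j1 c b' o * T' b' b) ∧
      T'.det = (∏ z : S.Zs x, (τ ^ S.d z)⁻¹) * T.det := by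
  classical
  have hZ : ∀ i ∈ S.Zs x, aeval x (S.f i) = 0 := fun i hi => (S.mem_Zs x i).1 hi
  have hZy : ∀ i ∈ S.Zs x, aeval y (S.f i) = 0 := by
    intro i hi
    have h1 := hZ i hi
    rw [hxy, aeval_smul (S.hom i) τ y] at h1
    exact (mul_eq_zero.1 h1).resolve_left (pow_ne_zero _ hτ)
  have hcol : ∀ o b, S.ucol D δ x c b o = Sd τ o * ∑ b', S.ucol D' δ' y c b' o * T b' b := by
    intro o b
    have h1 := congrFun (congrFun hT o) b
    refine h1.trans ((Matrix.diagonal_mul _ _ _ _).trans ?_)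
    rw [Matrix.mul_apply]
    rfl
  have hdiff : ∀ z : S.Zs x, ∃ κ : Fin 2 ⊕ Fin m → L, ∀ o, S.th δ x j0 z o =
      (τ ^ S.d z)⁻¹ * (Sd τ o * S.th δ' y j1 z o) + ∑ b, κ b * S.ucol D δ x c b o := by
    intro z
    set v : O n → L := S.th δ x j0 z - (τ ^ S.d z)⁻¹ • (fun o => Sd τ o * S.th δ' y j1 z o) with hv
    have h1 : v ∈ S.V x := by
      refine Submodule.sub_mem _ (S.th_mem hδ x j0 z) (Submodule.smul_mem _ _ ?_)
      have := S.Sd_th_mem hτ y hδ' j1 z
      rwa [← hxy] at this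
    have h2 : ∀ i ∈ S.Zs x, S.R x i ⬝ᵥ v = 0 := by
      intro i hi
      rw [hv, dotProduct_sub, dotProduct_smul, S.dot_th hδ hj0, hZ i hi, map_zero, mul_zero]
      have h3 : ∀ w : O n → L, S.R x i ⬝ᵥ (fun o => Sd τ o * w o) =
          τ ^ S.d i * (S.R y i ⬝ᵥ w) := by
        intro w
        conv_lhs => rw [hxy]
        exact S.R_Sd τ y i _
      rw [h3, S.dot_th hδ' hj1, hZy i hi, map_zero, mul_zero]
      by_cases h : i = z
      · rw [if_pos h, h, smul_eq_mul]
        have : τ ^ S.d z ≠ 0 := pow_ne_zero _ hτ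
        field_simp
        ring
      · rw [if_neg h]; simp
    have h3 := hEB (S.mem_EB hD0 hδ ⟨j0, hj0⟩ h1 h2)
    obtain ⟨κ, hκ⟩ := (Submodule.mem_span_range_iff_exists_fun L).1 h3
    refine ⟨κ, fun o => ?_⟩
    have h4 := congrFun hκ o
    rw [Finset.sum_apply] at h4
    simp only [Pi.smul_apply, smul_eq_mul, hv, Pi.sub_apply] at h4
    rw [h4]
    ring
  choose κ hκ using hdiff
  refine ⟨fromBlocks (Matrix.diagonal fun z : S.Zs x => (τ ^ S.d z)⁻¹) 0
    (T * Matrix.of fun b z => κ z b) T, ?_, ?_⟩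
  · intro o b
    rw [Fintype.sum_sum_type]
    rcases b with z | b
    · have h1 : ∑ a, S.bas (S.Zs x) D' δ' y j1 c (Sum.inl a) o *
          (fromBlocks (Matrix.diagonal fun z : S.Zs x => (τ ^ S.d z)⁻¹) 0
            (T * Matrix.of fun b z => κ z b) T) (Sum.inl a) (Sum.inl z) =
          S.th δ' y j1 z o * (τ ^ S.d z)⁻¹ := by
        rw [Finset.sum_eq_single z]
        · simp [bas]
        · intro a _ ha
          simp [Matrix.diagonal_apply_ne _ ha]
        · simp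
      rw [h1]
      have h2 : ∑ a, S.bas (S.Zs x) D' δ' y j1 c (Sum.inr a) o *
          (fromBlocks (Matrix.diagonal fun z : S.Zs x => (τ ^ S.d z)⁻¹) 0
            (T * Matrix.of fun b z => κ z b) T) (Sum.inr a) (Sum.inl z) =
          ∑ a, S.ucol D' δ' y c a o * ∑ b, T a b * κ z b := by
        refine Finset.sum_congr rfl fun a _ => ?_
        simp [bas, Matrix.mul_apply]
      rw [h2]
      change S.th δ x j0 z o = _
      rw [hκ z o, mul_add]
      congr 1
      · ring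
      · rw [Finset.mul_sum]
        rw [Finset.sum_congr rfl fun b _ => by rw [hcol o b]]
        simp only [Finset.mul_sum]
        rw [Finset.sum_comm]
        refine Finset.sum_congr rfl fun a _ => Finset.sum_congr rfl fun b _ => ?_
        ring
    · have h1 : ∑ a, S.bas (S.Zs x) D' δ' y j1 c (Sum.inl a) o *
          (fromBlocks (Matrix.diagonal fun z : S.Zs x => (τ ^ S.d z)⁻¹) 0
            (T * Matrix.of fun b z => κ z b) T) (Sum.inl a) (Sum.inr b) = 0 :=
        Finset.sum_eq_zero fun a _ => by simp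
      rw [h1, zero_add]
      exact hcol o b
  · rw [det_fromBlocks_zero₁₂, Matrix.det_diagonal]

end Pool.Agent.TH875.Vg.Sys
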