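import Pool.Agent.TH875.Vg.Glob

/-! The height inequality. -/

set_option autoImplicit false

open FF MvPolynomial
open Pool.Agent.W603.LV Pool.Agent.W603.PV

namespace Pool.Agent.TH875.Vg.Sys

open Matrix Module

variable {k F : Type} [Field k] [Field F] [Algebra k F] {n q : ℕ} (S : Sys k F n q)

section

variable {L : Type} [Field L] [Algebra k L] [Algebra F L]

omit [Algebra F L] in
theorem pord_eq_zero (P : Place k L) {x : Fin (n + 1) → L} (hx : ∃ j, x j ≠ 0)
    (h : ∀ j, P.ord (x j) = 0) : pord P x = 0 := by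
  obtain ⟨j, hj, e⟩ := exists_pord P hx
  rw [← e, h j]

omit [Algebra F L] in
theorem pht_finset {x : Fin (n + 1) → L} (hx : ∃ j, x j ≠ 0) (T : Finset (Place k L))
    (hT : ∀ j, ∀ P : Place k L, P.ord (x j) ≠ 0 → P ∈ T) : pht k x = - ∑ P ∈ T, pord P x := by
  unfold pht
  rw [finsum_eq_sum_of_support_subset (s := T)]
  intro P hP
  by_contra hcon
  apply hP
  exact pord_eq_zero P hx fun j => by
    by_contra h
    exact hcon (hT j P h)

theorem cost_le (c : Col n q S.d) : S.cost c ≤ 1 := by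
  rcases c with _ | _ | _ <;> simp [cost]

end

variable [CharZero k] [IsAlgClosed k] [IsFF k F]

/-- The height inequality for all algebraic points. -/
theorem main_bound : ∃ C : ℕ, ∀ (L : Type) [Field L] [Algebra k L] [Algebra F L]
    [IsScalarTower k F L] [FiniteDimensional F L] (x : Fin (n + 1) → L), (∃ j, x j ≠ 0) →
    (S.mt k x).Finite ∧
    (∑ i, (S.d i : ℤ) - 2 * n - 1 + (S.Zs x).card) * pht k x ≤
      canDeg k L + (S.mt k x).ncard + C * Module.finrank F L := by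
  classical
  obtain ⟨PP, hPP1, hPP2, hPP3, hPP4⟩ := S.exists_polys
  refine ⟨((2 * (n + 2) + 1 + q) * ∑ g ∈ PP, ∑ α ∈ g.support, hgt k (g.coeff α)).toNat, ?_⟩
  intro L _ _ _ _ _ x hx
  have hL : IsFF k L := isFF_of_finite (F := F)
  have hD0 : der k L ≠ 0 := der_ne
  set D := der k L with hD
  have htL : Transcendental k (algebraMap F L S.t) :=
    (transcendental_algebraMap_iff (algebraMap F L).injective).2 S.tr
  have hDt := der_ne_zero hD0 htL
  choose δ hδ using fun p => S.exists_lifts (L := L) p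
  obtain ⟨m, c, hm, hli⟩ := S.exists_cols hDt hδ hx
  have hZ : (S.Zs x).card ≤ n := by omega
  obtain rfl : m = n - (S.Zs x).card := by omega
  have hZx : ∀ i, i ∈ S.Zs x ↔ aeval x (S.f i) = 0 := S.mem_Zs x
  have hZl := S.li_R hx (fun p => ⟨δ p, hδ p⟩) (S.Zs x) (fun i hi => (S.mem_Zs x i).1 hi)
  generalize S.Zs x = Z at *
  -- rows
  obtain ⟨σ, _, hσ⟩ := S.exists_rows (A := Fin 2 ⊕ Fin (n - Z.card)) (Finset.Subset.refl Z) hZl (by
    rw [Fintype.card_sum, Fintype.card_fin, Fintype.card_fin]; omega)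
  set r0 : Matrix (Fin 2 ⊕ Fin (n - Z.card)) (O n) L := Matrix.of fun a => S.row x (σ a) with hr0
  set RZ : Matrix Z (O n) L := Matrix.of fun z : Z => S.R x z with hRZ
  have hden : Den (eZ hZ) RZ r0 ≠ 0 := den_ne_of_li (eZ hZ) hσ
  have hU : RZ * S.U D δ x c = 0 := S.RZ_mul_U hδ c fun i hi => (hZx i).1 hi
  have hnum : (r0 * S.U D δ x c).det ≠ 0 := num_ne (eZ hZ) _ hU hden hli
  obtain ⟨W, hWd⟩ : ∃ W, W = (r0 * S.U D δ x c).det / Den (eZ hZ) RZ r0 := ⟨_, rfl⟩
  have hW0 : W ≠ 0 := by rw [hWd]; exact div_ne_zero hnum hden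
  have hW : ∀ r : Matrix (Fin 2 ⊕ Fin (n - Z.card)) (O n) L, Den (eZ hZ) RZ r ≠ 0 →
      W * Den (eZ hZ) RZ r = (r * S.U D δ x c).det := by
    intro r _
    have h1 := rows_ratio (eZ hZ) (r' := r) _ hU hden
    rw [hWd, div_mul_eq_mul_div, ← h1, mul_div_assoc, div_self hden, mul_one]
  have hloc := S.local_main hPP1 hPP2 hPP3 hx hZ hZx (fun I j => hPP4 Z I j) hD0 hδ c hW0 hW
  -- a large finite set of places
  obtain ⟨T1, hT1⟩ := exists_supp (k := k) (Finset.univ : Finset (Fin q))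
    (fun i => aeval x (S.f i))
  obtain ⟨T2, hT2⟩ := exists_supp (k := k) (Finset.univ : Finset (Fin (n + 1))) x
  obtain ⟨T3, hT3⟩ := exists_supp (k := k) (Finset.univ : Finset (Fin 1)) ![W]
  obtain ⟨T4, hT4⟩ := exists_supp (k := k)
    (PP.biUnion fun g => g.support.image fun α => g.coeff α) (fun a => algebraMap F L a)
  obtain ⟨T, hTd⟩ : ∃ T, T = T1 ∪ T2 ∪ T3 ∪ T4 ∪ (vo_finite hD0).toFinset := ⟨_, rfl⟩
  have hTf : ∀ i, ∀ P : Place k L, P.ord (aeval x (S.f i)) ≠ 0 → P ∈ T := by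
    intro i P hP
    have := hT1 i (Finset.mem_univ _) P hP
    simp [hTd, this]
  have hTx : ∀ j, ∀ P : Place k L, P.ord (x j) ≠ 0 → P ∈ T := by
    intro i P hP
    have := hT2 i (Finset.mem_univ _) P hP
    simp [hTd, this]
  have hTW : ∀ P : Place k L, P.ord W ≠ 0 → P ∈ T := by
    intro P hP
    have := hT3 0 (Finset.mem_univ _) P hP
    simp [hTd, this]
  have hTc : ∀ g ∈ PP, ∀ α ∈ g.support, ∀ P : Place k L,
      P.ord (algebraMap F L (g.coeff α)) ≠ 0 → P ∈ T := by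
    intro g hg α hα P hP
    have := hT4 (g.coeff α) (Finset.mem_biUnion.2 ⟨g, hg, Finset.mem_image_of_mem _ hα⟩) P hP
    simp [hTd, this]
  have hTv : ∀ P : Place k L, vo P D ≠ 0 → P ∈ T := by
    intro P hP
    simp [hTd, hP]
  have hmtT : S.mt k x ⊆ (T : Set (Place k L)) := by
    rintro P ⟨i, _, hi⟩
    by_contra hcon
    rw [pord_eq_zero P hx (fun j => by by_contra h; exact hcon (hTx j P h)), mul_zero] at hi
    exact hcon (hTf i P hi.ne')
  have hmtfin : (S.mt k x).Finite := (Finset.finite_toSet T).subset hmtT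
  refine ⟨hmtfin, ?_⟩
  -- the sum
  have hsum := Finset.sum_le_sum fun P (_ : P ∈ T) => hloc P
  rw [sum_ord_finset W T hTW] at hsum
  have hpht := pht_finset hx T hTx
  have hvo := canDeg_finset hD0 T hTv
  have hmt : ∑ P ∈ T, (if P ∈ S.mt k x then (1 : ℤ) else 0) = (S.mt k x).ncard := by
    rw [← Finset.sum_filter, Finset.sum_const, nsmul_eq_mul, mul_one]
    congr 1
    rw [Set.ncard_eq_toFinset_card _ hmtfin]
    congr 1
    ext P
    rw [Finset.mem_filter, Set.Finite.mem_toFinset]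
    exact ⟨fun h => h.2, fun h => ⟨hmtT h, h⟩⟩
  have hloss : ∑ P ∈ T, loss PP P =
      Module.finrank F L * ∑ g ∈ PP, ∑ α ∈ g.support, hgt k (g.coeff α) := by
    unfold loss
    rw [Finset.sum_comm, Finset.mul_sum]
    refine Finset.sum_congr rfl fun g hg => ?_
    rw [Finset.sum_comm, Finset.mul_sum]
    refine Finset.sum_congr rfl fun α hα => ?_
    rw [← hgt_algebraMap (L := L) (g.coeff α), hgt_finset _ T (hTc g hg α hα)]
  have hfsum : ∑ P ∈ T, ∑ i ∈ Finset.univ \ Z, (P.ord (aeval x (S.f i)) - S.d i * pord P x) =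
      (∑ i ∈ Finset.univ \ Z, (S.d i : ℤ)) * pht k x := by
    rw [Finset.sum_comm, Finset.sum_mul]
    refine Finset.sum_congr rfl fun i _ => ?_
    rw [Finset.sum_sub_distrib, sum_ord_finset _ T (hTf i), ← Finset.mul_sum, hpht]
    ring
  rw [Finset.sum_sub_distrib, Finset.sum_sub_distrib, Finset.sum_add_distrib,
    Finset.sum_add_distrib, ← Finset.mul_sum, ← Finset.mul_sum, hvo, hfsum, hmt, hloss] at hsum
  have hpo : ∑ P ∈ T, pord P x = - pht k x := by rw [hpht]; ring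
  rw [hpo] at hsum
  have hdsum : ∑ i ∈ Finset.univ \ Z, (S.d i : ℤ) = ∑ i, (S.d i : ℤ) - ∑ i ∈ Z, (S.d i : ℤ) := by
    rw [← Finset.sum_sdiff (Finset.subset_univ Z)]
    ring
  rw [hdsum] at hsum
  -- the height is not negative
  have hpos : 0 ≤ pht k x := by
    obtain ⟨j, hj⟩ := hx
    rw [hpht, neg_nonneg, ← sum_ord_finset (x j) T (hTx j)]
    exact Finset.sum_le_sum fun P _ => pord_le P hj
  have hcost : ∑ a, (S.cost (c a) : ℤ) ≤ n - Z.card := by
    have h1 : ∑ a, S.cost (c a) ≤ ∑ _a : Fin (n - Z.card), 1 :=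
      Finset.sum_le_sum fun a _ => S.cost_le (c a)
    rw [Finset.sum_const, Finset.card_univ, Fintype.card_fin, smul_eq_mul, mul_one] at h1
    have h2 : ((∑ a, S.cost (c a) : ℕ) : ℤ) ≤ ((n - Z.card : ℕ) : ℤ) := by exact_mod_cast h1
    rw [Nat.cast_sub hZ] at h2
    push_cast at h2
    exact h2
  have hH : 0 ≤ ∑ g ∈ PP, ∑ α ∈ g.support, hgt k (g.coeff α) :=
    Finset.sum_nonneg fun _ _ => Finset.sum_nonneg fun _ _ => hgt_nonneg _
  have hK : (0 : ℤ) ≤ (2 * (n + 2) + 1 + q) * ∑ g ∈ PP, ∑ α ∈ g.support, hgt k (g.coeff α) :=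
    mul_nonneg (by positivity) hH
  rw [Int.toNat_of_nonneg hK]
  have hmul := mul_le_mul_of_nonneg_right hcost hpos
  nlinarith [hsum, hmul]

end Pool.Agent.TH875.Vg.Sys
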