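import Pool.Agent.TH875.Vg.ConstC

/-! The inequality for constant forms. -/

set_option autoImplicit false

open FF MvPolynomial
open Pool.Agent.W603.LV Pool.Agent.W603.PV

namespace Pool.Agent.TH875.Vg

open Matrix Module Sys

variable {k F : Type} [Field k] [Field F] [Algebra k F] {n q : ℕ} (S : Sys k F n q)

theorem mem_PPof1 (i : Fin q) : S.f i ∈ (Hyp.empty S).PPof := by
  classical
  exact Finset.mem_union_left _ (Finset.mem_union_left _
      (Finset.mem_image_of_mem S.f (Finset.mem_univ i)))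

theorem mem_PPof2 (i : Fin q) (b c : Fin (n + 1)) :
    X b * pderiv c (S.f i) ∈ (Hyp.empty S).PPof := by
  classical
  refine Finset.mem_union_left _ (Finset.mem_union_right _ ?_)
  rw [Finset.mem_image]
  exact ⟨(i, b, c), Finset.mem_univ _, rfl⟩

theorem mem_PPof3 : C S.t ∈ (Hyp.empty S).PPof := by
  classical
  exact Finset.mem_union_right _ (Finset.mem_union_left _ (Finset.mem_singleton_self _))

theorem empty_mt {L : Type} [Field L] [Algebra k L] [Algebra F L] (x : Fin (n + 1) → L) :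
    (Hyp.empty S).mt k x = S.mt k x := by
  ext P
  constructor
  · rintro (h | ⟨j, _⟩)
    · exact h
    · exact j.elim0
  · exact fun h => Or.inl h

variable [CharZero k] [IsAlgClosed k] [IsFF k F]

/-- The height inequality for forms with constant coefficients. -/
theorem main_C (h0 : ∀ i, S.ft i = 0)
    (hc : ∀ i α, ∃ c : k, (S.f i).coeff α = algebraMap k F c)
    {L : Type} [Field L] [Algebra k L] [Algebra F L]
    [IsScalarTower k F L] [FiniteDimensional F L] (x : Fin (n + 1) → L) (hx : ∃ j, x j ≠ 0)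
    {N : ℕ} (hVN : finrank L (S.V x) = N + 1) {u : Fin N → Fin (n + 1) → L}
    (hu : LinearIndependent L u) (huV : ∀ i, Sys.ext0 (u i) ∈ S.V x) :
    (S.mt k x).Finite ∧
    (∑ i, (S.d i : ℤ) - 2 * N + 1 + (S.Zs x).card) * pht k x + ght k (mins u) ≤
      canDeg k L + (S.mt k x).ncard + (2 * hgt k S.t) * Module.finrank F L := by
  classical
  have hL : IsFF k L := isFF_of_finite (F := F)
  have ht0 : S.t ≠ 0 := by
    intro h
    exact S.tr (by rw [h]; exact isAlgebraic_zero)
  have ht' : Transcendental k (S.t)⁻¹ := fun h => S.tr (by simpa using h.inv)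
  have hmtS := empty_mt S (k := k) (L := L) x
  have hD0 : der k L ≠ 0 := der_ne
  obtain ⟨D, hD⟩ : ∃ D, D = der k L := ⟨_, rfl⟩
  rw [← hD] at hD0
  have htL : Transcendental k (algebraMap F L S.t) :=
    (transcendental_algebraMap_iff (algebraMap F L).injective).2 S.tr
  have hDt := der_ne_zero hD0 htL
  choose δ hδ using fun p => S.exists_lifts (L := L) p
  obtain ⟨rc, c, hBC, hli, hEB⟩ := S.exists_colsB hDt δ hx
  obtain ⟨j0, hj0⟩ := id hx
  have hfin := S.finrank_V hD0 hδ hj0 hBC hli hEB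
  have hcard : (S.Zs x).card + (2 + rc) = N + 1 := (hVN.symm.trans hfin).symm
  obtain ⟨eqv⟩ : Nonempty ((S.Zs x) ⊕ (Fin 2 ⊕ Fin rc) ≃ Fin (N + 1)) := by
    refine ⟨Fintype.equivOfCardEq ?_⟩
    rw [Fintype.card_sum, Fintype.card_sum, Fintype.card_fin, Fintype.card_fin, Fintype.card_coe,
      Fintype.card_fin]
    omega
  -- the rows
  obtain ⟨rw', hrw⟩ : ∃ rw' : (Fin N → Fin (n + 1)) → Fin (N + 1) → O n,
      rw' = fun σ => Fin.cons none (fun a => some (σ a)) := ⟨_, rfl⟩
  obtain ⟨T', hT'd⟩ : ∃ T' : (Fin N → Fin (n + 1)) → (S.Zs x) ⊕ (Fin 2 ⊕ Fin rc) → O n ⊕ Fin 0,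
      T' = fun σ a => Sum.inl (rw' σ (eqv a)) := ⟨_, rfl⟩
  have hT' : ∀ σ, ∀ τ : L, ∏ a, (Hyp.Sx τ : O n ⊕ Fin 0 → L) (T' σ a) = τ ^ N := by
    intro σ τ
    rw [hT'd, hrw]
    simp only
    rw [Equiv.prod_comp eqv (fun o => (Hyp.Sx τ : O n ⊕ Fin 0 → L)
      (Sum.inl ((Fin.cons none (fun a => some (σ a)) : Fin (N + 1) → O n) o))),
      Fin.prod_univ_succ]
    simp [Hyp.Sx, Sys.Sd]
  -- the bases
  obtain ⟨ba, hba⟩ : ∃ ba : (S.Zs x) ⊕ (Fin 2 ⊕ Fin rc) → O n → L,
      ba = S.bas (S.Zs x) D δ x j0 c := ⟨_, rfl⟩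
  have hbas : LinearIndependent L ba := by
    rw [hba]
    exact S.bas_li hδ (fun i hi => (S.mem_Zs x i).1 hi) hj0 hli
  have hbV : ∀ b, ba b ∈ S.V x := fun b => by
    rw [hba]; exact S.bas_mem _ D hδ x j0 hBC b
  obtain ⟨vb, hvb⟩ : ∃ vb : Fin (N + 1) → O n → L,
      vb = Fin.cons (S.vec (toZ D) x) (fun i => Sys.ext0 (u i)) := ⟨_, rfl⟩
  have hvli : LinearIndependent L vb := by
    rw [hvb, linearIndependent_finCons]
    constructor
    · have h1 := hu.map' (ext0L (L := L) (n := n)) (by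
        rw [LinearMap.ker_eq_bot']
        intro w hw
        funext j
        have := congrFun hw (some j)
        simpa [ext0L_apply, Sys.ext0] using this)
      exact h1
    · intro hcon
      have h2 : ∀ v ∈ Submodule.span L (Set.range fun i => Sys.ext0 (u i)), v none = 0 := by
        intro v hv
        induction hv using Submodule.span_induction with
        | mem v hv =>
          obtain ⟨i, rfl⟩ := hv
          rfl
        | zero => rfl
        | add v w _ _ hv hw => rw [Pi.add_apply, hv, hw, add_zero]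
        | smul c v _ hv => rw [Pi.smul_apply, hv, smul_zero]
      exact hDt (h2 _ hcon)
  have hspan : Submodule.span L (Set.range vb) = S.V x := by
    apply Submodule.eq_of_le_of_finrank_eq
    · rw [Submodule.span_le]
      rintro _ ⟨i, rfl⟩
      rw [hvb]
      induction i using Fin.cases with
      | zero => exact S.vecD_mem D x
      | succ i => exact huV i
    · rw [finrank_span_eq_card hvli, Fintype.card_fin, hVN]
  have hG : ∀ b, ∃ G : Fin (N + 1) → L, ∑ i, G i • vb i = ba b := by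
    intro b
    have h1 := hbV b
    rw [← hspan] at h1
    exact (Submodule.mem_span_range_iff_exists_fun L).1 h1
  choose G hG using hG
  have hG0 : (Matrix.of fun i j => G (eqv.symm j) i).det ≠ 0 := by
    have h1 : LinearIndependent L (fun j => G (eqv.symm j)) := by
      apply LinearIndependent.of_comp (Fintype.linearCombination L vb)
      have h2 : (Fintype.linearCombination L vb) ∘ (fun j => G (eqv.symm j)) =
          ba ∘ eqv.symm := by
        funext j
        rw [Function.comp_apply, Fintype.linearCombination_apply, hG]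
        rfl
      rw [h2]
      exact hbas.comp _ eqv.symm.injective
    have h3 := (Matrix.linearIndependent_rows_iff_isUnit
      (A := (Matrix.of fun i j => G (eqv.symm j) i)ᵀ)).1 h1
    rw [Matrix.isUnit_iff_isUnit_det, Matrix.det_transpose] at h3
    exact isUnit_iff_ne_zero.1 h3
  obtain ⟨κ, hκ⟩ : ∃ κ, κ = D (algebraMap F L S.t) *
      (Matrix.of fun i j => G (eqv.symm j) i).det := ⟨_, rfl⟩
  have hκ0 : κ ≠ 0 := by rw [hκ]; exact mul_ne_zero hDt hG0
  have hdet : ∀ σ, (Matrix.of fun a b => (Hyp.empty S).ev x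
      (S.bas (S.Zs x) D δ x j0 c b) (T' σ a)).det = κ * mins u σ := by
    intro σ
    have h1 := det_cons eqv ba (S.vec (toZ D) x) u G (by rw [← hvb]; exact hG) σ
    rw [hT'd, hrw, ← hba]
    refine Eq.trans ?_ (h1.trans ?_)
    · rfl
    · rw [hκ]; rfl
  obtain ⟨S', hS'⟩ : ∃ S', S' = S.withT h0 (S.t)⁻¹ ht' := ⟨_, rfl⟩
  obtain ⟨θ, hθ⟩ : ∃ θ : L, θ = -(algebraMap F L S.t)⁻¹ ^ 2 := ⟨_, rfl⟩
  have hdet' : ∀ σ, (Matrix.of fun a b => (Hyp.empty (S.withT h0 (S.t)⁻¹ ht')).ev x
      ((S.withT h0 (S.t)⁻¹ ht').bas (S.Zs x) D δ x j0 c b) (T' σ a)).det =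
      θ * (κ * mins u σ) := by
    intro σ
    have h1 := det_cons eqv (fun b => scl θ (ba b)) (scl θ (S.vec (toZ D) x)) u G (by
      intro b
      rw [← hG b, map_sum]
      refine Finset.sum_congr rfl fun i _ => ?_
      rw [map_smul, hvb]
      congr 1
      induction i using Fin.cases with
      | zero => rfl
      | succ i =>
        rw [Fin.cons_succ, Fin.cons_succ, scl_ext0]) σ
    rw [hT'd, hrw]
    refine Eq.trans ?_ (h1.trans ?_)
    · congr 1
      ext a b
      simp only [Matrix.of_apply]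
      rw [Hyp.ev_inl, withT_bas S h0 ht', hba, hθ]
    · rw [hκ, scl_none]
      change θ * D (algebraMap F L S.t) * _ * _ = _
      ring
  have htL0 : algebraMap F L S.t ≠ 0 := (map_ne_zero _).2 ht0
  have hθ0 : θ ≠ 0 := by
    rw [hθ]
    exact neg_ne_zero.2 (pow_ne_zero _ (inv_ne_zero htL0))
  have hEB' : (S.withT h0 (S.t)⁻¹ ht').EB D δ x ≤
      Submodule.span L (Set.range ((S.withT h0 (S.t)⁻¹ ht').ucol D δ x c)) := by
    rw [withT_EB S h0 ht']
    refine (Submodule.map_mono hEB).trans ?_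
    rw [Submodule.map_span, ← Set.range_comp]
    apply le_of_eq
    congr 2
    funext b
    exact (withT_ucol S h0 ht' D δ x c b).symm
  obtain ⟨σ0, hσ0⟩ := exists_mins hu
  have hw : ∃ σ, κ * mins u σ ≠ 0 := ⟨σ0, mul_ne_zero hκ0 hσ0⟩
  have hgs := ght_smul (k := k) hκ0 (w := mins u) ⟨σ0, hσ0⟩
  rw [← hgs, ← hmtS]
  have hsumt : Hyp.hsum k ({C S.t} : Finset (MvPolynomial (Fin (n + 1)) F)) = hgt k S.t := by
    unfold Hyp.hsum
    rw [Finset.sum_singleton]
    have h1 : (C S.t : MvPolynomial (Fin (n + 1)) F).support = {0} := by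
      rw [MvPolynomial.support_C, if_neg ht0]
    rw [h1, Finset.sum_singleton, MvPolynomial.coeff_zero_C]
  have hlosst : ∀ P : Place k L, Sys.loss ({C S.t} : Finset (MvPolynomial (Fin (n + 1)) F)) P =
      max (-P.ord (algebraMap F L S.t)) 0 := by
    intro P
    unfold Sys.loss
    rw [Finset.sum_singleton]
    have h1 : (C S.t : MvPolynomial (Fin (n + 1)) F).support = {0} := by
      rw [MvPolynomial.support_C, if_neg ht0]
    rw [h1, Finset.sum_singleton, MvPolynomial.coeff_zero_C]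
  rw [← hsumt]
  refine ((Hyp.empty S).assembleV hx hD hw {C S.t} (N + ∑ a, (S.cost (c a) : ℤ)) 2
    fun P => ?_).imp id fun hfinal => ?_
  · obtain ⟨σ, hσn, hσ⟩ := exists_gord P (w := fun σ => κ * mins u σ) hw
    rw [← hσ, hlosst]
    have h2 : ∑ a, (Hyp.empty S).hc P x (T' σ a) = 0 := by
      refine Finset.sum_eq_zero fun a _ => ?_
      rw [hT'd]
      rfl
    have h3 : (if P ∈ (Hyp.empty S).mt k x then (1 : ℤ) else 0) =
        (open Classical in if P ∈ (Hyp.empty S).mt k x then 1 else 0) := by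
      congr
    by_cases hP : 0 ≤ P.ord (algebraMap F L S.t)
    · have h1 := (Hyp.empty S).local_H (mem_PPof1 S) (mem_PPof2 S) (mem_PPof3 S)
        (fun j => j.elim0) hj0 hD0 hδ hBC hEB (N := N) (T' σ) hcard
        (hT' σ) (fun a j => j.elim0) (hdet σ).symm hσn P
      rw [h2, loss_const S hc P hP] at h1
      rw [max_eq_right (by omega)]
      linarith
    · push Not at hP
      have h1 : ((N : ℤ) + ∑ a, ((S.withT h0 (S.t)⁻¹ ht').cost (c a) : ℤ) -
            ∑ i ∈ S.Zs x, (S.d i : ℤ)) * pord P x + vo P D +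
          ∑ i ∈ Finset.univ \ S.Zs x, (P.ord (aeval x (S.f i)) - S.d i * pord P x) +
          ∑ a, (Hyp.empty (S.withT h0 (S.t)⁻¹ ht')).hc P x (T' σ a) -
          (open Classical in if P ∈ (Hyp.empty S).mt k x then 1 else 0) -
          (3 * (N + 1) + q) * Sys.loss (Hyp.empty (S.withT h0 (S.t)⁻¹ ht')).PPof P ≤
          P.ord (θ * (κ * mins u σ)) := (Hyp.empty (S.withT h0 (S.t)⁻¹ ht')).local_H
        (mem_PPof1 (S.withT h0 (S.t)⁻¹ ht')) (mem_PPof2 (S.withT h0 (S.t)⁻¹ ht'))
        (mem_PPof3 (S.withT h0 (S.t)⁻¹ ht'))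
        (fun j => j.elim0) hj0 hD0 hδ hBC hEB' (N := N) (T' σ) hcard
        (hT' σ) (fun a j => j.elim0) (hdet' σ).symm (mul_ne_zero hθ0 hσn) P
      have h4 : ∑ a, (Hyp.empty (S.withT h0 (S.t)⁻¹ ht')).hc P x (T' σ a) = 0 := by
        refine Finset.sum_eq_zero fun a _ => ?_
        rw [hT'd]
        rfl
      have h5 := loss_const (S.withT h0 (S.t)⁻¹ ht') hc P (by
        change 0 ≤ P.ord (algebraMap F L (S.t)⁻¹)
        rw [map_inv₀, P.ord_inv]
        omega)
      rw [h4, h5, P.ord_mul hθ0 hσn] at h1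
      have h6 : P.ord θ = -2 * P.ord (algebraMap F L S.t) := by
        rw [hθ, P.ord_neg, pow_two, P.ord_mul (inv_ne_zero htL0) (inv_ne_zero htL0), P.ord_inv]
        ring
      rw [h6] at h1
      rw [max_eq_left (by omega)]
      have h8 : ∑ a, ((S.withT h0 (S.t)⁻¹ ht').cost (c a) : ℤ) =
          ∑ a, (S.cost (c a) : ℤ) := by
        refine Finset.sum_congr rfl fun a _ => ?_
        rcases c a with ⟨a, b⟩ | ⟨i, β, a, b⟩ | i <;> rfl
      rw [h8] at h1
      linarith
  · have hpos : 0 ≤ pht k x := pht_nonneg hx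
    have hcost : (N : ℤ) + ∑ a, (S.cost (c a) : ℤ) ≤ 2 * N - 1 - (S.Zs x).card := by
      have h1 : ∑ a, S.cost (c a) ≤ ∑ _a : Fin rc, 1 :=
        Finset.sum_le_sum fun a _ => S.cost_le (c a)
      rw [Finset.sum_const, Finset.card_univ, Fintype.card_fin, smul_eq_mul, mul_one] at h1
      have h2 : ((∑ a, S.cost (c a) : ℕ) : ℤ) ≤ ((rc : ℕ) : ℤ) := by exact_mod_cast h1
      push_cast at h2
      omega
    have hmul := mul_le_mul_of_nonneg_right hcost hpos
    nlinarith [hfinal, hmul]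

end Pool.Agent.TH875.Vg
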