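import Pool.Agent.TH875.Vg.MainC
import Pool.Agent.TH875.Vg.LocE

/-! The inequality for constant forms, in the best form. -/

set_option autoImplicit false

open FF MvPolynomial
open Pool.Agent.W603.LV Pool.Agent.W603.PV

namespace Pool.Agent.TH875.Vg

open Matrix Module Sys

variable {k L : Type} [Field k] [Field L] [Algebra k L] {n q : ℕ} (S : Sys k L n q)

/-- forgetting the first entry -/
def prj : (O n → L) →ₗ[L] (Fin (n + 1) → L) := LinearMap.funLeft L L some

omit [Algebra k L] [Field k] in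
theorem prj_apply (v : O n → L) (j : Fin (n + 1)) : prj v j = v (some j) := rfl

/-- If the variable is a ratio of coordinates, the first entry is determined by the others. -/
theorem none_of_prj {x : Fin (n + 1) → L} {a b : Fin (n + 1)} (ht : S.t = x a / x b)
    (hb : x b ≠ 0) {v : O n → L} (hv : v ∈ S.V x) :
    v none = (x b)⁻¹ ^ 2 * (x b * v (some a) - x a * v (some b)) := by
  have key : ∀ δ : Derivation ℤ L L, S.vec δ x none =
      (x b)⁻¹ ^ 2 * (x b * S.vec δ x (some a) - x a * S.vec δ x (some b)) := by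
    intro δ
    change δ (algebraMap L L S.t) = _ * (x b * δ (x a) - x a * δ (x b))
    rw [Algebra.algebraMap_self_apply, ht, δ.leibniz_div]
    simp only [smul_eq_mul]
  unfold Sys.V at hv
  induction hv using Submodule.span_induction with
  | mem v hv =>
    rcases hv with hv | ⟨D, rfl⟩ | ⟨p, δ, hδ, rfl⟩
    · rw [Set.mem_singleton_iff] at hv
      rw [hv]
      simp only [Sys.ext0, Option.elim]
      ring
    · exact key _
    · exact key _
  | zero => simp
  | add v w _ _ hv hw =>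
    rw [Pi.add_apply, Pi.add_apply, Pi.add_apply, hv, hw]
    ring
  | smul c v _ hv =>
    rw [Pi.smul_apply, Pi.smul_apply, Pi.smul_apply, hv, smul_eq_mul, smul_eq_mul, smul_eq_mul]
    ring

theorem prj_inj {x : Fin (n + 1) → L} {a b : Fin (n + 1)} (ht : S.t = x a / x b)
    (hb : x b ≠ 0) {v : O n → L} (hv : v ∈ S.V x) (h : prj v = 0) : v = 0 := by
  have h1 : ∀ j, v (some j) = 0 := fun j => congrFun h j
  funext o
  rcases o with _ | j
  · rw [none_of_prj S ht hb hv, h1, h1]
    simp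
  · exact h1 j

variable [CharZero k] [IsAlgClosed k] [IsFF k L]

/-- The inequality for forms with constant coefficients. -/
theorem main_E (h0 : ∀ i, S.ft i = 0)
    (hc : ∀ i α, ∃ c : k, (S.f i).coeff α = algebraMap k L c)
    (x : Fin (n + 1) → L) {xa xb : Fin (n + 1)} (hxb : x xb ≠ 0) (ht : S.t = x xa / x xb)
    {M : ℕ} {u : Fin M → Fin (n + 1) → L}
    (hu : LinearIndependent L u)
    (huV : Submodule.span L (Set.range u) = (S.V x).map prj) :
    (S.mt k x).Finite ∧
    (∑ i, (S.d i : ℤ) - 2 * M + 2 + (S.Zs x).card) * pht k x + ght k (mins u) ≤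
      canDeg k L + (S.mt k x).ncard := by
  classical
  have hx : ∃ j, x j ≠ 0 := ⟨xb, hxb⟩
  have ht0 : S.t ≠ 0 := by
    intro h
    exact S.tr (by rw [h]; exact isAlgebraic_zero)
  have ht' : Transcendental k (S.t)⁻¹ := fun h => S.tr (by simpa using h.inv)
  have hmtS := empty_mt S (k := k) (L := L) x
  have hD0 : der k L ≠ 0 := der_ne
  obtain ⟨D, hD⟩ : ∃ D, D = der k L := ⟨_, rfl⟩
  rw [← hD] at hD0
  have hDt := der_ne_zero hD0 S.tr
  choose δ hδ using fun p => S.exists_lifts (L := L) p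
  obtain ⟨rc, c, hBC, hli, hEB⟩ := S.exists_colsB (L := L) hDt δ hx
  obtain ⟨j0, hj0⟩ := id hx
  have hfin := S.finrank_V hD0 hδ hj0 hBC hli hEB
  have hVM : finrank L (S.V x) = M := by
    have h1 := finrank_span_eq_card hu
    rw [huV, Fintype.card_fin] at h1
    rw [← h1]
    have hinj : Function.Injective ((prj (L := L) (n := n)).domRestrict (S.V x)) := by
      rw [← LinearMap.ker_eq_bot, LinearMap.ker_eq_bot']
      intro v hv
      exact Subtype.ext (prj_inj S ht hxb v.2 hv)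
    have h2 := LinearMap.finrank_range_of_inj hinj
    rw [LinearMap.range_domRestrict] at h2
    exact h2.symm
  have hcard : (S.Zs x).card + (2 + rc) = M := hfin.symm.trans hVM
  obtain ⟨N, rfl⟩ : ∃ N, M = N + 1 := ⟨M - 1, by omega⟩
  obtain ⟨eqv⟩ : Nonempty ((S.Zs x) ⊕ (Fin 2 ⊕ Fin rc) ≃ Fin (N + 1)) := by
    refine ⟨Fintype.equivOfCardEq ?_⟩
    rw [Fintype.card_sum, Fintype.card_sum, Fintype.card_fin, Fintype.card_fin, Fintype.card_coe,
      Fintype.card_fin]
    omega
  -- the rows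
  obtain ⟨T', hT'd⟩ : ∃ T' : (Fin (N + 1) → Fin (n + 1)) →
      (S.Zs x) ⊕ (Fin 2 ⊕ Fin rc) → O n ⊕ Fin 0,
      T' = fun σ a => Sum.inl (some (σ (eqv a))) := ⟨_, rfl⟩
  have hT' : ∀ σ, ∀ τ : L, ∏ a, (Hyp.Sx τ : O n ⊕ Fin 0 → L) (T' σ a) = τ ^ (N + 1) := by
    intro σ τ
    rw [hT'd]
    simp only [Hyp.Sx, Sys.Sd, Sum.elim_inl, Option.elim, Finset.prod_const, Finset.card_univ]
    rw [Fintype.card_congr eqv, Fintype.card_fin]
  -- the bases
  obtain ⟨ba, hba⟩ : ∃ ba : (S.Zs x) ⊕ (Fin 2 ⊕ Fin rc) → O n → L,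
      ba = S.bas (S.Zs x) D δ x j0 c := ⟨_, rfl⟩
  have hbas : LinearIndependent L ba := by
    rw [hba]
    exact S.bas_li hδ (fun i hi => (S.mem_Zs x i).1 hi) hj0 hli
  have hbV : ∀ b, ba b ∈ S.V x := fun b => by
    rw [hba]; exact S.bas_mem _ D hδ x j0 hBC b
  have hbas2 : LinearIndependent L (fun b => prj (ba b)) := by
    have h1 : LinearIndependent L (fun b => (⟨ba b, hbV b⟩ : S.V x)) :=
      LinearIndependent.of_comp (S.V x).subtype hbas
    exact h1.map' ((prj (L := L) (n := n)).domRestrict (S.V x)) (by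
      rw [LinearMap.ker_eq_bot']
      intro v hv
      exact Subtype.ext (prj_inj S ht hxb v.2 hv))
  have hG : ∀ b, ∃ G : Fin (N + 1) → L, ∑ i, G i • u i = prj (ba b) := by
    intro b
    have h1 : prj (ba b) ∈ Submodule.span L (Set.range u) := by
      rw [huV]
      exact Submodule.mem_map_of_mem (hbV b)
    exact (Submodule.mem_span_range_iff_exists_fun L).1 h1
  choose G hG using hG
  obtain ⟨κ, hκ⟩ : ∃ κ, κ = (Matrix.of fun i j => G (eqv.symm j) i).det := ⟨_, rfl⟩
  have hκ0 : κ ≠ 0 := by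
    have h1 : LinearIndependent L (fun j => G (eqv.symm j)) := by
      apply LinearIndependent.of_comp (Fintype.linearCombination L u)
      have h2 : (Fintype.linearCombination L u) ∘ (fun j => G (eqv.symm j)) =
          (fun b => prj (ba b)) ∘ eqv.symm := by
        funext j
        rw [Function.comp_apply, Fintype.linearCombination_apply, hG]
        rfl
      rw [h2]
      exact hbas2.comp _ eqv.symm.injective
    have h3 := (Matrix.linearIndependent_rows_iff_isUnit
      (A := (Matrix.of fun i j => G (eqv.symm j) i)ᵀ)).1 h1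
    rw [Matrix.isUnit_iff_isUnit_det, Matrix.det_transpose] at h3
    rw [hκ]
    exact isUnit_iff_ne_zero.1 h3
  have hdet0 : ∀ σ : Fin (N + 1) → Fin (n + 1),
      (Matrix.of fun a b => ba b (some (σ (eqv a)))).det = κ * mins u σ := by
    intro σ
    have h1 : (Matrix.of fun a b => ba b (some (σ (eqv a)))) =
        ((Matrix.of fun i a => u i (σ a))ᵀ *
          (Matrix.of fun i j => G (eqv.symm j) i)).submatrix eqv eqv := by
      ext a b
      rw [Matrix.submatrix_apply, Matrix.mul_apply, Matrix.of_apply]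
      have h2 := congrFun (hG b) (σ (eqv a))
      rw [prj_apply, Finset.sum_apply] at h2
      rw [← h2]
      refine Finset.sum_congr rfl fun i _ => ?_
      rw [Pi.smul_apply, smul_eq_mul, Matrix.transpose_apply, Matrix.of_apply, Matrix.of_apply,
        Equiv.symm_apply_apply]
      ring
    rw [h1, Matrix.det_submatrix_equiv_self, Matrix.det_mul, Matrix.det_transpose, hκ]
    unfold mins
    ring
  have hdet : ∀ σ, (Matrix.of fun a b => (Hyp.empty S).ev x
      (S.bas (S.Zs x) D δ x j0 c b) (T' σ a)).det = κ * mins u σ := by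
    intro σ
    rw [← hdet0 σ, hT'd, hba]
    rfl
  have hdet' : ∀ σ, (Matrix.of fun a b => (Hyp.empty (S.withT h0 (S.t)⁻¹ ht')).ev x
      ((S.withT h0 (S.t)⁻¹ ht').bas (S.Zs x) D δ x j0 c b) (T' σ a)).det =
      κ * mins u σ := by
    intro σ
    rw [← hdet0 σ, hT'd]
    congr 1
    ext a b
    simp only [Matrix.of_apply]
    rw [Hyp.ev_inl, withT_bas S h0 ht', hba, scl_some]
  have hEB' : (S.withT h0 (S.t)⁻¹ ht').EB D δ x ≤
      Submodule.span L (Set.range ((S.withT h0 (S.t)⁻¹ ht').ucol D δ x c)) := by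
    rw [withT_EB S h0 ht']
    refine (Submodule.map_mono hEB).trans ?_
    rw [Submodule.map_span, ← Set.range_comp]
    apply le_of_eq
    congr 2
    funext b
    exact (withT_ucol S h0 ht' D δ x c b).symm
  obtain ⟨σ0, hσ0⟩ := exists_mins hu
  have hw : ∃ σ, κ * mins u σ ≠ 0 := ⟨σ0, mul_ne_zero hκ0 hσ0⟩
  have hgs := ght_smul (k := k) hκ0 (w := mins u) ⟨σ0, hσ0⟩
  rw [← hgs, ← hmtS]
  refine ((Hyp.empty S).assembleV hx hD hw ∅ ((N + 1 : ℕ) + ∑ a, (S.cost (c a) : ℤ)) 0
    fun P => ?_).imp id fun hfinal => ?_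
  · obtain ⟨σ, hσn, hσ⟩ := exists_gord P (w := fun σ => κ * mins u σ) hw
    rw [← hσ]
    by_cases hP : 0 ≤ P.ord S.t
    · have h1 := (Hyp.empty S).local_HE (mem_PPof1 S) (mem_PPof2 S) (mem_PPof3 S)
        (fun j => j.elim0) hj0 hD0 hδ hBC hEB (N := N) (T' σ) hcard
        (hT' σ) (fun a j => j.elim0) (hdet σ).symm hσn P
      have h2 : ∑ a, (Hyp.empty S).hc P x (T' σ a) = 0 := by
        refine Finset.sum_eq_zero fun a _ => ?_
        rw [hT'd]
        rfl
      rw [h2, loss_const S hc P hP] at h1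
      have h3 : (if P ∈ (Hyp.empty S).mt k x then (1 : ℤ) else 0) =
        (open Classical in if P ∈ (Hyp.empty S).mt k x then 1 else 0) := by
        congr
      linarith
    · push Not at hP
      have h1 : (((N + 1 : ℕ) : ℤ) + ∑ a, ((S.withT h0 (S.t)⁻¹ ht').cost (c a) : ℤ) -
            ∑ i ∈ S.Zs x, (S.d i : ℤ)) * pord P x + vo P D +
          ∑ i ∈ Finset.univ \ S.Zs x, (P.ord (aeval x (S.f i)) - S.d i * pord P x) +
          ∑ a, (Hyp.empty (S.withT h0 (S.t)⁻¹ ht')).hc P x (T' σ a) -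
          (open Classical in if P ∈ (Hyp.empty S).mt k x then 1 else 0) -
          (3 * (N + 1) + q) * Sys.loss (Hyp.empty (S.withT h0 (S.t)⁻¹ ht')).PPof P ≤
          P.ord (κ * mins u σ) := (Hyp.empty (S.withT h0 (S.t)⁻¹ ht')).local_HE
        (mem_PPof1 (S.withT h0 (S.t)⁻¹ ht')) (mem_PPof2 (S.withT h0 (S.t)⁻¹ ht'))
        (mem_PPof3 (S.withT h0 (S.t)⁻¹ ht'))
        (fun j => j.elim0) hj0 hD0 hδ hBC hEB' (N := N) (T' σ) hcard
        (hT' σ) (fun a j => j.elim0) (hdet' σ).symm hσn P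
      have h4 : ∑ a, (Hyp.empty (S.withT h0 (S.t)⁻¹ ht')).hc P x (T' σ a) = 0 := by
        refine Finset.sum_eq_zero fun a _ => ?_
        rw [hT'd]
        rfl
      have h5 := loss_const (S.withT h0 (S.t)⁻¹ ht') hc P (by
        change 0 ≤ P.ord (S.t)⁻¹
        rw [P.ord_inv]
        omega)
      rw [h4, h5] at h1
      have h8 : ∑ a, ((S.withT h0 (S.t)⁻¹ ht').cost (c a) : ℤ) =
          ∑ a, (S.cost (c a) : ℤ) := by
        refine Finset.sum_congr rfl fun a _ => ?_
        rcases c a with ⟨a, b⟩ | ⟨i, β, a, b⟩ | i <;> rfl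
      rw [h8] at h1
      linarith
  · have hpos : 0 ≤ pht k x := pht_nonneg hx
    have hcost : ((N + 1 : ℕ) : ℤ) + ∑ a, (S.cost (c a) : ℤ) ≤
        2 * (N + 1 : ℕ) - 2 - (S.Zs x).card := by
      have h1 : ∑ a, S.cost (c a) ≤ ∑ _a : Fin rc, 1 :=
        Finset.sum_le_sum fun a _ => S.cost_le (c a)
      rw [Finset.sum_const, Finset.card_univ, Fintype.card_fin, smul_eq_mul, mul_one] at h1
      have h2 : ((∑ a, S.cost (c a) : ℕ) : ℤ) ≤ ((rc : ℕ) : ℤ) := by exact_mod_cast h1
      push_cast at h2 ⊢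
      omega
    have hmul := mul_le_mul_of_nonneg_right hcost hpos
    have hfin2 : (Module.finrank L L : ℤ) = 1 := by rw [Module.finrank_self]; rfl
    rw [hfin2] at hfinal
    nlinarith [hfinal, hmul]

end Pool.Agent.TH875.Vg
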