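import Pool.Agent.TH875.Vg.MainH

/-! The height inequality with one more hyperplane. -/

set_option autoImplicit false

open FF MvPolynomial
open Pool.Agent.W603.LV Pool.Agent.W603.PV

namespace Pool.Agent.TH875.Vg.Hyp

open Matrix Module Sys

variable {k F : Type} [Field k] [Field F] [Algebra k F] {n q : ℕ} {S : Sys k F n q} {b : ℕ}
  (H : Hyp S b)

variable [CharZero k] [IsAlgClosed k] [IsFF k F]

/-- From the local inequalities to the global one. -/
theorem assemble {L : Type} [Field L] [Algebra k L] [Algebra F L]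
    [IsScalarTower k F L] [FiniteDimensional F L] {x : Fin (n + 1) → L} (hx : ∃ j, x j ≠ 0)
    {D : Derivation k L L} (hDd : D = der k L) {W : L} (PP : Finset (MvPolynomial (Fin (n + 1)) F))
    (J : Finset (Fin b)) (N K : ℤ)
    (hloc : ∀ P : Place k L, (N - ∑ i ∈ S.Zs x, (S.d i : ℤ)) * pord P x + vo P D +
      ∑ i ∈ Finset.univ \ S.Zs x, (P.ord (aeval x (S.f i)) - S.d i * pord P x) +
      ∑ j ∈ J, (P.ord (H.ell x j) - pord P x) -
      (open Classical in if P ∈ H.mt k x then 1 else 0) - K * loss PP P ≤ P.ord W) :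
    (H.mt k x).Finite ∧
    (∑ i, (S.d i : ℤ) - N + J.card) * pht k x ≤
      canDeg k L + (H.mt k x).ncard + (K * hsum k PP) * Module.finrank F L := by
  classical
  have hL : IsFF k L := isFF_of_finite (F := F)
  have hD0 : der k L ≠ 0 := der_ne
  rw [← hDd] at hD0
  -- a large finite set of places
  obtain ⟨T1, hT1⟩ := exists_supp (k := k) (Finset.univ : Finset (Fin q))
    (fun i => aeval x (S.f i))
  obtain ⟨T2, hT2⟩ := exists_supp (k := k) (Finset.univ : Finset (Fin (n + 1))) x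
  obtain ⟨T3, hT3⟩ := exists_supp (k := k) (Finset.univ : Finset (Fin 1)) ![W]
  obtain ⟨T4, hT4⟩ := exists_supp (k := k)
    (PP.biUnion fun g => g.support.image fun α => g.coeff α) (fun a => algebraMap F L a)
  obtain ⟨T5, hT5⟩ := exists_supp (k := k) (Finset.univ : Finset (Fin b)) (fun j => H.ell x j)
  obtain ⟨T, hTd⟩ : ∃ T, T = T1 ∪ T2 ∪ T3 ∪ T4 ∪ T5 ∪ (vo_finite hD0).toFinset := ⟨_, rfl⟩
  have hTf : ∀ i, ∀ P : Place k L, P.ord (aeval x (S.f i)) ≠ 0 → P ∈ T := by
    intro i P hP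
    have := hT1 i (Finset.mem_univ _) P hP
    simp [hTd, this]
  have hTx : ∀ j, ∀ P : Place k L, P.ord (x j) ≠ 0 → P ∈ T := by
    intro i P hP
    have := hT2 i (Finset.mem_univ _) P hP
    simp [hTd, this]
  have hTW : ∀ P : Place k L, P.ord W ≠ 0 → P ∈ T := by
    intro P hP
    have := hT3 0 (Finset.mem_univ _) P hP
    simp [hTd, this]
  have hTc : ∀ g ∈ PP, ∀ α ∈ g.support, ∀ P : Place k L,
      P.ord (algebraMap F L (g.coeff α)) ≠ 0 → P ∈ T := by
    intro g hg α hα P hP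
    have := hT4 (g.coeff α) (Finset.mem_biUnion.2 ⟨g, hg, Finset.mem_image_of_mem _ hα⟩) P hP
    simp [hTd, this]
  have hTl : ∀ j, ∀ P : Place k L, P.ord (H.ell x j) ≠ 0 → P ∈ T := by
    intro j P hP
    have := hT5 j (Finset.mem_univ _) P hP
    simp [hTd, this]
  have hTv : ∀ P : Place k L, vo P D ≠ 0 → P ∈ T := by
    intro P hP
    simp [hTd, hP]
  have hmtT : H.mt k x ⊆ (T : Set (Place k L)) := by
    rintro P (⟨i, _, hi⟩ | ⟨j, _, hj⟩)
    · by_contra hcon
      rw [pord_eq_zero P hx (fun j => by by_contra h; exact hcon (hTx j P h)), mul_zero] at hi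
      exact hcon (hTf i P hi.ne')
    · by_contra hcon
      rw [pord_eq_zero P hx (fun j => by by_contra h; exact hcon (hTx j P h))] at hj
      exact hcon (hTl j P hj.ne')
  have hmtfin : (H.mt k x).Finite := (Finset.finite_toSet T).subset hmtT
  refine ⟨hmtfin, ?_⟩
  -- the sum
  have hsum := Finset.sum_le_sum fun P (_ : P ∈ T) => hloc P
  rw [sum_ord_finset W T hTW] at hsum
  have hpht := pht_finset hx T hTx
  have hvo : ∑ P ∈ T, vo P D = -canDeg k L := by
    have h1 := canDeg_finset (D := D) hD0 T hTv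
    rw [← h1]
  have hmt : ∑ P ∈ T, (if P ∈ H.mt k x then (1 : ℤ) else 0) = (H.mt k x).ncard := by
    rw [← Finset.sum_filter, Finset.sum_const, nsmul_eq_mul, mul_one]
    congr 1
    rw [Set.ncard_eq_toFinset_card _ hmtfin]
    congr 1
    ext P
    rw [Finset.mem_filter, Set.Finite.mem_toFinset]
    exact ⟨fun h => h.2, fun h => ⟨hmtT h, h⟩⟩
  have hloss : ∑ P ∈ T, loss PP P = Module.finrank F L * Hyp.hsum k PP := by
    unfold loss Hyp.hsum
    rw [Finset.sum_comm, Finset.mul_sum]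
    refine Finset.sum_congr rfl fun g hg => ?_
    rw [Finset.sum_comm, Finset.mul_sum]
    refine Finset.sum_congr rfl fun α hα => ?_
    rw [← hgt_algebraMap (L := L) (g.coeff α), hgt_finset _ T (hTc g hg α hα)]
  have hhyp : ∑ P ∈ T, ∑ j ∈ J, (P.ord (H.ell x j) - pord P x) = J.card * pht k x := by
    rw [Finset.sum_comm]
    rw [Finset.sum_congr rfl fun a _ => by
      rw [Finset.sum_sub_distrib, sum_ord_finset _ T (hTl a)]]
    rw [Finset.sum_const, nsmul_eq_mul, hpht]
    ring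
  have hfsum : ∑ P ∈ T, ∑ i ∈ Finset.univ \ S.Zs x,
      (P.ord (aeval x (S.f i)) - S.d i * pord P x) =
      (∑ i ∈ Finset.univ \ S.Zs x, (S.d i : ℤ)) * pht k x := by
    rw [Finset.sum_comm, Finset.sum_mul]
    refine Finset.sum_congr rfl fun i _ => ?_
    rw [Finset.sum_sub_distrib, sum_ord_finset _ T (hTf i), ← Finset.mul_sum, hpht]
    ring
  rw [Finset.sum_sub_distrib, Finset.sum_sub_distrib, Finset.sum_add_distrib,
    Finset.sum_add_distrib, Finset.sum_add_distrib, ← Finset.mul_sum, ← Finset.mul_sum, hvo, hfsum,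
    hmt, hloss, hhyp] at hsum
  have hpo : ∑ P ∈ T, pord P x = - pht k x := by rw [hpht]; ring
  rw [hpo] at hsum
  have hdsum : ∑ i ∈ Finset.univ \ S.Zs x, (S.d i : ℤ) =
      ∑ i, (S.d i : ℤ) - ∑ i ∈ S.Zs x, (S.d i : ℤ) := by
    rw [← Finset.sum_sdiff (Finset.subset_univ (S.Zs x))]
    ring
  rw [hdsum] at hsum
  linarith

/-- the relation between the determinants -/
theorem det_rel {A R : Type} [Fintype A] [DecidableEq A] [DecidableEq R] {L : Type} [Field L]
    (ρ : R → (A → L)) (T0 : A → R) (hT0 : Function.Injective T0) {j j0 : R} (hjj : j ≠ j0)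
    (hj : ∃ a, T0 a = j) (hj0 : ∀ a, T0 a ≠ j0) {Rs : Finset R} (hjR : j ∈ Rs) (hj0R : j0 ∈ Rs)
    {c : R → L} (hrel : ∑ i ∈ Rs, c i • ρ i = 0)
    (hRs : ∀ i ∈ Rs, i ≠ j → i ≠ j0 → (∃ a, T0 a = i) ∨ ρ i = 0) :
    c j * (Matrix.of fun a => ρ (T0 a)).det +
      c j0 * (Matrix.of fun a => ρ (Equiv.swap j j0 (T0 a))).det = 0 := by
  obtain ⟨a1, ha1⟩ := hj
  obtain ⟨φ, hφ⟩ : ∃ φ : (A → L) →ₗ[L] L, φ =
      (Matrix.detRowAlternating (R := L) (n := A)).toMultilinearMap.toLinearMap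
        (fun a => ρ (T0 a)) a1 := ⟨_, rfl⟩
  have hφv : ∀ v, φ v = Matrix.detRowAlternating (Function.update (fun a => ρ (T0 a)) a1 v) := by
    intro v
    rw [hφ]
    rfl
  have h1 : φ (ρ j) = (Matrix.of fun a => ρ (T0 a)).det := by
    rw [hφv]
    change Matrix.det _ = _
    congr 1
    funext a
    by_cases ha : a = a1
    · rw [ha, Function.update_self, ← ha1]
      rfl
    · rw [Function.update_of_ne ha]
      rfl
  have h2 : φ (ρ j0) = (Matrix.of fun a => ρ (Equiv.swap j j0 (T0 a))).det := by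
    rw [hφv]
    change Matrix.det _ = _
    congr 1
    funext a
    by_cases ha : a = a1
    · rw [ha, Function.update_self]
      change ρ j0 = ρ (Equiv.swap j j0 (T0 a1))
      rw [ha1, Equiv.swap_apply_left]
    · rw [Function.update_of_ne ha]
      change ρ (T0 a) = ρ (Equiv.swap j j0 (T0 a))
      rw [Equiv.swap_apply_of_ne_of_ne (fun h => ha (hT0 (h.trans ha1.symm))) (hj0 a)]
  have h3 : ∀ i ∈ Rs, i ≠ j → i ≠ j0 → φ (ρ i) = 0 := by
    intro i hi hij hij0
    rcases hRs i hi hij hij0 with ⟨a, ha⟩ | h0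
    · rw [hφv]
      have hne : a ≠ a1 := by
        intro h
        rw [h, ha1] at ha
        exact hij ha.symm
      refine AlternatingMap.map_eq_zero_of_eq _ _ (i := a1) (j := a) ?_ hne.symm
      rw [Function.update_self, Function.update_of_ne hne, ha]
    · rw [h0, map_zero]
  have h4 := congrArg φ hrel
  rw [map_sum, map_zero, Finset.sum_eq_add_of_mem j j0 hjR hj0R hjj] at h4
  · rw [map_smul, map_smul, smul_eq_mul, smul_eq_mul, h1, h2] at h4
    exact h4
  · rintro i hi ⟨h5, h6⟩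
    rw [map_smul, h3 i hi h5 h6, smul_zero]

end Pool.Agent.TH875.Vg.Hyp
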