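import Pool.Agent.TH875.Vg.LocI
import Pool.Agent.TH875.Vg.Main

/-! The height inequality with hyperplanes. -/

set_option autoImplicit false

open FF MvPolynomial
open Pool.Agent.W603.LV Pool.Agent.W603.PV

namespace Pool.Agent.TH875.Vg.Hyp

open Matrix Module Sys

variable {k F : Type} [Field k] [Field F] [Algebra k F] {n q : ℕ} {S : Sys k F n q} {b : ℕ}
  (H : Hyp S b)

open Classical in
/-- the polynomials that occur -/
noncomputable def PPof : Finset (MvPolynomial (Fin (n + 1)) F) :=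
  (Finset.univ.image S.f ∪
    Finset.univ.image (fun w : Fin q × Fin (n + 1) × Fin (n + 1) =>
      X w.2.1 * pderiv w.2.2 (S.f w.1))) ∪
  ({C S.t} ∪ Finset.univ.image (fun w : Fin b × Fin (n + 1) => C (H.lam w.1 w.2)))

/-- the sum of the heights of the coefficients -/
noncomputable def hsum (k : Type) [Field k] [Algebra k F] {n : ℕ}
    (PP : Finset (MvPolynomial (Fin (n + 1)) F)) : ℤ :=
  ∑ g ∈ PP, ∑ α ∈ g.support, hgt k (g.coeff α)

variable [CharZero k] [IsAlgClosed k] [IsFF k F]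

/-- The height inequality for all algebraic points. -/
theorem main_H {L : Type} [Field L] [Algebra k L] [Algebra F L]
    [IsScalarTower k F L] [FiniteDimensional F L] (x : Fin (n + 1) → L) (hx : ∃ j, x j ≠ 0)
    {m c' : ℕ} (hVm : finrank L (S.V x) ≤ m + 2)
    (hc' : ∀ K' : Submodule L (O n → L),
      (∀ v ∈ K', v ∈ S.V x ∧ v none = 0 ∧ ∀ j, H.dell x j v = 0) → finrank L K' ≤ c') :
    (H.mt k x).Finite ∧
    (∑ i, (S.d i : ℤ) - c' - m + (S.Zs x).card) * pht k x ≤
      canDeg k L + (H.mt k x).ncard +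
        ((3 * (n + 2) + q) * hsum k H.PPof) * Module.finrank F L := by
  classical
  have hL : IsFF k L := isFF_of_finite (F := F)
  obtain ⟨PP, hPPd⟩ : ∃ PP, PP = H.PPof := ⟨_, rfl⟩
  have hPP1 : ∀ i, S.f i ∈ PP := by
    intro i
    rw [hPPd]
    exact Finset.mem_union_left _ (Finset.mem_union_left _
      (Finset.mem_image_of_mem S.f (Finset.mem_univ i)))
  have hPP2 : ∀ i b c, X b * pderiv c (S.f i) ∈ PP := by
    intro i b' c
    rw [hPPd]
    refine Finset.mem_union_left _ (Finset.mem_union_right _ ?_)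
    rw [Finset.mem_image]
    exact ⟨(i, b', c), Finset.mem_univ _, rfl⟩
  have hPP3 : C S.t ∈ PP := by
    rw [hPPd]
    exact Finset.mem_union_right _ (Finset.mem_union_left _ (Finset.mem_singleton_self _))
  have hPP4 : ∀ j e, C (H.lam j e) ∈ PP := by
    intro j e
    rw [hPPd]
    refine Finset.mem_union_right _ (Finset.mem_union_right _ ?_)
    rw [Finset.mem_image]
    exact ⟨(j, e), Finset.mem_univ _, rfl⟩
  rw [← hPPd]
  have hD0 : der k L ≠ 0 := der_ne
  set D := der k L with hD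
  have htL : Transcendental k (algebraMap F L S.t) :=
    (transcendental_algebraMap_iff (algebraMap F L).injective).2 S.tr
  have hDt := der_ne_zero hD0 htL
  choose δ hδ using fun p => S.exists_lifts (L := L) p
  obtain ⟨rc, c, hBC, hli, hEB⟩ := S.exists_colsB hDt δ hx
  obtain ⟨j0, hj0⟩ := id hx
  have hfin := S.finrank_V hD0 hδ hj0 hBC hli hEB
  obtain ⟨r, s, α, β, hrs, hsc, hTinj, hTne0⟩ := exists_TJ (S.V x) (H.dell x)
    ⟨S.vec (toZ D) x, S.vecD_mem D x, hDt⟩ hc'
  have hVn : finrank L (S.V x) ≤ n + 2 := by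
    have h1 := Submodule.finrank_le (S.V x)
    rw [Module.finrank_fintype_fun_eq_card, Fintype.card_option, Fintype.card_fin] at h1
    exact h1
  have hcard : (S.Zs x).card + (2 + rc) = (r + s) + 1 := (hrs.trans hfin).symm
  obtain ⟨eqv⟩ : Nonempty ((S.Zs x) ⊕ (Fin 2 ⊕ Fin rc) ≃ Unit ⊕ (Fin r ⊕ Fin s)) := by
    refine ⟨Fintype.equivOfCardEq ?_⟩
    rw [Fintype.card_sum, Fintype.card_sum, Fintype.card_fin, Fintype.card_fin, Fintype.card_coe,
      Fintype.card_sum, Fintype.card_sum, Fintype.card_fin, Fintype.card_fin, Fintype.card_unit]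
    omega
  obtain ⟨Tm, hTm⟩ : ∃ Tm : Unit ⊕ (Fin r ⊕ Fin s) → O n ⊕ Fin b, Tm =
      Sum.elim (fun _ => Sum.inl none) (Sum.elim (fun a => Sum.inr (α a))
        (fun a => Sum.inl (some (β a)))) := ⟨_, rfl⟩
  set T' : (S.Zs x) ⊕ (Fin 2 ⊕ Fin rc) → O n ⊕ Fin b := fun a => Tm (eqv a) with hT'd
  have hT' : ∀ τ : L, ∏ a, (Sx τ : O n ⊕ Fin b → L) (T' a) = τ ^ (r + s) := by
    intro τ
    rw [hT'd]
    rw [Equiv.prod_comp eqv (fun o => (Sx τ : O n ⊕ Fin b → L) (Tm o)), Fintype.prod_sum_type,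
      Fintype.prod_sum_type, hTm]
    simp [Sx, Sd, pow_add]
  have hTne : ∀ a j, T' a = Sum.inr j → H.ell x j ≠ 0 := by
    intro a j hj h0
    rw [hT'd] at hj
    simp only [hTm] at hj
    rcases h : eqv a with u | a' | a'
    · rw [h] at hj
      simp at hj
    · rw [h] at hj
      simp only [Sum.elim_inr, Sum.elim_inl, Sum.inr.injEq] at hj
      obtain ⟨v, hv, hv0⟩ := hTne0 a'
      rw [hj] at hv0
      exact hv0 (H.dell_zero h0 hv)
    · rw [h] at hj
      simp at hj
  have hbas := S.bas_li hδ (fun i hi => (S.mem_Zs x i).1 hi) hj0 hli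
  obtain ⟨W, hWd⟩ : ∃ W, W =
      (Matrix.of fun a b => H.ev x (S.bas (S.Zs x) D δ x j0 c b) (T' a)).det := ⟨_, rfl⟩
  have hW0 : W ≠ 0 := by
    have h1 : LinearIndependent L (fun b => (⟨S.bas (S.Zs x) D δ x j0 c b,
        S.bas_mem _ D hδ x j0 hBC b⟩ : S.V x)) := LinearIndependent.of_comp (S.V x).subtype hbas
    have h2 := h1.map' (((LinearMap.funLeft L L Tm).comp (H.ev x)).comp (S.V x).subtype) (by
      rw [LinearMap.ker_eq_bot']
      intro v hv
      apply Subtype.ext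
      refine hTinj v v.2 ?_ (fun a => ?_) (fun a => ?_)
      · have h3 := congrFun hv (Sum.inl ())
        simpa [hTm, LinearMap.funLeft, ev_inl] using h3
      · have h3 := congrFun hv (Sum.inr (Sum.inl a))
        simpa [hTm, LinearMap.funLeft, ev_inr] using h3
      · have h3 := congrFun hv (Sum.inr (Sum.inr a))
        simpa [hTm, LinearMap.funLeft, ev_inl] using h3)
    have h3 := h2.map' (LinearEquiv.funCongrLeft L L eqv).toLinearMap (LinearEquiv.ker _)
    have h4 := (Matrix.linearIndependent_rows_iff_isUnit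
      (A := (Matrix.of fun a b => H.ev x (S.bas (S.Zs x) D δ x j0 c b) (T' a))ᵀ)).1 h3
    rw [Matrix.isUnit_iff_isUnit_det, Matrix.det_transpose, ← hWd] at h4
    exact isUnit_iff_ne_zero.1 h4
  have hloc := H.local_H hPP1 hPP2 hPP3 hPP4 hj0 hD0 hδ hBC hEB T' hcard hT' hTne hWd hW0
  -- a large finite set of places
  obtain ⟨T1, hT1⟩ := exists_supp (k := k) (Finset.univ : Finset (Fin q))
    (fun i => aeval x (S.f i))
  obtain ⟨T2, hT2⟩ := exists_supp (k := k) (Finset.univ : Finset (Fin (n + 1))) x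
  obtain ⟨T3, hT3⟩ := exists_supp (k := k) (Finset.univ : Finset (Fin 1)) ![W]
  obtain ⟨T4, hT4⟩ := exists_supp (k := k)
    (PP.biUnion fun g => g.support.image fun α => g.coeff α) (fun a => algebraMap F L a)
  obtain ⟨T5, hT5⟩ := exists_supp (k := k) (Finset.univ : Finset (Fin b)) (fun j => H.ell x j)
  obtain ⟨T, hTd⟩ : ∃ T, T = T1 ∪ T2 ∪ T3 ∪ T4 ∪ T5 ∪ (vo_finite hD0).toFinset := ⟨_, rfl⟩
  have hTf : ∀ i, ∀ P : Place k L, P.ord (aeval x (S.f i)) ≠ 0 → P ∈ T := by
    intro i P hP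
    have := hT1 i (Finset.mem_univ _) P hP
    simp [hTd, this]
  have hTx : ∀ j, ∀ P : Place k L, P.ord (x j) ≠ 0 → P ∈ T := by
    intro i P hP
    have := hT2 i (Finset.mem_univ _) P hP
    simp [hTd, this]
  have hTW : ∀ P : Place k L, P.ord W ≠ 0 → P ∈ T := by
    intro P hP
    have := hT3 0 (Finset.mem_univ _) P hP
    simp [hTd, this]
  have hTc : ∀ g ∈ PP, ∀ α ∈ g.support, ∀ P : Place k L,
      P.ord (algebraMap F L (g.coeff α)) ≠ 0 → P ∈ T := by
    intro g hg α hα P hP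
    have := hT4 (g.coeff α) (Finset.mem_biUnion.2 ⟨g, hg, Finset.mem_image_of_mem _ hα⟩) P hP
    simp [hTd, this]
  have hTl : ∀ j, ∀ P : Place k L, P.ord (H.ell x j) ≠ 0 → P ∈ T := by
    intro j P hP
    have := hT5 j (Finset.mem_univ _) P hP
    simp [hTd, this]
  have hTv : ∀ P : Place k L, vo P D ≠ 0 → P ∈ T := by
    intro P hP
    simp [hTd, hP]
  have hmtT : H.mt k x ⊆ (T : Set (Place k L)) := by
    rintro P (⟨i, _, hi⟩ | ⟨j, _, hj⟩)
    · by_contra hcon
      rw [pord_eq_zero P hx (fun j => by by_contra h; exact hcon (hTx j P h)), mul_zero] at hi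
      exact hcon (hTf i P hi.ne')
    · by_contra hcon
      rw [pord_eq_zero P hx (fun j => by by_contra h; exact hcon (hTx j P h))] at hj
      exact hcon (hTl j P hj.ne')
  have hmtfin : (H.mt k x).Finite := (Finset.finite_toSet T).subset hmtT
  refine ⟨hmtfin, ?_⟩
  -- the sum
  have hsum := Finset.sum_le_sum fun P (_ : P ∈ T) => hloc P
  rw [sum_ord_finset W T hTW] at hsum
  have hpht := pht_finset hx T hTx
  have hvo := canDeg_finset hD0 T hTv
  have hmt : ∑ P ∈ T, (if P ∈ H.mt k x then (1 : ℤ) else 0) = (H.mt k x).ncard := by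
    rw [← Finset.sum_filter, Finset.sum_const, nsmul_eq_mul, mul_one]
    congr 1
    rw [Set.ncard_eq_toFinset_card _ hmtfin]
    congr 1
    ext P
    rw [Finset.mem_filter, Set.Finite.mem_toFinset]
    exact ⟨fun h => h.2, fun h => ⟨hmtT h, h⟩⟩
  have hloss : ∑ P ∈ T, loss PP P = Module.finrank F L * Hyp.hsum k PP := by
    unfold loss Hyp.hsum
    rw [Finset.sum_comm, Finset.mul_sum]
    refine Finset.sum_congr rfl fun g hg => ?_
    rw [Finset.sum_comm, Finset.mul_sum]
    refine Finset.sum_congr rfl fun α hα => ?_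
    rw [← hgt_algebraMap (L := L) (g.coeff α), hgt_finset _ T (hTc g hg α hα)]
  have hhyp : ∑ P ∈ T, ∑ a, H.hc P x (T' a) = r * pht k x := by
    have h1 : ∀ P : Place k L, ∑ a, H.hc P x (T' a) =
        ∑ a : Fin r, (P.ord (H.ell x (α a)) - pord P x) := by
      intro P
      rw [hT'd, Equiv.sum_comp eqv (fun o => H.hc P x (Tm o)), Fintype.sum_sum_type,
        Fintype.sum_sum_type, hTm]
      simp [hc]
    rw [Finset.sum_congr rfl fun P _ => h1 P, Finset.sum_comm]
    rw [Finset.sum_congr rfl fun a _ => by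
      rw [Finset.sum_sub_distrib, sum_ord_finset _ T (hTl (α a))]]
    rw [Finset.sum_const, Finset.card_univ, Fintype.card_fin, nsmul_eq_mul, hpht]
    ring
  have hfsum : ∑ P ∈ T, ∑ i ∈ Finset.univ \ S.Zs x,
      (P.ord (aeval x (S.f i)) - S.d i * pord P x) =
      (∑ i ∈ Finset.univ \ S.Zs x, (S.d i : ℤ)) * pht k x := by
    rw [Finset.sum_comm, Finset.sum_mul]
    refine Finset.sum_congr rfl fun i _ => ?_
    rw [Finset.sum_sub_distrib, sum_ord_finset _ T (hTf i), ← Finset.mul_sum, hpht]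
    ring
  rw [Finset.sum_sub_distrib, Finset.sum_sub_distrib, Finset.sum_add_distrib,
    Finset.sum_add_distrib, Finset.sum_add_distrib, ← Finset.mul_sum, ← Finset.mul_sum, hvo, hfsum,
    hmt, hloss, hhyp] at hsum
  have hpo : ∑ P ∈ T, pord P x = - pht k x := by rw [hpht]; ring
  rw [hpo] at hsum
  have hdsum : ∑ i ∈ Finset.univ \ S.Zs x, (S.d i : ℤ) =
      ∑ i, (S.d i : ℤ) - ∑ i ∈ S.Zs x, (S.d i : ℤ) := by
    rw [← Finset.sum_sdiff (Finset.subset_univ (S.Zs x))]
    ring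
  rw [hdsum] at hsum
  -- the height is not negative
  have hpos : 0 ≤ pht k x := by
    obtain ⟨j, hj⟩ := hx
    rw [hpht, neg_nonneg, ← sum_ord_finset (x j) T (hTx j)]
    exact Finset.sum_le_sum fun P _ => pord_le P hj
  have hcost : (((r + s : ℕ) : ℤ)) - r + ∑ a, (S.cost (c a) : ℤ) ≤ c' + m - (S.Zs x).card := by
    have h1 : ∑ a, S.cost (c a) ≤ ∑ _a : Fin rc, 1 :=
      Finset.sum_le_sum fun a _ => S.cost_le (c a)
    rw [Finset.sum_const, Finset.card_univ, Fintype.card_fin, smul_eq_mul, mul_one] at h1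
    have h2 : ((∑ a, S.cost (c a) : ℕ) : ℤ) ≤ ((rc : ℕ) : ℤ) := by exact_mod_cast h1
    push_cast at h2 ⊢
    omega
  have hH : 0 ≤ Hyp.hsum k PP :=
    Finset.sum_nonneg fun _ _ => Finset.sum_nonneg fun _ _ => hgt_nonneg _
  have hK' : (3 * (((r + s : ℕ) : ℤ) + 1) + (q : ℤ)) *
      (Module.finrank F L * Hyp.hsum k PP) ≤
      (3 * (n + 2) + q) * (Module.finrank F L * Hyp.hsum k PP) := by
    refine mul_le_mul_of_nonneg_right ?_ (mul_nonneg (by positivity) hH)
    have : ((r + s : ℕ) : ℤ) + 1 ≤ n + 2 := by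
      have : r + s + 1 ≤ n + 2 := by omega
      exact_mod_cast this
    linarith
  have hmul := mul_le_mul_of_nonneg_right hcost hpos
  push_cast at hsum hmul hK' ⊢
  nlinarith [hsum, hmul, hK']

end Pool.Agent.TH875.Vg.Hyp
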