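import Pool.Agent.TH875.Vg.MainG

/-! The height inequality with one more hyperplane. -/

set_option autoImplicit false

open FF MvPolynomial
open Pool.Agent.W603.LV Pool.Agent.W603.PV

namespace Pool.Agent.TH875.Vg.Hyp

open Matrix Module Sys

variable {k F : Type} [Field k] [Field F] [Algebra k F] {n q : ℕ} {S : Sys k F n q} {b : ℕ}
  (H : Hyp S b)

open Classical in
/-- the polynomials that occur -/
noncomputable def PPex (a : Fin b → F) (Mm : Fin (n + 1) → Fin b → F) :
    Finset (MvPolynomial (Fin (n + 1)) F) :=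
  H.PPof ∪ (Finset.univ.image (fun w : Fin b => C (a w)) ∪
    (Finset.univ.image (fun w : Fin b => C (a w)⁻¹) ∪
      Finset.univ.image (fun w : Fin (n + 1) × Fin b => C (Mm w.1 w.2))))

variable [CharZero k] [IsAlgClosed k] [IsFF k F]

/-- The height inequality for all algebraic points. -/
theorem main_G {L : Type} [Field L] [Algebra k L] [Algebra F L]
    [IsScalarTower k F L] [FiniteDimensional F L] (x : Fin (n + 1) → L) (hx : ∃ j, x j ≠ 0)
    {m : ℕ} (hVm : finrank L (S.V x) = m + 2)
    (J : Finset (Fin b)) (hJ : ∀ j, j ∈ J ↔ H.ell x j ≠ 0) (hJm : J.card = m + 2)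
    (a : Fin b → F) (ha : ∀ j, a j ≠ 0) (hrel : ∀ e, ∑ j, a j * H.lam j e = 0)
    (hinj : ∀ v ∈ S.V x, v none = 0 → (∀ j, H.dell x j v = 0) → v = 0)
    (Mm : Fin (n + 1) → Fin b → F)
    (hMm : ∀ e e', ∑ j, Mm e j * H.lam j e' = if e = e' then 1 else 0) :
    (H.mt k x).Finite ∧
    (∑ i, (S.d i : ℤ) + 1 - m + (S.Zs x).card) * pht k x ≤
      canDeg k L + (H.mt k x).ncard +
        ((3 * (n + 3) + q) * hsum k (H.PPex a Mm)) * Module.finrank F L := by
  classical
  have hL : IsFF k L := isFF_of_finite (F := F)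
  obtain ⟨PP, hPPd⟩ : ∃ PP, PP = H.PPex a Mm := ⟨_, rfl⟩
  have hsub : H.PPof ⊆ PP := by
    rw [hPPd]
    exact Finset.subset_union_left
  have hPP1 : ∀ i, S.f i ∈ PP := by
    intro i
    exact hsub (Finset.mem_union_left _ (Finset.mem_union_left _
      (Finset.mem_image_of_mem S.f (Finset.mem_univ i))))
  have hPP2 : ∀ i b c, X b * pderiv c (S.f i) ∈ PP := by
    intro i b' c
    refine hsub (Finset.mem_union_left _ (Finset.mem_union_right _ ?_))
    rw [Finset.mem_image]
    exact ⟨(i, b', c), Finset.mem_univ _, rfl⟩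
  have hPP3 : C S.t ∈ PP :=
    hsub (Finset.mem_union_right _ (Finset.mem_union_left _ (Finset.mem_singleton_self _)))
  have hPP4 : ∀ j e, C (H.lam j e) ∈ PP := by
    intro j e
    refine hsub (Finset.mem_union_right _ (Finset.mem_union_right _ ?_))
    rw [Finset.mem_image]
    exact ⟨(j, e), Finset.mem_univ _, rfl⟩
  have hPP5 : ∀ j, C (a j) ∈ PP := by
    intro j
    rw [hPPd]
    exact Finset.mem_union_right _ (Finset.mem_union_left _ (Finset.mem_image.2
      ⟨j, Finset.mem_univ _, rfl⟩))
  have hPP6 : ∀ j, C (a j)⁻¹ ∈ PP := by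
    intro j
    rw [hPPd]
    exact Finset.mem_union_right _ (Finset.mem_union_right _ (Finset.mem_union_left _
      (Finset.mem_image.2 ⟨j, Finset.mem_univ _, rfl⟩)))
  have hPP7 : ∀ e j, C (Mm e j) ∈ PP := by
    intro e j
    rw [hPPd]
    exact Finset.mem_union_right _ (Finset.mem_union_right _ (Finset.mem_union_right _
      (Finset.mem_image.2 ⟨(e, j), Finset.mem_univ _, rfl⟩)))
  have hc : ∀ (P : Place k L) (η : F), C η ∈ PP → Ge P (-loss PP P) (algebraMap F L η) := by
    intro P η hη
    have := ge_loss P hη 0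
    rwa [coeff_zero_C] at this
  rw [← hPPd]
  have hD0 : der k L ≠ 0 := der_ne
  set D := der k L with hD
  have htL : Transcendental k (algebraMap F L S.t) :=
    (transcendental_algebraMap_iff (algebraMap F L).injective).2 S.tr
  have hDt := der_ne_zero hD0 htL
  choose δ hδ using fun p => S.exists_lifts (L := L) p
  obtain ⟨rc, c, hBC, hli, hEB⟩ := S.exists_colsB hDt δ hx
  obtain ⟨j0, hj0⟩ := id hx
  have hfin := S.finrank_V hD0 hδ hj0 hBC hli hEB
  have hcard : (S.Zs x).card + (2 + rc) = (m + 1) + 1 := hfin.symm.trans hVm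
  have hVn : finrank L (S.V x) ≤ n + 2 := by
    have h1 := Submodule.finrank_le (S.V x)
    rw [Module.finrank_fintype_fun_eq_card, Fintype.card_option, Fintype.card_fin] at h1
    exact h1
  obtain ⟨i0, hi0⟩ : J.Nonempty := by
    rw [← Finset.card_pos, hJm]; omega
  -- the rows
  obtain ⟨eqv⟩ : Nonempty ((S.Zs x) ⊕ (Fin 2 ⊕ Fin rc) ≃ Unit ⊕ (J.erase i0)) := by
    refine ⟨Fintype.equivOfCardEq ?_⟩
    rw [Fintype.card_sum, Fintype.card_sum, Fintype.card_fin, Fintype.card_fin, Fintype.card_coe,
      Fintype.card_sum, Fintype.card_unit, Fintype.card_coe, Finset.card_erase_of_mem hi0, hJm]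
    omega
  obtain ⟨Tm, hTm⟩ : ∃ Tm : Unit ⊕ (J.erase i0) → O n ⊕ Fin b, Tm =
      Sum.elim (fun _ => Sum.inl none) (fun a : (J.erase i0) => Sum.inr a.1) := ⟨_, rfl⟩
  obtain ⟨T0, hT0⟩ : ∃ T0 : (S.Zs x) ⊕ (Fin 2 ⊕ Fin rc) → O n ⊕ Fin b, T0 = fun a => Tm (eqv a) :=
    ⟨_, rfl⟩
  have hTmi : Function.Injective Tm := by
    rw [hTm]
    rintro (u | u) (v | v) h
    · rfl
    · simp at h
    · simp at h
    · simp only [Sum.elim_inr, Sum.inr.injEq] at h
      rw [Subtype.ext h]
  have hT0i : Function.Injective T0 := by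
    rw [hT0]
    exact hTmi.comp eqv.injective
  have hT0n : ∃ a, T0 a = Sum.inl none := by
    refine ⟨eqv.symm (Sum.inl ()), ?_⟩
    rw [hT0, hTm]
    simp
  have hT0j : ∀ j ∈ J, j ≠ i0 → ∃ a, T0 a = Sum.inr j := by
    intro j hj hji
    refine ⟨eqv.symm (Sum.inr ⟨j, Finset.mem_erase.2 ⟨hji, hj⟩⟩), ?_⟩
    rw [hT0, hTm]
    simp
  have hT0i0 : ∀ a, T0 a ≠ Sum.inr i0 := by
    intro a h
    rw [hT0, hTm] at h
    rcases h2 : eqv a with u | u
    · simp [h2] at h
    · simp only [h2, Sum.elim_inr, Sum.inr.injEq] at h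
      exact (Finset.mem_erase.1 u.2).1 h
  have hT0v : ∀ a, T0 a = Sum.inl none ∨ ∃ j ∈ J, j ≠ i0 ∧ T0 a = Sum.inr j := by
    intro a
    rcases h2 : eqv a with u | u
    · left
      rw [hT0, hTm]
      simp [h2]
    · right
      refine ⟨u, (Finset.mem_erase.1 u.2).2, (Finset.mem_erase.1 u.2).1, ?_⟩
      rw [hT0, hTm]
      simp [h2]
  -- the determinants
  obtain ⟨ρ, hρ⟩ : ∃ ρ : (O n ⊕ Fin b) → ((S.Zs x) ⊕ (Fin 2 ⊕ Fin rc) → L),
      ρ = (fun o b' => H.ev x (S.bas (S.Zs x) D δ x j0 c b') o) :=
    ⟨fun o b' => H.ev x (S.bas (S.Zs x) D δ x j0 c b') o, rfl⟩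
  have hbV : ∀ b, S.bas (S.Zs x) D δ x j0 c b ∈ S.V x := fun b =>
    S.bas_mem _ D hδ x j0 hBC b
  obtain ⟨κ, hκ⟩ : ∃ κ : L, ∀ v : O n → L,
      ∑ j, algebraMap F L (a j) * H.dell x j v = κ * v none := by
    refine ⟨∑ j, algebraMap F L (a j) * ∑ e, algebraMap F L (H.mu j e) * x e, fun v => ?_⟩
    have h0 : ∀ j, algebraMap F L (a j) * H.dell x j v =
        (algebraMap F L (a j) * ∑ e, algebraMap F L (H.mu j e) * x e) * v none +
        algebraMap F L (a j) * ∑ e, algebraMap F L (H.lam j e) * v (some e) := by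
      intro j
      rw [dell_apply]
      ring
    rw [Finset.sum_congr rfl fun j _ => h0 j, Finset.sum_add_distrib, ← Finset.sum_mul]
    have h1 : ∑ j, algebraMap F L (a j) * ∑ e, algebraMap F L (H.lam j e) * v (some e) = 0 := by
      simp only [Finset.mul_sum]
      rw [Finset.sum_comm]
      refine Finset.sum_eq_zero fun e _ => ?_
      have h2 : ∑ j, algebraMap F L (a j) * (algebraMap F L (H.lam j e) * v (some e)) =
          algebraMap F L (∑ j, a j * H.lam j e) * v (some e) := by
        rw [map_sum, Finset.sum_mul]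
        exact Finset.sum_congr rfl fun j _ => by rw [map_mul]; ring
      rw [h2, hrel e, map_zero, zero_mul]
    rw [h1, add_zero]
  have hbas := S.bas_li hδ (fun i hi => (S.mem_Zs x i).1 hi) hj0 hli
  have hW00 : (Matrix.of fun a => ρ (T0 a)).det ≠ 0 := by
    have h1 : LinearIndependent L (fun b => (⟨S.bas (S.Zs x) D δ x j0 c b,
        hbV b⟩ : S.V x)) := LinearIndependent.of_comp (S.V x).subtype hbas
    have h2 := h1.map' (((LinearMap.funLeft L L T0).comp (H.ev x)).comp (S.V x).subtype) (by
      rw [LinearMap.ker_eq_bot']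
      intro v hv
      apply Subtype.ext
      have hv0 : (v : O n → L) none = 0 := by
        obtain ⟨a, ha'⟩ := hT0n
        have h3 := congrFun hv a
        simpa [LinearMap.funLeft, ha', ev_inl] using h3
      have hvj : ∀ j ∈ J, j ≠ i0 → H.dell x j v = 0 := by
        intro j hj hji
        obtain ⟨a, ha'⟩ := hT0j j hj hji
        have h3 := congrFun hv a
        simpa [LinearMap.funLeft, ha', ev_inr] using h3
      have hvj' : ∀ j, j ≠ i0 → H.dell x j v = 0 := by
        intro j hji
        by_cases hj : j ∈ J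
        · exact hvj j hj hji
        · refine H.dell_zero ?_ v.2
          by_contra h
          exact hj ((hJ j).2 h)
      refine hinj v v.2 hv0 fun j => ?_
      by_cases hji : j = i0
      · have h4 := hκ v
        rw [hv0, mul_zero, Finset.sum_eq_single i0 (fun j _ hj => by rw [hvj' j hj, mul_zero])
          (by simp)] at h4
        rw [hji]
        exact (mul_eq_zero.1 h4).resolve_left ((map_ne_zero _).2 (ha i0))
      · exact hvj' j hji)
    have h4 := (Matrix.linearIndependent_rows_iff_isUnit
      (A := (Matrix.of fun a => ρ (T0 a))ᵀ)).1 (by rw [hρ]; exact h2)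
    rw [Matrix.isUnit_iff_isUnit_det, Matrix.det_transpose] at h4
    exact isUnit_iff_ne_zero.1 h4
  have hWj : ∀ j ∈ J, ∀ P : Place k L,
      (Matrix.of fun a => ρ (Equiv.swap (Sum.inr j) (Sum.inr i0) (T0 a))).det ≠ 0 ∧
      P.ord (Matrix.of fun a => ρ (Equiv.swap (Sum.inr j) (Sum.inr i0) (T0 a))).det +
        P.ord (algebraMap F L (a i0)) =
      P.ord (Matrix.of fun a => ρ (T0 a)).det + P.ord (algebraMap F L (a j)) := by
    intro j hj P
    by_cases hji : j = i0
    · rw [hji]
      simp only [Equiv.swap_self, Equiv.refl_apply]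
      exact ⟨hW00, trivial⟩
    · have h1 := det_rel ρ T0 hT0i (j := Sum.inr j) (j0 := Sum.inr i0)
        (fun h => hji (Sum.inr_injective h)) (hT0j j hj hji) hT0i0
        (Rs := insert (Sum.inl none) (Finset.univ.image Sum.inr))
        (Finset.mem_insert_of_mem (Finset.mem_image_of_mem _ (Finset.mem_univ _)))
        (Finset.mem_insert_of_mem (Finset.mem_image_of_mem _ (Finset.mem_univ _)))
        (c := Sum.elim (fun _ => -κ) (fun j => algebraMap F L (a j))) (by
          rw [Finset.sum_insert (by simp), Finset.sum_image (fun _ _ _ _ h => Sum.inr_injective h)]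
          funext b'
          rw [Pi.add_apply, Finset.sum_apply, Pi.smul_apply]
          simp only [Pi.smul_apply, smul_eq_mul, Sum.elim_inl, Sum.elim_inr, hρ, ev_inl, ev_inr]
          rw [hκ]
          simp) (by
          intro o ho h2 h3
          rcases Finset.mem_insert.1 ho with rfl | ho
          · exact Or.inl hT0n
          · obtain ⟨i, -, rfl⟩ := Finset.mem_image.1 ho
            by_cases hi : i ∈ J
            · exact Or.inl (hT0j i hi fun h => h3 (by rw [h]))
            · right
              funext b'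
              rw [hρ]
              simp only [ev_inr]
              refine H.dell_zero ?_ (hbV b')
              by_contra h
              exact hi ((hJ i).2 h))
      simp only [Sum.elim_inr] at h1
      have ha0 : algebraMap F L (a i0) ≠ 0 := (map_ne_zero _).2 (ha i0)
      have haj : algebraMap F L (a j) ≠ 0 := (map_ne_zero _).2 (ha j)
      have h2 : (Matrix.of fun a => ρ (Equiv.swap (Sum.inr j) (Sum.inr i0) (T0 a))).det ≠ 0 := by
        intro h
        rw [h, mul_zero, add_zero] at h1
        exact (mul_ne_zero haj hW00) h1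
      refine ⟨h2, ?_⟩
      have h3 := congrArg P.ord (eq_neg_of_add_eq_zero_left h1)
      rw [P.ord_neg, P.ord_mul haj hW00, P.ord_mul ha0 h2] at h3
      omega
  refine (H.assemble hx hD (W := (Matrix.of fun a => ρ (T0 a)).det) PP J
    ((m + 1) + ∑ a, (S.cost (c a) : ℤ)) (3 * ((m + 1 : ℕ) + 1) + q + 3) fun P => ?_).imp id
    fun hfinal => ?_
  · -- a hyperplane that is far from the point
    obtain ⟨j1, hj1J, hj1⟩ : ∃ j ∈ J, P.ord (H.ell x j) - pord P x ≤ loss PP P := by
      by_contra hcon
      push Not at hcon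
      obtain ⟨e1, he1, he1o⟩ := exists_pord P hx
      have h1 : ∀ j, Ge P (pord P x + loss PP P + 1) (H.ell x j) := by
        intro j
        by_cases hj : H.ell x j = 0
        · exact Or.inl hj
        · right
          have := hcon j ((hJ j).2 hj)
          omega
      have h2 : x e1 = ∑ j, algebraMap F L (Mm e1 j) * H.ell x j := by
        unfold ell
        simp only [Finset.mul_sum]
        rw [Finset.sum_comm]
        have h3 : ∀ e, ∑ j, algebraMap F L (Mm e1 j) * (algebraMap F L (H.lam j e) * x e) =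
            algebraMap F L (∑ j, Mm e1 j * H.lam j e) * x e := by
          intro e
          rw [map_sum, Finset.sum_mul]
          exact Finset.sum_congr rfl fun j _ => by rw [map_mul]; ring
        rw [Finset.sum_congr rfl fun e _ => h3 e, Finset.sum_eq_single e1]
        · rw [hMm, if_pos rfl, map_one, one_mul]
        · intro e _ he
          rw [hMm, if_neg he.symm, map_zero, zero_mul]
        · simp
      have h3 : Ge P (pord P x + 1) (x e1) := by
        rw [h2]
        refine Ge.sum _ _ fun j _ => ?_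
        exact ((hc P _ (hPP7 e1 j)).mul (h1 j)).mono (by omega)
      have := h3.resolve_left he1
      omega
    obtain ⟨hWn, hWo⟩ := hWj j1 hj1J P
    have hswJ : ∀ j ∈ J, Equiv.swap j1 i0 j ∈ J := by
      intro j hj
      rw [Equiv.swap_apply_def]
      split_ifs
      · exact hi0
      · exact hj1J
      · exact hj
    have h1 := H.local_H hPP1 hPP2 hPP3 hPP4 hj0 hD0 hδ hBC hEB (N := m + 1)
      (fun a => Equiv.swap (Sum.inr j1) (Sum.inr i0) (T0 a)) hcard (by
        intro τ
        have h2 : ∀ a, (Sx τ : O n ⊕ Fin b → L) (Equiv.swap (Sum.inr j1) (Sum.inr i0) (T0 a)) =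
            Sum.elim (fun _ => 1) (fun _ => τ) (eqv a) := by
          intro a
          rcases h2 : eqv a with u | u
          · have h3 : T0 a = Sum.inl none := by
              rw [hT0, hTm]; simp [h2]
            rw [h3, Equiv.swap_apply_of_ne_of_ne (by simp) (by simp)]
            simp [Sx, Sd]
          · have h3 : T0 a = Sum.inr (u : Fin b) := by
              rw [hT0, hTm]; simp [h2]
            rw [h3, (Sum.inr_injective).swap_apply]
            simp [Sx]
        rw [Finset.prod_congr rfl fun a _ => h2 a,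
          Equiv.prod_comp eqv (fun o => Sum.elim (fun _ => (1 : L)) (fun _ => τ) o),
          Fintype.prod_sum_type]
        simp only [Sum.elim_inl, Sum.elim_inr, Finset.prod_const_one, one_mul, Finset.prod_const,
          Finset.card_univ, Fintype.card_coe]
        rw [Finset.card_erase_of_mem hi0, hJm]
        rfl) (by
        intro a' j' h
        rw [← hJ]
        rcases hT0v a' with h2 | ⟨j2, hj2, -, h2⟩
        · rw [h2, Equiv.swap_apply_of_ne_of_ne (by simp) (by simp)] at h
          simp at h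
        · rw [h2, (Sum.inr_injective).swap_apply] at h
          have h3 := Sum.inr_injective h
          rw [← h3]
          exact hswJ j2 hj2)
      (W := (Matrix.of fun a => ρ (Equiv.swap (Sum.inr j1) (Sum.inr i0) (T0 a))).det)
      (by rw [hρ]) hWn P
    have h2 : ∑ a, H.hc P x (Equiv.swap (Sum.inr j1) (Sum.inr i0) (T0 a)) =
        ∑ j ∈ J, (P.ord (H.ell x j) - pord P x) - (P.ord (H.ell x j1) - pord P x) := by
      have h2 : ∀ a, H.hc P x (Equiv.swap (Sum.inr j1) (Sum.inr i0) (T0 a)) =
          Sum.elim (fun _ => 0) (fun u : (J.erase i0) => (P.ord (H.ell x (Equiv.swap j1 i0 u.1)) -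
            pord P x)) (eqv a) := by
        intro a
        rcases h2 : eqv a with u | u
        · have h3 : T0 a = Sum.inl none := by
            rw [hT0, hTm]; simp [h2]
          rw [h3, Equiv.swap_apply_of_ne_of_ne (by simp) (by simp)]
          simp [Hyp.hc]
        · have h3 : T0 a = Sum.inr (u : Fin b) := by
            rw [hT0, hTm]; simp [h2]
          rw [h3, (Sum.inr_injective).swap_apply]
          simp [Hyp.hc]
      rw [Finset.sum_congr rfl fun a _ => h2 a, Equiv.sum_comp eqv (fun o => Sum.elim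
        (fun _ => 0) (fun u : (J.erase i0) => (P.ord (H.ell x (Equiv.swap j1 i0 u.1)) -
            pord P x)) o), Fintype.sum_sum_type]
      simp only [Sum.elim_inl, Sum.elim_inr, Finset.sum_const_zero, zero_add]
      rw [Finset.sum_coe_sort (J.erase i0)
        (fun u => P.ord (H.ell x (Equiv.swap j1 i0 u)) - pord P x)]
      have h3 := Finset.sum_erase_add J
        (fun u => P.ord (H.ell x (Equiv.swap j1 i0 u)) - pord P x) hi0
      rw [Equiv.swap_apply_right] at h3
      have h4 : ∑ u ∈ J, (P.ord (H.ell x (Equiv.swap j1 i0 u)) - pord P x) =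
          ∑ u ∈ J, (P.ord (H.ell x u) - pord P x) :=
        Finset.sum_nbij' (Equiv.swap j1 i0) (Equiv.swap j1 i0) hswJ hswJ
          (fun _ _ => by simp) (fun _ _ => by simp)
          (fun _ _ => rfl)
      linarith
    rw [h2] at h1
    have h3 : P.ord (algebraMap F L (a j1)) ≤ loss PP P := by
      have h4 := (hc P _ (hPP6 j1)).resolve_left ((map_ne_zero _).2 (inv_ne_zero (ha j1)))
      rw [map_inv₀, P.ord_inv] at h4
      omega
    have h4 : -loss PP P ≤ P.ord (algebraMap F L (a i0)) :=
      (hc P _ (hPP5 i0)).resolve_left ((map_ne_zero _).2 (ha i0))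
    push_cast at h1 ⊢
    linarith
  · have hpos : 0 ≤ pht k x := by
      obtain ⟨T2, hT2⟩ := exists_supp (k := k) (Finset.univ : Finset (Fin (n + 1))) x
      obtain ⟨j, hj⟩ := id hx
      rw [pht_finset hx T2 fun j P hP => hT2 j (Finset.mem_univ _) P hP, neg_nonneg,
        ← sum_ord_finset (x j) T2 fun P hP => hT2 j (Finset.mem_univ _) P hP]
      exact Finset.sum_le_sum fun P _ => pord_le P hj
    have hcost : ∑ a, (S.cost (c a) : ℤ) ≤ m - (S.Zs x).card := by
      have h1 : ∑ a, S.cost (c a) ≤ ∑ _a : Fin rc, 1 :=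
        Finset.sum_le_sum fun a _ => S.cost_le (c a)
      rw [Finset.sum_const, Finset.card_univ, Fintype.card_fin, smul_eq_mul, mul_one] at h1
      have h2 : ((∑ a, S.cost (c a) : ℕ) : ℤ) ≤ ((rc : ℕ) : ℤ) := by exact_mod_cast h1
      push_cast at h2 ⊢
      omega
    have hH : 0 ≤ Hyp.hsum k PP :=
      Finset.sum_nonneg fun _ _ => Finset.sum_nonneg fun _ _ => hgt_nonneg _
    have hK' : ((3 * (((m + 1 : ℕ) : ℤ) + 1) + q + 3) * Hyp.hsum k PP) * Module.finrank F L ≤
        ((3 * (n + 3) + q) * Hyp.hsum k PP) * Module.finrank F L := by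
      refine mul_le_mul_of_nonneg_right (mul_le_mul_of_nonneg_right ?_ hH) (by positivity)
      have : ((m + 1 : ℕ) : ℤ) + 1 ≤ n + 2 := by
        have : m + 1 + 1 ≤ n + 2 := by omega
        exact_mod_cast this
      linarith
    have hmul := mul_le_mul_of_nonneg_right hcost hpos
    rw [hJm] at hfinal
    push_cast at hfinal hmul hK' ⊢
    nlinarith [hfinal, hmul, hK']

end Pool.Agent.TH875.Vg.Hyp
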