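import Pool.Agent.TH875.Vg.GordV

/-! The height inequality with the height of the tangent space. -/

set_option autoImplicit false

open FF MvPolynomial
open Pool.Agent.W603.LV Pool.Agent.W603.PV

namespace Pool.Agent.TH875.Vg

open Matrix Module Sys

section

variable {L : Type} [Field L] {n : ℕ}

/-- the inclusion of the vectors with first entry zero -/
def ext0L : (Fin (n + 1) → L) →ₗ[L] (O n → L) where
  toFun w := Sys.ext0 w
  map_add' v w := by
    funext o
    rcases o with _ | o
    · simp [Sys.ext0]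
    · rfl
  map_smul' c v := by
    funext o
    rcases o with _ | o
    · simp [Sys.ext0]
    · rfl

theorem ext0L_apply (w : Fin (n + 1) → L) : ext0L w = Sys.ext0 w := rfl

/-- the minors -/
noncomputable def mins {N : ℕ} (u : Fin N → Fin (n + 1) → L) (σ : Fin N → Fin (n + 1)) : L :=
  (Matrix.of fun i a => u i (σ a)).det

theorem exists_mins {N : ℕ} {u : Fin N → Fin (n + 1) → L} (hu : LinearIndependent L u) :
    ∃ σ, mins u σ ≠ 0 := by
  classical
  obtain ⟨A, hA⟩ : ∃ A : Matrix (Fin N) (Fin (n + 1)) L, A = Matrix.of u := ⟨_, rfl⟩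
  have h1 : A.rank = N := by
    have h2 : LinearIndependent L A.row := by rw [hA]; exact hu
    rw [h2.rank_matrix, Fintype.card_fin]
  have h2 : Submodule.span L (Set.range A.col) = ⊤ := by
    apply Submodule.eq_top_of_finrank_eq
    rw [Module.finrank_fintype_fun_eq_card, Fintype.card_fin]
    rw [Matrix.rank_eq_finrank_span_cols] at h1
    exact h1
  obtain ⟨κ, a, -, hspan, hli⟩ := exists_linearIndependent' L A.col
  have hfin : Finite κ := hli.finite
  have := Fintype.ofFinite κ
  have h3 : Fintype.card κ = N := by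
    have h4 := finrank_span_eq_card hli
    rw [hspan, h2, finrank_top, Module.finrank_fintype_fun_eq_card, Fintype.card_fin] at h4
    exact h4.symm
  have e : Fin N ≃ κ := (Fintype.equivFinOfCardEq h3).symm
  refine ⟨a ∘ e, ?_⟩
  have h5 : LinearIndependent L ((A.col ∘ a) ∘ e) := hli.comp e e.injective
  have h6 := (Matrix.linearIndependent_rows_iff_isUnit
    (A := (Matrix.of fun i b => u i ((a ∘ e) b))ᵀ)).1 (by
      convert h5 using 1
      rw [hA]
      rfl)
  rw [Matrix.isUnit_iff_isUnit_det, Matrix.det_transpose] at h6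
  exact isUnit_iff_ne_zero.1 h6

end

variable {k F : Type} [Field k] [Field F] [Algebra k F] {n q : ℕ} (S : Sys k F n q)

variable [CharZero k] [IsAlgClosed k] [IsFF k F]

/-- The height inequality with the height of the tangent space. -/
theorem main_V {L : Type} [Field L] [Algebra k L] [Algebra F L]
    [IsScalarTower k F L] [FiniteDimensional F L] (x : Fin (n + 1) → L) (hx : ∃ j, x j ≠ 0)
    {N : ℕ} (hVN : finrank L (S.V x) = N + 1) {u : Fin N → Fin (n + 1) → L}
    (hu : LinearIndependent L u) (huV : ∀ i, Sys.ext0 (u i) ∈ S.V x) :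
    (S.mt k x).Finite ∧
    (∑ i, (S.d i : ℤ) - 2 * N + 1 + (S.Zs x).card) * pht k x + ght k (mins u) ≤
      canDeg k L + (S.mt k x).ncard +
        ((3 * (n + 2) + q) * Hyp.hsum k (Hyp.empty S).PPof) * Module.finrank F L := by
  classical
  have hL : IsFF k L := isFF_of_finite (F := F)
  obtain ⟨H, hH⟩ : ∃ H, H = Hyp.empty S := ⟨_, rfl⟩
  obtain ⟨PP, hPPd⟩ : ∃ PP, PP = H.PPof := ⟨_, rfl⟩
  have hPP1 : ∀ i, S.f i ∈ PP := by
    intro i
    rw [hPPd]
    exact Finset.mem_union_left _ (Finset.mem_union_left _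
      (Finset.mem_image_of_mem S.f (Finset.mem_univ i)))
  have hPP2 : ∀ i b c, X b * pderiv c (S.f i) ∈ PP := by
    intro i b' c
    rw [hPPd]
    refine Finset.mem_union_left _ (Finset.mem_union_right _ ?_)
    rw [Finset.mem_image]
    exact ⟨(i, b', c), Finset.mem_univ _, rfl⟩
  have hPP3 : C S.t ∈ PP := by
    rw [hPPd]
    exact Finset.mem_union_right _ (Finset.mem_union_left _ (Finset.mem_singleton_self _))
  have hPP4 : ∀ j e, C (H.lam j e) ∈ PP := fun j => j.elim0
  have hmtS : H.mt k x = S.mt k x := by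
    ext P
    constructor
    · rintro (h | ⟨j, _⟩)
      · exact h
      · exact j.elim0
    · exact fun h => Or.inl h
  rw [← hH, ← hPPd, ← hmtS]
  have hD0 : der k L ≠ 0 := der_ne
  obtain ⟨D, hD⟩ : ∃ D, D = der k L := ⟨_, rfl⟩
  rw [← hD] at hD0
  have htL : Transcendental k (algebraMap F L S.t) :=
    (transcendental_algebraMap_iff (algebraMap F L).injective).2 S.tr
  have hDt := der_ne_zero hD0 htL
  choose δ hδ using fun p => S.exists_lifts (L := L) p
  obtain ⟨rc, c, hBC, hli, hEB⟩ := S.exists_colsB hDt δ hx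
  obtain ⟨j0, hj0⟩ := id hx
  have hfin := S.finrank_V hD0 hδ hj0 hBC hli hEB
  have hVn : finrank L (S.V x) ≤ n + 2 := by
    have h1 := Submodule.finrank_le (S.V x)
    rw [Module.finrank_fintype_fun_eq_card, Fintype.card_option, Fintype.card_fin] at h1
    exact h1
  have hcard : (S.Zs x).card + (2 + rc) = N + 1 := (hVN.symm.trans hfin).symm
  have hNn : N + 1 ≤ n + 2 := by rw [← hVN]; exact hVn
  obtain ⟨eqv⟩ : Nonempty ((S.Zs x) ⊕ (Fin 2 ⊕ Fin rc) ≃ Fin (N + 1)) := by
    refine ⟨Fintype.equivOfCardEq ?_⟩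
    rw [Fintype.card_sum, Fintype.card_sum, Fintype.card_fin, Fintype.card_fin, Fintype.card_coe,
      Fintype.card_fin]
    omega
  -- the rows
  obtain ⟨rw', hrw⟩ : ∃ rw' : (Fin N → Fin (n + 1)) → Fin (N + 1) → O n,
      rw' = fun σ => Fin.cons none (fun a => some (σ a)) := ⟨_, rfl⟩
  obtain ⟨T', hT'd⟩ : ∃ T' : (Fin N → Fin (n + 1)) → (S.Zs x) ⊕ (Fin 2 ⊕ Fin rc) → O n ⊕ Fin 0,
      T' = fun σ a => Sum.inl (rw' σ (eqv a)) := ⟨_, rfl⟩
  have hT' : ∀ σ, ∀ τ : L, ∏ a, (Hyp.Sx τ : O n ⊕ Fin 0 → L) (T' σ a) = τ ^ N := by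
    intro σ τ
    rw [hT'd, hrw]
    simp only
    rw [Equiv.prod_comp eqv (fun o => (Hyp.Sx τ : O n ⊕ Fin 0 → L)
      (Sum.inl ((Fin.cons none (fun a => some (σ a)) : Fin (N + 1) → O n) o))),
      Fin.prod_univ_succ]
    simp [Hyp.Sx, Sys.Sd]
  -- the bases
  obtain ⟨ba, hba⟩ : ∃ ba : (S.Zs x) ⊕ (Fin 2 ⊕ Fin rc) → O n → L,
      ba = S.bas (S.Zs x) D δ x j0 c := ⟨_, rfl⟩
  have hbas : LinearIndependent L ba := by
    rw [hba]
    exact S.bas_li hδ (fun i hi => (S.mem_Zs x i).1 hi) hj0 hli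
  have hbV : ∀ b, ba b ∈ S.V x := fun b => by
    rw [hba]; exact S.bas_mem _ D hδ x j0 hBC b
  obtain ⟨vb, hvb⟩ : ∃ vb : Fin (N + 1) → O n → L,
      vb = Fin.cons (S.vec (toZ D) x) (fun i => Sys.ext0 (u i)) := ⟨_, rfl⟩
  have hvli : LinearIndependent L vb := by
    rw [hvb, linearIndependent_finCons]
    constructor
    · have h1 := hu.map' (ext0L (L := L) (n := n)) (by
        rw [LinearMap.ker_eq_bot']
        intro w hw
        funext j
        have := congrFun hw (some j)
        simpa [ext0L_apply, Sys.ext0] using this)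
      exact h1
    · intro hcon
      have h2 : ∀ v ∈ Submodule.span L (Set.range fun i => Sys.ext0 (u i)), v none = 0 := by
        intro v hv
        induction hv using Submodule.span_induction with
        | mem v hv =>
          obtain ⟨i, rfl⟩ := hv
          rfl
        | zero => rfl
        | add v w _ _ hv hw => rw [Pi.add_apply, hv, hw, add_zero]
        | smul c v _ hv => rw [Pi.smul_apply, hv, smul_zero]
      exact hDt (h2 _ hcon)
  have hspan : Submodule.span L (Set.range vb) = S.V x := by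
    apply Submodule.eq_of_le_of_finrank_eq
    · rw [Submodule.span_le]
      rintro _ ⟨i, rfl⟩
      rw [hvb]
      induction i using Fin.cases with
      | zero => exact S.vecD_mem D x
      | succ i => exact huV i
    · rw [finrank_span_eq_card hvli, Fintype.card_fin, hVN]
  have hG : ∀ b, ∃ G : Fin (N + 1) → L, ∑ i, G i • vb i = ba b := by
    intro b
    have h1 := hbV b
    rw [← hspan] at h1
    exact (Submodule.mem_span_range_iff_exists_fun L).1 h1
  choose G hG using hG
  obtain ⟨G', hG'⟩ : ∃ G' : Matrix (Fin (N + 1)) (Fin (N + 1)) L,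
      G' = Matrix.of fun i j => G (eqv.symm j) i := ⟨_, rfl⟩
  have hG0 : G'.det ≠ 0 := by
    have h1 : LinearIndependent L (fun j => G (eqv.symm j)) := by
      apply LinearIndependent.of_comp (Fintype.linearCombination L vb)
      have h2 : (Fintype.linearCombination L vb) ∘ (fun j => G (eqv.symm j)) =
          ba ∘ eqv.symm := by
        funext j
        rw [Function.comp_apply, Fintype.linearCombination_apply, hG]
        rfl
      rw [h2]
      exact hbas.comp _ eqv.symm.injective
    have h3 := (Matrix.linearIndependent_rows_iff_isUnit (A := G'ᵀ)).1 (by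
      rw [hG']
      exact h1)
    rw [Matrix.isUnit_iff_isUnit_det, Matrix.det_transpose] at h3
    exact isUnit_iff_ne_zero.1 h3
  obtain ⟨κ, hκ⟩ : ∃ κ, κ = D (algebraMap F L S.t) * G'.det := ⟨_, rfl⟩
  have hκ0 : κ ≠ 0 := by rw [hκ]; exact mul_ne_zero hDt hG0
  have hdet : ∀ σ, (Matrix.of fun a b => H.ev x (S.bas (S.Zs x) D δ x j0 c b) (T' σ a)).det =
      κ * mins u σ := by
    intro σ
    obtain ⟨E, hE⟩ : ∃ E : Matrix (Fin (N + 1)) (Fin (N + 1)) L,
      E = Matrix.of fun o i => vb i (rw' σ o) := ⟨_, rfl⟩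
    have h1 : (Matrix.of fun a b => H.ev x (S.bas (S.Zs x) D δ x j0 c b) (T' σ a)) =
        (E * G').submatrix eqv eqv := by
      ext a b
      rw [Matrix.submatrix_apply, Matrix.mul_apply, Matrix.of_apply, hT'd]
      simp only
      rw [Hyp.ev_inl, ← hba, ← hG b, Finset.sum_apply, hE, hG']
      refine Finset.sum_congr rfl fun i _ => ?_
      rw [Pi.smul_apply, smul_eq_mul, Matrix.of_apply, Matrix.of_apply, Equiv.symm_apply_apply]
      ring
    have h2 : E.det = D (algebraMap F L S.t) * mins u σ := by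
      rw [Matrix.det_succ_row_zero, Finset.sum_eq_single 0]
      · have h3 : E.submatrix Fin.succ (Fin.succAbove 0) =
            (Matrix.of fun i a => u i (σ a))ᵀ := by
          ext a i
          rw [hE, hvb, hrw]
          simp [Sys.ext0]
        rw [h3, Matrix.det_transpose, hE, hvb, hrw]
        simp [Sys.vec, toZ_apply, mins]
      · intro i _ hi
        obtain ⟨i', rfl⟩ := Fin.exists_succ_eq.2 hi
        rw [hE, hvb, hrw]
        simp [Sys.ext0]
      · simp
    rw [h1, Matrix.det_submatrix_equiv_self, Matrix.det_mul, h2, hκ]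
    ring
  obtain ⟨σ0, hσ0⟩ := exists_mins hu
  have hw : ∃ σ, κ * mins u σ ≠ 0 := ⟨σ0, mul_ne_zero hκ0 hσ0⟩
  have hgs := ght_smul (k := k) hκ0 (w := mins u) ⟨σ0, hσ0⟩
  rw [← hgs]
  refine (H.assembleV hx hD hw PP (N + ∑ a, (S.cost (c a) : ℤ)) (3 * (N + 1) + q)
    fun P => ?_).imp id fun hfinal => ?_
  · obtain ⟨σ, hσn, hσ⟩ := exists_gord P (w := fun σ => κ * mins u σ) hw
    have h1 := H.local_H hPP1 hPP2 hPP3 hPP4 hj0 hD0 hδ hBC hEB (N := N) (T' σ) hcard
      (hT' σ) (fun a j => j.elim0) (hdet σ).symm hσn P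
    rw [← hσ]
    have h2 : ∑ a, H.hc P x (T' σ a) = 0 := by
      refine Finset.sum_eq_zero fun a _ => ?_
      rw [hT'd]
      rfl
    rw [h2] at h1
    have h3 : (if P ∈ H.mt k x then (1 : ℤ) else 0) = (open Classical in if P ∈ H.mt k x then 1 else 0) := by
      congr
    linarith
  · have hpos : 0 ≤ pht k x := pht_nonneg hx
    have hcost : (N : ℤ) + ∑ a, (S.cost (c a) : ℤ) ≤ 2 * N - 1 - (S.Zs x).card := by
      have h1 : ∑ a, S.cost (c a) ≤ ∑ _a : Fin rc, 1 :=
        Finset.sum_le_sum fun a _ => S.cost_le (c a)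
      rw [Finset.sum_const, Finset.card_univ, Fintype.card_fin, smul_eq_mul, mul_one] at h1
      have h2 : ((∑ a, S.cost (c a) : ℕ) : ℤ) ≤ ((rc : ℕ) : ℤ) := by exact_mod_cast h1
      push_cast at h2
      omega
    have hHs : 0 ≤ Hyp.hsum k PP :=
      Finset.sum_nonneg fun _ _ => Finset.sum_nonneg fun _ _ => hgt_nonneg _
    have hK' : ((3 * ((N : ℤ) + 1) + q) * Hyp.hsum k PP) * Module.finrank F L ≤
        ((3 * (n + 2) + q) * Hyp.hsum k PP) * Module.finrank F L := by
      refine mul_le_mul_of_nonneg_right (mul_le_mul_of_nonneg_right ?_ hHs) (by positivity)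
      have : (N : ℤ) + 1 ≤ n + 2 := by exact_mod_cast hNn
      linarith
    have hmul := mul_le_mul_of_nonneg_right hcost hpos
    nlinarith [hfinal, hmul, hK']

end Pool.Agent.TH875.Vg
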