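import Pool.Agent.TH875.Vg.LocY
import Pool.Agent.TH875.Vg.Main

/-! The height inequality on subvarieties. -/

set_option autoImplicit false

open FF MvPolynomial
open Pool.Agent.W603.LV Pool.Agent.W603.PV

namespace Pool.Agent.TH875.Vg.Sys

open Matrix Module

variable {k F : Type} [Field k] [Field F] [Algebra k F] {n q : ℕ} (S : Sys k F n q)

variable [CharZero k] [IsAlgClosed k] [IsFF k F]

/-- The height inequality for all algebraic points for which the space spanned by the derivatives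
has dimension at most `m + 2`. -/
theorem main_X (m : ℕ) : ∃ C : ℕ, ∀ (L : Type) [Field L] [Algebra k L] [Algebra F L]
    [IsScalarTower k F L] [FiniteDimensional F L] (x : Fin (n + 1) → L), (∃ j, x j ≠ 0) →
    finrank L (S.V x) ≤ m + 2 →
    (S.mt k x).Finite ∧
    (∑ i, (S.d i : ℤ) - 2 * m - 1 + (S.Zs x).card) * pht k x ≤
      canDeg k L + (S.mt k x).ncard + C * Module.finrank F L := by
  classical
  obtain ⟨PP, hPP1, hPP2, hPP3, hPP4⟩ := S.exists_polys
  refine ⟨((3 * (n + 2) + q) * ∑ g ∈ PP, ∑ α ∈ g.support, hgt k (g.coeff α)).toNat, ?_⟩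
  intro L _ _ _ _ _ x hx hVm
  have hL : IsFF k L := isFF_of_finite (F := F)
  have hD0 : der k L ≠ 0 := der_ne
  set D := der k L with hD
  have htL : Transcendental k (algebraMap F L S.t) :=
    (transcendental_algebraMap_iff (algebraMap F L).injective).2 S.tr
  have hDt := der_ne_zero hD0 htL
  choose δ hδ using fun p => S.exists_lifts (L := L) p
  obtain ⟨r, c, hBC, hli, hEB⟩ := S.exists_colsB hDt δ hx
  obtain ⟨j0, hj0⟩ := id hx
  have hfin := S.finrank_V hD0 hδ hj0 hBC hli hEB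
  obtain ⟨he1, σ, hσ⟩ := exists_T (S.V x) ⟨S.vec (toZ D) x, S.vecD_mem D x, hDt⟩
  obtain ⟨N, hN⟩ : ∃ N, finrank L (S.V x) = N + 1 := ⟨finrank L (S.V x) - 1, by omega⟩
  have hVn : finrank L (S.V x) ≤ n + 2 := by
    have h1 := Submodule.finrank_le (S.V x)
    rw [Module.finrank_fintype_fun_eq_card, Fintype.card_option, Fintype.card_fin] at h1
    exact h1
  have hcard : (S.Zs x).card + (2 + r) = N + 1 := by omega
  obtain ⟨eqv⟩ : Nonempty ((S.Zs x) ⊕ (Fin 2 ⊕ Fin r) ≃ Option (Fin (finrank L (S.V x) - 1))) := by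
    refine ⟨Fintype.equivOfCardEq ?_⟩
    rw [Fintype.card_sum, Fintype.card_sum, Fintype.card_fin, Fintype.card_fin, Fintype.card_coe,
      Fintype.card_option, Fintype.card_fin]
    omega
  set T' : (S.Zs x) ⊕ (Fin 2 ⊕ Fin r) → O n := fun a => Option.map σ (eqv a) with hT'd
  have hT' : ∀ τ : L, ∏ a, (Sd τ : O n → L) (T' a) = τ ^ N := by
    intro τ
    rw [hT'd]
    rw [Equiv.prod_comp eqv (fun o => (Sd τ : O n → L) (Option.map σ o)), Fintype.prod_option]
    simp only [Sd, Option.map_none, Option.map_some, Option.elim, one_mul, Finset.prod_const,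
      Finset.card_univ, Fintype.card_fin]
    congr 1
    omega
  have hbas := S.bas_li hδ (fun i hi => (S.mem_Zs x i).1 hi) hj0 hli
  obtain ⟨W, hWd⟩ : ∃ W, W = (Matrix.of fun a b => S.bas (S.Zs x) D δ x j0 c b (T' a)).det :=
    ⟨_, rfl⟩
  have hW0 : W ≠ 0 := by
    have h1 : LinearIndependent L (fun b => (⟨S.bas (S.Zs x) D δ x j0 c b,
        S.bas_mem _ D hδ x j0 hBC b⟩ : S.V x)) := LinearIndependent.of_comp (S.V x).subtype hbas
    have h2 := h1.map' ((LinearMap.funLeft L L (Option.map σ)).comp (S.V x).subtype)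
      (LinearMap.ker_eq_bot.2 hσ.1)
    have h3 := h2.map' (LinearEquiv.funCongrLeft L L eqv).toLinearMap (LinearEquiv.ker _)
    have h4 := (Matrix.linearIndependent_rows_iff_isUnit
      (A := (Matrix.of fun a b => S.bas (S.Zs x) D δ x j0 c b (T' a))ᵀ)).1 h3
    rw [Matrix.isUnit_iff_isUnit_det, Matrix.det_transpose, ← hWd] at h4
    exact isUnit_iff_ne_zero.1 h4
  have hloc := S.local_X hPP1 hPP2 hPP3 hj0 hD0 hδ hEB T' hcard hT' hWd hW0
  have hZn : (S.Zs x).card ≤ m := by omega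
  generalize S.Zs x = Z at *
  -- a large finite set of places
  obtain ⟨T1, hT1⟩ := exists_supp (k := k) (Finset.univ : Finset (Fin q))
    (fun i => aeval x (S.f i))
  obtain ⟨T2, hT2⟩ := exists_supp (k := k) (Finset.univ : Finset (Fin (n + 1))) x
  obtain ⟨T3, hT3⟩ := exists_supp (k := k) (Finset.univ : Finset (Fin 1)) ![W]
  obtain ⟨T4, hT4⟩ := exists_supp (k := k)
    (PP.biUnion fun g => g.support.image fun α => g.coeff α) (fun a => algebraMap F L a)
  obtain ⟨T, hTd⟩ : ∃ T, T = T1 ∪ T2 ∪ T3 ∪ T4 ∪ (vo_finite hD0).toFinset := ⟨_, rfl⟩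
  have hTf : ∀ i, ∀ P : Place k L, P.ord (aeval x (S.f i)) ≠ 0 → P ∈ T := by
    intro i P hP
    have := hT1 i (Finset.mem_univ _) P hP
    simp [hTd, this]
  have hTx : ∀ j, ∀ P : Place k L, P.ord (x j) ≠ 0 → P ∈ T := by
    intro i P hP
    have := hT2 i (Finset.mem_univ _) P hP
    simp [hTd, this]
  have hTW : ∀ P : Place k L, P.ord W ≠ 0 → P ∈ T := by
    intro P hP
    have := hT3 0 (Finset.mem_univ _) P hP
    simp [hTd, this]
  have hTc : ∀ g ∈ PP, ∀ α ∈ g.support, ∀ P : Place k L,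
      P.ord (algebraMap F L (g.coeff α)) ≠ 0 → P ∈ T := by
    intro g hg α hα P hP
    have := hT4 (g.coeff α) (Finset.mem_biUnion.2 ⟨g, hg, Finset.mem_image_of_mem _ hα⟩) P hP
    simp [hTd, this]
  have hTv : ∀ P : Place k L, vo P D ≠ 0 → P ∈ T := by
    intro P hP
    simp [hTd, hP]
  have hmtT : S.mt k x ⊆ (T : Set (Place k L)) := by
    rintro P ⟨i, _, hi⟩
    by_contra hcon
    rw [pord_eq_zero P hx (fun j => by by_contra h; exact hcon (hTx j P h)), mul_zero] at hi
    exact hcon (hTf i P hi.ne')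
  have hmtfin : (S.mt k x).Finite := (Finset.finite_toSet T).subset hmtT
  refine ⟨hmtfin, ?_⟩
  -- the sum
  have hsum := Finset.sum_le_sum fun P (_ : P ∈ T) => hloc P
  rw [sum_ord_finset W T hTW] at hsum
  have hpht := pht_finset hx T hTx
  have hvo := canDeg_finset hD0 T hTv
  have hmt : ∑ P ∈ T, (if P ∈ S.mt k x then (1 : ℤ) else 0) = (S.mt k x).ncard := by
    rw [← Finset.sum_filter, Finset.sum_const, nsmul_eq_mul, mul_one]
    congr 1
    rw [Set.ncard_eq_toFinset_card _ hmtfin]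
    congr 1
    ext P
    rw [Finset.mem_filter, Set.Finite.mem_toFinset]
    exact ⟨fun h => h.2, fun h => ⟨hmtT h, h⟩⟩
  have hloss : ∑ P ∈ T, loss PP P =
      Module.finrank F L * ∑ g ∈ PP, ∑ α ∈ g.support, hgt k (g.coeff α) := by
    unfold loss
    rw [Finset.sum_comm, Finset.mul_sum]
    refine Finset.sum_congr rfl fun g hg => ?_
    rw [Finset.sum_comm, Finset.mul_sum]
    refine Finset.sum_congr rfl fun α hα => ?_
    rw [← hgt_algebraMap (L := L) (g.coeff α), hgt_finset _ T (hTc g hg α hα)]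
  have hfsum : ∑ P ∈ T, ∑ i ∈ Finset.univ \ Z, (P.ord (aeval x (S.f i)) - S.d i * pord P x) =
      (∑ i ∈ Finset.univ \ Z, (S.d i : ℤ)) * pht k x := by
    rw [Finset.sum_comm, Finset.sum_mul]
    refine Finset.sum_congr rfl fun i _ => ?_
    rw [Finset.sum_sub_distrib, sum_ord_finset _ T (hTf i), ← Finset.mul_sum, hpht]
    ring
  rw [Finset.sum_sub_distrib, Finset.sum_sub_distrib, Finset.sum_add_distrib,
    Finset.sum_add_distrib, ← Finset.mul_sum, ← Finset.mul_sum, hvo, hfsum, hmt, hloss] at hsum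
  have hpo : ∑ P ∈ T, pord P x = - pht k x := by rw [hpht]; ring
  rw [hpo] at hsum
  have hdsum : ∑ i ∈ Finset.univ \ Z, (S.d i : ℤ) = ∑ i, (S.d i : ℤ) - ∑ i ∈ Z, (S.d i : ℤ) := by
    rw [← Finset.sum_sdiff (Finset.subset_univ Z)]
    ring
  rw [hdsum] at hsum
  -- the height is not negative
  have hpos : 0 ≤ pht k x := by
    obtain ⟨j, hj⟩ := hx
    rw [hpht, neg_nonneg, ← sum_ord_finset (x j) T (hTx j)]
    exact Finset.sum_le_sum fun P _ => pord_le P hj
  have hcost : ((N : ℕ) : ℤ) + ∑ a, (S.cost (c a) : ℤ) ≤ 2 * m + 1 - Z.card := by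
    have h1 : ∑ a, S.cost (c a) ≤ ∑ _a : Fin r, 1 :=
      Finset.sum_le_sum fun a _ => S.cost_le (c a)
    rw [Finset.sum_const, Finset.card_univ, Fintype.card_fin, smul_eq_mul, mul_one] at h1
    have h2 : ((∑ a, S.cost (c a) : ℕ) : ℤ) ≤ ((r : ℕ) : ℤ) := by exact_mod_cast h1
    push_cast at h2
    omega
  have hH : 0 ≤ ∑ g ∈ PP, ∑ α ∈ g.support, hgt k (g.coeff α) :=
    Finset.sum_nonneg fun _ _ => Finset.sum_nonneg fun _ _ => hgt_nonneg _
  have hK : (0 : ℤ) ≤ (3 * (n + 2) + q) * ∑ g ∈ PP, ∑ α ∈ g.support, hgt k (g.coeff α) :=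
    mul_nonneg (by positivity) hH
  have hK' : (3 * ((N : ℕ) + 1) + (q : ℤ)) *
      (Module.finrank F L * ∑ g ∈ PP, ∑ α ∈ g.support, hgt k (g.coeff α)) ≤
      (3 * (n + 2) + q) *
      (Module.finrank F L * ∑ g ∈ PP, ∑ α ∈ g.support, hgt k (g.coeff α)) := by
    refine mul_le_mul_of_nonneg_right ?_ (mul_nonneg (by positivity) hH)
    have : (N : ℤ) + 1 ≤ n + 2 := by
      have : N + 1 ≤ n + 2 := by omega
      exact_mod_cast this
    linarith
  rw [Int.toNat_of_nonneg hK]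
  have hmul := mul_le_mul_of_nonneg_right hcost hpos
  nlinarith [hsum, hmul, hK']

end Pool.Agent.TH875.Vg.Sys
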