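import Pool.Agent.TH875.Vg.Form

/-! Linear algebra. -/

set_option autoImplicit false

open FF
open Pool.Agent.W603.LV Pool.Agent.W603.PV

namespace Pool.Agent.TH875.Vg

open Matrix Module

/-- Completion of an independent family by members of a spanning family. -/
theorem exists_choice {K V κ Z A : Type*} [Field K] [AddCommGroup V] [Module K V]
    [FiniteDimensional K V] [Fintype Z] [Fintype A] (v : κ → V) (z : Z → κ)
    (hz : Function.Injective z) (s t : Set κ) (hzs : ∀ x, z x ∈ s) (hst : s ⊆ t)
    (hs : LinearIndepOn K v s)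
    (hA : Fintype.card Z + Fintype.card A = finrank K (Submodule.span K (v '' t))) :
    ∃ σ : A → κ, (∀ a, σ a ∈ t) ∧ (∀ a x, σ a ≠ z x) ∧
      (∀ x ∈ s, (∀ y, z y ≠ x) → ∃ a, σ a = x) ∧ LinearIndependent K (v ∘ Sum.elim z σ) := by
  classical
  obtain ⟨b, hbt, hsb, hspan, hb⟩ := exists_linearIndepOn_extension hs hst
  have hfin : Finite b := hb.finite
  have := Fintype.ofFinite b
  have h1 : Submodule.span K (v '' t) = Submodule.span K (Set.range fun x : b => v x) := by
    have e : (Set.range fun x : b => v x) = v '' b := by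
      ext y; simp
    rw [e]
    exact le_antisymm (Submodule.span_le.2 hspan) (Submodule.span_mono (Set.image_mono hbt))
  rw [h1, finrank_span_eq_card hb] at hA
  -- the complement
  have hzb : ∀ x, z x ∈ b := fun x => hsb (hzs x)
  set b' : Set b := {x | ∀ y, z y ≠ x} with hb'
  have hcard : Fintype.card b = Fintype.card Z + Fintype.card b' := by
    have e : (Z ⊕ b') ≃ b := Equiv.ofBijective
      (Sum.elim (fun x => ⟨z x, hzb x⟩) (fun x => x.1)) (by
        constructor
        · rintro (x | x) (y | y) h
          · simp only [Sum.elim_inl, Subtype.mk.injEq] at h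
            rw [hz h]
          · simp only [Sum.elim_inl, Sum.elim_inr] at h
            exact absurd (congrArg Subtype.val h) (y.2 x)
          · simp only [Sum.elim_inl, Sum.elim_inr] at h
            exact absurd (congrArg Subtype.val h).symm (x.2 y)
          · simp only [Sum.elim_inr] at h
            rw [Subtype.ext h]
        · intro x
          by_cases h : ∃ y, z y = x
          · obtain ⟨y, hy⟩ := h
            exact ⟨Sum.inl y, Subtype.ext hy⟩
          · push Not at h
            exact ⟨Sum.inr ⟨x, h⟩, rfl⟩)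
    rw [← Fintype.card_congr e, Fintype.card_sum]
  have e : A ≃ b' := Fintype.equivOfCardEq (by omega)
  refine ⟨fun a => ((e a : b) : κ), fun a => hbt (e a : b).2, fun a x h => (e a).2 x h.symm,
    fun x hx hxy => ?_, ?_⟩
  · refine ⟨e.symm ⟨⟨x, hsb hx⟩, fun y => hxy y⟩, ?_⟩
    simp
  · have hinj : Function.Injective (Sum.elim (fun x => (⟨z x, hzb x⟩ : b))
        (fun a : A => ((e a : b') : b))) := by
      rintro (x | x) (y | y) h
      · simp only [Sum.elim_inl, Subtype.mk.injEq] at h
        rw [hz h]
      · simp only [Sum.elim_inl, Sum.elim_inr] at h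
        exact absurd (congrArg Subtype.val h) ((e y).2 x)
      · simp only [Sum.elim_inl, Sum.elim_inr] at h
        exact absurd (congrArg Subtype.val h).symm ((e x).2 y)
      · simp only [Sum.elim_inr] at h
        rw [e.injective (Subtype.ext h)]
    have h3 := hb.comp _ hinj
    convert h3 using 1
    funext x
    rcases x with x | x <;> rfl

section ratio

variable {L Z A O : Type*} [Field L] [Fintype Z] [DecidableEq Z] [Fintype A] [DecidableEq A]
  [Fintype O] [DecidableEq O] (e : Z ⊕ A ≃ O)

/-- the determinant of the system of the rows `RZ` and `r` -/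
noncomputable def Den (RZ : Matrix Z O L) (r : Matrix A O L) : L :=
  ((fromRows RZ r).submatrix id e).det

theorem den_isUnit {RZ : Matrix Z O L} {r : Matrix A O L} (h : Den e RZ r ≠ 0) :
    IsUnit ((fromRows RZ r).submatrix id e) :=
  (Matrix.isUnit_iff_isUnit_det _).2 (isUnit_iff_ne_zero.2 h)

theorem rows_ratio {RZ : Matrix Z O L} {r r' : Matrix A O L} (U : Matrix O A L) (hU : RZ * U = 0)
    (h : Den e RZ r ≠ 0) : (r' * U).det * Den e RZ r = (r * U).det * Den e RZ r' := by
  set G := (fromRows RZ r).submatrix id e with hG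
  set G' := (fromRows RZ r').submatrix id e with hG'
  have hGu := den_isUnit e h
  rw [← hG] at hGu
  have hdet : IsUnit G.det := (Matrix.isUnit_iff_isUnit_det _).1 hGu
  set H := G' * G⁻¹ with hH
  have hHG : H * G = G' := by rw [hH, Matrix.mul_assoc, Matrix.nonsing_inv_mul _ hdet, Matrix.mul_one]
  -- the block form
  have hrow : ∀ (z : Z) (x : Z ⊕ A), H (Sum.inl z) x = (1 : Matrix (Z ⊕ A) (Z ⊕ A) L) (Sum.inl z) x := by
    intro z x
    have h1 : ∀ y, ((H - 1) * G) (Sum.inl z) y = 0 := by
      intro y
      rw [Matrix.sub_mul, hHG, Matrix.one_mul]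
      simp [hG, hG']
    have h2 : (H - 1) (Sum.inl z) x = 0 := by
      have h3 : ((H - 1) * G * G⁻¹) (Sum.inl z) x = 0 := by
        rw [Matrix.mul_apply]
        exact Finset.sum_eq_zero fun y _ => by rw [h1 y, zero_mul]
      rwa [Matrix.mul_assoc, Matrix.mul_nonsing_inv _ hdet, Matrix.mul_one] at h3
    rw [Matrix.sub_apply, sub_eq_zero] at h2
    exact h2
  have hblock : H = fromBlocks 1 0 H.toBlocks₂₁ H.toBlocks₂₂ := by
    ext x y
    rcases x with x | x
    · rw [hrow]
      rcases y with y | y
      · simp [Matrix.one_apply]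
      · simp [Matrix.one_apply]
    · rcases y with y | y <;> rfl
  have hdetH : H.det = H.toBlocks₂₂.det := by
    conv_lhs => rw [hblock]
    rw [det_fromBlocks_zero₁₂, det_one, one_mul]
  have h4 : r' * U = H.toBlocks₂₂ * (r * U) := by
    have h5 : G' * (U.submatrix e id) = H * (G * (U.submatrix e id)) := by
      rw [← Matrix.mul_assoc, hHG]
    have h6 : ∀ r : Matrix A O L, (fromRows RZ r).submatrix id e * (U.submatrix e id) =
        fromRows (0 : Matrix Z A L) (r * U) := by
      intro r
      rw [Matrix.submatrix_mul_equiv, Matrix.fromRows_mul, hU]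
      rfl
    rw [hG', hG, h6, h6] at h5
    ext x y
    have h7 : (r' * U) x y = (H * fromRows (0 : Matrix Z A L) (r * U)) (Sum.inr x) y :=
      congrFun (congrFun h5 (Sum.inr x)) y
    have h9 : (H * fromRows (0 : Matrix Z A L) (r * U)) (Sum.inr x) y =
        ∑ j, H (Sum.inr x) (Sum.inr j) * (r * U) j y := by
      rw [Matrix.mul_apply, Fintype.sum_sum_type]
      simp
    rw [h7, h9, Matrix.mul_apply]
    rfl
  have h8 : Den e RZ r' = H.toBlocks₂₂.det * Den e RZ r := by
    unfold Den
    rw [← hG, ← hG', ← hHG, Matrix.det_mul, hdetH]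
  rw [h4, Matrix.det_mul, h8]
  ring

theorem num_ne {RZ : Matrix Z O L} {r : Matrix A O L} (U : Matrix O A L) (hU : RZ * U = 0)
    (h : Den e RZ r ≠ 0) (hi : LinearIndependent L (fun a => fun o => U o a)) :
    (r * U).det ≠ 0 := by
  intro h0
  obtain ⟨v, hv, hv0⟩ := Matrix.exists_mulVec_eq_zero_iff.2 h0
  have hGu := den_isUnit e h
  have h1 : ((fromRows RZ r).submatrix id e) *ᵥ ((U *ᵥ v) ∘ e) = 0 := by
    have h2 : ((fromRows RZ r).submatrix id e) *ᵥ ((U *ᵥ v) ∘ e) =
        (fromRows RZ r) *ᵥ (U *ᵥ v) := by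
      have := Matrix.submatrix_mulVec_equiv (fromRows RZ r) ((U *ᵥ v) ∘ e) id e
      rw [this]
      simp [Function.comp_assoc]
    rw [h2, Matrix.mulVec_mulVec, Matrix.fromRows_mul, hU]
    ext x
    rcases x with x | x
    · simp [Matrix.mulVec, dotProduct]
    · have := congrFun hv0 x
      simpa [Matrix.mulVec, dotProduct] using this
  have h2 : (U *ᵥ v) ∘ e = 0 := by
    have hinj := Matrix.mulVec_injective_of_isUnit hGu
    exact hinj (by rw [h1, Matrix.mulVec_zero])
  have h3 : U *ᵥ v = 0 := by
    funext o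
    have := congrFun h2 (e.symm o)
    simpa using this
  apply hv
  rw [Fintype.linearIndependent_iff] at hi
  funext a
  refine hi v ?_ a
  funext o
  have := congrFun h3 o
  rw [Finset.sum_apply]
  simpa [Matrix.mulVec, dotProduct, mul_comm] using this

theorem den_ne_of_li {RZ : Matrix Z O L} {r : Matrix A O L}
    (h : LinearIndependent L (Sum.elim (fun z => RZ z) (fun a => r a))) : Den e RZ r ≠ 0 := by
  have h1 : LinearIndependent L (fun x => ((fromRows RZ r).submatrix id e) x) := by
    have h2 := h.map' (LinearEquiv.funCongrLeft L L e).toLinearMap (LinearEquiv.ker _)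
    have e1 : (fun x => ((fromRows RZ r).submatrix id e) x) =
        (⇑(LinearEquiv.funCongrLeft L L e).toLinearMap ∘
          (Sum.elim (fun z => RZ z) (fun a => r a))) := by
      funext x
      rcases x with x | x <;> rfl
    rw [e1]
    exact h2
  have h3 := (Matrix.linearIndependent_rows_iff_isUnit).1 h1
  unfold Den
  exact isUnit_iff_ne_zero.1 ((Matrix.isUnit_iff_isUnit_det _).1 h3)

end ratio

section ord

variable {k L : Type*} [Field k] [Field L] [Algebra k L]

theorem ge_det' {A : Type*} [Fintype A] [DecidableEq A] (P : Place k L) (M : Matrix A A L)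
    (ρ γ : A → ℤ) (hM : ∀ a c, Ge P (ρ a + γ c) (M a c)) :
    Ge P (∑ a, ρ a + ∑ c, γ c) M.det := by
  rw [Matrix.det_apply']
  refine Ge.sum _ _ fun σ _ => ?_
  have h1 := (Ge.intCast (P := P) (Equiv.Perm.sign σ : ℤ)).mul
    (Ge.prod Finset.univ (fun i => M (σ i) i) (fun i => ρ (σ i) + γ i) (fun i _ => hM _ _))
  refine h1.mono (le_of_eq ?_)
  rw [zero_add, Finset.sum_add_distrib, Equiv.sum_comp σ ρ]

end ord

end Pool.Agent.TH875.Vg
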