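import Pool.Agent.TH875.Vg.Choice

/-! Polynomial identities which show that the forms are in general position. -/

set_option autoImplicit false

open FF MvPolynomial
open Pool.Agent.W603.LV Pool.Agent.W603.PV

namespace Pool.Agent.TH875.Vg.Sys

open Matrix Module

variable {k F : Type} [Field k] [Field F] [Algebra k F] {n q : ℕ} (S : Sys k F n q)

/-- the gradient of `f i` as polynomials -/
noncomputable def RP (i : Fin q) : O n → MvPolynomial (Fin (n + 1)) F :=
  fun o => o.elim (S.ft i) fun j => pderiv j (S.f i)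

/-- the rows as polynomials -/
noncomputable def rowP : Fin q ⊕ O n → (O n → MvPolynomial (Fin (n + 1)) F) :=
  Sum.elim S.RP fun o => Pi.single o 1

/-- the determinant of the rows as a polynomial -/
noncomputable def DenP {A : Type} [Fintype A] [DecidableEq A] {Z : Finset (Fin q)}
    (e : Z ⊕ A ≃ O n) (σ : A → Fin q ⊕ O n) : MvPolynomial (Fin (n + 1)) F :=
  ((fromRows (Matrix.of fun z : Z => S.RP z) (Matrix.of fun a => S.rowP (σ a))).submatrix id e).det

variable {L : Type} [Field L] [Algebra k L] [Algebra F L]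

omit [Algebra k L] in
theorem aeval_RP (x : Fin (n + 1) → L) (i : Fin q) (o : O n) :
    aeval x (S.RP i o) = S.R x i o := by
  rcases o with _ | o <;> rfl

omit [Algebra k L] in
theorem aeval_rowP (x : Fin (n + 1) → L) (s : Fin q ⊕ O n) (o : O n) :
    aeval x (S.rowP s o) = S.row x s o := by
  classical
  rcases s with i | o'
  · exact S.aeval_RP x i o
  · simp only [rowP, row, Sum.elim_inr, Pi.single_apply]
    split_ifs <;> simp

omit [Algebra k L] in
theorem aeval_DenP {A : Type} [Fintype A] [DecidableEq A] {Z : Finset (Fin q)}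
    (e : Z ⊕ A ≃ O n) (σ : A → Fin q ⊕ O n) (x : Fin (n + 1) → L) :
    aeval x (S.DenP e σ) = Den e (Matrix.of fun z : Z => S.R x z)
      (Matrix.of fun a => S.row x (σ a)) := by
  unfold DenP Den
  rw [AlgHom.map_det]
  congr 1
  ext a b
  rw [AlgHom.mapMatrix_apply, Matrix.map_apply, Matrix.submatrix_apply, Matrix.submatrix_apply]
  rcases a with a | a
  · exact S.aeval_RP x a _
  · exact S.aeval_rowP x (σ a) _

variable [CharZero k] [IsFF k F]

theorem exists_lifts [IsScalarTower k F L] [FiniteDimensional F L] (p : S.Idx) :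
    ∃ δ : Derivation ℤ L L, IsLift (S.dd p) δ := by
  have hL : IsFF k L := isFF_of_finite (F := F)
  obtain ⟨t, ht⟩ := IsFF.exists_transcendental (k := k) (K := L)
  obtain ⟨δ, hδ, _⟩ := exists_lift (S.dd p) ht
  exact ⟨δ, hδ⟩

theorem exists_den_ne [IsScalarTower k F L] [FiniteDimensional F L] {A : Type} [Fintype A]
    [DecidableEq A] {Z I : Finset (Fin q)} (hZI : Z ⊆ I) (e : Z ⊕ A ≃ O n)
    {x : Fin (n + 1) → L} (hx : ∃ j, x j ≠ 0) (hI : ∀ i ∈ I, aeval x (S.f i) = 0) :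
    ∃ σ : A → Fin q ⊕ O n, Adapted Z I σ ∧ aeval x (S.DenP e σ) ≠ 0 := by
  have h1 := S.li_R hx (fun p => S.exists_lifts p) I hI
  have hA : Z.card + Fintype.card A = n + 2 := by
    have := Fintype.card_congr e
    rw [Fintype.card_sum, Fintype.card_coe, Fintype.card_option, Fintype.card_fin] at this
    omega
  obtain ⟨σ, hσ, hli⟩ := S.exists_rows (A := A) hZI h1 hA
  refine ⟨σ, hσ, ?_⟩
  rw [aeval_DenP]
  exact den_ne_of_li e hli

theorem ns_mem {A : Type} [Fintype A] [DecidableEq A] {Z I : Finset (Fin q)} (hZI : Z ⊆ I)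
    (e : Z ⊕ A ≃ O n) (j : Fin (n + 1)) :
    (X j : MvPolynomial (Fin (n + 1)) F) ∈ (Ideal.span ({g | ∃ i ∈ I, g = S.f i} ∪
      {g | ∃ σ : A → Fin q ⊕ O n, Adapted Z I σ ∧ g = S.DenP e σ})).radical := by
  set J := Ideal.span ({g | ∃ i ∈ I, g = S.f i} ∪
      {g | ∃ σ : A → Fin q ⊕ O n, Adapted Z I σ ∧ g = S.DenP e σ}) with hJ
  by_contra hcon
  rw [Ideal.radical_eq_jacobson, Ideal.jacobson, Submodule.mem_sInf] at hcon
  push Not at hcon
  obtain ⟨M, ⟨hJM, hM⟩, hXM⟩ := hcon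
  let _ : Field (MvPolynomial (Fin (n + 1)) F ⧸ M) := Ideal.Quotient.field M
  have hfin : Module.Finite F (MvPolynomial (Fin (n + 1)) F ⧸ M) :=
    finite_of_finite_type_of_isJacobsonRing F (MvPolynomial (Fin (n + 1)) F ⧸ M)
  set y : Fin (n + 1) → MvPolynomial (Fin (n + 1)) F ⧸ M :=
    fun l => Ideal.Quotient.mk M (X l) with hy
  have hev : ∀ g : MvPolynomial (Fin (n + 1)) F, aeval y g = Ideal.Quotient.mk M g := by
    intro g
    have h1 : (aeval y : MvPolynomial (Fin (n + 1)) F →ₐ[F] MvPolynomial (Fin (n + 1)) F ⧸ M) =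
        Ideal.Quotient.mkₐ F M := by
      apply MvPolynomial.algHom_ext
      intro l
      rw [aeval_X]
      rfl
    rw [h1]
    rfl
  have hyj : y j ≠ 0 := by
    intro h0
    exact hXM (Ideal.Quotient.eq_zero_iff_mem.1 h0)
  obtain ⟨σ, hσ, hne⟩ := S.exists_den_ne (L := MvPolynomial (Fin (n + 1)) F ⧸ M) hZI e
    (x := y) ⟨j, hyj⟩ (by
      intro i hi
      rw [hev, Ideal.Quotient.eq_zero_iff_mem]
      exact hJM (Ideal.subset_span (Or.inl ⟨i, hi, rfl⟩)))
  apply hne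
  rw [hev, Ideal.Quotient.eq_zero_iff_mem]
  exact hJM (Ideal.subset_span (Or.inr ⟨σ, hσ, rfl⟩))

open Classical in
theorem ns {A : Type} [Fintype A] [DecidableEq A] {Z I : Finset (Fin q)} (hZI : Z ⊆ I)
    (e : Z ⊕ A ≃ O n) (j : Fin (n + 1)) :
    ∃ (M : ℕ) (a : Fin q → MvPolynomial (Fin (n + 1)) F)
      (b : (A → Fin q ⊕ O n) → MvPolynomial (Fin (n + 1)) F),
      (X j : MvPolynomial (Fin (n + 1)) F) ^ M = ∑ i ∈ I, a i * S.f i +
        ∑ σ ∈ Finset.univ.filter (fun σ : A → Fin q ⊕ O n => Adapted Z I σ), b σ * S.DenP e σ := by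
  obtain ⟨M, hM⟩ := S.ns_mem hZI e j
  refine ⟨M, ?_⟩
  have hset : ({g | ∃ i ∈ I, g = S.f i} ∪
      {g | ∃ σ : A → Fin q ⊕ O n, Adapted Z I σ ∧ g = S.DenP e σ}) =
      Set.range (Sum.elim (fun i : I => S.f i)
        fun σ : {σ : A → Fin q ⊕ O n // Adapted Z I σ} => S.DenP e σ.1) := by
    ext g
    constructor
    · rintro (⟨i, hi, rfl⟩ | ⟨σ, hσ, rfl⟩)
      · exact ⟨Sum.inl ⟨i, hi⟩, rfl⟩
      · exact ⟨Sum.inr ⟨σ, hσ⟩, rfl⟩
    · rintro ⟨i | σ, rfl⟩
      · exact Or.inl ⟨i, i.2, rfl⟩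
      · exact Or.inr ⟨σ.1, σ.2, rfl⟩
  rw [hset] at hM
  obtain ⟨c, hc⟩ := (Ideal.mem_span_range_iff_exists_fun).1 hM
  rw [Fintype.sum_sum_type] at hc
  simp only [Sum.elim_inl, Sum.elim_inr] at hc
  refine ⟨fun i => if h : i ∈ I then c (Sum.inl ⟨i, h⟩) else 0,
    fun σ => if h : Adapted Z I σ then c (Sum.inr ⟨σ, h⟩) else 0, ?_⟩
  rw [← hc]
  congr 1
  · rw [← Finset.sum_coe_sort I]
    refine Finset.sum_congr rfl fun i _ => ?_
    simp only [dif_pos i.2]
  · rw [← Finset.sum_subtype_eq_sum_filter, Finset.subtype_univ]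
    refine Finset.sum_congr rfl fun σ _ => ?_
    simp only [dif_pos σ.2]

end Pool.Agent.TH875.Vg.Sys
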