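import Pool.Agent.TH875.Vg.FinXU

/-! Linear forms without common zeros on a projective variety. -/

set_option autoImplicit false

open FF MvPolynomial
open Pool.Agent.W603.LV Pool.Agent.W603.PV

namespace Pool.Agent.TH875.Vg

variable {F : Type} [Field F] {n m : ℕ}

/-- the linear form with the given coefficients -/
noncomputable def lp (c : Fin (n + 1) → F) : MvPolynomial (Fin (n + 1)) F := ∑ a, C (c a) * X a

theorem lp_hom (c : Fin (n + 1) → F) : (lp c).IsHomogeneous 1 := by
  unfold lp
  refine IsHomogeneous.sum _ _ _ fun a _ => ?_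
  exact (isHomogeneous_X _ _).C_mul _

theorem lp_single (a : Fin (n + 1)) : lp (Pi.single a 1 : Fin (n + 1) → F) = X a := by
  unfold lp
  rw [Finset.sum_eq_single a]
  · rw [Pi.single_eq_same, C_1, one_mul]
  · intro b _ hb
    rw [Pi.single_eq_of_ne hb, C_0, zero_mul]
  · simp

theorem aeval_lp {L : Type} [Field L] [Algebra F L] (c : Fin (n + 1) → F)
    (x : Fin (n + 1) → L) : aeval x (lp c) = lv c x := by
  unfold lp lv
  rw [map_sum]
  refine Finset.sum_congr rfl fun a _ => ?_
  rw [map_mul, aeval_X, aeval_C]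

theorem hc_mul {σ : Type} {g l : MvPolynomial σ F} (hl : l.IsHomogeneous 1) (N : ℕ) :
    homogeneousComponent (N + 1) (g * l) = homogeneousComponent N g * l := by
  have h1 : g * l = ∑ i ∈ Finset.range (g.totalDegree + 1), homogeneousComponent i g * l := by
    rw [← Finset.sum_mul, sum_homogeneousComponent]
  rw [h1, map_sum]
  have h2 : ∀ i, homogeneousComponent (N + 1) (homogeneousComponent i g * l) =
      if N = i then homogeneousComponent i g * l else 0 := by
    intro i
    rw [homogeneousComponent_of_mem (n := i + 1)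
      ((homogeneousComponent_isHomogeneous i g).mul hl)]
    by_cases h : N = i
    · rw [if_pos h, if_pos (by rw [h])]
    · rw [if_neg h, if_neg (by omega)]
  rw [Finset.sum_congr rfl fun i _ => h2 i, Finset.sum_ite_eq]
  by_cases h : N ∈ Finset.range (g.totalDegree + 1)
  · rw [if_pos h]
  · rw [if_neg h, homogeneousComponent_eq_zero, zero_mul]
    rw [Finset.mem_range] at h
    omega

theorem hc_aeval {σ τ : Type} {y : σ → MvPolynomial τ F} (hy : ∀ i, (y i).IsHomogeneous 1)
    (N : ℕ) (g : MvPolynomial σ F) :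
    homogeneousComponent N (aeval y g) = aeval y (homogeneousComponent N g) := by
  have h1 : aeval y g = ∑ i ∈ Finset.range (g.totalDegree + 1),
      aeval y (homogeneousComponent i g) := by
    rw [← map_sum, sum_homogeneousComponent]
  rw [h1, map_sum]
  have h2 : ∀ i, homogeneousComponent N (aeval y (homogeneousComponent i g)) =
      if N = i then aeval y (homogeneousComponent i g) else 0 := by
    intro i
    have h3 := (homogeneousComponent_isHomogeneous i g).aeval y hy
    rw [one_mul] at h3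
    rw [homogeneousComponent_of_mem (n := i) h3]
  rw [Finset.sum_congr rfl fun i _ => h2 i, Finset.sum_ite_eq]
  by_cases h : N ∈ Finset.range (g.totalDegree + 1)
  · rw [if_pos h]
  · rw [if_neg h, homogeneousComponent_eq_zero, map_zero]
    rw [Finset.mem_range] at h
    omega

variable {I : Ideal (MvPolynomial (Fin (n + 1)) F)} {p : Fin (m + 1) → Fin (n + 1) → F}

theorem mem_radical
    (hp : ∀ (E : Type) [Field E] [Algebra F E] [FiniteDimensional F E] (y : Fin (n + 1) → E),
      (∀ f ∈ I, aeval y f = 0) → (∀ i, lv (p i) y = 0) → y = 0) (a : Fin (n + 1)) :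
    (X a : MvPolynomial (Fin (n + 1)) F) ∈
      (I ⊔ Ideal.span (Set.range fun i => lp (p i))).radical := by
  set J := I ⊔ Ideal.span (Set.range fun i => lp (p i)) with hJ
  by_contra hcon
  rw [Ideal.radical_eq_jacobson, Ideal.jacobson, Submodule.mem_sInf] at hcon
  push Not at hcon
  obtain ⟨M, ⟨hJM, hM⟩, hXM⟩ := hcon
  let _ : Field (MvPolynomial (Fin (n + 1)) F ⧸ M) := Ideal.Quotient.field M
  have hfin : Module.Finite F (MvPolynomial (Fin (n + 1)) F ⧸ M) :=
    finite_of_finite_type_of_isJacobsonRing F (MvPolynomial (Fin (n + 1)) F ⧸ M)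
  set y : Fin (n + 1) → MvPolynomial (Fin (n + 1)) F ⧸ M :=
    fun l => Ideal.Quotient.mk M (X l) with hy
  have hev : ∀ g : MvPolynomial (Fin (n + 1)) F, aeval y g = Ideal.Quotient.mk M g := by
    intro g
    have h1 : (aeval y : MvPolynomial (Fin (n + 1)) F →ₐ[F] MvPolynomial (Fin (n + 1)) F ⧸ M) =
        Ideal.Quotient.mkₐ F M := by
      apply MvPolynomial.algHom_ext
      intro l
      rw [aeval_X]
      rfl
    rw [h1]
    rfl
  have h0 := hp (MvPolynomial (Fin (n + 1)) F ⧸ M) y (by
    intro f hf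
    rw [hev, Ideal.Quotient.eq_zero_iff_mem]
    exact hJM (Ideal.mem_sup_left hf)) (by
    intro i
    rw [← aeval_lp, hev, Ideal.Quotient.eq_zero_iff_mem]
    exact hJM (Ideal.mem_sup_right (Ideal.subset_span ⟨i, rfl⟩)))
  exact hXM (Ideal.Quotient.eq_zero_iff_mem.1 (congrFun h0 a))

theorem exists_pow (hI : ∀ f ∈ I, ∀ N, homogeneousComponent N f ∈ I)
    (hp : ∀ (E : Type) [Field E] [Algebra F E] [FiniteDimensional F E] (y : Fin (n + 1) → E),
      (∀ f ∈ I, aeval y f = 0) → (∀ i, lv (p i) y = 0) → y = 0) (a : Fin (n + 1)) :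
    ∃ (N : ℕ) (g : Fin (m + 1) → MvPolynomial (Fin (n + 1)) F),
      (∀ i, (g i).IsHomogeneous N) ∧ X a ^ (N + 1) - ∑ i, g i * lp (p i) ∈ I := by
  obtain ⟨N, hN⟩ := mem_radical hp a
  have h1 : (X a : MvPolynomial (Fin (n + 1)) F) ^ (N + 1) ∈
      I ⊔ Ideal.span (Set.range fun i => lp (p i)) := by
    rw [pow_succ]
    exact Ideal.mul_mem_right _ _ hN
  rw [Submodule.mem_sup] at h1
  obtain ⟨f, hf, r, hr, hfr⟩ := h1
  obtain ⟨c, hc⟩ := (Ideal.mem_span_range_iff_exists_fun).1 hr
  refine ⟨N, fun i => homogeneousComponent N (c i),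
    fun i => homogeneousComponent_isHomogeneous N (c i), ?_⟩
  have h2 := congrArg (homogeneousComponent (N + 1)) hfr
  rw [map_add, ← hc, map_sum, homogeneousComponent_eq_self (isHomogeneous_X_pow a (N + 1))] at h2
  rw [← h2, Finset.sum_congr rfl fun i _ => hc_mul (lp_hom (p i)) N, add_sub_cancel_right]
  exact hI f hf _

open Classical in
/-- The coordinate ring is finite over the ring generated by the linear forms. -/
theorem exists_integral (hI : ∀ f ∈ I, ∀ N, homogeneousComponent N f ∈ I)
    (hp : ∀ (E : Type) [Field E] [Algebra F E] [FiniteDimensional F E] (y : Fin (n + 1) → E),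
      (∀ f ∈ I, aeval y f = 0) → (∀ i, lv (p i) y = 0) → y = 0) (a : Fin (n + 1)) :
    ∃ P : Polynomial (MvPolynomial (Fin (m + 1)) F), P.Monic ∧
      Polynomial.eval₂ ((aeval fun i => Ideal.Quotient.mk I (lp (p i)) :
        MvPolynomial (Fin (m + 1)) F →ₐ[F] MvPolynomial (Fin (n + 1)) F ⧸ I) :
          MvPolynomial (Fin (m + 1)) F →+* MvPolynomial (Fin (n + 1)) F ⧸ I)
        (Ideal.Quotient.mk I (X a)) P = 0 := by
  choose N g hg hNg using exists_pow hI hp
  obtain ⟨φ, hφ⟩ : ∃ φ : MvPolynomial (Fin (m + 1)) F →ₐ[F] MvPolynomial (Fin (n + 1)) F ⧸ I,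
      φ = aeval fun i => Ideal.Quotient.mk I (lp (p i)) := ⟨_, rfl⟩
  rw [← hφ]
  let _ : Algebra (MvPolynomial (Fin (m + 1)) F) (MvPolynomial (Fin (n + 1)) F ⧸ I) :=
    (φ : MvPolynomial (Fin (m + 1)) F →+* MvPolynomial (Fin (n + 1)) F ⧸ I).toAlgebra
  let _ : Module (MvPolynomial (Fin (m + 1)) F) (MvPolynomial (Fin (n + 1)) F ⧸ I) :=
    Algebra.toModule
  have hsmul : ∀ (b : MvPolynomial (Fin (m + 1)) F) (c : MvPolynomial (Fin (n + 1)) F ⧸ I),
      b • c = φ b * c := fun b c => rfl
  obtain ⟨W, hW⟩ : ∃ W : Submodule (MvPolynomial (Fin (m + 1)) F)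
      (MvPolynomial (Fin (n + 1)) F ⧸ I), W = Submodule.span _
        (Set.range fun β : (e : Fin (n + 1)) → Fin (N e + 1) =>
          Ideal.Quotient.mk I (∏ e, X e ^ (β e : ℕ))) := ⟨_, rfl⟩
  have hC : ∀ (c : F) (f : MvPolynomial (Fin (n + 1)) F), Ideal.Quotient.mk I f ∈ W →
      Ideal.Quotient.mk I (C c * f) ∈ W := by
    intro c f hf
    have h1 := W.smul_mem (C c) hf
    rw [hsmul, hφ, aeval_C] at h1
    rw [map_mul]
    exact h1
  have key : ∀ (D : ℕ) (f : MvPolynomial (Fin (n + 1)) F), f.IsHomogeneous D →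
      Ideal.Quotient.mk I f ∈ W := by
    intro D
    induction D with
    | zero =>
      intro f hf
      rw [← totalDegree_zero_iff_isHomogeneous, totalDegree_eq_zero_iff_eq_C] at hf
      rw [hf, ← mul_one (C _)]
      refine hC _ _ ?_
      rw [hW]
      refine Submodule.subset_span ⟨fun _ => 0, ?_⟩
      simp
    | succ D ih =>
      intro f hf
      rw [f.as_sum, map_sum]
      refine Submodule.sum_mem _ fun α hα => ?_
      have h1 : monomial α (f.coeff α) = C (f.coeff α) * monomial α 1 := by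
        rw [C_mul_monomial, mul_one]
      rw [h1]
      refine hC _ _ ?_
      have hdeg : α.degree = D + 1 := hom_degree hf (mem_support_iff.1 hα)
      by_cases hα2 : ∀ e, α e < N e + 1
      · rw [hW]
        refine Submodule.subset_span ⟨fun e => ⟨α e, hα2 e⟩, ?_⟩
        rw [monomial_eq, C_1, one_mul, Finsupp.prod_fintype]
        simp
      · push Not at hα2
        obtain ⟨e, he⟩ := hα2
        obtain ⟨β, hβ⟩ : ∃ β, α = β + Finsupp.single e (N e + 1) :=
          ⟨α - Finsupp.single e (N e + 1), (tsub_add_cancel_of_le (by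
            rw [Finsupp.single_le_iff]; exact he)).symm⟩
        have hβdeg : β.degree + N e = D := by
          rw [hβ, map_add, Finsupp.degree_single] at hdeg
          omega
        have h2 : monomial α (1 : F) = monomial β 1 * X e ^ (N e + 1) := by
          rw [hβ, X_pow_eq_monomial, monomial_mul, one_mul]
        have h3 : Ideal.Quotient.mk I (X e ^ (N e + 1)) =
            Ideal.Quotient.mk I (∑ i, g e i * lp (p i)) := by
          rw [Ideal.Quotient.eq]
          exact hNg e
        rw [h2, map_mul, h3, ← map_mul, Finset.mul_sum, map_sum]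
        refine Submodule.sum_mem _ fun i _ => ?_
        have h4 := ih (monomial β 1 * g e i) (by
          have := (isHomogeneous_monomial (1 : F) (rfl : β.degree = β.degree)).mul (hg e i)
          rwa [hβdeg] at this)
        have h5 := W.smul_mem (X i) h4
        rw [hsmul, hφ, aeval_X, ← map_mul] at h5
        have h6 : monomial β 1 * (g e i * lp (p i)) = lp (p i) * (monomial β 1 * g e i) := by ring
        rw [h6]
        exact h5
  have htop : W = ⊤ := by
    rw [eq_top_iff]
    intro c _
    obtain ⟨f, rfl⟩ := Ideal.Quotient.mk_surjective c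
    rw [← sum_homogeneousComponent f, map_sum]
    exact Submodule.sum_mem _ fun i _ => key i _ (homogeneousComponent_isHomogeneous i f)
  have hfin : Module.Finite (MvPolynomial (Fin (m + 1)) F) (MvPolynomial (Fin (n + 1)) F ⧸ I) := by
    rw [Module.finite_def, ← htop, hW]
    exact Submodule.fg_span (Set.finite_range _)
  exact IsIntegral.of_finite (MvPolynomial (Fin (m + 1)) F) (Ideal.Quotient.mk I (X a))

/-- the coordinate `a` and the linear forms `p` -/
def cp (a : Fin (n + 1)) (p : Fin (m + 1) → Fin (n + 1) → F) : Fin (m + 2) → Fin (n + 1) → F :=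
  Fin.cons (Pi.single a 1) p

/-- An integral equation. -/
theorem exists_Phi (hI : ∀ f ∈ I, ∀ N, homogeneousComponent N f ∈ I)
    (hp : ∀ (E : Type) [Field E] [Algebra F E] [FiniteDimensional F E] (y : Fin (n + 1) → E),
      (∀ f ∈ I, aeval y f = 0) → (∀ i, lv (p i) y = 0) → y = 0) (a : Fin (n + 1)) :
    ∃ (N : ℕ) (Φ : MvPolynomial (Fin (m + 2)) F), Φ.IsHomogeneous N ∧
      Φ.coeff (Finsupp.single 0 N) = 1 ∧ aeval (fun j => lp (cp a p j)) Φ ∈ I := by
  obtain ⟨P, hP, hP0⟩ := exists_integral hI hp a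
  obtain ⟨Φ', hΦ'⟩ : ∃ Φ' : MvPolynomial (Fin (m + 2)) F, finSuccEquiv F (m + 1) Φ' = P :=
    (finSuccEquiv F (m + 1)).surjective P
  have h1 : ((Ideal.Quotient.mkₐ F I).comp (aeval fun j => lp (cp a p j))) =
      (Polynomial.eval₂AlgHom (aeval fun i => Ideal.Quotient.mk I (lp (p i)) :
        MvPolynomial (Fin (m + 1)) F →ₐ[F] MvPolynomial (Fin (n + 1)) F ⧸ I)
        (Ideal.Quotient.mk I (X a)) (fun _ => Commute.all _ _)).comp
        (finSuccEquiv F (m + 1)).toAlgHom := by
    apply MvPolynomial.algHom_ext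
    intro j
    refine Fin.cases ?_ (fun i => ?_) j
    · simp only [cp, lp_single, AlgHom.comp_apply, aeval_X, Fin.cons_zero, Ideal.Quotient.mkₐ_eq_mk]
      change _ = Polynomial.eval₂ _ _ (finSuccEquiv F (m + 1) (X 0))
      rw [finSuccEquiv_X_zero, Polynomial.eval₂_X]
    · simp only [cp, AlgHom.comp_apply, aeval_X, Fin.cons_succ, Ideal.Quotient.mkₐ_eq_mk]
      change _ = Polynomial.eval₂ _ _ (finSuccEquiv F (m + 1) (X i.succ))
      rw [finSuccEquiv_X_succ, Polynomial.eval₂_C]
      simp
  have h2 : aeval (fun j => lp (cp a p j)) Φ' ∈ I := by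
    rw [← Ideal.Quotient.eq_zero_iff_mem]
    have h3 := congrArg (fun φ => φ Φ') h1
    simp only [AlgHom.comp_apply] at h3
    have h4 : (finSuccEquiv F (m + 1)).toAlgHom Φ' = P := hΦ'
    rw [h4] at h3
    exact h3.trans hP0
  refine ⟨P.natDegree, homogeneousComponent P.natDegree Φ',
    homogeneousComponent_isHomogeneous _ _, ?_, ?_⟩
  · rw [coeff_homogeneousComponent, if_pos (by rw [Finsupp.degree_single])]
    have h3 := finSuccEquiv_coeff_coeff (R := F) (0 : Fin (m + 1) →₀ ℕ) Φ' P.natDegree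
    rw [hΦ', Polynomial.Monic.coeff_natDegree hP, coeff_zero_one] at h3
    rw [h3]
    congr 1
    ext j
    refine Fin.cases ?_ (fun i => ?_) j
    · simp
    · simp
  · rw [← hc_aeval fun j => lp_hom _]
    exact hI _ h2 _

end Pool.Agent.TH875.Vg
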