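import Pool.Agent.TH875.Vg.LocD
import Pool.Agent.TH875.Vg.FinE

/-! Curves with high contact orders. -/

set_option autoImplicit false

open FF MvPolynomial
open Pool.Agent.W603.LV Pool.Agent.W603.PV

namespace Pool.Agent.TH875.Vg

variable {k : Type} [Field k] [CharZero k] [IsAlgClosed k] {L : Type} [Field L] [Algebra k L]
  [IsFF k L] {n q : ℕ}

theorem hgt_pos_of_tr {t : L} (ht : Transcendental k t) : 0 < hgt k t := by
  by_contra hcon
  push Not at hcon
  obtain ⟨c, hc⟩ := const_of_hgt hcon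
  exact ht (by rw [hc]; exact isAlgebraic_algebraMap c)

/-- a point of positive height is not constant -/
theorem nonconst_of_pht {x : Fin (n + 1) → L} (hx : ∃ j, x j ≠ 0) (h : 0 < pht k x) :
    ∃ a b, x b ≠ 0 ∧ Transcendental k (x a / x b) := by
  classical
  obtain ⟨b, hb⟩ := id hx
  by_contra hcon
  push Not at hcon
  have h1 : ∀ a, ∃ c : k, x a / x b = algebraMap k L c := by
    intro a
    by_contra h2
    apply hcon a b hb
    intro h3
    apply h2
    have h4 := IsAlgClosed.degree_eq_one_of_irreducible k (minpoly.irreducible h3.isIntegral)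
    obtain ⟨c, hc⟩ := minpoly.mem_range_of_degree_eq_one k _ h4
    exact ⟨c, hc.symm⟩
  obtain ⟨T, hT⟩ := exists_supp (k := k) (Finset.univ : Finset (Fin (n + 1))) x
  have hTx : ∀ j, ∀ P : Place k L, P.ord (x j) ≠ 0 → P ∈ T := fun j P hP =>
    hT j (Finset.mem_univ _) P hP
  have h2 : ∀ P : Place k L, pord P x = P.ord (x b) := by
    intro P
    obtain ⟨j, hj, hjo⟩ := exists_pord P hx
    rw [← hjo]
    obtain ⟨c, hc⟩ := h1 j
    have hc0 : c ≠ 0 := by
      rintro rfl
      rw [map_zero, div_eq_zero_iff] at hc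
      exact hc.elim hj hb
    have h3 : x j = algebraMap k L c * x b := by
      rw [← hc, div_mul_cancel₀ _ hb]
    rw [h3, P.ord_mul ((map_ne_zero _).2 hc0) hb, P.ord_const hc0, zero_add]
  rw [Sys.pht_finset hx T hTx, Finset.sum_congr rfl fun P _ => h2 P,
    sum_ord_finset _ T (hTx b)] at h
  simp at h

/-- the total contact order with a form -/
theorem sum_contact {x : Fin (n + 1) → L} (hx : ∃ j, x j ≠ 0) {d : ℕ}
    {G : MvPolynomial (Fin (n + 1)) k} (hG : G.IsHomogeneous d) (hGx : aeval x G ≠ 0)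
    (T : Finset (Place k L)) (hTx : ∀ j, ∀ P : Place k L, P.ord (x j) ≠ 0 → P ∈ T)
    (hTG : ∀ P : Place k L, P.ord (aeval x G) ≠ 0 → P ∈ T) :
    ∑ P ∈ T, (P.ord (aeval x G) - d * pord P x) = d * pht k x := by
  rw [Finset.sum_sub_distrib, sum_ord_finset _ T hTG, ← Finset.mul_sum, Sys.pht_finset hx T hTx]
  ring

open Classical in
/-- The number of the places where the curve meets the hypersurfaces. -/
theorem ncard_cmt_le {d e : Fin q → ℕ} (he : ∀ i, 0 < e i)
    {g : Fin q → MvPolynomial (Fin (n + 1)) k} (hg : ∀ i, (g i).IsHomogeneous (d i))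
    {x : Fin (n + 1) → L} (hx : ∃ j, x j ≠ 0)
    (horb : ∀ P : Place k L, ∀ i, aeval x (g i) ≠ 0 →
      (d i : ℤ) * pord P x < P.ord (aeval x (g i)) →
      (d i : ℤ) * pord P x + e i ≤ P.ord (aeval x (g i))) :
    ((cmt d g x).ncard : ℚ) ≤
      ∑ i, (d i / e i : ℚ) * pht k x := by
  obtain ⟨T1, hT1⟩ := exists_supp (k := k) (Finset.univ : Finset (Fin (n + 1))) x
  obtain ⟨T2, hT2⟩ := exists_supp (k := k) (Finset.univ : Finset (Fin q)) fun i => aeval x (g i)
  obtain ⟨T, hTd⟩ : ∃ T, T = T1 ∪ T2 := ⟨_, rfl⟩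
  have hTx : ∀ j, ∀ P : Place k L, P.ord (x j) ≠ 0 → P ∈ T := fun j P hP => by
    rw [hTd]; exact Finset.mem_union_left _ (hT1 j (Finset.mem_univ _) P hP)
  have hTg : ∀ i, ∀ P : Place k L, P.ord (aeval x (g i)) ≠ 0 → P ∈ T := fun i P hP => by
    rw [hTd]; exact Finset.mem_union_right _ (hT2 i (Finset.mem_univ _) P hP)
  have hsub : cmt d g x ⊆ (T : Set (Place k L)) := by
    rintro P ⟨i, h1, h2⟩
    by_contra hcon
    have h3 : P.ord (aeval x (g i)) = 0 := by by_contra h; exact hcon (hTg i P h)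
    have h4 : pord P x = 0 := Sys.pord_eq_zero P hx fun j => by
      by_contra h; exact hcon (hTx j P h)
    rw [h3, h4, mul_zero] at h2
    exact lt_irrefl _ h2
  have hcard : ((cmt d g x).ncard : ℚ) = ∑ P ∈ T, (if P ∈ cmt d g x then (1 : ℚ) else 0) := by
    rw [← Finset.sum_filter, Finset.sum_const, nsmul_eq_mul, mul_one]
    congr 1
    rw [Set.ncard_eq_toFinset_card _ ((Finset.finite_toSet T).subset hsub)]
    congr 1
    ext P
    rw [Finset.mem_filter, Set.Finite.mem_toFinset]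
    exact ⟨fun h => ⟨hsub h, h⟩, fun h => h.2⟩
  have hnn : ∀ i, ∀ P : Place k L, aeval x (g i) ≠ 0 →
      0 ≤ P.ord (aeval x (g i)) - d i * pord P x := by
    intro i P h
    have h1 := (ge_form P x (hg i) fun α _ => Ge.const _).resolve_left h
    linarith
  obtain ⟨φ, hφ⟩ : ∃ φ : Fin q → Place k L → ℚ, φ = fun i P =>
      if aeval x (g i) = 0 then 0 else ((P.ord (aeval x (g i)) - d i * pord P x : ℤ) : ℚ) / e i :=
    ⟨_, rfl⟩
  have hφn : ∀ i P, 0 ≤ φ i P := by
    intro i P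
    rw [hφ]
    simp only
    split_ifs with h
    · exact le_rfl
    · have h1 := hnn i P h
      have : (0 : ℚ) ≤ ((P.ord (aeval x (g i)) - d i * pord P x : ℤ) : ℚ) := by exact_mod_cast h1
      positivity
  rw [hcard]
  have h1 : ∑ P ∈ T, (if P ∈ cmt d g x then (1 : ℚ) else 0) ≤ ∑ P ∈ T, ∑ i, φ i P := by
    refine Finset.sum_le_sum fun P _ => ?_
    split_ifs with hP
    · obtain ⟨i, h2, h3⟩ := hP
      have h4 := horb P i h2 h3
      have h5 : (1 : ℚ) ≤ φ i P := by
        rw [hφ]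
        simp only
        rw [if_neg h2, le_div_iff₀ (by exact_mod_cast he i), one_mul]
        have : (e i : ℤ) ≤ P.ord (aeval x (g i)) - d i * pord P x := by linarith
        exact_mod_cast this
      exact h5.trans (Finset.single_le_sum (f := fun i => φ i P) (fun i _ => hφn i P)
        (Finset.mem_univ i))
    · exact Finset.sum_nonneg fun i _ => hφn i P
  refine h1.trans ?_
  rw [Finset.sum_comm]
  refine Finset.sum_le_sum fun i _ => ?_
  have hpos : (0 : ℚ) ≤ pht k x := by exact_mod_cast pht_nonneg hx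
  by_cases h : aeval x (g i) = 0
  · rw [Finset.sum_eq_zero fun P _ => by rw [hφ]; simp only; rw [if_pos h]]
    positivity
  · have h2 : ∑ P ∈ T, φ i P =
        ((∑ P ∈ T, (P.ord (aeval x (g i)) - d i * pord P x) : ℤ) : ℚ) / e i := by
      rw [Int.cast_sum, Finset.sum_div]
      refine Finset.sum_congr rfl fun P _ => ?_
      rw [hφ]
      simp only
      rw [if_neg h]
    rw [h2, sum_contact hx (hg i) h T hTx (hTg i)]
    push_cast
    apply le_of_eq
    ring

/-- The height of the image of a point under a morphism given by forms without common zeros. -/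
theorem pht_map {N : ℕ} {J : Ideal (MvPolynomial (Fin (N + 1)) k)}
    (hJ : ∀ f ∈ J, ∀ M, homogeneousComponent M f ∈ J) {z : Fin (N + 1) → L}
    (hz0 : ∃ j, z j ≠ 0)
    (hz : ∀ f ∈ J, aeval z f = 0) {c : ℕ} {p : Fin (n + 1) → MvPolynomial (Fin (N + 1)) k}
    (hp : ∀ j, (p j).IsHomogeneous c)
    (hrad : ∀ j, X j ∈ (J ⊔ Ideal.span (Set.range p)).radical) :
    (∃ j, aeval z (p j) ≠ 0) ∧ pht k (fun j => aeval z (p j)) = c * pht k z := by
  classical
  obtain ⟨P0⟩ : Nonempty (Place k L) := by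
    obtain ⟨t, ht⟩ := IsFF.exists_transcendental (k := k) (K := L)
    by_contra hcon
    have h1 := hgt_pos_of_tr ht
    have h2 : hgt k t = 0 := by
      rw [hgt_finset t ∅ fun P _ => (hcon ⟨P⟩).elim]
      simp
    omega
  have hx := (pord_map P0 hJ hz0 hz hp hrad).1
  refine ⟨hx, ?_⟩
  obtain ⟨T1, hT1⟩ := exists_supp (k := k) (Finset.univ : Finset (Fin (N + 1))) z
  obtain ⟨T2, hT2⟩ := exists_supp (k := k) (Finset.univ : Finset (Fin (n + 1)))
    fun j => aeval z (p j)
  rw [Sys.pht_finset hx (T1 ∪ T2) (fun j P hP =>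
    Finset.mem_union_right _ (hT2 j (Finset.mem_univ _) P hP)),
    Sys.pht_finset hz0 (T1 ∪ T2) (fun j P hP =>
    Finset.mem_union_left _ (hT1 j (Finset.mem_univ _) P hP)),
    Finset.sum_congr rfl fun P _ => (pord_map P hJ hz0 hz hp hrad).2, ← Finset.mul_sum]
  ring

open Classical in
/-- The inequality for curves with high contact orders. -/
theorem final_O {d e : Fin q → ℕ} (hd : ∀ i, 0 < d i) (he : ∀ i, 0 < e i)
    {I : Ideal (MvPolynomial (Fin (n + 1)) k)}
    (hI : ∀ f ∈ I, ∀ N, homogeneousComponent N f ∈ I) {m : ℕ}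
    (hdim : Algebra.trdeg k (MvPolynomial (Fin (n + 1)) k ⧸ I) ≤ m + 1) :
    ∃ k₁ : Subfield k, Countable k₁ ∧
      ∀ g : Fin q → MvPolynomial (Fin (n + 1)) k, (∀ i, (g i).IsHomogeneous (d i)) →
      AlgebraicIndependent k₁ (fun p : (i : Fin q) × Expo n (d i) => (g p.1).coeff p.2.1) →
      ∀ (L : Type) [Field L] [Algebra k L] [IsFF k L] (x : Fin (n + 1) → L),
        (∃ a b, x b ≠ 0 ∧ Transcendental k (x a / x b)) → (∀ f ∈ I, aeval x f = 0) →
        (∀ P : Place k L, ∀ i, aeval x (g i) ≠ 0 →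
          (d i : ℤ) * pord P x < P.ord (aeval x (g i)) →
          (d i : ℤ) * pord P x + e i ≤ P.ord (aeval x (g i))) →
        ∃ r : ℕ, r ≤ m ∧ ∃ u : Fin (r + 1) → Fin (n + 1) → L, LinearIndependent L u ∧
          x ∈ Submodule.span L (Set.range u) ∧
          (∀ D : Derivation k L L, (fun j => D (x j)) ∈ Submodule.span L (Set.range u)) ∧
          (∀ i, ∀ f ∈ I, ∑ j, aeval x (pderiv j f) * u i j = 0) ∧
          (∑ i, (d i : ℚ) * (1 - 1 / e i) - 2 * r) * pht k x + ght k (mins u) ≤ canDeg k L := by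
  obtain ⟨k₁, hk₁, h1⟩ := final_E (k := k) hd hI hdim
  refine ⟨k₁, hk₁, fun g hg hai L _ _ _ x hab hxI horb => ?_⟩
  obtain ⟨-, r, hr, u, hu, hxu, hDu, hut, h2⟩ := h1 g hg hai L x hab hxI
  refine ⟨r, hr, u, hu, hxu, hDu, hut, ?_⟩
  obtain ⟨a, b, hb, hab⟩ := hab
  have hx : ∃ j, x j ≠ 0 := ⟨b, hb⟩
  have h3 := ncard_cmt_le he hg hx horb
  have hpos : (0 : ℚ) ≤ pht k x := by exact_mod_cast pht_nonneg hx
  have h4 : (((∑ i, (d i : ℤ) - 2 * r +
            (Finset.univ.filter fun i => aeval x (g i) = 0).card) * pht k x + ght k (mins u) : ℤ) : ℚ) ≤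
            ((canDeg k L + (cmt d g x).ncard : ℤ) : ℚ) := by exact_mod_cast h2
  push_cast at h4
  have h5 : ∑ i, (d i : ℚ) * (1 - 1 / e i) * pht k x =
      ∑ i, (d i : ℚ) * pht k x - ∑ i, (d i / e i : ℚ) * pht k x := by
    rw [← Finset.sum_sub_distrib]
    refine Finset.sum_congr rfl fun i _ => ?_
    ring
  have h6 : (0 : ℚ) ≤ (Finset.univ.filter fun i => aeval x (g i) = 0).card * pht k x := by
    positivity
  rw [← Finset.sum_mul, ← Finset.sum_mul] at h5
  nlinarith [h3, h4, h5, h6]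

end Pool.Agent.TH875.Vg
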