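import Pool.Agent.TH875.Vg.NSU

/-! Derivatives of the points of a variety in terms of a finite projection. -/

set_option autoImplicit false

open FF MvPolynomial
open Pool.Agent.W603.LV Pool.Agent.W603.PV

namespace Pool.Agent.TH875.Vg

open Matrix Module Sys

variable {k F : Type} [Field k] [Field F] [Algebra k F] {n q m : ℕ} {S : Sys k F n q}
variable {L : Type} [Field L] [Algebra k L] [Algebra F L]

omit [Algebra k L] in
/-- A derivative of `Φ` vanishes at `z` with nonvanishing first partial derivative. -/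
theorem exists_smooth0 [CharZero k] {Dt : Derivation k F F} {M : ℕ} (z : Fin (M + 1) → L) :
    ∀ (N : ℕ) (Φ : MvPolynomial (Fin (M + 1)) F), Φ.IsHomogeneous N →
      (∀ α, S.Nice Dt (Φ.coeff α)) → Φ.coeff (Finsupp.single 0 N) ≠ 0 → aeval z Φ = 0 →
      ∃ (N' : ℕ) (Ψ : MvPolynomial (Fin (M + 1)) F), Ψ.IsHomogeneous N' ∧
        (∀ α, S.Nice Dt (Ψ.coeff α)) ∧ aeval z Ψ = 0 ∧ aeval z (pderiv 0 Ψ) ≠ 0 := by
  have hF : CharZero F := charZero_of_injective_algebraMap (algebraMap k F).injective
  intro N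
  induction N with
  | zero =>
    intro Φ hh _ hc h0
    exfalso
    rw [← totalDegree_zero_iff_isHomogeneous, totalDegree_eq_zero_iff_eq_C] at hh
    rw [hh, aeval_C, map_eq_zero] at h0
    rw [Finsupp.single_zero] at hc
    exact hc h0
  | succ N ih =>
    intro Φ hh hn hc h0
    by_cases hcase : aeval z (pderiv 0 Φ) ≠ 0
    · exact ⟨N + 1, Φ, hh, hn, h0, hcase⟩
    push Not at hcase
    refine ih (pderiv 0 Φ) ?_ (S.nice_pderiv hn 0) ?_ hcase
    · have := hh.pderiv (i := 0)
      simpa using this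
    · rw [coeff_pderiv, ← Finsupp.single_add, Finsupp.single_eq_same]
      refine mul_ne_zero hc ?_
      have : ((N + 1 : ℕ) : F) ≠ 0 := Nat.cast_ne_zero.2 (by omega)
      push_cast at this
      exact this

namespace Hyp

/-- A relation between the values of the differentials of linear forms on the vectors of `V`. -/
theorem rel_H {M : ℕ} (H : Hyp S (M + 1)) [IsScalarTower k F L] {Dt : Derivation k F F}
    {x : Fin (n + 1) → L} {N : ℕ} {Ψ : MvPolynomial (Fin (M + 1)) F} (hh : Ψ.IsHomogeneous N)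
    (hn : ∀ α, S.Nice Dt (Ψ.coeff α)) (h0 : aeval (fun j => H.ell x j) Ψ = 0) {v : O n → L}
    (hv : v ∈ S.V x) :
    aeval (fun j => H.ell x j) (cder Dt Ψ) * v none +
      ∑ j, aeval (fun j => H.ell x j) (pderiv j Ψ) * H.dell x j v = 0 := by
  unfold Sys.V at hv
  induction hv using Submodule.span_induction with
  | mem v hv =>
    rcases hv with hv | ⟨D, rfl⟩ | ⟨p, δ, hδ, rfl⟩
    · rw [Set.mem_singleton_iff] at hv
      rw [hv]
      simp only [dell_ext0]
      simp only [Sys.ext0, Option.elim, mul_zero, zero_add]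
      have h1 := congrArg (aeval (fun j => H.ell x j)) hh.sum_X_mul_pderiv
      rw [map_sum, map_nsmul, h0, smul_zero] at h1
      rw [← h1]
      refine Finset.sum_congr rfl fun j _ => ?_
      rw [map_mul, aeval_X, mul_comm]
    · have h1 := der_aeval (toZ D) (fun j => H.ell x j) Ψ
      rw [h0, map_zero] at h1
      simp only [dell_vecD]
      simp only [Sys.vec, Option.elim]
      rw [aeval_cder, ← cpart_mul]
      rw [cpart_congr (δ := fun a => (toZ D) (algebraMap F L a))
        (δ' := fun a => algebraMap F L (Dt a) * (toZ D) (algebraMap F L S.t))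
        (fun α => (hn α L).2 D)] at h1
      exact h1.symm
    · have h1 := der_aeval δ (fun j => H.ell x j) Ψ
      rw [h0, map_zero] at h1
      simp only [H.dell_vec hδ]
      simp only [Sys.vec, Option.elim]
      rw [aeval_cder, ← cpart_mul]
      rw [cpart_congr (δ := fun a => δ (algebraMap F L a))
        (δ' := fun a => algebraMap F L (Dt a) * δ (algebraMap F L S.t))
        (fun α => (hn α L).1 p δ hδ)] at h1
      exact h1.symm
  | zero => simp
  | add v w _ _ hv hw =>
    rw [Pi.add_apply, Finset.sum_congr rfl fun j _ => by rw [map_add, mul_add],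
      Finset.sum_add_distrib]
    linear_combination hv + hw
  | smul a v _ hv =>
    rw [Pi.smul_apply, Finset.sum_congr rfl fun j _ => by
      rw [map_smul, smul_eq_mul, mul_left_comm], ← Finset.mul_sum, smul_eq_mul]
    linear_combination a * hv

end Hyp

/-- the last entry and the values of the linear forms -/
noncomputable def pj (L : Type) [Field L] [Algebra F L] (p : Fin (m + 1) → Fin (n + 1) → F) :
    (O n → L) →ₗ[L] (O m → L) where
  toFun v o := o.elim (v none) fun i => ∑ c, algebraMap F L (p i c) * v (some c)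
  map_add' v w := by
    funext o
    rcases o with _ | o
    · rfl
    · simp [mul_add, Finset.sum_add_distrib]
  map_smul' c v := by
    funext o
    rcases o with _ | o
    · rfl
    · simp only [Option.elim, Pi.smul_apply, smul_eq_mul, RingHom.id_apply, Finset.mul_sum]
      exact Finset.sum_congr rfl fun a _ => by ring

/-- the projection is injective on the space of the derivatives -/
theorem pj_inj [IsScalarTower k F L] [CharZero k] {Dt : Derivation k F F}
    {p : Fin (m + 1) → Fin (n + 1) → F} {x : Fin (n + 1) → L}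
    (hH : ∀ a, ∃ H : Hyp S (m + 2), H.lam = cp a p)
    (hΦ : ∀ a, ∃ (N : ℕ) (Φ : MvPolynomial (Fin (m + 2)) F), Φ.IsHomogeneous N ∧
      (∀ α, S.Nice Dt (Φ.coeff α)) ∧ Φ.coeff (Finsupp.single 0 N) ≠ 0 ∧
      aeval (fun j => lv (cp a p j) x) Φ = 0)
    {v : O n → L} (hv : v ∈ S.V x) (h0 : pj L p v = 0) : v = 0 := by
  have hv0 : v none = 0 := congrFun h0 none
  have hvp : ∀ i, ∑ c, algebraMap F L (p i c) * v (some c) = 0 := fun i => congrFun h0 (some i)
  funext o
  rcases o with _ | a
  · exact hv0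
  obtain ⟨H, hH⟩ := hH a
  obtain ⟨N, Φ, h1, h2, h3, h4⟩ := hΦ a
  have hz : (fun j => lv (cp a p j) x) = fun j => H.ell x j := by
    funext j
    unfold lv Hyp.ell
    rw [hH]
  rw [hz] at h4
  obtain ⟨N', Ψ, h5, h6, h7, h8⟩ := exists_smooth0 (S := S) (Dt := Dt) _ N Φ h1 h2 h3 h4
  have h9 := H.rel_H h5 h6 h7 hv
  rw [hv0, mul_zero, zero_add, Fin.sum_univ_succ] at h9
  have h10 : ∀ i : Fin (m + 1), H.dell x i.succ v = 0 := by
    intro i
    rw [Hyp.dell_apply, hv0, mul_zero, zero_add, hH]
    exact hvp i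
  have h11 : H.dell x 0 v = v (some a) := by
    rw [Hyp.dell_apply, hv0, mul_zero, zero_add, hH]
    simp only [cp, Fin.cons_zero]
    rw [Finset.sum_eq_single a]
    · rw [Pi.single_eq_same, map_one, one_mul]
    · intro c _ hc
      rw [Pi.single_eq_of_ne hc, map_zero, zero_mul]
    · simp
  rw [Finset.sum_eq_zero fun i _ => by rw [h10 i, mul_zero], add_zero, h11] at h9
  exact (mul_eq_zero.1 h9).resolve_left h8

theorem finrank_pj {p : Fin (m + 1) → Fin (n + 1) → F} {K : Submodule L (O n → L)}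
    (hK : ∀ v ∈ K, pj L p v = 0 → v = 0) :
    finrank L (K.map (pj L p)) = finrank L K := by
  have h1 : Function.Injective ((pj L p).comp K.subtype) := by
    rw [← LinearMap.ker_eq_bot, LinearMap.ker_eq_bot']
    intro v hv
    exact Subtype.ext (hK v v.2 hv)
  have h2 := LinearMap.finrank_range_of_inj h1
  rw [LinearMap.range_comp, Submodule.range_subtype] at h2
  exact h2

omit [Algebra k F] in
/-- the integral equations show that not all of the linear forms are small -/
theorem far_p {P : Place k L} {p : Fin (m + 1) → Fin (n + 1) → F} {x : Fin (n + 1) → L}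
    (hx : ∃ j, x j ≠ 0) {a : ℤ} (ha : 0 ≤ a)
    (hΦ : ∀ c, ∃ (N : ℕ) (Φ : MvPolynomial (Fin (m + 2)) F), Φ.IsHomogeneous N ∧
      Φ.coeff (Finsupp.single 0 N) = 1 ∧ aeval (fun j => lv (cp c p j) x) Φ = 0 ∧
      ∀ α ∈ Φ.support, Ge P (-a) (algebraMap F L (Φ.coeff α))) :
    ¬ ∀ i, Ge P (pord P x + a + 1) (lv (p i) x) := by
  classical
  intro hcon
  obtain ⟨c, hc, hco⟩ := exists_pord P hx
  obtain ⟨N, Φ, h1, h2, h3, h4⟩ := hΦ c
  set e := pord P x with he
  obtain ⟨z, hz⟩ : ∃ z : Fin (m + 2) → L, z = fun j => lv (cp c p j) x := ⟨_, rfl⟩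
  rw [← hz] at h3
  have hz0 : z 0 = x c := by
    rw [hz]
    simp only [cp, Fin.cons_zero]
    rw [← aeval_lp, lp_single, aeval_X]
  have hzs : ∀ i : Fin (m + 1), Ge P (e + a + 1) (z i.succ) := by
    intro i
    rw [hz]
    simp only [cp, Fin.cons_succ]
    exact hcon i
  obtain ⟨w, hw⟩ : ∃ w : Fin (m + 2) → ℤ, w = Fin.cons e fun _ => e + a + 1 := ⟨_, rfl⟩
  have hw0 : w 0 = e := by rw [hw, Fin.cons_zero]
  have hws : ∀ i : Fin (m + 1), w i.succ = e + a + 1 := by
    intro i
    rw [hw, Fin.cons_succ]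
  have hzw : ∀ j, Ge P (w j) (z j) := by
    intro j
    refine Fin.cases ?_ (fun i => ?_) j
    · rw [hw0, hz0]
      exact Or.inr hco.symm.le
    · rw [hws]
      exact hzs i
  have hs : Finsupp.single 0 N ∈ Φ.support := by
    rw [MvPolynomial.mem_support_iff, h2]
    exact one_ne_zero
  rw [aeval_def, eval₂_eq', ← Finset.add_sum_erase _ _ hs, h2, map_one, one_mul,
    Fin.prod_univ_succ] at h3
  have h5 : ∀ i : Fin (m + 1), z i.succ ^ (Finsupp.single (0 : Fin (m + 2)) N) i.succ = 1 := by
    intro i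
    rw [Finsupp.single_eq_of_ne (Fin.succ_ne_zero i), pow_zero]
  rw [Finset.prod_congr rfl fun i _ => h5 i, Finset.prod_const_one, mul_one,
    Finsupp.single_eq_same, hz0] at h3
  have h6 : Ge P (N * e + 1) (∑ α ∈ Φ.support.erase (Finsupp.single 0 N),
      algebraMap F L (Φ.coeff α) * ∏ j, z j ^ α j) := by
    refine Ge.sum _ _ fun α hα => ?_
    have hα1 := (Finset.mem_erase.1 hα).1
    have hα2 := (Finset.mem_erase.1 hα).2
    have h7 := (h4 α hα2).mul (Ge.prod Finset.univ (fun j => z j ^ α j) (fun j => α j * w j)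
      (fun j _ => (hzw j).pow (α j)))
    refine h7.mono ?_
    have hdeg : α.degree = N := hom_degree h1 (MvPolynomial.mem_support_iff.1 hα2)
    rw [Finsupp.degree_eq_sum, Fin.sum_univ_succ] at hdeg
    rw [Fin.sum_univ_succ, hw0, Finset.sum_congr rfl fun i _ => by rw [hws i], ← Finset.sum_mul]
    obtain ⟨s, hsd⟩ : ∃ s : ℕ, s = ∑ i : Fin (m + 1), α i.succ := ⟨_, rfl⟩
    have hs' : (∑ i : Fin (m + 1), (α i.succ : ℤ)) = s := by rw [hsd]; push_cast; rfl
    rw [hs']
    rw [← hsd] at hdeg
    have hs1 : 1 ≤ s := by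
      by_contra hcon2
      have hs0 : s = 0 := by omega
      apply hα1
      ext j
      refine Fin.cases ?_ (fun i => ?_) j
      · rw [Finsupp.single_eq_same]; omega
      · rw [Finsupp.single_eq_of_ne (Fin.succ_ne_zero i)]
        rw [hsd] at hs0
        exact (Finset.sum_eq_zero_iff.1 hs0) i (Finset.mem_univ _)
    have hdz : (α 0 : ℤ) + s = N := by exact_mod_cast hdeg
    have hs1z : (1 : ℤ) ≤ s := by exact_mod_cast hs1
    have h8 : (N : ℤ) * e = α 0 * e + s * e := by rw [← hdz]; ring
    rw [h8]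
    nlinarith
  have h9 : Ge P (N * e + 1) (x c ^ N) := by
    rw [eq_neg_of_add_eq_zero_left h3]
    exact h6.neg
  rcases h9 with h9 | h9
  · exact hc (eq_zero_of_pow_eq_zero h9)
  · rw [P.ord_pow, hco] at h9
    omega

end Pool.Agent.TH875.Vg
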