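import Pool.Agent.TH875.Vg.MainX

/-! The dimension of the space of the derivatives of a point of a subvariety. -/

set_option autoImplicit false

open FF MvPolynomial
open Pool.Agent.W603.LV Pool.Agent.W603.PV

namespace Pool.Agent.TH875.Vg.Sys

open Matrix Module

variable {k F : Type} [Field k] [Field F] [Algebra k F] {n q : ℕ} (S : Sys k F n q)

/-- the derivatives of `η` are multiples of those of `t` -/
def Nice (Dt : Derivation k F F) (η : F) : Prop :=
  ∀ (L : Type) [Field L] [Algebra k L] [Algebra F L] [IsScalarTower k F L],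
    (∀ (p : S.Idx) (δ : Derivation ℤ L L), IsLift (S.dd p) δ →
      δ (algebraMap F L η) = algebraMap F L (Dt η) * δ (algebraMap F L S.t)) ∧
    ∀ D : Derivation k L L,
      D (algebraMap F L η) = algebraMap F L (Dt η) * D (algebraMap F L S.t)

theorem Nice.mul_nat {Dt : Derivation k F F} {η : F} (h : S.Nice Dt η) (N : ℕ) :
    S.Nice Dt (η * N) := by
  intro L _ _ _ _
  obtain ⟨h1, h2⟩ := h L
  refine ⟨fun p δ hδ => ?_, fun D => ?_⟩
  · have := h1 p δ hδ
    rw [map_mul, map_natCast, mul_comm, ← nsmul_eq_mul, map_nsmul, this, Dt.leibniz,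
      Derivation.map_natCast, smul_zero, zero_add, smul_eq_mul, map_mul, map_natCast, nsmul_eq_mul]
    ring
  · have := h2 D
    rw [map_mul, map_natCast, mul_comm, ← nsmul_eq_mul, map_nsmul, this, Dt.leibniz,
      Derivation.map_natCast, smul_zero, zero_add, smul_eq_mul, map_mul, map_natCast, nsmul_eq_mul]
    ring

theorem nice_pderiv {Dt : Derivation k F F} {M : ℕ} {Φ : MvPolynomial (Fin (M + 1)) F}
    (h : ∀ α, S.Nice Dt (Φ.coeff α)) (j : Fin (M + 1)) (α) : S.Nice Dt ((pderiv j Φ).coeff α) := by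
  rw [coeff_pderiv]
  have := (h (α + Finsupp.single j 1)).mul_nat S (α j + 1)
  rwa [Nat.cast_add, Nat.cast_one] at this

variable {L : Type} [Field L] [Algebra k L] [Algebra F L]

omit [Algebra k L] in
/-- A derivative of `Φ` vanishes at `z` with nonvanishing gradient. -/
theorem exists_smooth [CharZero k] {Dt : Derivation k F F} {M : ℕ} (z : Fin (M + 1) → L) :
    ∀ (N : ℕ) (Φ : MvPolynomial (Fin (M + 1)) F), Φ ≠ 0 → Φ.IsHomogeneous N →
      (∀ α, S.Nice Dt (Φ.coeff α)) → aeval z Φ = 0 →
      ∃ (N' : ℕ) (Ψ : MvPolynomial (Fin (M + 1)) F), Ψ.IsHomogeneous N' ∧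
        (∀ α, S.Nice Dt (Ψ.coeff α)) ∧ aeval z Ψ = 0 ∧ ∃ j, aeval z (pderiv j Ψ) ≠ 0 := by
  have hF : CharZero F := charZero_of_injective_algebraMap (algebraMap k F).injective
  intro N
  induction N with
  | zero =>
    intro Φ hΦ hh _ h0
    exfalso
    rw [← totalDegree_zero_iff_isHomogeneous, totalDegree_eq_zero_iff_eq_C] at hh
    rw [hh, aeval_C, map_eq_zero] at h0
    rw [h0, C_0] at hh
    exact hΦ hh
  | succ N ih =>
    intro Φ hΦ hh hn h0
    by_cases hcase : ∃ j, aeval z (pderiv j Φ) ≠ 0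
    · exact ⟨N + 1, Φ, hh, hn, h0, hcase⟩
    push Not at hcase
    have h1 : ∃ j, pderiv j Φ ≠ 0 := by
      by_contra hcon
      push Not at hcon
      have h2 := hh.sum_X_mul_pderiv
      rw [Finset.sum_eq_zero fun j _ => by rw [hcon j, mul_zero]] at h2
      rw [nsmul_eq_mul] at h2
      rcases mul_eq_zero.1 h2.symm with h3 | h3
      · rw [Nat.cast_eq_zero] at h3
        omega
      · exact hΦ h3
    obtain ⟨j, hj⟩ := h1
    refine ih (pderiv j Φ) hj ?_ (S.nice_pderiv hn j) (hcase j)
    have := hh.pderiv (i := j)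
    simpa using this

/-- A relation between the entries of the vectors of `V`. -/
theorem rel_V [IsScalarTower k F L] {Dt : Derivation k F F} {M : ℕ} {σ : Fin (M + 1) → Fin (n + 1)}
    {x : Fin (n + 1) → L} {N : ℕ} {Ψ : MvPolynomial (Fin (M + 1)) F} (hh : Ψ.IsHomogeneous N)
    (hn : ∀ α, S.Nice Dt (Ψ.coeff α)) (h0 : aeval (fun j => x (σ j)) Ψ = 0) {v : O n → L}
    (hv : v ∈ S.V x) :
    aeval (fun j => x (σ j)) (cder Dt Ψ) * v none +
      ∑ j, aeval (fun j => x (σ j)) (pderiv j Ψ) * v (some (σ j)) = 0 := by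
  unfold V at hv
  induction hv using Submodule.span_induction with
  | mem v hv =>
    rcases hv with hv | ⟨D, rfl⟩ | ⟨p, δ, hδ, rfl⟩
    · rw [Set.mem_singleton_iff] at hv
      rw [hv]
      simp only [ext0, Option.elim, mul_zero, zero_add]
      have h1 := congrArg (aeval (fun j => x (σ j))) hh.sum_X_mul_pderiv
      rw [map_sum, map_nsmul, h0, smul_zero] at h1
      rw [← h1]
      refine Finset.sum_congr rfl fun j _ => ?_
      rw [map_mul, aeval_X, mul_comm]
    · have h1 := der_aeval (toZ D) (fun j => x (σ j)) Ψ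
      rw [h0, map_zero] at h1
      simp only [vec, Option.elim]
      rw [aeval_cder, ← cpart_mul]
      rw [cpart_congr (δ := fun a => (toZ D) (algebraMap F L a))
        (δ' := fun a => algebraMap F L (Dt a) * (toZ D) (algebraMap F L S.t))
        (fun α => (hn α L).2 D)] at h1
      exact h1.symm
    · have h1 := der_aeval δ (fun j => x (σ j)) Ψ
      rw [h0, map_zero] at h1
      simp only [vec, Option.elim]
      rw [aeval_cder, ← cpart_mul]
      rw [cpart_congr (δ := fun a => δ (algebraMap F L a))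
        (δ' := fun a => algebraMap F L (Dt a) * δ (algebraMap F L S.t))
        (fun α => (hn α L).1 p δ hδ)] at h1
      exact h1.symm
  | zero => simp
  | add v w _ _ hv hw =>
    rw [Pi.add_apply, Finset.sum_congr rfl fun j _ => by rw [Pi.add_apply, mul_add],
      Finset.sum_add_distrib]
    linear_combination hv + hw
  | smul a v _ hv =>
    rw [Pi.smul_apply, Finset.sum_congr rfl fun j _ => by
      rw [Pi.smul_apply, smul_eq_mul, mul_left_comm], ← Finset.mul_sum, smul_eq_mul]
    linear_combination a * hv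

/-- The dimension of the space of the derivatives. -/
theorem finrank_V_le [IsScalarTower k F L] [CharZero k] [IsFF k F] [IsAlgClosed k]
    [FiniteDimensional F L] {Dt : Derivation k F F} {m : ℕ} {x : Fin (n + 1) → L}
    (hrel : ∀ σ : Fin (m + 2) → Fin (n + 1), ∃ (N : ℕ) (Φ : MvPolynomial (Fin (m + 2)) F),
      Φ ≠ 0 ∧ Φ.IsHomogeneous N ∧ (∀ α, S.Nice Dt (Φ.coeff α)) ∧
      aeval (fun j => x (σ j)) Φ = 0) :
    finrank L (S.V x) ≤ m + 2 := by
  have hL : IsFF k L := isFF_of_finite (F := F)
  have htL : Transcendental k (algebraMap F L S.t) :=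
    (transcendental_algebraMap_iff (algebraMap F L).injective).2 S.tr
  have hDt := der_ne_zero (der_ne (k := k) (K := L)) htL
  by_contra hcon
  push Not at hcon
  obtain ⟨he1, σ, hσ⟩ := exists_T (S.V x) ⟨S.vec (toZ (der k L)) x, S.vecD_mem _ x, hDt⟩
  have hle : m + 2 ≤ finrank L (S.V x) - 1 := by omega
  obtain ⟨N, Φ, h1, h2, h3, h4⟩ := hrel (fun j => σ (Fin.castLE hle j))
  obtain ⟨N', Ψ, h5, h6, h7, j0, h8⟩ := S.exists_smooth (Dt := Dt) (M := m + 1)
    (fun j => x (σ (Fin.castLE hle j))) N Φ h1 h2 h3 h4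
  obtain ⟨v, hv⟩ := hσ.2 (Pi.single (some (Fin.castLE hle j0)) 1)
  have h9 := S.rel_V (M := m + 1) (σ := fun j => σ (Fin.castLE hle j)) h5 h6 h7 v.2
  have hv0 : (v : O n → L) none = 0 := by
    have := congrFun hv none
    simpa using this
  have hv1 : ∀ a, (v : O n → L) (some (σ a)) = if a = Fin.castLE hle j0 then 1 else 0 := by
    intro a
    have h10 := congrFun hv (some a)
    rw [Pi.single_apply] at h10
    simp only [Option.some.injEq] at h10
    exact h10
  rw [hv0, mul_zero, zero_add, Finset.sum_eq_single j0] at h9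
  · rw [hv1, if_pos rfl, mul_one] at h9
    exact h8 h9
  · intro j _ hj
    rw [hv1, if_neg, mul_zero]
    intro h
    exact hj (Fin.castLE_injective hle h)
  · simp

end Pool.Agent.TH875.Vg.Sys
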