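import Pool.Agent.TH875.Vg.Loc

/-! Systems of rows of minimal order. -/

set_option autoImplicit false

open FF
open Pool.Agent.W603.LV Pool.Agent.W603.PV

namespace Pool.Agent.TH875.Vg

open Matrix Module

section

variable {k L : Type*} [Field k] [Field L] [Algebra k L] {O B ι : Type*} [Fintype O]
  [DecidableEq O] [Fintype B] [DecidableEq B] [Fintype ι] [DecidableEq ι]

omit [Fintype ι] in
/-- a system whose matrix is close to minus the identity -/
theorem near (P : Place k L) {I : Finset ι} {H : ι → ι → L}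
    (hH : ∀ i ∈ I, ∀ i' ∈ I, Ge P 1 (H i i' + if i = i' then 1 else 0)) {c : ι → L} {M : ℤ}
    (h : ∀ i' ∈ I, Ge P M (∑ i ∈ I, c i * H i i')) : ∀ i ∈ I, Ge P M (c i) := by
  obtain ⟨N, hN⟩ : ∃ N : ℤ, ∀ i ∈ I, Ge P N (c i) := by
    refine ⟨-∑ i ∈ I, |P.ord (c i)|, fun i hi => ?_⟩
    by_cases h0 : c i = 0
    · exact Or.inl h0
    · right
      have h1 := Finset.single_le_sum (f := fun i => |P.ord (c i)|) (fun _ _ => abs_nonneg _) hi
      have h2 := neg_abs_le (P.ord (c i))
      linarith
  have h1 : ∀ j : ℕ, ∀ i ∈ I, Ge P (min M (N + j)) (c i) := by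
    intro j
    induction j with
    | zero => exact fun i hi => (hN i hi).mono (by simp)
    | succ j ih =>
      intro i' hi'
      have e : c i' = ∑ i ∈ I, c i * (H i i' + if i = i' then 1 else 0) -
          ∑ i ∈ I, c i * H i i' := by
        rw [← Finset.sum_sub_distrib]
        have : ∀ i ∈ I, c i * (H i i' + if i = i' then 1 else 0) - c i * H i i' =
            if i = i' then c i' else 0 := by
          intro i _
          by_cases hi : i = i'
          · subst hi; simp; ring
          · rw [if_neg hi, if_neg hi]; ring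
        rw [Finset.sum_congr rfl this, Finset.sum_ite_eq' I i', if_pos hi']
      rw [e]
      refine Ge.sub (Ge.sum _ _ fun i hi => ?_) ((h i' hi').mono (min_le_left _ _))
      have := (ih i hi).mul (hH i hi i' hi')
      refine this.mono ?_
      push_cast
      omega
  intro i hi
  refine (h1 (M - N).toNat i hi).mono ?_
  omega

omit [Fintype ι] in
theorem near_zero (P : Place k L) {I : Finset ι} {H : ι → ι → L}
    (hH : ∀ i ∈ I, ∀ i' ∈ I, Ge P 1 (H i i' + if i = i' then 1 else 0)) {c : ι → L}
    (h : ∀ i' ∈ I, ∑ i ∈ I, c i * H i i' = 0) : ∀ i ∈ I, c i = 0 := by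
  intro i hi
  have h1 := near P hH (c := c) (M := P.ord (c i) + 1) (fun i' hi' => Or.inl (h i' hi')) i hi
  rcases h1 with h1 | h1
  · exact h1
  · omega

/-- a row -/
noncomputable def rowv (R : ι → O → L) : ι ⊕ O → (O → L) :=
  Sum.elim R fun o => Pi.single o 1

/-- the values of rows on columns -/
noncomputable def RM (R : ι → O → L) (v : B → O → L) (ρ : B → ι ⊕ O) : Matrix B B L :=
  Matrix.of fun a b => rowv R (ρ a) ⬝ᵥ v b

omit [Fintype ι] [DecidableEq ι] [DecidableEq O] [DecidableEq B] in
theorem coord_span {v : B → O → L} (hv : LinearIndependent L v) :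
    Submodule.span L (Set.range fun o => fun b => v b o) = ⊤ := by
  set A : Matrix O B L := Matrix.of fun o b => v b o with hA
  have h1 : A.rank = Fintype.card B := by
    have h2 : LinearIndependent L (Aᵀ).row := hv
    rw [← Matrix.rank_transpose, h2.rank_matrix]
  rw [Matrix.rank_eq_finrank_span_row] at h1
  apply Submodule.eq_top_of_finrank_eq
  rw [Module.finrank_fintype_fun_eq_card, ← h1]
  rfl

theorem exists_local (P : Place k L) (R : ι → O → L) {v : B → O → L}
    (hv : LinearIndependent L v) (I : Finset ι) (w : ι → O → L)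
    (hw : ∀ i ∈ I, w i ∈ Submodule.span L (Set.range v))
    (hRw : ∀ i ∈ I, ∀ i' ∈ I, Ge P 1 (R i ⬝ᵥ w i' + if i = i' then 1 else 0))
    {a : ℤ} (ha : 0 ≤ a) (hwo : ∀ i ∈ I, ∀ o, Ge P (-a) (w i o)) :
    ∃ ρ : B → ι ⊕ O, (∀ b i, ρ b = Sum.inl i → i ∈ I) ∧ (∀ i ∈ I, ∃ b, ρ b = Sum.inl i) ∧
      (RM R v ρ).det ≠ 0 ∧ ∀ T : B → O,
        Ge P (P.ord (RM R v ρ).det - a * Fintype.card B) (Matrix.of fun a b => v b (T a)).det := by
  classical
  -- coefficients of the vectors
  have hμ : ∀ i ∈ I, ∃ μ : B → L, ∀ o, w i o = ∑ b, μ b * v b o := by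
    intro i hi
    obtain ⟨μ, h1⟩ := (Submodule.mem_span_range_iff_exists_fun L).1 (hw i hi)
    refine ⟨μ, fun o => ?_⟩
    rw [← h1, Finset.sum_apply]
    rfl
  have hdot : ∀ i ∈ I, ∀ μ : B → L, (∀ o, w i o = ∑ b, μ b * v b o) → ∀ r : O → L,
      r ⬝ᵥ w i = ∑ b, μ b * (r ⬝ᵥ v b) := by
    intro i _ μ h1 r
    simp only [dotProduct]
    rw [Finset.sum_congr rfl fun o _ => by rw [h1 o, Finset.mul_sum], Finset.sum_comm]
    refine Finset.sum_congr rfl fun b _ => ?_
    rw [Finset.mul_sum]
    exact Finset.sum_congr rfl fun o _ => by ring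
  set fam : ι ⊕ O → (B → L) := fun s b => rowv R s ⬝ᵥ v b with hfam
  have hfamo : ∀ o, fam (Sum.inr o) = fun b => v b o := by
    intro o
    funext b
    simp only [hfam, rowv, Sum.elim_inr]
    rw [single_dotProduct, one_mul]
  -- independence
  have hli : LinearIndepOn L fam (Sum.inl '' (I : Set ι)) := by
    apply LinearIndepOn.image_of_comp Sum.inl fam
    rw [linearIndepOn_finset_iff]
    intro c hc i hi
    refine near_zero P hRw (c := c) (fun i' hi' => ?_) i hi
    obtain ⟨μ, h1⟩ := hμ i' hi'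
    have h2 : ∀ i ∈ I, c i * (R i ⬝ᵥ w i') = ∑ b, μ b * (c i * (R i ⬝ᵥ v b)) := by
      intro i _
      rw [hdot i' hi' μ h1, Finset.mul_sum]
      exact Finset.sum_congr rfl fun b _ => by ring
    rw [Finset.sum_congr rfl h2, Finset.sum_comm]
    refine Finset.sum_eq_zero fun b _ => ?_
    rw [← Finset.mul_sum]
    have h3 := congrFun hc b
    rw [Finset.sum_apply] at h3
    have h4 : ∑ i ∈ I, c i * (R i ⬝ᵥ v b) = 0 := h3
    rw [h4, mul_zero]
  have hspan : Submodule.span L (fam '' (Sum.inl '' (I : Set ι) ∪ Set.range Sum.inr)) = ⊤ := by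
    rw [eq_top_iff, ← coord_span hv]
    refine Submodule.span_mono ?_
    rintro _ ⟨o, rfl⟩
    exact ⟨Sum.inr o, Or.inr ⟨o, rfl⟩, hfamo o⟩
  obtain ⟨σ, h1, -, h3, h4⟩ := exists_choice (A := B) fam (Empty.elim : Empty → ι ⊕ O)
    (fun a => a.elim) (Sum.inl '' (I : Set ι)) (Sum.inl '' (I : Set ι) ∪ Set.range Sum.inr)
    (fun a => a.elim) Set.subset_union_left hli (by
      rw [hspan, finrank_top, Module.finrank_fintype_fun_eq_card, Fintype.card_empty, zero_add])
  have hdet : ∀ ρ : B → ι ⊕ O, LinearIndependent L (fun b => fam (ρ b)) →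
      (RM R v ρ).det ≠ 0 := by
    intro ρ h
    have h5 := (Matrix.linearIndependent_rows_iff_isUnit (A := RM R v ρ)).1 h
    exact isUnit_iff_ne_zero.1 ((Matrix.isUnit_iff_isUnit_det _).1 h5)
  -- the admissible systems
  set adm : Finset (B → ι ⊕ O) := Finset.univ.filter fun ρ =>
    (∀ b i, ρ b = Sum.inl i → i ∈ I) ∧ (∀ i ∈ I, ∃ b, ρ b = Sum.inl i) ∧
      (RM R v ρ).det ≠ 0 with hadm
  have hne : adm.Nonempty := by
    refine ⟨σ, ?_⟩
    rw [hadm, Finset.mem_filter]
    refine ⟨Finset.mem_univ _, fun b i hi => ?_, fun i hi => ?_, hdet σ ?_⟩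
    · rcases h1 b with ⟨i', hi', e⟩ | ⟨o, e⟩
      · rw [hi] at e
        rw [← Sum.inl_injective e]
        exact hi'
      · rw [hi] at e
        exact absurd e (by simp)
    · exact h3 (Sum.inl i) ⟨i, hi, rfl⟩ fun y => y.elim
    · exact h4.comp Sum.inr Sum.inr_injective
  obtain ⟨ρ, hρ, hmin⟩ := Finset.exists_min_image adm (fun ρ => P.ord (RM R v ρ).det) hne
  rw [hadm, Finset.mem_filter] at hρ
  obtain ⟨-, hρ1, hρ2, hρ3⟩ := hρ
  refine ⟨ρ, hρ1, hρ2, hρ3, fun T => ?_⟩
  set M := RM R v ρ with hM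
  have hMa : ∀ a b, M a b = fam (ρ a) b := fun a b => rfl
  have hρinj : Function.Injective ρ := by
    intro b b' hbb
    by_contra hne'
    apply hρ3
    refine Matrix.det_zero_of_row_eq hne' ?_
    funext c
    rw [hMa, hMa, hbb]
  -- the coefficients of the coordinates
  set lam : O → B → L := fun o a => (M.updateRow a (fam (Sum.inr o))).det / M.det with hlam
  have hlamsum : ∀ o b, v b o = ∑ a, lam o a * M a b := by
    intro o b
    have h5 := congrFun (Matrix.mulVec_cramer Mᵀ (fam (Sum.inr o))) b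
    rw [Matrix.det_transpose] at h5
    simp only [Matrix.mulVec, dotProduct, Pi.smul_apply, smul_eq_mul, Matrix.transpose_apply,
      Matrix.cramer_transpose_apply] at h5
    have h6 : fam (Sum.inr o) b = v b o := by rw [hfamo]
    rw [h6] at h5
    apply mul_left_cancel₀ hρ3
    rw [← h5, Finset.mul_sum]
    refine Finset.sum_congr rfl fun a _ => ?_
    simp only [hlam]
    field_simp
  have hlam0 : ∀ o a, (∃ o', ρ a = Sum.inr o') → Ge P 0 (lam o a) := by
    rintro o a ⟨o', ho'⟩
    by_cases h0 : lam o a = 0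
    · exact Or.inl h0
    right
    have h5 : M.updateRow a (fam (Sum.inr o)) = RM R v (Function.update ρ a (Sum.inr o)) := by
      ext b c
      by_cases hb : b = a
      · subst hb
        rw [Matrix.updateRow_self]
        simp [RM, hfam]
      · rw [Matrix.updateRow_ne hb]
        simp [RM, hM, Function.update_of_ne hb]
    have h6 : (RM R v (Function.update ρ a (Sum.inr o))).det ≠ 0 := by
      rw [← h5]
      intro h7
      apply h0
      simp only [hlam]
      rw [h7, zero_div]
    have h7 : Function.update ρ a (Sum.inr o) ∈ adm := by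
      rw [hadm, Finset.mem_filter]
      refine ⟨Finset.mem_univ _, fun b i hi => ?_, fun i hi => ?_, h6⟩
      · by_cases hb : b = a
        · subst hb
          rw [Function.update_self] at hi
          exact absurd hi (by simp)
        · rw [Function.update_of_ne hb] at hi
          exact hρ1 b i hi
      · obtain ⟨b, hb⟩ := hρ2 i hi
        refine ⟨b, ?_⟩
        rw [Function.update_of_ne]
        · exact hb
        · rintro rfl
          rw [ho'] at hb
          exact absurd hb (by simp)
    have h8 := hmin _ h7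
    simp only [hlam]
    rw [h5, div_eq_mul_inv, P.ord_mul h6 (inv_ne_zero hρ3), P.ord_inv]
    omega
  have hlamI : ∀ o a', (∃ i, ρ a' = Sum.inl i) → Ge P (-a) (lam o a') := by
    rintro o a' ⟨i0, hi0⟩
    -- the coefficients of the rows in `I`
    have hnB : Nonempty B := ⟨a'⟩
    choose! g hg using hρ2
    have hginj : ∀ i ∈ I, ∀ b, ρ b = Sum.inl i → b = g i := fun i hi b hb =>
      hρinj (by rw [hb, hg i hi])
    have h5 := near P hRw (c := fun i => lam o (g i)) (M := -a) (fun i' hi' => by
      obtain ⟨μ, h6⟩ := hμ i' hi'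
      have h7 : w i' o = ∑ a, lam o a * (rowv R (ρ a) ⬝ᵥ w i') := by
        rw [h6 o, Finset.sum_congr rfl fun b _ => by rw [hlamsum o b, Finset.mul_sum],
          Finset.sum_comm]
        refine Finset.sum_congr rfl fun a _ => ?_
        rw [hdot i' hi' μ h6, Finset.mul_sum]
        refine Finset.sum_congr rfl fun b _ => ?_
        rw [hMa]
        simp only [hfam]
        ring
      have h8 : ∑ a, lam o a * (rowv R (ρ a) ⬝ᵥ w i') =
          ∑ i ∈ I, lam o (g i) * (R i ⬝ᵥ w i') +
          ∑ a ∈ Finset.univ.filter (fun a => ∃ o', ρ a = Sum.inr o'),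
            lam o a * (rowv R (ρ a) ⬝ᵥ w i') := by
        rw [← Finset.sum_filter_add_sum_filter_not Finset.univ (fun a => ∃ o', ρ a = Sum.inr o'),
          add_comm]
        congr 1
        symm
        refine Finset.sum_bij (fun i _ => g i) (fun i hi => ?_) (fun i hi j hj hij => ?_)
          (fun b hb => ?_) (fun i hi => ?_)
        · rw [Finset.mem_filter]
          refine ⟨Finset.mem_univ _, ?_⟩
          rintro ⟨o', ho'⟩
          rw [hg i hi] at ho'
          exact absurd ho' (by simp)
        · have := hg i hi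
          rw [hij, hg j hj] at this
          exact (Sum.inl_injective this).symm
        · rw [Finset.mem_filter] at hb
          rcases h9 : ρ b with i | o'
          · exact ⟨i, hρ1 b i h9, (hginj i (hρ1 b i h9) b h9).symm⟩
          · exact absurd ⟨o', h9⟩ hb.2
        · rw [hg i hi]
          rfl
      have h9 : ∑ i ∈ I, lam o (g i) * (R i ⬝ᵥ w i') = w i' o -
          ∑ a ∈ Finset.univ.filter (fun a => ∃ o', ρ a = Sum.inr o'),
            lam o a * (rowv R (ρ a) ⬝ᵥ w i') := by
        rw [h7, h8]; ring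
      rw [h9]
      refine (hwo i' hi' o).sub (Ge.sum _ _ fun b hb => ?_)
      obtain ⟨o', ho'⟩ := (Finset.mem_filter.1 hb).2
      have h10 := (hlam0 o b ⟨o', ho'⟩).mul (hwo i' hi' o')
      have h11 : rowv R (ρ b) ⬝ᵥ w i' = w i' o' := by
        rw [ho']
        simp only [rowv, Sum.elim_inr]
        rw [single_dotProduct, one_mul]
      rw [h11]
      simpa using h10) i0 (hρ1 a' i0 hi0)
    have h6 := hginj i0 (hρ1 a' i0 hi0) a' hi0
    rw [h6]
    exact h5
  have hlamall : ∀ o b, Ge P (-a) (lam o b) := by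
    intro o b
    rcases h : ρ b with i | o'
    · exact hlamI o b ⟨i, h⟩
    · exact (hlam0 o b ⟨o', h⟩).mono (by omega)
  have hmul : (Matrix.of fun a b => v b (T a)) = (Matrix.of fun a b => lam (T a) b) * M := by
    ext b c
    rw [Matrix.mul_apply]
    exact hlamsum (T b) c
  rw [hmul, Matrix.det_mul]
  have h5 := ge_det' P (Matrix.of fun a b => lam (T a) b) (fun _ => -a) (fun _ => 0)
    (fun b c => by simpa using hlamall (T b) c)
  rw [Finset.sum_const, Finset.sum_const_zero, add_zero, Finset.card_univ, nsmul_eq_mul] at h5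
  have h6 : Ge P (P.ord M.det) M.det := Or.inr le_rfl
  refine (h5.mul h6).mono (le_of_eq ?_)
  ring

end

end Pool.Agent.TH875.Vg
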