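import Pool.Agent.TH875.Vg.Mat

/-! Forms over a function field together with derivations that separate their coefficients. -/

set_option autoImplicit false

open FF MvPolynomial
open Pool.Agent.W603.LV Pool.Agent.W603.PV

namespace Pool.Agent.TH875.Vg

open Matrix

/-- coordinates -/
abbrev O (n : ℕ) : Type := Option (Fin (n + 1))

/-- the monomial with exponent `α` -/
noncomputable def mon {L : Type} [Field L] {n : ℕ} (x : Fin (n + 1) → L) (α : Fin (n + 1) →₀ ℕ) :
    L := ∏ j, x j ^ α j

/-- Forms `f i` over `F` of degree `d i`, and for each of the coefficients of each `f i` a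
derivation of the constants that moves only this coefficient. -/
structure Sys (k F : Type) [Field k] [Field F] [Algebra k F] (n q : ℕ) where
  d : Fin q → ℕ
  hd : ∀ i, 0 < d i
  f : Fin q → MvPolynomial (Fin (n + 1)) F
  hom : ∀ i, (f i).IsHomogeneous (d i)
  ft : Fin q → MvPolynomial (Fin (n + 1)) F
  homt : ∀ i, (ft i).IsHomogeneous (d i)
  t : F
  tr : Transcendental k t
  dd : ((i : Fin q) × Expo n (d i)) → Derivation ℤ k k
  key : ∀ (L : Type) [Field L] [Algebra k L] [Algebra F L] [IsScalarTower k F L]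
    (p : (i : Fin q) × Expo n (d i)) (δ : Derivation ℤ L L), IsLift (dd p) δ →
    ∀ (x : Fin (n + 1) → L) (i : Fin q), δ (aeval x (f i)) =
      aeval x (ft i) * δ (algebraMap F L t) + (if p.1 = i then mon x p.2.1 else 0) +
        ∑ j, aeval x (pderiv j (f i)) * δ (x j)
  keyD : ∀ (L : Type) [Field L] [Algebra k L] [Algebra F L] [IsScalarTower k F L]
    (D : Derivation k L L) (x : Fin (n + 1) → L) (i : Fin q), D (aeval x (f i)) =
      aeval x (ft i) * D (algebraMap F L t) + ∑ j, aeval x (pderiv j (f i)) * D (x j)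

/-- types of columns -/
inductive Col (n q : ℕ) (d : Fin q → ℕ)
  | A (a b : Fin (n + 1))
  | B (i : Fin q) (β : Expo n (d i - 1)) (a b : Fin (n + 1))
  | C (i : Fin q)

namespace Sys

variable {k F : Type} [Field k] [Field F] [Algebra k F] {n q : ℕ} (S : Sys k F n q)

/-- the indices of the coefficients -/
abbrev Idx : Type := (i : Fin q) × Expo n (S.d i)

/-- raising an exponent -/
noncomputable def up {i : Fin q} (β : Expo n (S.d i - 1)) (b : Fin (n + 1)) : Expo n (S.d i) :=
  ⟨β.1 + Finsupp.single b 1, by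
    have h1 := (mem_expo β.1).1 β.2
    have h2 := S.hd i
    rw [mem_expo, map_add, h1, Finsupp.degree_single]
    omega⟩

section

variable {L : Type} [Field L] [Algebra k L] [Algebra F L]

/-- the gradient of `f i`, with the derivative of the coefficients as the last entry -/
noncomputable def R (x : Fin (n + 1) → L) (i : Fin q) : O n → L :=
  fun o => o.elim (aeval x (S.ft i)) fun j => aeval x (pderiv j (S.f i))

/-- the derivative of a point -/
noncomputable def vec (δ : Derivation ℤ L L) (x : Fin (n + 1) → L) : O n → L :=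
  fun o => o.elim (δ (algebraMap F L S.t)) fun j => δ (x j)

/-- a vector without last entry -/
def ext0 (x : Fin (n + 1) → L) : O n → L := fun o => o.elim 0 x

theorem dot_vec [IsScalarTower k F L] {p : S.Idx} {δ : Derivation ℤ L L} (h : IsLift (S.dd p) δ)
    (x : Fin (n + 1) → L) (i : Fin q) : S.R x i ⬝ᵥ S.vec δ x =
      δ (aeval x (S.f i)) - if p.1 = i then mon x p.2.1 else 0 := by
  rw [S.key L p δ h x i]
  simp only [dotProduct, Fintype.sum_option, R, vec, Option.elim]
  ring

theorem dot_D [IsScalarTower k F L] (D : Derivation k L L) (x : Fin (n + 1) → L) (i : Fin q) :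
    S.R x i ⬝ᵥ S.vec (toZ D) x = D (aeval x (S.f i)) := by
  rw [S.keyD L D x i]
  simp only [dotProduct, Fintype.sum_option, R, vec, Option.elim, toZ_apply]

theorem dot_ext0 (x y : Fin (n + 1) → L) (i : Fin q) :
    S.R x i ⬝ᵥ ext0 y = ∑ j, aeval x (pderiv j (S.f i)) * y j := by
  simp only [dotProduct, Fintype.sum_option, R, ext0, Option.elim]
  rw [mul_zero, zero_add]

theorem euler (x : Fin (n + 1) → L) (i : Fin q) :
    ∑ j, aeval x (pderiv j (S.f i)) * x j = S.d i * aeval x (S.f i) := by
  have h := congrArg (aeval x) (S.hom i).sum_X_mul_pderiv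
  rw [map_sum, map_nsmul, nsmul_eq_mul] at h
  rw [← h]
  refine Finset.sum_congr rfl fun j _ => ?_
  rw [map_mul, aeval_X, mul_comm]

open Classical in
/-- the coefficients of a column -/
noncomputable def co (x : Fin (n + 1) → L) : Col n q S.d → S.Idx → L
  | Col.A a b, p => algebraMap F L ((X b * pderiv a (S.f p.1)).coeff p.2.1)
  | Col.B i β a b, p => x a * (if p = ⟨i, S.up β b⟩ then 1 else 0) -
      x b * (if p = ⟨i, S.up β a⟩ then 1 else 0)
  | Col.C i, p => if p.1 = i then algebraMap F L ((S.f p.1).coeff p.2.1) else 0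

/-- the additional part of a column -/
def ex (x : Fin (n + 1) → L) : Col n q S.d → Fin (n + 1) → L
  | Col.A a b => Pi.single a (x b)
  | Col.B _ _ _ _ => 0
  | Col.C _ => 0

/-- the degree of a column -/
def cost : Col n q S.d → ℕ
  | Col.A _ _ => 0
  | Col.B _ _ _ _ => 1
  | Col.C _ => 0

/-- a column -/
noncomputable def col (δ : S.Idx → Derivation ℤ L L) (x : Fin (n + 1) → L) (c : Col n q S.d) :
    O n → L := (∑ p, S.co x c p • S.vec (δ p) x) + ext0 (S.ex x c)

open Classical in
theorem sum_co_mon (x : Fin (n + 1) → L) (c : Col n q S.d) (i : Fin q) :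
    ∃ ε : ℤ, (ε = 0 ∨ ε = 1) ∧ ∑ p : S.Idx, S.co x c p * (if p.1 = i then mon x p.2.1 else 0) =
      ∑ j, aeval x (pderiv j (S.f i)) * S.ex x c j + ε * aeval x (S.f i) := by
  have hsum : ∀ g : S.Idx → L, ∑ p : S.Idx, g p * (if p.1 = i then mon x p.2.1 else 0) =
      ∑ α : Expo n (S.d i), g ⟨i, α⟩ * mon x α.1 := by
    intro g
    rw [Fintype.sum_sigma, Finset.sum_eq_single i]
    · simp
    · intro i' _ hi'
      exact Finset.sum_eq_zero fun α _ => by rw [if_neg hi', mul_zero]
    · simp
  rw [hsum]
  rcases c with ⟨a, b⟩ | ⟨i', β, a, b⟩ | i'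
  · refine ⟨0, Or.inl rfl, ?_⟩
    have h1 : (X b * pderiv a (S.f i)).IsHomogeneous (S.d i) := by
      have h2 := (isHomogeneous_X F b).mul ((S.hom i).pderiv (i := a))
      have h3 := S.hd i
      rwa [show 1 + (S.d i - 1) = S.d i by omega] at h2
    have h2 := aeval_expo h1 x
    simp only [co, ex]
    rw [Int.cast_zero, zero_mul, add_zero, Finset.sum_eq_single a, Pi.single_eq_same]
    · rw [map_mul, aeval_X, mul_comm] at h2
      rw [h2]
      rfl
    · intro j _ hj
      rw [Pi.single_eq_of_ne hj, mul_zero]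
    · simp
  · refine ⟨0, Or.inl rfl, ?_⟩
    simp only [co, ex, Pi.zero_apply, mul_zero, Finset.sum_const_zero, Int.cast_zero, zero_mul,
      add_zero]
    by_cases hi : i' = i
    · subst hi
      have e1 : ∀ c : Fin (n + 1), ∀ α : Expo n (S.d i'),
          ((⟨i', α⟩ : S.Idx) = ⟨i', S.up β c⟩) ↔ α = S.up β c := by
        intro c α
        simp
      simp only [e1, sub_mul, mul_assoc, ite_mul, one_mul, zero_mul]
      rw [Finset.sum_sub_distrib, ← Finset.mul_sum, ← Finset.mul_sum,
        Finset.sum_ite_eq' Finset.univ (S.up β b), Finset.sum_ite_eq' Finset.univ (S.up β a),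
        if_pos (Finset.mem_univ _), if_pos (Finset.mem_univ _)]
      have e2 : ∀ c : Fin (n + 1), mon x (S.up β c).1 = mon x β.1 * x c := by
        intro c
        unfold mon up
        simp only [Finsupp.add_apply, pow_add, Finset.prod_mul_distrib]
        congr 1
        rw [Finset.prod_eq_single c]
        · simp
        · intro j _ hj
          rw [Finsupp.single_eq_of_ne hj, pow_zero]
        · simp
      rw [e2, e2]
      ring
    · refine Finset.sum_eq_zero fun α _ => ?_
      rw [if_neg, if_neg]
      · ring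
      · intro h
        exact hi (congrArg Sigma.fst h).symm
      · intro h
        exact hi (congrArg Sigma.fst h).symm
  · by_cases hi : i' = i
    · subst hi
      refine ⟨1, Or.inr rfl, ?_⟩
      simp only [co, ex, Pi.zero_apply, mul_zero, Finset.sum_const_zero, if_true, Int.cast_one,
        one_mul, zero_add]
      exact (aeval_expo (S.hom i') x).symm
    · refine ⟨0, Or.inl rfl, ?_⟩
      simp only [co, ex, Pi.zero_apply, mul_zero, Finset.sum_const_zero, Int.cast_zero, zero_mul,
        add_zero]
      exact Finset.sum_eq_zero fun α _ => by rw [if_neg (fun h => hi h.symm), zero_mul]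

theorem dot_col [IsScalarTower k F L] {δ : S.Idx → Derivation ℤ L L}
    (h : ∀ p, IsLift (S.dd p) (δ p)) (x : Fin (n + 1) → L) (c : Col n q S.d) (i : Fin q) :
    ∃ ε : ℤ, (ε = 0 ∨ ε = 1) ∧ S.R x i ⬝ᵥ S.col δ x c =
      ∑ p, S.co x c p * δ p (aeval x (S.f i)) - ε * aeval x (S.f i) := by
  obtain ⟨ε, hε, h1⟩ := S.sum_co_mon x c i
  refine ⟨ε, hε, ?_⟩
  unfold col
  rw [dotProduct_add, dot_ext0, dotProduct_sum]
  have h2 : ∀ p, S.R x i ⬝ᵥ S.co x c p • S.vec (δ p) x =
      S.co x c p * δ p (aeval x (S.f i)) - S.co x c p * (if p.1 = i then mon x p.2.1 else 0) := by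
    intro p
    rw [dotProduct_smul, S.dot_vec (h p) x i, smul_eq_mul, mul_sub]
  rw [Finset.sum_congr rfl fun p _ => h2 p, Finset.sum_sub_distrib, h1]
  ring

end

end Sys

end Pool.Agent.TH875.Vg
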