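import Pool.Agent.TH875.Vg.Set

/-! The columns span. -/

set_option autoImplicit false

open FF MvPolynomial
open Pool.Agent.W603.LV Pool.Agent.W603.PV

namespace Pool.Agent.TH875.Vg.Sys

open Matrix Module

variable {k F : Type} [Field k] [Field F] [Algebra k F] {n q : ℕ} (S : Sys k F n q)
variable {L : Type} [Field L] [Algebra k L] [Algebra F L]

theorem mon_up {i : Fin q} (x : Fin (n + 1) → L) (β : Expo n (S.d i - 1)) (c : Fin (n + 1)) :
    mon x (S.up β c).1 = mon x β.1 * x c := by
  unfold mon up
  simp only [Finsupp.add_apply, pow_add, Finset.prod_mul_distrib]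
  congr 1
  rw [Finset.prod_eq_single c]
  · simp
  · intro j _ hj
    rw [Finsupp.single_eq_of_ne hj, pow_zero]
  · simp

theorem col_B (δ : S.Idx → Derivation ℤ L L) (x : Fin (n + 1) → L) (i : Fin q)
    (β : Expo n (S.d i - 1)) (a b : Fin (n + 1)) :
    S.col δ x (Col.B i β a b) = x a • S.vec (δ ⟨i, S.up β b⟩) x -
      x b • S.vec (δ ⟨i, S.up β a⟩) x := by
  classical
  unfold col
  have h0 : ext0 (S.ex x (Col.B i β a b)) = (0 : O n → L) := by
    funext o
    rcases o with _ | o <;> rfl
  rw [h0, add_zero]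
  have h1 : ∀ p, S.co x (Col.B i β a b) p • S.vec (δ p) x =
      (if p = ⟨i, S.up β b⟩ then x a • S.vec (δ p) x else 0) -
      (if p = ⟨i, S.up β a⟩ then x b • S.vec (δ p) x else 0) := by
    intro p
    simp only [co, sub_smul, mul_ite, mul_one, mul_zero, ite_smul, zero_smul]
  rw [Finset.sum_congr rfl fun p _ => h1 p, Finset.sum_sub_distrib,
    Finset.sum_ite_eq' Finset.univ, Finset.sum_ite_eq' Finset.univ, if_pos (Finset.mem_univ _),
    if_pos (Finset.mem_univ _)]

/-- the exponent of a power of one coordinate -/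
noncomputable def pw (i : Fin q) (j : Fin (n + 1)) : Expo n (S.d i) :=
  ⟨Finsupp.single j (S.d i), by rw [mem_expo, Finsupp.degree_single]⟩

theorem mon_pw (x : Fin (n + 1) → L) (i : Fin q) (j : Fin (n + 1)) :
    mon x (S.pw i j).1 = x j ^ S.d i := by
  unfold mon pw
  rw [Finset.prod_eq_single j]
  · simp
  · intro j' _ hj
    rw [Finsupp.single_eq_of_ne hj, pow_zero]
  · simp

/-- the span of the columns -/
noncomputable def E (D : Derivation k L L) (δ : S.Idx → Derivation ℤ L L) (x : Fin (n + 1) → L) :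
    Submodule L (O n → L) :=
  Submodule.span L ({S.vec (toZ D) x} ∪ Set.range (S.col δ x))

theorem mkQ_B (D : Derivation k L L) (δ : S.Idx → Derivation ℤ L L) (x : Fin (n + 1) → L)
    (i : Fin q) (β : Expo n (S.d i - 1)) (a b : Fin (n + 1)) :
    x a • (S.E D δ x).mkQ (S.vec (δ ⟨i, S.up β b⟩) x) =
      x b • (S.E D δ x).mkQ (S.vec (δ ⟨i, S.up β a⟩) x) := by
  rw [← sub_eq_zero, ← map_smul, ← map_smul, ← map_sub, ← col_B, Submodule.mkQ_apply,
    Submodule.Quotient.mk_eq_zero]
  exact Submodule.subset_span (Or.inr ⟨_, rfl⟩)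

theorem mkQ_mon (D : Derivation k L L) (δ : S.Idx → Derivation ℤ L L) {x : Fin (n + 1) → L}
    {j0 : Fin (n + 1)} (hj0 : x j0 ≠ 0) (i : Fin q) : ∀ (N : ℕ) (α : Expo n (S.d i)),
    S.d i = α.1 j0 + N → x j0 ^ S.d i • (S.E D δ x).mkQ (S.vec (δ ⟨i, α⟩) x) =
      mon x α.1 • (S.E D δ x).mkQ (S.vec (δ ⟨i, S.pw i j0⟩) x) := by
  intro N
  induction N with
  | zero =>
    intro α hα
    have h1 := (mem_expo α.1).1 α.2
    have h2 : α = S.pw i j0 := by
      apply Subtype.ext
      ext j
      unfold pw
      by_cases hj : j = j0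
      · subst hj
        rw [Finsupp.single_eq_same]; omega
      · rw [Finsupp.single_eq_of_ne hj]
        have h3 : α.1 j0 + α.1 j ≤ ∑ l, α.1 l := by
          rw [← Finset.sum_pair (fun h => hj h.symm)]
          exact Finset.sum_le_sum_of_subset (Finset.subset_univ _)
        rw [Finsupp.degree_eq_sum] at h1
        omega
    rw [h2, mon_pw]
  | succ N ih =>
    intro α hα
    have h1 := (mem_expo α.1).1 α.2
    -- another coordinate
    obtain ⟨b, hb, hb0⟩ : ∃ b, b ≠ j0 ∧ 0 < α.1 b := by
      by_contra hcon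
      push Not at hcon
      rw [Finsupp.degree_eq_sum, Finset.sum_eq_single j0] at h1
      · omega
      · intro b _ hb
        have := hcon b hb
        omega
      · simp
    have hβ : (α.1 - Finsupp.single b 1) ∈
        (Finset.univ : Finset (Fin (n + 1))).finsuppAntidiag (S.d i - 1) := by
      rw [mem_expo]
      have h2 : α.1 = (α.1 - Finsupp.single b 1) + Finsupp.single b 1 := by
        ext j
        by_cases hj : j = b
        · subst hj
          simp; omega
        · simp [Finsupp.single_eq_of_ne hj]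
      have h3 := congrArg Finsupp.degree h2
      rw [map_add, Finsupp.degree_single, h1] at h3
      omega
    set β : Expo n (S.d i - 1) := ⟨_, hβ⟩ with hβd
    have h2 : S.up β b = α := by
      apply Subtype.ext
      unfold up
      ext j
      by_cases hj : j = b
      · subst hj
        simp [hβd]; omega
      · simp [hβd, Finsupp.single_eq_of_ne hj]
    have h3 : (S.up β j0).1 j0 = α.1 j0 + 1 := by
      unfold up
      simp [hβd, Finsupp.single_eq_of_ne hb.symm]
    have h4 := ih (S.up β j0) (by rw [h3]; omega)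
    have h5 := S.mkQ_B D δ x i β j0 b
    rw [h2] at h5
    have h6 : x j0 • (x j0 ^ S.d i • (S.E D δ x).mkQ (S.vec (δ ⟨i, α⟩) x)) =
        x j0 • (mon x α.1 • (S.E D δ x).mkQ (S.vec (δ ⟨i, S.pw i j0⟩) x)) := by
      rw [smul_comm, h5, smul_comm, h4, smul_smul, smul_smul, mon_up, ← h2, mon_up]
      congr 1
      ring
    exact smul_right_injective _ hj0 h6

variable [IsScalarTower k F L]

/-- All vectors annihilated by the gradients of the forms vanishing at `x` are combinations of the
columns. -/
theorem mem_E {D : Derivation k L L} (hDt : D (algebraMap F L S.t) ≠ 0)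
    (δ : S.Idx → Derivation ℤ L L) {x : Fin (n + 1) → L}
    (hx : ∃ j, x j ≠ 0) (y : O n → L) (hy : ∀ i, aeval x (S.f i) = 0 → S.R x i ⬝ᵥ y = 0) :
    y ∈ S.E D δ x := by
  classical
  obtain ⟨j0, hj0⟩ := hx
  set Q := (S.E D δ x).mkQ with hQ
  -- the vectors attached to the forms
  set θ : Fin q → (O n → L) ⧸ S.E D δ x := fun i =>
    (x j0 ^ S.d i)⁻¹ • Q (S.vec (δ ⟨i, S.pw i j0⟩) x) with hθ
  have hmon : ∀ p : S.Idx, Q (S.vec (δ p) x) = mon x p.2.1 • θ p.1 := by
    rintro ⟨i, α⟩
    have hle : α.1 j0 ≤ S.d i := by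
      have h1 := (mem_expo α.1).1 α.2
      rw [Finsupp.degree_eq_sum] at h1
      exact (Finset.single_le_sum (f := fun l => α.1 l) (fun _ _ => Nat.zero_le _)
        (Finset.mem_univ j0)).trans (le_of_eq h1)
    have h1 := S.mkQ_mon D δ hj0 i (S.d i - α.1 j0) α (by omega)
    have h2 : x j0 ^ S.d i ≠ 0 := pow_ne_zero _ hj0
    rw [← hQ] at h1
    simp only [hθ]
    rw [smul_comm, ← h1, smul_smul, inv_mul_cancel₀ h2, one_smul]
  have hcolmem : ∀ c, Q (S.col δ x c) = 0 := by
    intro c
    rw [hQ, Submodule.mkQ_apply, Submodule.Quotient.mk_eq_zero]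
    exact Submodule.subset_span (Or.inr ⟨_, rfl⟩)
  have hsum : ∀ c, ∑ i, (∑ α : Expo n (S.d i), S.co x c ⟨i, α⟩ * mon x α.1) • θ i +
      Q (ext0 (S.ex x c)) = 0 := by
    intro c
    rw [← hcolmem c]
    unfold col
    rw [map_add, map_sum, Fintype.sum_sigma]
    congr 1
    refine Finset.sum_congr rfl fun i _ => ?_
    rw [Finset.sum_smul]
    refine Finset.sum_congr rfl fun α _ => ?_
    rw [map_smul, hmon ⟨i, α⟩]
    exact mul_smul _ _ _
  -- the vectors of forms that do not vanish
  have hC : ∀ i, aeval x (S.f i) ≠ 0 → θ i = 0 := by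
    intro i hi
    have h1 := hsum (Col.C i)
    have h0 : ext0 (S.ex x (Col.C i)) = (0 : O n → L) := by
      funext o
      rcases o with _ | o <;> rfl
    rw [h0, map_zero, add_zero, Finset.sum_eq_single i] at h1
    · simp only [co, if_true] at h1
      have h2 := aeval_expo (S.hom i) x
      unfold mon at h1
      rw [← h2] at h1
      exact (smul_eq_zero.1 h1).resolve_left hi
    · intro i' _ hi'
      have h2 : ∑ α : Expo n (S.d i'), S.co x (Col.C i) ⟨i', α⟩ * mon x α.1 = 0 := by
        refine Finset.sum_eq_zero fun α _ => ?_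
        simp only [co]
        rw [if_neg hi', zero_mul]
      rw [h2, zero_smul]
    · simp
  have hA : ∀ a, ∑ i, aeval x (pderiv a (S.f i)) • θ i + Q (ext0 (Pi.single a 1)) = 0 := by
    intro a
    have h1 := hsum (Col.A a j0)
    have h2 : ∀ i, ∑ α : Expo n (S.d i), S.co x (Col.A a j0) ⟨i, α⟩ * mon x α.1 =
        x j0 * aeval x (pderiv a (S.f i)) := by
      intro i
      have h3 : (X j0 * pderiv a (S.f i)).IsHomogeneous (S.d i) := by
        have h2 := (isHomogeneous_X F j0).mul ((S.hom i).pderiv (i := a))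
        have h3 := S.hd i
        rwa [show 1 + (S.d i - 1) = S.d i by omega] at h2
      have h4 := aeval_expo h3 x
      rw [map_mul, aeval_X] at h4
      rw [h4]
      rfl
    have h3 : ext0 (S.ex x (Col.A a j0)) = x j0 • (ext0 (Pi.single a 1) : O n → L) := by
      funext o
      rcases o with _ | o
      · simp [ext0]
      · simp only [ext0, ex, Option.elim, Pi.smul_apply, smul_eq_mul]
        by_cases ho : o = a
        · subst ho; simp
        · rw [Pi.single_eq_of_ne ho, Pi.single_eq_of_ne ho, mul_zero]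
    rw [h3, map_smul, Finset.sum_congr rfl fun i _ => by rw [h2 i, mul_smul], ← Finset.smul_sum,
      ← smul_add] at h1
    exact (smul_eq_zero.1 h1).resolve_left hj0
  -- reduction to last entry zero
  set D' := D (algebraMap F L S.t) with hD'
  set y' : O n → L := y - (y none / D') • S.vec (toZ D) x with hy'
  have hy'0 : y' none = 0 := by
    rw [hy']
    simp only [Pi.sub_apply, Pi.smul_apply, vec, Option.elim, toZ_apply, smul_eq_mul]
    rw [← hD', div_mul_cancel₀ _ hDt, sub_self]
  have hdot : ∀ i, aeval x (S.f i) = 0 → S.R x i ⬝ᵥ y' = 0 := by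
    intro i hi
    rw [hy', dotProduct_sub, hy i hi, dotProduct_smul, S.dot_D, hi, map_zero, smul_zero, sub_zero]
  have hy'e : y' = ∑ a, y' (some a) • (ext0 (Pi.single a 1) : O n → L) := by
    funext o
    rw [Finset.sum_apply]
    rcases o with _ | o
    · rw [hy'0]
      symm
      exact Finset.sum_eq_zero fun a _ => by simp [ext0]
    · rw [Finset.sum_eq_single o]
      · simp [ext0]
      · intro b _ hb
        simp [ext0, Pi.single_eq_of_ne hb.symm]
      · simp
  have hQy' : Q y' = 0 := by
    rw [hy'e, map_sum]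
    have h1 : ∀ a, Q (y' (some a) • (ext0 (Pi.single a 1) : O n → L)) =
        - ∑ i, (aeval x (pderiv a (S.f i)) * y' (some a)) • θ i := by
      intro a
      rw [map_smul, eq_neg_of_add_eq_zero_right (hA a), smul_neg, Finset.smul_sum]
      congr 1
      refine Finset.sum_congr rfl fun i _ => ?_
      rw [smul_smul, mul_comm]
    rw [Finset.sum_congr rfl fun a _ => h1 a, Finset.sum_neg_distrib, neg_eq_zero,
      Finset.sum_comm]
    refine Finset.sum_eq_zero fun i _ => ?_
    rw [← Finset.sum_smul]
    by_cases hi : aeval x (S.f i) = 0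
    · have h2 := hdot i hi
      simp only [dotProduct, Fintype.sum_option, R, Option.elim] at h2
      rw [hy'0, mul_zero, zero_add] at h2
      rw [h2, zero_smul]
    · rw [hC i hi, smul_zero]
  have h1 : y' ∈ S.E D δ x := by
    rw [hQ, Submodule.mkQ_apply, Submodule.Quotient.mk_eq_zero] at hQy'
    exact hQy'
  have h2 : y = y' + (y none / D') • S.vec (toZ D) x := by rw [hy']; abel
  rw [h2]
  exact Submodule.add_mem _ h1 (Submodule.smul_mem _ _ (Submodule.subset_span (Or.inl rfl)))

end Pool.Agent.TH875.Vg.Sys
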