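import Pool.Agent.TH875.Vg.MainV

/-! The tangent space. -/

set_option autoImplicit false

open FF MvPolynomial
open Pool.Agent.W603.LV Pool.Agent.W603.PV

namespace Pool.Agent.TH875.Vg

open Matrix Module Sys

section

variable {F : Type} [Field F] {n : ℕ}

/-- Euler's relation at a point of a variety. -/
theorem euler_ideal {I : Ideal (MvPolynomial (Fin (n + 1)) F)}
    (hI : ∀ f ∈ I, ∀ N, homogeneousComponent N f ∈ I) {L : Type} [Field L] [Algebra F L]
    {x : Fin (n + 1) → L} (hx : ∀ f ∈ I, aeval x f = 0) {f : MvPolynomial (Fin (n + 1)) F}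
    (hf : f ∈ I) : ∑ j, x j * aeval x (pderiv j f) = 0 := by
  rw [← sum_homogeneousComponent f]
  simp only [map_sum, Finset.mul_sum]
  rw [Finset.sum_comm]
  refine Finset.sum_eq_zero fun N _ => ?_
  have h1 := congrArg (aeval x) (homogeneousComponent_isHomogeneous N f).sum_X_mul_pderiv
  rw [map_sum, map_nsmul, hx _ (hI f hf N), smul_zero] at h1
  rw [← h1]
  refine Finset.sum_congr rfl fun j _ => ?_
  rw [map_mul, aeval_X]

/-- The tangent space is given by generators. -/
theorem tangent_gen {I : Ideal (MvPolynomial (Fin (n + 1)) F)}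
    {s : Finset (MvPolynomial (Fin (n + 1)) F)} (hs : Ideal.span (s : Set _) = I)
    {L : Type} [Field L] [Algebra F L] {x : Fin (n + 1) → L} (hx : ∀ f ∈ I, aeval x f = 0)
    {v : Fin (n + 1) → L} (h : ∀ f ∈ s, ∑ j, aeval x (pderiv j f) * v j = 0) :
    ∀ f ∈ I, ∑ j, aeval x (pderiv j f) * v j = 0 := by
  intro f hf
  rw [← hs] at hf
  induction hf using Submodule.span_induction with
  | mem f hf => exact h f hf
  | zero => simp
  | add f g _ _ hf hg =>
    simp only [map_add, add_mul, Finset.sum_add_distrib]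
    rw [hf, hg, add_zero]
  | smul a f hf' hf =>
    have hf0 : aeval x f = 0 := hx f (by rw [← hs]; exact hf')
    have h1 : ∀ j, aeval x (pderiv j (a • f)) * v j = aeval x a * (aeval x (pderiv j f) * v j) := by
      intro j
      rw [smul_eq_mul, Derivation.leibniz, map_add, smul_eq_mul, smul_eq_mul, map_mul, map_mul, hf0]
      ring
    rw [Finset.sum_congr rfl fun j _ => h1 j, ← Finset.mul_sum, hf, mul_zero]

end

variable {k F : Type} [Field k] [Field F] [Algebra k F] {n q : ℕ} (S : Sys k F n q)

/-- A relation between the entries of the vectors of `V`. -/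
theorem rel_V' {L : Type} [Field L] [Algebra k L] [Algebra F L] [IsScalarTower k F L]
    {Dt : Derivation k F F} {x : Fin (n + 1) → L} {Ψ : MvPolynomial (Fin (n + 1)) F}
    (hn : ∀ α, S.Nice Dt (Ψ.coeff α)) (h0 : aeval x Ψ = 0)
    (he : ∑ j, x j * aeval x (pderiv j Ψ) = 0) {v : O n → L}
    (hv : v ∈ S.V x) :
    aeval x (cder Dt Ψ) * v none + ∑ j, aeval x (pderiv j Ψ) * v (some j) = 0 := by
  unfold Sys.V at hv
  induction hv using Submodule.span_induction with
  | mem v hv =>
    rcases hv with hv | ⟨D, rfl⟩ | ⟨p, δ, hδ, rfl⟩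
    · rw [Set.mem_singleton_iff] at hv
      rw [hv]
      simp only [Sys.ext0, Option.elim, mul_zero, zero_add]
      rw [← he]
      exact Finset.sum_congr rfl fun j _ => mul_comm _ _
    · have h1 := der_aeval (toZ D) x Ψ
      rw [h0, map_zero] at h1
      simp only [Sys.vec, Option.elim]
      rw [aeval_cder, ← cpart_mul]
      rw [cpart_congr (δ := fun a => (toZ D) (algebraMap F L a))
        (δ' := fun a => algebraMap F L (Dt a) * (toZ D) (algebraMap F L S.t))
        (fun α => (hn α L).2 D)] at h1
      exact h1.symm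
    · have h1 := der_aeval δ x Ψ
      rw [h0, map_zero] at h1
      simp only [Sys.vec, Option.elim]
      rw [aeval_cder, ← cpart_mul]
      rw [cpart_congr (δ := fun a => δ (algebraMap F L a))
        (δ' := fun a => algebraMap F L (Dt a) * δ (algebraMap F L S.t))
        (fun α => (hn α L).1 p δ hδ)] at h1
      exact h1.symm
  | zero => simp
  | add v w _ _ hv hw =>
    rw [Pi.add_apply, Finset.sum_congr rfl fun j _ => by rw [Pi.add_apply, mul_add],
      Finset.sum_add_distrib]
    linear_combination hv + hw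
  | smul a v _ hv =>
    rw [Pi.smul_apply, Finset.sum_congr rfl fun j _ => by
      rw [Pi.smul_apply, smul_eq_mul, mul_left_comm], ← Finset.mul_sum, smul_eq_mul]
    linear_combination a * hv

variable [CharZero k] [IsAlgClosed k] [IsFF k F]

/-- A basis of the space of the vertical vectors. -/
theorem exists_vert {L : Type} [Field L] [Algebra k L] [Algebra F L]
    [IsScalarTower k F L] [FiniteDimensional F L] {x : Fin (n + 1) → L}
    (hx : ∃ j, x j ≠ 0) :
    ∃ N : ℕ, 1 ≤ N ∧ finrank L (S.V x) = N + 1 ∧ ∃ u : Fin N → Fin (n + 1) → L,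
      LinearIndependent L u ∧ ∀ w, w ∈ Submodule.span L (Set.range u) ↔ Sys.ext0 w ∈ S.V x := by
  have hL : IsFF k L := isFF_of_finite (F := F)
  have hD0 : der k L ≠ 0 := der_ne
  have htL : Transcendental k (algebraMap F L S.t) :=
    (transcendental_algebraMap_iff (algebraMap F L).injective).2 S.tr
  have hDt := der_ne_zero hD0 htL
  obtain ⟨U, hU⟩ : ∃ U : Submodule L (Fin (n + 1) → L), U = (S.V x).comap ext0L := ⟨_, rfl⟩
  have hmem : ∀ w, w ∈ U ↔ Sys.ext0 w ∈ S.V x := by
    intro w
    rw [hU]
    rfl
  obtain ⟨f, hf⟩ : ∃ f : (S.V x) →ₗ[L] L, f = (LinearMap.proj none).comp (S.V x).subtype :=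
    ⟨_, rfl⟩
  have hfs : LinearMap.range f = ⊤ := by
    rw [LinearMap.range_eq_top, hf]
    intro c
    refine ⟨(c / (S.vec (toZ (der k L)) x) none) • ⟨_, S.vecD_mem (der k L) x⟩, ?_⟩
    rw [map_smul]
    change c / (S.vec (toZ (der k L)) x) none * (S.vec (toZ (der k L)) x) none = c
    rw [div_mul_cancel₀]
    exact hDt
  have h1 := LinearMap.finrank_range_add_finrank_ker f
  rw [hfs, finrank_top, Module.finrank_self, ← Submodule.finrank_map_subtype_eq] at h1
  have hinj : Function.Injective (ext0L (L := L) (n := n)) := by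
    intro v w h
    funext j
    exact congrFun h (some j)
  have h2 : (LinearMap.ker f).map (S.V x).subtype = U.map ext0L := by
    ext v
    rw [Submodule.mem_map, Submodule.mem_map]
    constructor
    · rintro ⟨w, hw, rfl⟩
      rw [LinearMap.mem_ker, hf] at hw
      refine ⟨fun j => (w : O n → L) (some j), ?_, ?_⟩
      · rw [hmem]
        convert w.2 using 1
        funext o
        rcases o with _ | o
        · exact hw.symm
        · rfl
      · funext o
        rcases o with _ | o
        · exact hw.symm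
        · rfl
    · rintro ⟨w, hw, rfl⟩
      refine ⟨⟨Sys.ext0 w, (hmem w).1 hw⟩, ?_, rfl⟩
      rw [LinearMap.mem_ker, hf]
      rfl
  rw [h2, ← (Submodule.equivMapOfInjective _ hinj U).finrank_eq] at h1
  have hx0 : (⟨_, (hmem x).2 (S.ext0_mem x)⟩ : U) ≠ 0 := by
    intro h
    obtain ⟨j, hj⟩ := hx
    exact hj (congrFun (congrArg Subtype.val h) j)
  have : Nontrivial U := ⟨_, _, hx0⟩
  have hpos : 0 < finrank L U := Module.finrank_pos
  obtain ⟨b⟩ : Nonempty (Basis (Fin (finrank L U)) L U) := ⟨Module.finBasis L U⟩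
  refine ⟨finrank L U, hpos, by omega, fun i => b i, ?_, ?_⟩
  · exact b.linearIndependent.map' U.subtype (Submodule.ker_subtype U)
  · intro w
    rw [← hmem]
    have h3 : Submodule.span L (Set.range fun i => (b i : Fin (n + 1) → L)) = U := by
      have h4 : (Set.range fun i => (b i : Fin (n + 1) → L)) = U.subtype '' Set.range b := by
        rw [← Set.range_comp]
        rfl
      rw [h4, Submodule.span_image, b.span_eq, Submodule.map_top, Submodule.range_subtype]
    rw [h3]

end Pool.Agent.TH875.Vg
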