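import Pool.Agent.TH875.Vg.NS

/-! Change of the homogeneous coordinates and of the derivations. -/

set_option autoImplicit false

open FF MvPolynomial
open Pool.Agent.W603.LV Pool.Agent.W603.PV

namespace Pool.Agent.TH875.Vg.Sys

open Matrix Module

variable {k F : Type} [Field k] [Field F] [Algebra k F] {n q : ℕ} (S : Sys k F n q)
variable {L : Type} [Field L] [Algebra k L] [Algebra F L]

theorem mon_smul (τ : L) (y : Fin (n + 1) → L) (α : Fin (n + 1) →₀ ℕ) :
    mon (fun j => τ * y j) α = τ ^ α.degree * mon y α := by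
  unfold mon
  simp only [mul_pow, Finset.prod_mul_distrib]
  rw [Finset.prod_pow_eq_pow_sum, Finsupp.degree_eq_sum]

omit [Algebra k L] in
theorem aeval_smul {f : MvPolynomial (Fin (n + 1)) F} {d : ℕ} (hf : f.IsHomogeneous d) (τ : L)
    (y : Fin (n + 1) → L) : aeval (fun j => τ * y j) f = τ ^ d * aeval y f := by
  rw [aeval_expo hf, aeval_expo hf, Finset.mul_sum]
  refine Finset.sum_congr rfl fun α _ => ?_
  have h1 := mon_smul τ y α.1
  unfold mon at h1
  rw [h1, (mem_expo α.1).1 α.2]
  ring

/-- the scaling of the coordinates -/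
def Sd (τ : L) : O n → L := fun o => o.elim 1 fun _ => τ

theorem Sd_ne {τ : L} (hτ : τ ≠ 0) (o : O n) : (Sd τ : O n → L) o ≠ 0 := by
  rcases o with _ | o
  · exact one_ne_zero
  · exact hτ

theorem co_smul (τ : L) (y : Fin (n + 1) → L) (c : Col n q S.d) (p : S.Idx) :
    S.co (fun j => τ * y j) c p = τ ^ S.cost c * S.co y c p := by
  rcases c with ⟨a, b⟩ | ⟨i, β, a, b⟩ | i
  · simp only [co, cost, pow_zero, one_mul]
  · simp only [co, cost, pow_one]
    ring
  · simp only [co, cost, pow_zero, one_mul]

theorem ex_smul (τ : L) (y : Fin (n + 1) → L) (c : Col n q S.d) (j : Fin (n + 1)) :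
    S.ex (fun j => τ * y j) c j = τ * (τ ^ S.cost c * S.ex y c j) := by
  rcases c with ⟨a, b⟩ | ⟨i, β, a, b⟩ | i
  · simp only [ex, cost, pow_zero, one_mul]
    by_cases h : j = a
    · subst h; simp
    · rw [Pi.single_eq_of_ne h, Pi.single_eq_of_ne h, mul_zero]
  · simp [ex]
  · simp [ex]

theorem R_smul (τ : L) (y : Fin (n + 1) → L) (i : Fin q) (o : O n) :
    S.R (fun j => τ * y j) i o * (Sd τ : O n → L) o = τ ^ S.d i * S.R y i o := by
  rcases o with _ | j
  · simp only [R, Sd, Option.elim, mul_one]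
    exact aeval_smul (S.homt i) τ y
  · simp only [R, Sd, Option.elim]
    rw [aeval_smul ((S.hom i).pderiv (i := j)) τ y]
    have h1 := S.hd i
    obtain ⟨d, hd⟩ : ∃ d, S.d i = d + 1 := ⟨S.d i - 1, by omega⟩
    rw [hd, Nat.add_sub_cancel, pow_succ]
    ring

variable [IsScalarTower k F L]

/-- The transformation of the columns. -/
theorem U_trans {m : ℕ} {τ s : L} (hτ : τ ≠ 0) (y : Fin (n + 1) → L) {D D' : Derivation k L L}
    (hD : ∀ f, D f = s * D' f) {δ δ' : S.Idx → Derivation ℤ L L} {g : S.Idx → L}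
    (hδ : ∀ p f, δ p f = δ' p f + g p * D' f) (c : Fin m → Col n q S.d) :
    ∃ T : Matrix (Fin 2 ⊕ Fin m) (Fin 2 ⊕ Fin m) L,
      S.U D δ (fun j => τ * y j) c = Matrix.diagonal (Sd τ) * (S.U D' δ' y c * T) ∧
      T.det = s * ∏ a, τ ^ S.cost (c a) := by
  classical
  set x : Fin (n + 1) → L := fun j => τ * y j with hx
  refine ⟨fromBlocks !![1, s * D' τ / τ; 0, s]
    (Matrix.of fun i a => ![∑ p, S.co x (c a) p * (δ p τ / τ), ∑ p, S.co x (c a) p * g p] i) 0
    (Matrix.diagonal fun a => τ ^ S.cost (c a)), ?_, ?_⟩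
  · ext o a
    refine Eq.trans ?_ (Matrix.diagonal_mul _ _ _ _).symm
    rw [Matrix.mul_apply, Fintype.sum_sum_type, Fin.sum_univ_two]
    rcases a with a | a
    · have h1 : ∑ b, S.U D' δ' y c o (Sum.inr b) * (fromBlocks !![1, s * D' τ / τ; 0, s]
          (Matrix.of fun i a => ![∑ p, S.co x (c a) p * (δ p τ / τ),
            ∑ p, S.co x (c a) p * g p] i) 0
          (Matrix.diagonal fun a => τ ^ S.cost (c a))) (Sum.inr b) (Sum.inl a) = 0 :=
        Finset.sum_eq_zero fun b _ => by simp
      rw [h1, add_zero]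
      fin_cases a
      · change ext0 x o = _
        rcases o with _ | j
        · simp [U, ucol, ext0, Sd]
        · simp [U, ucol, ext0, Sd, hx]
      · change S.vec (toZ D) x o = _
        rcases o with _ | j
        · simp [U, ucol, ext0, Sd, vec, toZ_apply, hD]
          ring
        · simp only [U, ucol, ext0, Sd, vec, toZ_apply, hD, hx, Option.elim, Matrix.of_apply,
            Sum.elim_inl, fromBlocks_apply₁₁, Matrix.cons_val_zero, Matrix.cons_val_one,
            D'.leibniz, smul_eq_mul]
          simp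
          field_simp
          ring
    · have h1 : ∑ b, S.U D' δ' y c o (Sum.inr b) * (fromBlocks !![1, s * D' τ / τ; 0, s]
          (Matrix.of fun i a => ![∑ p, S.co x (c a) p * (δ p τ / τ),
            ∑ p, S.co x (c a) p * g p] i) 0
          (Matrix.diagonal fun a => τ ^ S.cost (c a))) (Sum.inr b) (Sum.inr a) =
          S.col δ' y (c a) o * τ ^ S.cost (c a) := by
        rw [Finset.sum_eq_single a]
        · simp [U, ucol]
        · intro b _ hb
          simp [Matrix.diagonal_apply_ne _ hb]
        · simp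
      rw [h1]
      change S.col δ x (c a) o = _
      have h2 : ∀ p, S.co x (c a) p = τ ^ S.cost (c a) * S.co y (c a) p := fun p =>
        S.co_smul τ y (c a) p
      rcases o with _ | j
      · simp only [U, ucol, ext0, Sd, vec, col, Option.elim, Matrix.of_apply, Sum.elim_inl,
          fromBlocks_apply₁₂, Matrix.cons_val_zero, Matrix.cons_val_one, Pi.add_apply,
          Finset.sum_apply, Pi.smul_apply, smul_eq_mul, toZ_apply, hδ]
        rw [zero_mul, zero_add, add_zero, add_zero, one_mul, Finset.sum_mul, Finset.mul_sum,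
          ← Finset.sum_add_distrib]
        refine Finset.sum_congr rfl fun p _ => ?_
        rw [h2]
        ring
      · have h3 : ∀ p, δ p (τ * y j) = τ * (δ' p (y j) + g p * D' (y j)) + y j * δ p τ := by
          intro p
          rw [(δ p).leibniz, smul_eq_mul, smul_eq_mul, hδ p (y j)]
        have h4 := S.ex_smul τ y (c a) j
        rw [← hx] at h4
        simp only [U, ucol, ext0, Sd, vec, col, Option.elim, Matrix.of_apply, Sum.elim_inl,
          fromBlocks_apply₁₂, Matrix.cons_val_zero, Matrix.cons_val_one, Pi.add_apply,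
          Finset.sum_apply, Pi.smul_apply, smul_eq_mul, toZ_apply]
        rw [h4]
        have h5 : ∑ p, S.co x (c a) p * δ p (x j) =
            τ * (y j * ∑ p, S.co x (c a) p * (δ p τ / τ)) +
            τ * (D' (y j) * ∑ p, S.co x (c a) p * g p) +
            τ * ((∑ p, S.co y (c a) p * δ' p (y j)) * τ ^ S.cost (c a)) := by
          simp only [Finset.mul_sum, Finset.sum_mul]
          rw [← Finset.sum_add_distrib, ← Finset.sum_add_distrib]
          refine Finset.sum_congr rfl fun p _ => ?_
          rw [hx]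
          simp only
          rw [h3, ← hx, h2]
          field_simp
          ring
        rw [h5]
        ring
  · rw [det_fromBlocks_zero₂₁, Matrix.det_diagonal, Matrix.det_fin_two]
    simp

/-- The transformation of the rows. -/
theorem Den_trans {A : Type} [Fintype A] [DecidableEq A] {Z : Finset (Fin q)} (e : Z ⊕ A ≃ O n)
    {τ : L} (hτ : τ ≠ 0) (y : Fin (n + 1) → L) (r : Matrix A (O n) L) :
    Den e (Matrix.of fun z : Z => S.R (fun j => τ * y j) z)
      (r * Matrix.diagonal fun o => ((Sd τ : O n → L) o)⁻¹) =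
      (τ ^ ∑ i ∈ Z, S.d i) * Den e (Matrix.of fun z : Z => S.R y z) r * (τ⁻¹) ^ (n + 1) := by
  classical
  unfold Den
  have h1 : (fromRows (Matrix.of fun z : Z => S.R (fun j => τ * y j) z)
      (r * Matrix.diagonal fun o => ((Sd τ : O n → L) o)⁻¹)).submatrix id e =
      fromBlocks (Matrix.diagonal fun z : Z => τ ^ S.d z) 0 0 1 *
        ((fromRows (Matrix.of fun z : Z => S.R y z) r).submatrix id e *
          Matrix.diagonal fun t => ((Sd τ : O n → L) (e t))⁻¹) := by
    ext a b
    rw [Matrix.submatrix_apply]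
    rcases a with a | a
    · rw [Matrix.mul_apply, Finset.sum_eq_single (Sum.inl a)]
      · rw [Matrix.mul_diagonal]
        simp only [id, fromRows_apply_inl, Matrix.of_apply, fromBlocks_apply₁₁,
          Matrix.diagonal_apply_eq, Matrix.submatrix_apply]
        have h2 := S.R_smul τ y a (e b)
        have h3 : (Sd τ : O n → L) (e b) ≠ 0 := Sd_ne hτ _
        rw [← mul_assoc, ← h2, mul_assoc, mul_inv_cancel₀ h3, mul_one]
      · rintro (c | c) _ hc
        · rw [fromBlocks_apply₁₁, Matrix.diagonal_apply_ne _ (fun h => hc (by rw [h])), zero_mul]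
        · rw [fromBlocks_apply₁₂, Matrix.zero_apply, zero_mul]
      · simp
    · rw [Matrix.mul_apply, Finset.sum_eq_single (Sum.inr a)]
      · rw [Matrix.mul_diagonal]
        simp only [id, fromRows_apply_inr, fromBlocks_apply₂₂, Matrix.one_apply_eq, one_mul,
          Matrix.submatrix_apply]
        rw [Matrix.mul_diagonal]
      · rintro (c | c) _ hc
        · rw [fromBlocks_apply₂₁, Matrix.zero_apply, zero_mul]
        · rw [fromBlocks_apply₂₂, Matrix.one_apply_ne (fun h => hc (by rw [h])), zero_mul]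
      · simp
  rw [h1, Matrix.det_mul, Matrix.det_mul, det_fromBlocks_zero₂₁, Matrix.det_diagonal,
    Matrix.det_one, Matrix.det_diagonal, mul_one]
  have h2 : ∏ z : Z, τ ^ S.d z = τ ^ ∑ i ∈ Z, S.d i := by
    rw [Finset.prod_pow_eq_pow_sum]
    congr 1
    exact Finset.sum_coe_sort Z (fun i => S.d i)
  have h3 : ∏ t, ((Sd τ : O n → L) (e t))⁻¹ = (τ⁻¹) ^ (n + 1) := by
    rw [Equiv.prod_comp e (fun o => ((Sd τ : O n → L) o)⁻¹), Fintype.prod_option]
    simp [Sd]
  rw [h2, h3]
  ring

end Pool.Agent.TH875.Vg.Sys
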