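import Pool.Agent.TH875.Vg.Rows

/-! The space spanned by the derivatives of a point. -/

set_option autoImplicit false

open FF MvPolynomial
open Pool.Agent.W603.LV Pool.Agent.W603.PV

namespace Pool.Agent.TH875.Vg

/-- columns of the last two types -/
def BC {n q : ℕ} {d : Fin q → ℕ} : Col n q d → Prop
  | Col.A _ _ => False
  | Col.B _ _ _ _ => True
  | Col.C _ => True

namespace Sys

open Matrix Module

variable {k F : Type} [Field k] [Field F] [Algebra k F] {n q : ℕ} (S : Sys k F n q)
variable {L : Type} [Field L] [Algebra k L] [Algebra F L]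

/-- the space spanned by the point and its derivatives -/
noncomputable def V (x : Fin (n + 1) → L) : Submodule L (O n → L) :=
  Submodule.span L ({ext0 x} ∪ ({v | ∃ D : Derivation k L L, v = S.vec (toZ D) x} ∪
    {v | ∃ (p : S.Idx) (δ : Derivation ℤ L L), IsLift (S.dd p) δ ∧ v = S.vec δ x}))

theorem ext0_mem (x : Fin (n + 1) → L) : ext0 x ∈ S.V x :=
  Submodule.subset_span (Or.inl rfl)

theorem vecD_mem (D : Derivation k L L) (x : Fin (n + 1) → L) : S.vec (toZ D) x ∈ S.V x :=
  Submodule.subset_span (Or.inr (Or.inl ⟨D, rfl⟩))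

theorem vec_mem {p : S.Idx} {δ : Derivation ℤ L L} (h : IsLift (S.dd p) δ)
    (x : Fin (n + 1) → L) : S.vec δ x ∈ S.V x :=
  Submodule.subset_span (Or.inr (Or.inr ⟨p, δ, h, rfl⟩))

omit [Algebra k L] [Algebra F L] in
theorem ex_BC {x : Fin (n + 1) → L} {c : Col n q S.d} (hc : BC c) : S.ex x c = 0 := by
  rcases c with ⟨a, b⟩ | ⟨i, β, a, b⟩ | i
  · exact absurd hc id
  · rfl
  · rfl

theorem ext0_zero : ext0 (0 : Fin (n + 1) → L) = (0 : O n → L) := by
  funext o
  rcases o with _ | o <;> rfl

theorem col_mem {δ : S.Idx → Derivation ℤ L L} (hδ : ∀ p, IsLift (S.dd p) (δ p))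
    (x : Fin (n + 1) → L) {c : Col n q S.d} (hc : BC c) : S.col δ x c ∈ S.V x := by
  unfold col
  rw [S.ex_BC hc, ext0_zero, add_zero]
  exact Submodule.sum_mem _ fun p _ => Submodule.smul_mem _ _ (S.vec_mem (hδ p) x)

/-- the span of the columns of the last two types -/
noncomputable def EB (D : Derivation k L L) (δ : S.Idx → Derivation ℤ L L)
    (x : Fin (n + 1) → L) : Submodule L (O n → L) :=
  Submodule.span L ({ext0 x, S.vec (toZ D) x} ∪ (S.col δ x '' {c | BC c}))

theorem mkQB_B (D : Derivation k L L) (δ : S.Idx → Derivation ℤ L L) (x : Fin (n + 1) → L)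
    (i : Fin q) (β : Expo n (S.d i - 1)) (a b : Fin (n + 1)) :
    x a • (S.EB D δ x).mkQ (S.vec (δ ⟨i, S.up β b⟩) x) =
      x b • (S.EB D δ x).mkQ (S.vec (δ ⟨i, S.up β a⟩) x) := by
  rw [← sub_eq_zero, ← map_smul, ← map_smul, ← map_sub, ← col_B, Submodule.mkQ_apply,
    Submodule.Quotient.mk_eq_zero]
  exact Submodule.subset_span (Or.inr ⟨Col.B i β a b, (trivial : BC (Col.B i β a b)), rfl⟩)

theorem mkQB_mon (D : Derivation k L L) (δ : S.Idx → Derivation ℤ L L) {x : Fin (n + 1) → L}
    {j0 : Fin (n + 1)} (hj0 : x j0 ≠ 0) (i : Fin q) : ∀ (N : ℕ) (α : Expo n (S.d i)),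
    S.d i = α.1 j0 + N → x j0 ^ S.d i • (S.EB D δ x).mkQ (S.vec (δ ⟨i, α⟩) x) =
      mon x α.1 • (S.EB D δ x).mkQ (S.vec (δ ⟨i, S.pw i j0⟩) x) := by
  intro N
  induction N with
  | zero =>
    intro α hα
    have h1 := (mem_expo α.1).1 α.2
    have h2 : α = S.pw i j0 := by
      apply Subtype.ext
      ext j
      unfold pw
      by_cases hj : j = j0
      · subst hj
        rw [Finsupp.single_eq_same]; omega
      · rw [Finsupp.single_eq_of_ne hj]
        have h3 : α.1 j0 + α.1 j ≤ ∑ l, α.1 l := by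
          rw [← Finset.sum_pair (fun h => hj h.symm)]
          exact Finset.sum_le_sum_of_subset (Finset.subset_univ _)
        rw [Finsupp.degree_eq_sum] at h1
        omega
    rw [h2, mon_pw]
  | succ N ih =>
    intro α hα
    have h1 := (mem_expo α.1).1 α.2
    -- another coordinate
    obtain ⟨b, hb, hb0⟩ : ∃ b, b ≠ j0 ∧ 0 < α.1 b := by
      by_contra hcon
      push Not at hcon
      rw [Finsupp.degree_eq_sum, Finset.sum_eq_single j0] at h1
      · omega
      · intro b _ hb
        have := hcon b hb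
        omega
      · simp
    have hβ : (α.1 - Finsupp.single b 1) ∈
        (Finset.univ : Finset (Fin (n + 1))).finsuppAntidiag (S.d i - 1) := by
      rw [mem_expo]
      have h2 : α.1 = (α.1 - Finsupp.single b 1) + Finsupp.single b 1 := by
        ext j
        by_cases hj : j = b
        · subst hj
          simp; omega
        · simp [Finsupp.single_eq_of_ne hj]
      have h3 := congrArg Finsupp.degree h2
      rw [map_add, Finsupp.degree_single, h1] at h3
      omega
    set β : Expo n (S.d i - 1) := ⟨_, hβ⟩ with hβd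
    have h2 : S.up β b = α := by
      apply Subtype.ext
      unfold up
      ext j
      by_cases hj : j = b
      · subst hj
        simp [hβd]; omega
      · simp [hβd, Finsupp.single_eq_of_ne hj]
    have h3 : (S.up β j0).1 j0 = α.1 j0 + 1 := by
      unfold up
      simp [hβd, Finsupp.single_eq_of_ne hb.symm]
    have h4 := ih (S.up β j0) (by rw [h3]; omega)
    have h5 := S.mkQB_B D δ x i β j0 b
    rw [h2] at h5
    have h6 : x j0 • (x j0 ^ S.d i • (S.EB D δ x).mkQ (S.vec (δ ⟨i, α⟩) x)) =
        x j0 • (mon x α.1 • (S.EB D δ x).mkQ (S.vec (δ ⟨i, S.pw i j0⟩) x)) := by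
      rw [smul_comm, h5, smul_comm, h4, smul_smul, smul_smul, mon_up, ← h2, mon_up]
      congr 1
      ring
    exact smul_right_injective _ hj0 h6

theorem vec_add_smul {δ δ' : Derivation ℤ L L} {D : Derivation k L L} {g : L}
    (h : ∀ f, δ f = δ' f + g * D f) (x : Fin (n + 1) → L) :
    S.vec δ x = S.vec δ' x + g • S.vec (toZ D) x := by
  funext o
  rcases o with _ | o
  · simp [vec, h, toZ_apply]
  · simp [vec, h, toZ_apply]

theorem vecD_smul {D' D : Derivation k L L} {g : L} (h : ∀ f, D' f = g * D f)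
    (x : Fin (n + 1) → L) : S.vec (toZ D') x = g • S.vec (toZ D) x := by
  funext o
  rcases o with _ | o
  · simp [vec, h, toZ_apply]
  · simp [vec, h, toZ_apply]

variable [IsScalarTower k F L] [CharZero k] [IsFF k L] [IsAlgClosed k]

omit [IsAlgClosed k] in
open Classical in
/-- All vectors of the space `V` annihilated by the gradients of the forms vanishing at `x` are
combinations of the columns. -/
theorem mem_EB {D : Derivation k L L} (hD : D ≠ 0) {δ : S.Idx → Derivation ℤ L L}
    (hδ : ∀ p, IsLift (S.dd p) (δ p)) {x : Fin (n + 1) → L} (hx : ∃ j, x j ≠ 0) {y : O n → L}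
    (hyV : y ∈ S.V x) (hy : ∀ i ∈ S.Zs x, S.R x i ⬝ᵥ y = 0) : y ∈ S.EB D δ x := by
  obtain ⟨j0, hj0⟩ := hx
  set Q := (S.EB D δ x).mkQ with hQ
  -- the vectors attached to the forms
  set θ : Fin q → (O n → L) ⧸ S.EB D δ x := fun i =>
    (x j0 ^ S.d i)⁻¹ • Q (S.vec (δ ⟨i, S.pw i j0⟩) x) with hθ
  have hmon : ∀ p : S.Idx, Q (S.vec (δ p) x) = mon x p.2.1 • θ p.1 := by
    rintro ⟨i, α⟩
    have hle : α.1 j0 ≤ S.d i := by
      have h1 := (mem_expo α.1).1 α.2
      rw [Finsupp.degree_eq_sum] at h1
      exact (Finset.single_le_sum (f := fun l => α.1 l) (fun _ _ => Nat.zero_le _)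
        (Finset.mem_univ j0)).trans (le_of_eq h1)
    have h1 := S.mkQB_mon D δ hj0 i (S.d i - α.1 j0) α (by omega)
    have h2 : x j0 ^ S.d i ≠ 0 := pow_ne_zero _ hj0
    rw [← hQ] at h1
    simp only [hθ]
    rw [smul_comm, ← h1, smul_smul, inv_mul_cancel₀ h2, one_smul]
  have hQ0 : Q (ext0 x) = 0 := by
    rw [hQ, Submodule.mkQ_apply, Submodule.Quotient.mk_eq_zero]
    exact Submodule.subset_span (Or.inl (Set.mem_insert _ _))
  have hQD : Q (S.vec (toZ D) x) = 0 := by
    rw [hQ, Submodule.mkQ_apply, Submodule.Quotient.mk_eq_zero]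
    exact Submodule.subset_span (Or.inl (Set.mem_insert_of_mem _ rfl))
  -- the vectors of forms that do not vanish
  have hC : ∀ i, aeval x (S.f i) ≠ 0 → θ i = 0 := by
    intro i hi
    have h1 : Q (S.col δ x (Col.C i)) = 0 := by
      rw [hQ, Submodule.mkQ_apply, Submodule.Quotient.mk_eq_zero]
      exact Submodule.subset_span (Or.inr ⟨Col.C i, (trivial : BC (Col.C i)), rfl⟩)
    unfold col at h1
    rw [S.ex_BC (c := Col.C i) trivial, ext0_zero, add_zero, map_sum, Fintype.sum_sigma,
      Finset.sum_eq_single i] at h1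
    · have h2 := aeval_expo (S.hom i) x
      have h3 : ∀ α : Expo n (S.d i), Q (S.co x (Col.C i) ⟨i, α⟩ • S.vec (δ ⟨i, α⟩) x) =
          (algebraMap F L ((S.f i).coeff α.1) * ∏ j, x j ^ α.1 j) • θ i := by
        intro α
        rw [map_smul, hmon ⟨i, α⟩]
        simp only [co, if_true]
        exact (mul_smul _ _ _).symm
      rw [Finset.sum_congr rfl fun α _ => h3 α, ← Finset.sum_smul, ← h2] at h1
      exact (smul_eq_zero.1 h1).resolve_left hi
    · intro i' _ hi'
      refine Finset.sum_eq_zero fun α _ => ?_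
      simp only [co]
      rw [if_neg hi', zero_smul, map_zero]
    · simp
  -- the linear map
  have hΨ : ∀ v ∈ S.V x, Q v + ∑ i ∈ S.Zs x, (S.R x i ⬝ᵥ v) • θ i = 0 := by
    intro v hv
    unfold V at hv
    induction hv using Submodule.span_induction with
    | mem v hv =>
      rcases hv with hv | ⟨D', rfl⟩ | ⟨p, δ', hδ', rfl⟩
      · rw [Set.mem_singleton_iff] at hv
        rw [hv, hQ0, zero_add]
        refine Finset.sum_eq_zero fun i hi => ?_
        rw [dot_ext0, euler, (S.mem_Zs x i).1 hi, mul_zero, zero_smul]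
      · obtain ⟨g, hg⟩ := der_smul (D' := D') hD
        rw [S.vecD_smul (g := g) (D := D) (fun f => by rw [hg]; rfl) x, map_smul, hQD, smul_zero,
          zero_add]
        refine Finset.sum_eq_zero fun i hi => ?_
        rw [dotProduct_smul, S.dot_D, (S.mem_Zs x i).1 hi, map_zero, smul_zero, zero_smul]
      · obtain ⟨E, hE⟩ := hδ'.diff (hδ p)
        obtain ⟨g, hg⟩ := der_smul (D' := E) hD
        have hdot : ∀ i ∈ S.Zs x, S.R x i ⬝ᵥ S.vec δ' x = - if p.1 = i then mon x p.2.1 else 0 := by
          intro i hi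
          rw [S.dot_vec hδ', (S.mem_Zs x i).1 hi, map_zero, zero_sub]
        rw [Finset.sum_congr rfl fun i hi => by rw [hdot i hi]]
        rw [S.vec_add_smul (g := g) (D := D) (δ' := δ p) (fun f => by rw [hE f, hg]; rfl) x, map_add,
          map_smul, hQD, smul_zero, add_zero, hmon p]
        by_cases hp : p.1 ∈ S.Zs x
        · rw [Finset.sum_eq_single p.1]
          · rw [if_pos rfl, neg_smul]
            abel
          · intro i _ hi
            rw [if_neg (fun h => hi h.symm), neg_zero, zero_smul]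
          · intro h
            exact absurd hp h
        · rw [hC p.1 (fun h => hp ((S.mem_Zs x p.1).2 h)), smul_zero, zero_add]
          refine Finset.sum_eq_zero fun i hi => ?_
          rw [if_neg (fun h => hp (by rw [h]; exact hi)), neg_zero, zero_smul]
    | zero => simp
    | add v w _ _ hv hw =>
      rw [map_add, Finset.sum_congr rfl fun i _ => by rw [dotProduct_add, add_smul],
        Finset.sum_add_distrib]
      rw [← add_zero (0 : (O n → L) ⧸ S.EB D δ x)]
      nth_rewrite 1 [← hv]
      rw [← hw]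
      abel
    | smul a v _ hv =>
      rw [map_smul, Finset.sum_congr rfl fun i _ => by rw [dotProduct_smul, smul_assoc],
        ← Finset.smul_sum, ← smul_add, hv, smul_zero]
  have h1 := hΨ y hyV
  rw [Finset.sum_eq_zero fun i hi => by rw [hy i hi, zero_smul], add_zero, hQ,
    Submodule.mkQ_apply, Submodule.Quotient.mk_eq_zero] at h1
  exact h1

end Sys

end Pool.Agent.TH875.Vg
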